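import Pool.Agent.Lib.MP_b07157_ag.ND.Mat

/-! # Polynomial functions and the logarithmic gradient -/

noncomputable section

namespace MPb07157.ND

open Finset

variable {n : ℕ} {ι : Type} [DecidableEq ι] (a : ι → Fin n → ℂ)

/-- polynomial functions of degree `< d` -/
def Pol (n : ℕ) : ℕ → Set ((Fin n → ℂ) → ℂ)
  | 0 => {0}
  | d + 1 => {p | ∃ c : ℂ, ∃ q : Fin n → (Fin n → ℂ) → ℂ, (∀ j, q j ∈ Pol n d) ∧
      ∀ ξ, p ξ = c + ∑ j, ξ j * q j ξ}

/-- the logarithmic gradient of `∏ a_i^{m_i}`, `i ∈ F` -/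
def xi (m : ι → ℕ) (F : Finset ι) (x : Fin n → ℂ) : Fin n → ℂ :=
  ∑ i ∈ F, ((m i : ℂ) / (a i ⬝ᵥ x)) • a i

omit [DecidableEq ι] in
theorem xi_mem_spn (m : ι → ℕ) (F : Finset ι) (x : Fin n → ℂ) : xi a m F x ∈ spn a F :=
  Submodule.sum_mem _ fun i hi => Submodule.smul_mem _ _
    (Submodule.subset_span ⟨i, Finset.mem_coe.2 hi, rfl⟩)

omit [DecidableEq ι] in
theorem xi_dotProduct_self (m : ι → ℕ) (F : Finset ι) (x : Fin n → ℂ) (hx : x ∈ Ucomp a F) :
    xi a m F x ⬝ᵥ x = ∑ i ∈ F, (m i : ℂ) := by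
  rw [xi, sum_dotProduct]
  refine Finset.sum_congr rfl fun i hi => ?_
  rw [smul_dotProduct, smul_eq_mul, div_mul_cancel₀ _ (hx i hi)]

theorem Pol_continuous {d : ℕ} {p : (Fin n → ℂ) → ℂ} (hp : p ∈ Pol n d) : Continuous p := by
  induction d generalizing p with
  | zero =>
    have h0 : p = 0 := hp
    rw [h0]
    exact continuous_const
  | succ d ih =>
    obtain ⟨c, q, hq, h⟩ := hp
    have h1 : p = fun ξ => c + ∑ j, ξ j * q j ξ := funext h
    rw [h1]
    exact continuous_const.add (continuous_finsetSum _ fun j _ =>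
      (continuous_apply j).mul (ih (hq j)))

theorem Pol_zero (d : ℕ) : (fun _ => 0 : (Fin n → ℂ) → ℂ) ∈ Pol n d := by
  induction d with
  | zero => rfl
  | succ d ih => exact ⟨0, fun _ => fun _ => 0, fun _ => ih, fun ξ => by simp⟩

theorem Pol_succ {d : ℕ} {p : (Fin n → ℂ) → ℂ} (hp : p ∈ Pol n d) : p ∈ Pol n (d + 1) := by
  induction d generalizing p with
  | zero =>
    have h0 : p = 0 := hp
    rw [h0]
    exact Pol_zero 1
  | succ d ih =>
    obtain ⟨c, q, hq, h⟩ := hp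
    exact ⟨c, q, fun j => ih (hq j), h⟩

theorem Pol_add {d : ℕ} {p q : (Fin n → ℂ) → ℂ} (hp : p ∈ Pol n d) (hq : q ∈ Pol n d) :
    (fun ξ => p ξ + q ξ) ∈ Pol n d := by
  induction d generalizing p q with
  | zero =>
    have h0 : p = 0 := hp
    have h1 : q = 0 := hq
    rw [h0, h1]
    show _ = _
    funext ξ
    simp
  | succ d ih =>
    obtain ⟨c, r, hr, h⟩ := hp
    obtain ⟨c', r', hr', h'⟩ := hq
    refine ⟨c + c', fun j ξ => r j ξ + r' j ξ, fun j => ih (hr j) (hr' j), fun ξ => ?_⟩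
    show p ξ + q ξ = _
    rw [h, h']
    simp only [mul_add, Finset.sum_add_distrib]
    ring

theorem Pol_smul {d : ℕ} {p : (Fin n → ℂ) → ℂ} (c : ℂ) (hp : p ∈ Pol n d) :
    (fun ξ => c * p ξ) ∈ Pol n d := by
  induction d generalizing p with
  | zero =>
    have h0 : p = 0 := hp
    rw [h0]
    show _ = _
    funext ξ
    simp
  | succ d ih =>
    obtain ⟨c', r, hr, h⟩ := hp
    refine ⟨c * c', fun j ξ => c * r j ξ, fun j => ih (hr j), fun ξ => ?_⟩
    show c * p ξ = _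
    rw [h, mul_add, Finset.mul_sum]
    congr 1
    refine Finset.sum_congr rfl fun j _ => ?_
    ring

theorem Pol_mono {d e : ℕ} (hde : d ≤ e) {p : (Fin n → ℂ) → ℂ} (hp : p ∈ Pol n d) :
    p ∈ Pol n e := by
  induction e, hde using Nat.le_induction with
  | base => exact hp
  | succ e _ ih => exact Pol_succ ih

theorem Pol_sum {κ : Type} (s : Finset κ) {d : ℕ} {p : κ → (Fin n → ℂ) → ℂ}
    (hp : ∀ k ∈ s, p k ∈ Pol n d) : (fun ξ => ∑ k ∈ s, p k ξ) ∈ Pol n d := by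
  classical
  induction s using Finset.induction_on with
  | empty => simpa using Pol_zero d
  | insert k s hk ih =>
    have h1 := Pol_add (hp k (Finset.mem_insert_self k s))
      (ih fun i hi => hp i (Finset.mem_insert_of_mem hi))
    have h2 : (fun ξ => ∑ k ∈ insert k s, p k ξ) = fun ξ => p k ξ + ∑ k ∈ s, p k ξ := by
      funext ξ
      rw [Finset.sum_insert hk]
    rw [h2]
    exact h1

theorem Pol_mul_coord {d : ℕ} {p : (Fin n → ℂ) → ℂ} (hp : p ∈ Pol n d) (i : Fin n) :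
    (fun ξ => ξ i * p ξ) ∈ Pol n (d + 1) := by
  refine ⟨0, fun j => if j = i then p else fun _ => 0, fun j => ?_, fun ξ => ?_⟩
  · by_cases h : j = i
    · simp only [h, if_true]; exact hp
    · simp only [h, if_false]; exact Pol_zero d
  · show ξ i * p ξ = _
    rw [zero_add, Finset.sum_eq_single i]
    · simp
    · intro j _ hj
      simp [hj]
    · intro h
      exact absurd (Finset.mem_univ i) h

theorem Pol_mvPolynomial (p : MvPolynomial (Fin n) ℂ) :
    ∃ d, (fun ξ => MvPolynomial.eval ξ p) ∈ Pol n d := by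
  induction p using MvPolynomial.induction_on with
  | C c =>
    refine ⟨1, c, fun _ => fun _ => 0, fun _ => Pol_zero 0, fun ξ => ?_⟩
    simp
  | add p q hp hq =>
    obtain ⟨d, hd⟩ := hp
    obtain ⟨e, he⟩ := hq
    refine ⟨max d e, ?_⟩
    have h := Pol_add (Pol_mono (le_max_left d e) hd) (Pol_mono (le_max_right d e) he)
    simpa using h
  | mul_X p i hp =>
    obtain ⟨d, hd⟩ := hp
    refine ⟨d + 1, ?_⟩
    have h := Pol_mul_coord hd i
    have h2 : (fun ξ : Fin n → ℂ => MvPolynomial.eval ξ (p * MvPolynomial.X i)) =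
        fun ξ => ξ i * MvPolynomial.eval ξ p := by
      funext ξ
      rw [map_mul, MvPolynomial.eval_X, mul_comm]
    rw [h2]
    exact h

/-- closure under linear substitutions -/
theorem Pol_comp {d : ℕ} {p : (Fin n → ℂ) → ℂ} (hp : p ∈ Pol n d)
    (B : (Fin n → ℂ) → Fin n → ℂ) (M : Fin n → Fin n → ℂ) (hB : ∀ ξ j, B ξ j = ∑ k, M j k * ξ k) :
    (fun ξ => p (B ξ)) ∈ Pol n d := by
  induction d generalizing p with
  | zero =>
    have h0 : p = 0 := hp
    rw [h0]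
    rfl
  | succ d ih =>
    obtain ⟨c, q, hq, h⟩ := hp
    refine ⟨c, fun k ξ => ∑ j, M j k * q j (B ξ), fun k => ?_, fun ξ => ?_⟩
    · exact Pol_sum Finset.univ fun j _ => Pol_smul (M j k) (ih (hq j))
    · show p (B ξ) = _
      rw [h (B ξ)]
      congr 1
      simp_rw [hB ξ, Finset.sum_mul, Finset.mul_sum]
      rw [Finset.sum_comm]
      refine Finset.sum_congr rfl fun k _ => Finset.sum_congr rfl fun j _ => ?_
      ring

/-- division by the linear form `ξ ↦ ξ ⬝ᵥ v` -/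
theorem Pol_div {d : ℕ} {p : (Fin n → ℂ) → ℂ} (hp : p ∈ Pol n (d + 1)) (v ξ₁ : Fin n → ℂ) :
    ∃ q ∈ Pol n d, ∀ ξ, p ξ - p (ξ - (ξ ⬝ᵥ v) • ξ₁) = (ξ ⬝ᵥ v) * q ξ := by
  set B : (Fin n → ℂ) → Fin n → ℂ := fun ξ => ξ - (ξ ⬝ᵥ v) • ξ₁ with hBdef
  have hB : ∀ ξ j, B ξ j = ∑ k, ((if k = j then 1 else 0) - ξ₁ j * v k) * ξ k := by
    intro ξ j
    simp only [hBdef, Pi.sub_apply, Pi.smul_apply, smul_eq_mul, sub_mul, Finset.sum_sub_distrib,
      ite_mul, one_mul, zero_mul, Finset.sum_ite_eq', Finset.mem_univ, if_true]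
    congr 1
    rw [dotProduct, Finset.sum_mul]
    refine Finset.sum_congr rfl fun k _ => ?_
    ring
  induction d generalizing p with
  | zero =>
    obtain ⟨c, q, hq, h⟩ := hp
    have hq0 : ∀ j, q j = 0 := fun j => hq j
    refine ⟨fun _ => 0, rfl, fun ξ => ?_⟩
    rw [h, h]
    simp [hq0]
  | succ d ih =>
    obtain ⟨c, q, hq, h⟩ := hp
    choose r hr hr' using fun j => ih (hq j)
    refine ⟨fun ξ => (∑ j, ξ j * r j ξ) + ∑ j, ξ₁ j * q j (B ξ), ?_, fun ξ => ?_⟩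
    · have h1 : (fun ξ : Fin n → ℂ => ∑ j, ξ j * r j ξ) ∈ Pol n (d + 1) :=
        Pol_sum Finset.univ fun j _ => Pol_mul_coord (hr j) j
      have h2 : (fun ξ : Fin n → ℂ => ∑ j, ξ₁ j * q j (B ξ)) ∈ Pol n (d + 1) :=
        Pol_sum Finset.univ fun j _ => Pol_smul _ (Pol_comp (hq j) B _ hB)
      exact Pol_add h1 h2
    · show p ξ - p (B ξ) = (ξ ⬝ᵥ v) * ((∑ j, ξ j * r j ξ) + ∑ j, ξ₁ j * q j (B ξ))
      have h3 : ∀ j, ξ j * q j ξ - B ξ j * q j (B ξ) =
          (ξ ⬝ᵥ v) * (ξ j * r j ξ + ξ₁ j * q j (B ξ)) := by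
        intro j
        have h4 : q j ξ - q j (B ξ) = (ξ ⬝ᵥ v) * r j ξ := hr' j ξ
        have h5 : B ξ j = ξ j - (ξ ⬝ᵥ v) * ξ₁ j := rfl
        calc ξ j * q j ξ - B ξ j * q j (B ξ)
            = ξ j * (q j ξ - q j (B ξ)) + (ξ ⬝ᵥ v) * (ξ₁ j * q j (B ξ)) := by rw [h5]; ring
          _ = _ := by rw [h4]; ring
      rw [h ξ, h (B ξ), add_sub_add_left_eq_sub, ← Finset.sum_sub_distrib, ← Finset.sum_add_distrib,
        Finset.mul_sum]
      exact Finset.sum_congr rfl fun j _ => h3 j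

end MPb07157.ND
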