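import Pool.Agent.Lib.MP_b07157_ag.ND.CInj

/-! # The leading coefficient of a relation -/

noncomputable section

namespace MPb07157.ND

open Finset

variable {n : ℕ} {ι : Type} [DecidableEq ι] (a : ι → Fin n → ℂ)

section limits

open Filter Topology

theorem tendsto_lin_cobounded (α : ℂ) {c : ℂ} (hc : c ≠ 0) :
    Tendsto (fun N : ℕ => α + (N : ℂ) * c) atTop (Bornology.cobounded ℂ) := by
  rw [← tendsto_norm_atTop_iff_cobounded]
  have h1 : Tendsto (fun N : ℕ => (N : ℝ) * ‖c‖ + (-‖α‖)) atTop atTop :=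
    tendsto_atTop_add_const_right _ _
      (tendsto_natCast_atTop_atTop.atTop_mul_const (norm_pos_iff.2 hc))
  refine tendsto_atTop_mono (fun N => ?_) h1
  have h2 : ‖(N : ℂ) * c‖ ≤ ‖α + (N : ℂ) * c‖ + ‖α‖ := by
    calc ‖(N : ℂ) * c‖ = ‖(α + (N : ℂ) * c) - α‖ := by congr 1; ring
      _ ≤ _ := norm_sub_le _ _
  rw [norm_mul, Complex.norm_natCast] at h2
  linarith

theorem tendsto_lin_inv (α : ℂ) {c : ℂ} (hc : c ≠ 0) :
    Tendsto (fun N : ℕ => (α + (N : ℂ) * c)⁻¹) atTop (𝓝 0) :=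
  tendsto_inv₀_cobounded.comp (tendsto_lin_cobounded α hc)

theorem eventually_lin_ne (α : ℂ) {c : ℂ} (hc : c ≠ 0) :
    ∀ᶠ N : ℕ in atTop, α + (N : ℂ) * c ≠ 0 :=
  (tendsto_lin_cobounded α hc).eventually_ne_cobounded 0

theorem tendsto_mul_lin_inv (α : ℂ) {c : ℂ} (hc : c ≠ 0) :
    Tendsto (fun N : ℕ => (N : ℂ) * (α + (N : ℂ) * c)⁻¹) atTop (𝓝 c⁻¹) := by
  have h1 : Tendsto (fun N : ℕ => c⁻¹ - c⁻¹ * α * (α + (N : ℂ) * c)⁻¹) atTop
      (𝓝 (c⁻¹ - c⁻¹ * α * 0)) :=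
    tendsto_const_nhds.sub ((tendsto_lin_inv α hc).const_mul _)
  rw [mul_zero, sub_zero] at h1
  refine h1.congr' ?_
  filter_upwards [eventually_lin_ne α hc] with N hN
  set w := α + (N : ℂ) * c with hw
  have hα : α = w - (N : ℂ) * c := by rw [hw]; ring
  have hww : w * w⁻¹ = 1 := mul_inv_cancel₀ hN
  have hcc : c⁻¹ * c = 1 := inv_mul_cancel₀ hc
  have e1 : c⁻¹ - c⁻¹ * α * w⁻¹ = c⁻¹ - c⁻¹ * (w * w⁻¹) + (N : ℂ) * (c⁻¹ * c) * w⁻¹ := by
    rw [hα]; ring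
  rw [e1, hww, hcc]
  ring

end limits

open Filter Topology in
/-- the leading coefficient of a relation along a hyperplane -/
theorem cInj_limit (m : ι → ℕ) (F H : Finset ι) (hH : H ∈ hyp a F) (v : Fin n → ℂ)
    (hv : IsNormal a F H v) {κ : Type} (s : Finset κ) (I : κ → Finset ι)
    (hI : ∀ k ∈ s, IsBas a F (I k)) (p : κ → (Fin n → ℂ) → ℂ) (hp : ∀ k ∈ s, Continuous (p k))
    (h : ∀ x ∈ Ucomp a F, ∑ k ∈ s, p k (xi a m F x) / ∏ i ∈ I k, (a i ⬝ᵥ x) = 0)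
    (x : Fin n → ℂ) (hx : x ∈ Ucomp a H) :
    ∑ k ∈ s, ∑ b ∈ (I k).filter (fun b => (I k).erase b ⊆ H),
      p k (xi a m H x) / ((a b ⬝ᵥ v) * ∏ i ∈ (I k).erase b, (a i ⬝ᵥ x)) = 0 := by
  obtain ⟨hHF, hHfl, -⟩ := (mem_hyp a).1 hH
  -- values on the line
  have hzero : ∀ i ∈ H, a i ⬝ᵥ v = 0 := fun i hi =>
    (hv _ (mem_spn a (hHF hi))).2 (mem_spn a hi)
  have hne : ∀ i ∈ F, i ∉ H → a i ⬝ᵥ v ≠ 0 := fun i hi hiH h0 =>
    hiH (hHfl i ((hv _ (mem_spn a hi)).1 h0))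
  set y : ℕ → Fin n → ℂ := fun N => x + (N : ℂ) • v with hy
  have hval : ∀ i N, a i ⬝ᵥ y N = a i ⬝ᵥ x + (N : ℂ) * (a i ⬝ᵥ v) := by
    intro i N
    rw [hy, dotProduct_add, dotProduct_smul, smul_eq_mul]
  have hvalH : ∀ i ∈ H, ∀ N, a i ⬝ᵥ y N = a i ⬝ᵥ x := by
    intro i hi N
    rw [hval, hzero i hi, mul_zero, add_zero]
  -- inverses
  have hinv : ∀ i ∈ F, Tendsto (fun N => (a i ⬝ᵥ y N)⁻¹) atTop
      (𝓝 (if i ∈ H then (a i ⬝ᵥ x)⁻¹ else 0)) := by
    intro i hi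
    by_cases hiH : i ∈ H
    · rw [if_pos hiH]
      simp_rw [hvalH i hiH]
      exact tendsto_const_nhds
    · rw [if_neg hiH]
      simp_rw [hval]
      exact tendsto_lin_inv _ (hne i hi hiH)
  -- the points are in the complement
  have hU : ∀ᶠ N in atTop, y N ∈ Ucomp a F := by
    have h1 : ∀ᶠ N in atTop, ∀ i ∈ F, a i ⬝ᵥ y N ≠ 0 := by
      rw [Finset.eventually_all]
      intro i hi
      by_cases hiH : i ∈ H
      · refine Eventually.of_forall fun N => ?_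
        rw [hvalH i hiH]
        exact hx i hiH
      · simp_rw [hval]
        exact eventually_lin_ne _ (hne i hi hiH)
    exact h1
  -- the gradient
  have hxi : Tendsto (fun N => xi a m F (y N)) atTop (𝓝 (xi a m H x)) := by
    have h1 : xi a m H x = ∑ i ∈ F, ((m i : ℂ) * (if i ∈ H then (a i ⬝ᵥ x)⁻¹ else 0)) • a i := by
      rw [xi, ← Finset.sum_subset hHF (f := fun i =>
        ((m i : ℂ) * (if i ∈ H then (a i ⬝ᵥ x)⁻¹ else 0)) • a i)]
      · refine Finset.sum_congr rfl fun i hi => ?_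
        rw [if_pos hi, div_eq_mul_inv]
      · intro i _ hi
        rw [if_neg hi, mul_zero, zero_smul]
    rw [h1]
    simp only [xi, div_eq_mul_inv]
    exact tendsto_finsetSum _ fun i hi => ((hinv i hi).const_mul _).smul_const _
  -- one term
  have hterm : ∀ k ∈ s, Tendsto
      (fun N : ℕ => (N : ℂ) * (p k (xi a m F (y N)) / ∏ i ∈ I k, (a i ⬝ᵥ y N))) atTop
      (𝓝 (∑ b ∈ (I k).filter (fun b => (I k).erase b ⊆ H),
        p k (xi a m H x) / ((a b ⬝ᵥ v) * ∏ i ∈ (I k).erase b, (a i ⬝ᵥ x)))) := by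
    intro k hk
    have hIF : I k ⊆ F := (hI k hk).1
    have hIH : ¬ I k ⊆ H := (hI k hk).not_subset_hyp a hH
    obtain ⟨b, hb, hbH⟩ := Finset.not_subset.1 hIH
    have hpk : Tendsto (fun N => p k (xi a m F (y N))) atTop (𝓝 (p k (xi a m H x))) :=
      ((hp k hk).tendsto _).comp hxi
    have h1 : Tendsto (fun N : ℕ => (N : ℂ) * (a b ⬝ᵥ y N)⁻¹) atTop (𝓝 (a b ⬝ᵥ v)⁻¹) := by
      simp_rw [hval]
      exact tendsto_mul_lin_inv _ (hne b (hIF hb) hbH)
    have h2 : Tendsto (fun N => ∏ i ∈ (I k).erase b, (a i ⬝ᵥ y N)⁻¹) atTop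
        (𝓝 (∏ i ∈ (I k).erase b, (if i ∈ H then (a i ⬝ᵥ x)⁻¹ else 0))) :=
      tendsto_finsetProd _ fun i hi => hinv i (hIF (Finset.mem_of_mem_erase hi))
    have h3 := hpk.mul (h1.mul h2)
    have h4 : ∀ N : ℕ, p k (xi a m F (y N)) * ((N : ℂ) * (a b ⬝ᵥ y N)⁻¹ *
        ∏ i ∈ (I k).erase b, (a i ⬝ᵥ y N)⁻¹) =
        (N : ℂ) * (p k (xi a m F (y N)) / ∏ i ∈ I k, (a i ⬝ᵥ y N)) := by
      intro N
      rw [div_eq_mul_inv, ← Finset.prod_inv_distrib, ← Finset.mul_prod_erase _ _ hb]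
      ring
    have h5 : p k (xi a m H x) * ((a b ⬝ᵥ v)⁻¹ *
        ∏ i ∈ (I k).erase b, (if i ∈ H then (a i ⬝ᵥ x)⁻¹ else 0)) =
        ∑ b ∈ (I k).filter (fun b => (I k).erase b ⊆ H),
        p k (xi a m H x) / ((a b ⬝ᵥ v) * ∏ i ∈ (I k).erase b, (a i ⬝ᵥ x)) := by
      by_cases hsub : (I k).erase b ⊆ H
      · have h6 : (I k).filter (fun b => (I k).erase b ⊆ H) = {b} := by
          ext b'
          rw [Finset.mem_filter, Finset.mem_singleton]
          constructor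
          · rintro ⟨hb', hsub'⟩
            by_contra hbb
            exact hbH (hsub' (Finset.mem_erase.2 ⟨fun h => hbb h.symm, hb⟩))
          · rintro rfl
            exact ⟨hb, hsub⟩
        rw [h6, Finset.sum_singleton, div_eq_mul_inv, mul_inv, ← Finset.prod_inv_distrib]
        congr 2
        refine Finset.prod_congr rfl fun i hi => ?_
        rw [if_pos (hsub hi)]
      · have h6 : (I k).filter (fun b => (I k).erase b ⊆ H) = ∅ := by
          rw [Finset.filter_eq_empty_iff]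
          intro b' hb' hsub'
          by_cases hbb : b = b'
          · subst hbb
            exact hsub hsub'
          · exact hbH (hsub' (Finset.mem_erase.2 ⟨hbb, hb⟩))
        obtain ⟨i, hi, hiH⟩ := Finset.not_subset.1 hsub
        rw [h6, Finset.sum_empty, Finset.prod_eq_zero hi (by rw [if_neg hiH]), mul_zero, mul_zero]
    rw [h5] at h3
    exact h3.congr h4
  have hsum := tendsto_finsetSum s hterm
  have h0 : Tendsto (fun N : ℕ => ∑ k ∈ s, (N : ℂ) * (p k (xi a m F (y N)) /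
      ∏ i ∈ I k, (a i ⬝ᵥ y N))) atTop (𝓝 0) := by
    refine tendsto_const_nhds.congr' ?_
    filter_upwards [hU] with N hN
    rw [← Finset.mul_sum, h (y N) hN, mul_zero]
  exact tendsto_nhds_unique hsum h0

end MPb07157.ND
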