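import Pool.Agent.Lib.MP_b07157_ag.ND.CInj

/-! # Partial fractions -/

noncomputable section

namespace MPb07157.ND

open Finset

variable {n : ℕ} {ι : Type} [DecidableEq ι] (a : ι → Fin n → ℂ)

/-- partial fractions -/
theorem partial_fractions (F I : Finset ι) (hF : IsFlat a F) (hI : IsBas a F I)
    (ξ : Fin n → ℂ) (hξ : ξ ∈ spn a F) (x : Fin n → ℂ) (hx : x ∈ Ucomp a F) :
    ∑ H ∈ hyp a F, ∑ b ∈ I.filter (fun b => I.erase b ⊆ H),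
      (ξ ⬝ᵥ nv a F H) / ((a b ⬝ᵥ nv a F H) * ∏ i ∈ I.erase b, (a i ⬝ᵥ x)) =
      (ξ ⬝ᵥ x) / ∏ i ∈ I, (a i ⬝ᵥ x) := by
  rw [← hI.spn_eq a] at hξ
  obtain ⟨c', hc'⟩ := (Submodule.mem_span_image_finset_iff_exists_fun ℂ).1 hξ
  obtain ⟨c, hc⟩ : ∃ c : ι → ℂ, ∑ b ∈ I, c b • a b = ξ := by
    refine ⟨fun i => if h : i ∈ I then c' ⟨i, h⟩ else 0, ?_⟩
    rw [← hc', ← Finset.sum_coe_sort I]
    refine Finset.sum_congr rfl fun i _ => ?_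
    simp only [dif_pos i.2]
  have hdot : ∀ y : Fin n → ℂ, ξ ⬝ᵥ y = ∑ b ∈ I, c b * (a b ⬝ᵥ y) := by
    intro y
    rw [← hc, sum_dotProduct]
    refine Finset.sum_congr rfl fun b _ => ?_
    rw [smul_dotProduct, smul_eq_mul]
  -- exchange the sums
  have h1 : ∑ H ∈ hyp a F, ∑ b ∈ I.filter (fun b => I.erase b ⊆ H),
      (ξ ⬝ᵥ nv a F H) / ((a b ⬝ᵥ nv a F H) * ∏ i ∈ I.erase b, (a i ⬝ᵥ x)) =
      ∑ b ∈ I, ∑ H ∈ ({cl a F (I.erase b)} : Finset (Finset ι)),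
      (ξ ⬝ᵥ nv a F H) / ((a b ⬝ᵥ nv a F H) * ∏ i ∈ I.erase b, (a i ⬝ᵥ x)) := by
    refine Finset.sum_comm' ?_
    intro H b
    rw [Finset.mem_filter, Finset.mem_singleton]
    constructor
    · rintro ⟨hH, hb, hsub⟩
      exact ⟨hI.hyp_unique a hb hH hsub, hb⟩
    · rintro ⟨rfl, hb⟩
      obtain ⟨h2, h3, h4⟩ := hI.erase_hyp a hF hb
      exact ⟨h2, hb, h4.1⟩
  rw [h1, hdot x, Finset.sum_div]
  refine Finset.sum_congr rfl fun b hb => ?_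
  rw [Finset.sum_singleton]
  obtain ⟨h2, h3, h4⟩ := hI.erase_hyp a hF hb
  set H := cl a F (I.erase b) with hH
  have hn := nv_spec a h2
  have hbF : b ∈ F := hI.1 hb
  have hab : a b ⬝ᵥ nv a F H ≠ 0 := by
    intro h0
    have h5 := (hn (a b) (mem_spn a hbF)).1 h0
    exact h3 (((mem_hyp a).1 h2).2.1 b h5)
  have hξn : ξ ⬝ᵥ nv a F H = c b * (a b ⬝ᵥ nv a F H) := by
    rw [hdot]
    refine Finset.sum_eq_single_of_mem b hb fun i hi hib => ?_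
    have h5 : i ∈ H := h4.1 (Finset.mem_erase.2 ⟨hib, hi⟩)
    rw [(hn (a i) (mem_spn a (hI.1 hi))).2 (mem_spn a h5), mul_zero]
  have hbx : a b ⬝ᵥ x ≠ 0 := hx b hbF
  rw [hξn, ← Finset.mul_prod_erase _ _ hb, mul_comm (c b) (a b ⬝ᵥ nv a F H),
    mul_div_mul_left _ _ hab, mul_comm (c b) (a b ⬝ᵥ x), mul_div_mul_left _ _ hbx]

end MPb07157.ND
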