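import Pool.Agent.Lib.MP_b07157_ag.ND.CInjLim
import Pool.Agent.Lib.MP_b07157_ag.ND.CInjPF

/-! # Injectivity of the symbol map -/

noncomputable section

namespace MPb07157.ND

open Finset

variable {n : ℕ} {ι : Type} [DecidableEq ι] (a : ι → Fin n → ℂ)

omit [DecidableEq ι] in
private theorem xi_dot (m : ι → ℕ) (F : Finset ι) (x v : Fin n → ℂ) :
    xi a m F x ⬝ᵥ v = ∑ j ∈ F, ((m j : ℂ) / (a j ⬝ᵥ x)) * (a j ⬝ᵥ v) := by
  unfold xi
  rw [sum_dotProduct]
  refine Finset.sum_congr rfl fun j _ => ?_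
  rw [smul_dotProduct, smul_eq_mul]

private theorem xi_dot_normal (m : ι → ℕ) (F H : Finset ι) (hH : H ∈ hyp a F)
    (x v : Fin n → ℂ) (hv : IsNormal a F H v) :
    xi a m F x ⬝ᵥ v = ∑ j ∈ F \ H, ((m j : ℂ) / (a j ⬝ᵥ x)) * (a j ⬝ᵥ v) := by
  have hHF : H ⊆ F := ((mem_hyp a).1 hH).1
  rw [xi_dot, ← Finset.sum_sdiff hHF]
  have h0 : ∑ j ∈ H, ((m j : ℂ) / (a j ⬝ᵥ x)) * (a j ⬝ᵥ v) = 0 := by
    refine Finset.sum_eq_zero fun j hj => ?_
    have h1 : a j ⬝ᵥ v = 0 := (hv (a j) (mem_spn a (hHF hj))).2 (mem_spn a hj)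
    rw [h1, mul_zero]
  rw [h0, add_zero]

/-- a vector of the span with value one on the normal vector -/
private theorem exists_xi1 (F H : Finset ι) (hH : H ∈ hyp a F) (v : Fin n → ℂ)
    (hv : IsNormal a F H v) : ∃ ξ₁ ∈ spn a F, ξ₁ ⬝ᵥ v = 1 := by
  obtain ⟨hHF, -, hr⟩ := (mem_hyp a).1 hH
  by_contra hcon
  push Not at hcon
  have hle : spn a F ≤ spn a H := by
    intro η hη
    by_contra hη2
    have h1 : η ⬝ᵥ v ≠ 0 := fun h0 => hη2 ((hv η hη).1 h0)
    refine hcon ((η ⬝ᵥ v)⁻¹ • η) ((spn a F).smul_mem _ hη) ?_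
    rw [smul_dotProduct, smul_eq_mul, inv_mul_cancel₀ h1]
  have h2 : rk a F ≤ rk a H := Submodule.finrank_mono hle
  omega

/-- **injectivity**: a relation that holds at `ξ = ξ_F(x)` holds for all `ξ` -/
theorem cInj (ha : ∀ i, a i ≠ 0) (m : ι → ℕ) (hm : ∀ i, 0 < m i) (r : ℕ) :
    ∀ (F : Finset ι), IsFlat a F → rk a F = r → ∀ (d : ℕ) {κ : Type} (s : Finset κ)
    (I : κ → Finset ι) (p : κ → (Fin n → ℂ) → ℂ), (∀ k ∈ s, IsBas a F (I k)) →
    (∀ k ∈ s, p k ∈ Pol n d) →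
    (∀ x ∈ Ucomp a F, ∑ k ∈ s, p k (xi a m F x) / ∏ i ∈ I k, (a i ⬝ᵥ x) = 0) →
    ∀ ξ ∈ spn a F, ∀ x ∈ Ucomp a F, ∑ k ∈ s, p k ξ / ∏ i ∈ I k, (a i ⬝ᵥ x) = 0 := by
  induction r with
  | zero =>
    intro F hF hr d κ s I p hI hp h ξ hξ x hx
    have hF0 : F = ∅ := (rk_eq_zero_iff a ha).1 hr
    subst hF0
    have hξ0 : ξ = 0 := by
      have h1 : spn a (∅ : Finset ι) = ⊥ := by
        simp [spn]
      rw [h1] at hξ
      exact (Submodule.mem_bot ℂ).1 hξ
    have hxi0 : xi a m ∅ x = 0 := by simp [xi]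
    have h2 := h x hx
    rw [hxi0] at h2
    rw [hξ0]
    exact h2
  | succ r ihr =>
    intro F hF hr d
    have hFne : F.Nonempty := by
      rw [Finset.nonempty_iff_ne_empty]
      intro h0
      rw [h0, rk_empty] at hr
      omega
    induction d with
    | zero =>
      intro κ s I p hI hp h ξ hξ x hx
      refine Finset.sum_eq_zero fun k hk => ?_
      have h1 : p k = 0 := hp k hk
      rw [h1]
      simp
    | succ d ihd =>
      intro κ s I p hI hp h
      -- normal vectors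
      have hnv : ∀ H ∈ hyp a F, IsNormal a F H (nv a F H) := fun H hH => nv_spec a hH
      have hsub : ∀ H ∈ hyp a F, H ⊆ F := fun H hH => ((mem_hyp a).1 hH).1
      have hU : ∀ H ∈ hyp a F, ∀ x ∈ Ucomp a F, x ∈ Ucomp a H :=
        fun H hH x hx i hi => hx i (hsub H hH hi)
      -- step 1
      have step1 : ∀ H ∈ hyp a F, ∀ ξ ∈ spn a H, ∀ x ∈ Ucomp a H,
          ∑ k ∈ s, ∑ b ∈ (I k).filter (fun b => (I k).erase b ⊆ H),
            p k ξ / ((a b ⬝ᵥ nv a F H) * ∏ i ∈ (I k).erase b, (a i ⬝ᵥ x)) = 0 := by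
        intro H hH
        obtain ⟨hHF, hHfl, hHr⟩ := (mem_hyp a).1 hH
        have hrH : rk a H = r := by omega
        have hlim := cInj_limit a m F H hH (nv a F H) (hnv H hH) s I hI p
          (fun k hk => Pol_continuous (hp k hk)) h
        have happ := @ihr H hHfl hrH (d + 1) (Σ _ : κ, ι)
          (s.sigma fun k => (I k).filter (fun b => (I k).erase b ⊆ H))
          (fun kb => (I kb.1).erase kb.2)
          (fun kb ξ => (a kb.2 ⬝ᵥ nv a F H)⁻¹ * p kb.1 ξ)
          (by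
            rintro ⟨k, b⟩ hkb
            rw [Finset.mem_sigma, Finset.mem_filter] at hkb
            exact ((hI k hkb.1).erase_bas a hkb.2.1 hH hkb.2.2).2)
          (by
            rintro ⟨k, b⟩ hkb
            rw [Finset.mem_sigma] at hkb
            exact Pol_smul _ (hp k hkb.1))
          (by
            intro x hx
            rw [Finset.sum_sigma, ← hlim x hx]
            refine Finset.sum_congr rfl fun k _ => Finset.sum_congr rfl fun b _ => ?_
            simp only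
            rw [div_eq_mul_inv, div_eq_mul_inv, mul_inv]
            ring)
        intro ξ hξ x hx
        have h1 := happ ξ hξ x hx
        rw [Finset.sum_sigma] at h1
        rw [← h1]
        refine Finset.sum_congr rfl fun k _ => Finset.sum_congr rfl fun b _ => ?_
        simp only
        rw [div_eq_mul_inv, div_eq_mul_inv, mul_inv]
        ring
      -- step 2
      have hxi1 : ∀ H, ∃ ξ₁ : Fin n → ℂ, H ∈ hyp a F → ξ₁ ∈ spn a F ∧ ξ₁ ⬝ᵥ nv a F H = 1 := by
        intro H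
        by_cases hH : H ∈ hyp a F
        · obtain ⟨ξ₁, h1, h2⟩ := exists_xi1 a F H hH _ (hnv H hH)
          exact ⟨ξ₁, fun _ => ⟨h1, h2⟩⟩
        · exact ⟨0, fun h => absurd h hH⟩
      choose ξ₁ hξ₁ using hxi1
      have hq : ∀ H k, ∃ q : (Fin n → ℂ) → ℂ, k ∈ s → q ∈ Pol n d ∧
          ∀ ξ, p k ξ - p k (ξ - (ξ ⬝ᵥ nv a F H) • ξ₁ H) = (ξ ⬝ᵥ nv a F H) * q ξ := by
        intro H k
        by_cases hk : k ∈ s
        · obtain ⟨q, h1, h2⟩ := Pol_div (hp k hk) (nv a F H) (ξ₁ H)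
          exact ⟨q, fun _ => ⟨h1, h2⟩⟩
        · exact ⟨0, fun h => absurd h hk⟩
      choose q hq' using hq
      -- the remainders
      let R : Finset ι → (Fin n → ℂ) → (Fin n → ℂ) → ℂ := fun H ξ x =>
        ∑ k ∈ s, ∑ b ∈ (I k).filter (fun b => (I k).erase b ⊆ H),
            q H k ξ / ((a b ⬝ᵥ nv a F H) * ∏ i ∈ (I k).erase b, (a i ⬝ᵥ x))
      have step2 : ∀ H ∈ hyp a F, ∀ ξ ∈ spn a F, ∀ x ∈ Ucomp a F,
          ∑ k ∈ s, ∑ b ∈ (I k).filter (fun b => (I k).erase b ⊆ H),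
            p k ξ / ((a b ⬝ᵥ nv a F H) * ∏ i ∈ (I k).erase b, (a i ⬝ᵥ x)) =
            (ξ ⬝ᵥ nv a F H) * R H ξ x := by
        intro H hH ξ hξ x hx
        obtain ⟨h1, h2⟩ := hξ₁ H hH
        have hm1 : ξ - (ξ ⬝ᵥ nv a F H) • ξ₁ H ∈ spn a F :=
          (spn a F).sub_mem hξ ((spn a F).smul_mem _ h1)
        have hd0 : (ξ - (ξ ⬝ᵥ nv a F H) • ξ₁ H) ⬝ᵥ nv a F H = 0 := by
          rw [sub_dotProduct, smul_dotProduct, h2, smul_eq_mul, mul_one, sub_self]
        have hm2 : ξ - (ξ ⬝ᵥ nv a F H) • ξ₁ H ∈ spn a H := (hnv H hH _ hm1).1 hd0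
        have h3 := step1 H hH _ hm2 x (hU H hH x hx)
        have h4 : ∑ k ∈ s, ∑ b ∈ (I k).filter (fun b => (I k).erase b ⊆ H),
            p k ξ / ((a b ⬝ᵥ nv a F H) * ∏ i ∈ (I k).erase b, (a i ⬝ᵥ x)) =
            (∑ k ∈ s, ∑ b ∈ (I k).filter (fun b => (I k).erase b ⊆ H),
              p k (ξ - (ξ ⬝ᵥ nv a F H) • ξ₁ H) /
                ((a b ⬝ᵥ nv a F H) * ∏ i ∈ (I k).erase b, (a i ⬝ᵥ x))) +
            (ξ ⬝ᵥ nv a F H) * R H ξ x := by
          simp only [R]
          rw [Finset.mul_sum, ← Finset.sum_add_distrib]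
          refine Finset.sum_congr rfl fun k hk => ?_
          rw [Finset.mul_sum, ← Finset.sum_add_distrib]
          refine Finset.sum_congr rfl fun b _ => ?_
          have h5 := (hq' H k hk).2 ξ
          have h6 : p k ξ = p k (ξ - (ξ ⬝ᵥ nv a F H) • ξ₁ H) + (ξ ⬝ᵥ nv a F H) * q H k ξ := by
            rw [← h5]; ring
          rw [h6, add_div, mul_div_assoc]
        rw [h4, h3, zero_add]
      -- step 3
      have step3 : ∀ ell ∈ spn a F, ∀ ξ ∈ spn a F, ∀ x ∈ Ucomp a F,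
          (ell ⬝ᵥ x) * ∑ k ∈ s, p k ξ / ∏ i ∈ I k, (a i ⬝ᵥ x) =
            ∑ H ∈ hyp a F, (ell ⬝ᵥ nv a F H) * ((ξ ⬝ᵥ nv a F H) * R H ξ x) := by
        intro ell hell ξ hξ x hx
        calc (ell ⬝ᵥ x) * ∑ k ∈ s, p k ξ / ∏ i ∈ I k, (a i ⬝ᵥ x)
            = ∑ k ∈ s, p k ξ * ((ell ⬝ᵥ x) / ∏ i ∈ I k, (a i ⬝ᵥ x)) := by
              rw [Finset.mul_sum]
              exact Finset.sum_congr rfl fun k _ => by ring
          _ = ∑ k ∈ s, p k ξ * ∑ H ∈ hyp a F, ∑ b ∈ (I k).filter (fun b => (I k).erase b ⊆ H),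
                (ell ⬝ᵥ nv a F H) / ((a b ⬝ᵥ nv a F H) * ∏ i ∈ (I k).erase b, (a i ⬝ᵥ x)) := by
              refine Finset.sum_congr rfl fun k hk => ?_
              rw [partial_fractions a F (I k) hF (hI k hk) ell hell x hx]
          _ = ∑ H ∈ hyp a F, (ell ⬝ᵥ nv a F H) *
                ∑ k ∈ s, ∑ b ∈ (I k).filter (fun b => (I k).erase b ⊆ H),
                  p k ξ / ((a b ⬝ᵥ nv a F H) * ∏ i ∈ (I k).erase b, (a i ⬝ᵥ x)) := by
              simp only [Finset.mul_sum]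
              rw [Finset.sum_comm]
              refine Finset.sum_congr rfl fun H _ => Finset.sum_congr rfl fun k _ =>
                Finset.sum_congr rfl fun b _ => ?_
              ring
          _ = _ := by
              refine Finset.sum_congr rfl fun H hH => ?_
              rw [step2 H hH ξ hξ x hx]
      -- step 4
      have hexp : ∀ ell ξ : Fin n → ℂ, ∀ x ∈ Ucomp a F,
          ∑ t ∈ (hyp a F).sigma (fun H => s.sigma (fun k =>
              ((I k).filter (fun b => (I k).erase b ⊆ H)).sigma (fun _ => F \ H))),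
            (((ell ⬝ᵥ nv a F t.1) * (m t.2.2.2 : ℂ) * (a t.2.2.2 ⬝ᵥ nv a F t.1) /
              (a t.2.2.1 ⬝ᵥ nv a F t.1)) * q t.1 t.2.1 ξ) /
              ∏ i ∈ insert t.2.2.2 ((I t.2.1).erase t.2.2.1), (a i ⬝ᵥ x) =
          ∑ H ∈ hyp a F, (ell ⬝ᵥ nv a F H) * ((xi a m F x ⬝ᵥ nv a F H) * R H ξ x) := by
        intro ell ξ x hx
        rw [Finset.sum_sigma]
        refine Finset.sum_congr rfl fun H hH => ?_
        rw [Finset.sum_sigma]
        simp only [R]
        rw [Finset.mul_sum, Finset.mul_sum]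
        refine Finset.sum_congr rfl fun k hk => ?_
        rw [Finset.sum_sigma, Finset.mul_sum, Finset.mul_sum]
        refine Finset.sum_congr rfl fun b hb => ?_
        rw [xi_dot_normal a m F H hH x _ (hnv H hH), Finset.sum_mul, Finset.mul_sum]
        refine Finset.sum_congr rfl fun j hj => ?_
        rw [Finset.mem_filter] at hb
        rw [Finset.mem_sdiff] at hj
        have hex := (hI k hk).exchange a hb.1 hH hb.2 hj.1 hj.2
        simp only
        rw [Finset.prod_insert hex.1]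
        simp only [div_eq_mul_inv, mul_inv]
        ring
      have hstep4 : ∀ ell ∈ spn a F, ∀ ξ ∈ spn a F, ∀ x ∈ Ucomp a F,
          ∑ H ∈ hyp a F, (ell ⬝ᵥ nv a F H) * ((xi a m F x ⬝ᵥ nv a F H) * R H ξ x) = 0 := by
        intro ell hell ξ hξ x hx
        have happ := @ihd (Σ _ : Finset ι, Σ _ : κ, Σ _ : ι, ι)
          ((hyp a F).sigma (fun H => s.sigma (fun k =>
              ((I k).filter (fun b => (I k).erase b ⊆ H)).sigma (fun _ => F \ H))))
          (fun t => insert t.2.2.2 ((I t.2.1).erase t.2.2.1))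
          (fun t ξ => ((ell ⬝ᵥ nv a F t.1) * (m t.2.2.2 : ℂ) * (a t.2.2.2 ⬝ᵥ nv a F t.1) /
              (a t.2.2.1 ⬝ᵥ nv a F t.1)) * q t.1 t.2.1 ξ)
          (by
            rintro ⟨H, k, b, j⟩ ht
            simp only [Finset.mem_sigma, Finset.mem_filter, Finset.mem_sdiff] at ht
            obtain ⟨hH, hk, ⟨hb1, hb2⟩, hj1, hj2⟩ := ht
            exact ((hI k hk).exchange a hb1 hH hb2 hj1 hj2).2)
          (by
            rintro ⟨H, k, b, j⟩ ht
            simp only [Finset.mem_sigma] at ht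
            exact Pol_smul _ (hq' H k ht.2.1).1)
          (by
            intro y hy
            have hxiy := xi_mem_spn a m F y
            have h1 := step3 ell hell _ hxiy y hy
            rw [h y hy, mul_zero] at h1
            have h2 := hexp ell (xi a m F y) y hy
            rw [← h1] at h2
            exact h2)
          ξ hξ x hx
        rw [← hexp ell ξ x hx]
        exact happ
      -- step 5
      intro ξ hξ x hx
      have h1 := step3 _ (xi_mem_spn a m F x) ξ hξ x hx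
      have h2 := hstep4 ξ hξ ξ hξ x hx
      have h3 : ∑ H ∈ hyp a F, (xi a m F x ⬝ᵥ nv a F H) * ((ξ ⬝ᵥ nv a F H) * R H ξ x) = 0 := by
        rw [← h2]
        exact Finset.sum_congr rfl fun H _ => by ring
      rw [h3] at h1
      rcases mul_eq_zero.1 h1 with h4 | h4
      · exfalso
        rw [xi_dotProduct_self a m F x hx] at h4
        obtain ⟨i, hi⟩ := hFne
        have h5 : ∑ i ∈ F, m i = 0 := by exact_mod_cast h4
        have h6 := (Finset.sum_eq_zero_iff.1 h5) i hi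
        have h7 := hm i
        omega
      · exact h4

end MPb07157.ND
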