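import Pool.Agent.Lib.MP_b07157_ag.ND.PairAdj

/-! # Compatibility of the form with the shift operators -/

noncomputable section

namespace MPb07157.ND

open Finset

variable {n : ℕ} {ι : Type} [Fintype ι] [DecidableEq ι] (a : ι → Fin n → ℂ)

theorem T_apply (w : ι → ℂ) (c : Finset ι → ℂ) (x : E ι) :
    T a w c x = ∑ H ∈ hyp a Finset.univ, c H • (om w * D Finset.univ H x) := by
  simp only [T, LinearMap.sum_apply, LinearMap.smul_apply, LinearMap.comp_apply,
    LinearMap.mulLeft_apply]

private theorem rk_inter_lt {H H' : Finset ι} (hH : H ∈ hyp a Finset.univ)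
    (hH' : H' ∈ hyp a Finset.univ) (hne : H' ≠ H) {r : ℕ}
    (hr : rk a (Finset.univ : Finset ι) = r + 1) : rk a (H' ∩ H) < r := by
  obtain ⟨_, hf, hk⟩ := (mem_hyp a).mp hH
  obtain ⟨_, hf', hk'⟩ := (mem_hyp a).mp hH'
  have hi : IsFlat a (H' ∩ H) := isFlat_inter a hf' hf
  by_contra hcon
  push Not at hcon
  have h1 : H' ∩ H = H := flat_eq_of_rk_le a Finset.inter_subset_right hi (by omega)
  have h2 : H' ∩ H = H' := flat_eq_of_rk_le a Finset.inter_subset_left hi (by omega)
  exact hne (h2.symm.trans h1)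

private theorem Gp_om_D (ha : ∀ i, a i ≠ 0) (w : ι → ℂ) (hw : Good a w) (r : ℕ)
    (hr : rk a (Finset.univ : Finset ι) = r + 1) {H : Finset ι} (hH : H ∈ hyp a Finset.univ)
    (x y : E ι) :
    Gp a w (r + 1) Finset.univ (om w * D Finset.univ H x) y =
      Gp a w r H (D Finset.univ H x) (D Finset.univ H y) := by
  rw [Gp_adj a ha w hw r Finset.univ (isFlat_univ a) hr, Finset.sum_eq_single H]
  · rw [rho_D]
  · intro H' hH' hne
    obtain ⟨_, hf', hk'⟩ := (mem_hyp a).mp hH'
    have h1 : rho H' (D Finset.univ H x) = rho (H' ∩ H) (D Finset.univ H x) := by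
      rw [← rho_rho, rho_D]
    rw [h1]
    exact Gp_dep a w r H' hf' (by omega) _ (rk_inter_lt a hH hH' hne hr) _ _
  · intro h; exact absurd hH h

/-- compatibility of the form with the shift operators -/
theorem Gp_T (ha : ∀ i, a i ≠ 0) (w w' : ι → ℂ) (hw : Good a w) (hw' : Good a w') (r : ℕ)
    (hr : rk a (Finset.univ : Finset ι) = r) (c : Finset ι → ℂ)
    (hc : ∀ H ∈ hyp a Finset.univ, c H ≠ 0 → ∀ i ∈ H, w i = w' i) (x y : E ι) :
    Gp a w r Finset.univ (T a w c x) y = Gp a w' r Finset.univ x (T a w' c y) := by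
  cases r with
  | zero =>
    have he : hyp a (Finset.univ : Finset ι) = ∅ := by
      rw [Finset.eq_empty_iff_forall_notMem]
      intro H hH
      have := ((mem_hyp a).mp hH).2.2
      omega
    rw [T_apply, T_apply, he, Finset.sum_empty, Finset.sum_empty, map_zero, map_zero,
      LinearMap.zero_apply]
  | succ r =>
    rw [T_apply, T_apply, map_sum, LinearMap.sum_apply, map_sum]
    refine Finset.sum_congr rfl fun H hH => ?_
    rw [map_smul, map_smul, LinearMap.smul_apply, Gp_om_D a ha w hw r hr hH,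
      Gp_symm a w' (r + 1), Gp_om_D a ha w' hw' r hr hH, Gp_symm a w' r]
    by_cases h0 : c H = 0
    · rw [h0, zero_smul, zero_smul]
    · rw [Gp_congr a w w' r H (hc H hH h0)]

end MPb07157.ND
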