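import Pool.Agent.Lib.MP_b07157_ag.ND.InjDef
import Pool.Agent.Lib.MP_b07157_ag.ND.PairT

/-! # Polynomial dependence on `s` -/

noncomputable section

namespace MPb07157.ND

open Finset MvPolynomial

variable {n : ℕ} {ι : Type} [Fintype ι] [DecidableEq ι] (a : ι → Fin n → ℂ)

/-- `y(s)` is a polynomial in `s` with coefficients in the exterior algebra -/
def PolyE (y : ℂ → E ι) : Prop :=
  ∃ (d : ℕ) (c : ℕ → E ι), ∀ s : ℂ, y s = ∑ k ∈ range d, s ^ k • c k

private theorem pad {M : Type} [AddCommGroup M] [Module ℂ M] {d D : ℕ} (h : d ≤ D) (c : ℕ → M)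
    (s : ℂ) : ∑ k ∈ range d, s ^ k • c k =
      ∑ k ∈ range D, s ^ k • (if k < d then c k else 0) := by
  have h1 : ∑ k ∈ range d, s ^ k • c k = ∑ k ∈ range d, s ^ k • (if k < d then c k else 0) := by
    refine Finset.sum_congr rfl fun k hk => ?_
    rw [if_pos (Finset.mem_range.1 hk)]
  rw [h1]
  refine Finset.sum_subset (Finset.range_mono h) fun k _ hk => ?_
  rw [if_neg (fun hk' => hk (Finset.mem_range.2 hk')), smul_zero]

theorem PolyE_const (x : E ι) : PolyE (fun _ => x) :=
  ⟨1, fun _ => x, fun s => by simp⟩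

theorem PolyE_add {y z : ℂ → E ι} (hy : PolyE y) (hz : PolyE z) :
    PolyE (fun s => y s + z s) := by
  obtain ⟨d, c, h⟩ := hy
  obtain ⟨d', c', h'⟩ := hz
  refine ⟨max d d', fun k => (if k < d then c k else 0) + (if k < d' then c' k else 0),
    fun s => ?_⟩
  change y s + z s = _
  rw [h s, h' s, pad (le_max_left d d') c s, pad (le_max_right d d') c' s,
    ← Finset.sum_add_distrib]
  refine Finset.sum_congr rfl fun k _ => ?_
  rw [smul_add]

theorem PolyE_sum {κ : Type} (s : Finset κ) (y : κ → ℂ → E ι) (hy : ∀ k ∈ s, PolyE (y k)) :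
    PolyE (fun z => ∑ k ∈ s, y k z) := by
  classical
  induction s using Finset.induction_on with
  | empty => simpa using PolyE_const (0 : E ι)
  | insert j s hj ih =>
    have h1 := PolyE_add (hy j (Finset.mem_insert_self _ _))
      (ih (fun k hk => hy k (Finset.mem_insert_of_mem hk)))
    have e : (fun z => ∑ k ∈ insert j s, y k z) = fun z => y j z + ∑ k ∈ s, y k z := by
      funext z
      rw [Finset.sum_insert hj]
    rw [e]
    exact h1

private theorem PolyE_s {y : ℂ → E ι} (hy : PolyE y) : PolyE (fun s => s • y s) := by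
  obtain ⟨d, c, h⟩ := hy
  refine ⟨d + 1, fun k => if k = 0 then 0 else c (k - 1), fun s => ?_⟩
  change s • y s = _
  rw [Finset.sum_range_succ', h s, Finset.smul_sum]
  simp only [Nat.add_sub_cancel, Nat.succ_ne_zero, if_false, if_true, smul_zero, add_zero,
    smul_smul, pow_succ']

theorem PolyE_map {y : ℂ → E ι} (hy : PolyE y) (f : E ι →ₗ[ℂ] E ι) :
    PolyE (fun s => f (y s)) := by
  obtain ⟨d, c, h⟩ := hy
  refine ⟨d, fun k => f (c k), fun s => ?_⟩
  change f (y s) = _
  rw [h s, map_sum]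
  simp only [map_smul]

private theorem PolyE_csmul {y : ℂ → E ι} (hy : PolyE y) (b : ℂ) : PolyE (fun s => b • y s) :=
  PolyE_map hy (b • LinearMap.id)

theorem PolyE_smul {y : ℂ → E ι} (hy : PolyE y) (p : Polynomial ℂ) :
    PolyE (fun s => p.eval s • y s) := by
  induction p using Polynomial.induction_on with
  | C b =>
    simp only [Polynomial.eval_C]
    exact PolyE_csmul hy b
  | add p q hp hq =>
    simp only [Polynomial.eval_add, add_smul]
    exact PolyE_add hp hq
  | monomial k b hk =>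
    have := PolyE_s hk
    have e : (fun s => Polynomial.eval s (Polynomial.C b * Polynomial.X ^ (k + 1)) • y s) =
        fun s => s • (Polynomial.eval s (Polynomial.C b * Polynomial.X ^ k) • y s) := by
      funext s
      rw [smul_smul]
      congr 1
      simp only [Polynomial.eval_mul, Polynomial.eval_C, Polynomial.eval_pow, Polynomial.eval_X]
      ring
    rw [e]
    exact this

private theorem om_lev (m c : ι → ℕ) (s : ℂ) :
    om (lev m c s) = s • om (fun i => (m i : ℂ)) + om (fun i => (c i : ℂ)) := by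
  unfold om
  rw [← map_smul, ← map_add]
  congr 1
  funext i
  simp only [lev, Pi.add_apply, Pi.smul_apply, smul_eq_mul]
  ring

theorem PolyE_T {y : ℂ → E ι} (hy : PolyE y) (m c : ι → ℕ) (cH : Finset ι → ℂ) :
    PolyE (fun s => T a (lev m c s) cH (y s)) := by
  have e : (fun s => T a (lev m c s) cH (y s)) = fun s => ∑ H ∈ hyp a Finset.univ,
      (s • ((cH H • (LinearMap.mulLeft ℂ (om (fun i => (m i : ℂ)))) ∘ₗ D Finset.univ H) (y s)) +
        (cH H • (LinearMap.mulLeft ℂ (om (fun i => (c i : ℂ)))) ∘ₗ D Finset.univ H) (y s)) := by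
    funext s
    unfold T
    rw [LinearMap.sum_apply]
    refine Finset.sum_congr rfl fun H _ => ?_
    simp only [LinearMap.smul_apply, LinearMap.comp_apply, LinearMap.mulLeft_apply, om_lev,
      add_mul, smul_add, smul_mul_assoc]
    rw [smul_comm]
  rw [e]
  refine PolyE_sum _ _ fun H _ => ?_
  exact PolyE_add (PolyE_s (PolyE_map hy _)) (PolyE_map hy _)

private theorem exists_poly_eval (Q : MvPolynomial (Option (Fin n)) ℂ) (ξ : Fin n → ℂ) :
    ∃ p : Polynomial ℂ, ∀ s, eval (opt s ξ) Q = p.eval s := by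
  induction Q using MvPolynomial.induction_on with
  | C b => exact ⟨Polynomial.C b, fun s => by simp⟩
  | add p q hp hq =>
    obtain ⟨p', hp'⟩ := hp
    obtain ⟨q', hq'⟩ := hq
    exact ⟨p' + q', fun s => by rw [map_add, Polynomial.eval_add, hp', hq']⟩
  | mul_X p o hp =>
    obtain ⟨p', hp'⟩ := hp
    rcases o with _ | i
    · exact ⟨p' * Polynomial.X, fun s => by
        rw [map_mul, Polynomial.eval_mul, hp', Polynomial.eval_X, eval_X]; rfl⟩
    · exact ⟨p' * Polynomial.C (ξ i), fun s => by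
        rw [map_mul, Polynomial.eval_mul, hp', Polynomial.eval_C, eval_X]; rfl⟩

theorem PolyE_NN (P : (Fin n → ι) → MvPolynomial (Option (Fin n)) ℂ) (ξ : Fin n → ℂ) :
    PolyE (fun s => NN P s ξ) := by
  unfold NN
  refine PolyE_sum _ _ fun t _ => ?_
  obtain ⟨p, hp⟩ := exists_poly_eval (P t) ξ
  have := PolyE_smul (PolyE_const (eT t)) p
  simp only [hp]
  exact this

/-- the pairing of two polynomial families is a polynomial -/
theorem PolyE_Gp {y z : ℂ → E ι} (hy : PolyE y) (hz : PolyE z) (w : ι → ℂ) (r : ℕ)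
    (F : Finset ι) : ∃ p : Polynomial ℂ, ∀ s, Gp a w r F (y s) (z s) = p.eval s := by
  obtain ⟨d, c, h⟩ := hy
  obtain ⟨d', c', h'⟩ := hz
  refine ⟨∑ k ∈ range d, ∑ l ∈ range d', Polynomial.C (Gp a w r F (c k) (c' l)) *
    Polynomial.X ^ (k + l), fun s => ?_⟩
  rw [h s, h' s]
  simp only [map_sum, LinearMap.sum_apply, map_smul, LinearMap.smul_apply,
    Polynomial.eval_finsetSum, Polynomial.eval_mul, Polynomial.eval_C, Polynomial.eval_pow,
    Polynomial.eval_X, smul_eq_mul]
  rw [Finset.sum_comm]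
  refine Finset.sum_congr rfl fun k _ => ?_
  rw [Finset.mul_sum]
  refine Finset.sum_congr rfl fun l _ => ?_
  rw [pow_add]
  ring

theorem wt_lev (m c : ι → ℕ) (s : ℂ) (F : Finset ι) :
    wt (lev m c s) F = (∑ i ∈ F, (m i : ℂ)) * s + ∑ i ∈ F, (c i : ℂ) := by
  unfold wt lev
  rw [Finset.sum_add_distrib, Finset.sum_mul]

theorem good_lev (m c : ι → ℕ) (hm : ∀ i, 0 < m i) (t : ℝ) (ht : 0 < t) :
    Good a (lev m c (t : ℂ)) := by
  intro F _ hne
  rw [wt_lev]
  have h1 : (0 : ℝ) < (∑ i ∈ F, (m i : ℝ)) * t + ∑ i ∈ F, (c i : ℝ) := by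
    have h2 : (0 : ℝ) < ∑ i ∈ F, (m i : ℝ) :=
      Finset.sum_pos (fun i _ => by exact_mod_cast hm i) hne
    have h3 : (0 : ℝ) ≤ ∑ i ∈ F, (c i : ℝ) := Finset.sum_nonneg (fun i _ => by positivity)
    have h4 := mul_pos h2 ht
    linarith
  intro h0
  have : (((∑ i ∈ F, (m i : ℝ)) * t + ∑ i ∈ F, (c i : ℝ) : ℝ) : ℂ) = 0 := by
    push_cast
    exact h0
  rw [Complex.ofReal_eq_zero] at this
  exact h1.ne' this

theorem lev_self (m : ι → ℕ) (s : ℂ) : lev m m s = fun i => (s + 1) * (m i : ℂ) := by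
  funext i
  simp only [lev]
  ring

/-- the product of the weights of a list of sets is a polynomial in `s` -/
theorem exists_poly_wt (m c : ι → ℕ) (L : List (Finset ι)) :
    ∃ p : Polynomial ℂ, ∀ s, (L.map (wt (lev m c s))).prod = p.eval s := by
  induction L with
  | nil => exact ⟨1, fun s => by simp⟩
  | cons F L ih =>
    obtain ⟨p, hp⟩ := ih
    refine ⟨(Polynomial.C (∑ i ∈ F, (m i : ℂ)) * Polynomial.X +
      Polynomial.C (∑ i ∈ F, (c i : ℂ))) * p, fun s => ?_⟩
    rw [List.map_cons, List.prod_cons, hp, wt_lev, Polynomial.eval_mul, Polynomial.eval_add,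
      Polynomial.eval_mul, Polynomial.eval_C, Polynomial.eval_C, Polynomial.eval_X]

/-- a point where `q` does not vanish -/
theorem exists_qq_ne_zero : ∃ ξ : Fin n → ℂ, eval ξ (qq a) ≠ 0 := by
  have hq : qq a ≠ 0 := by
    unfold qq
    rw [Finset.prod_ne_zero_iff]
    intro H hH h0
    have hv : nv a Finset.univ H = 0 := by
      funext j
      have h1 := congrArg (eval (Pi.single j 1)) h0
      unfold xv at h1
      simp only [map_sum, map_mul, eval_C, eval_X, map_zero, Pi.single_apply, mul_ite, mul_one,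
        mul_zero, Finset.sum_ite_eq', Finset.mem_univ, if_true] at h1
      exact h1
    have hN := nv_spec a hH
    rw [hv] at hN
    have hle : spn a Finset.univ ≤ spn a H := by
      intro ξ hξ
      exact (hN ξ hξ).1 (dotProduct_zero ξ)
    have h2 := ((mem_hyp a).1 hH).2.2
    have h3 : rk a Finset.univ ≤ rk a H := Submodule.finrank_mono hle
    omega
  by_contra hcon
  push Not at hcon
  exact hq (MvPolynomial.funext fun ξ => by rw [hcon ξ, map_zero])

/-- a list with given multiplicities -/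
theorem exists_list_count (c : ι → ℕ) : ∃ δ : List ι, ∀ i, δ.count i = c i := by
  refine ⟨(∑ i, c i • ({i} : Multiset ι)).toList, fun i => ?_⟩
  rw [← Multiset.coe_count, Multiset.coe_toList, Multiset.count_sum']
  simp [Multiset.count_singleton]

end MPb07157.ND
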