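import Pool.Agent.Lib.MP_b07157_ag.ND.Sharp
import Pool.Agent.Lib.MP_b07157_ag.ND.PolyE

/-! # Descending through the levels -/

noncomputable section

namespace MPb07157.ND

open Finset MvPolynomial

variable {N : ℕ} {ι : Type} [Fintype ι] [DecidableEq ι] {a : ι → Fin (N + 1) → ℂ} {𝔽 : Type}
  [CommRing 𝔽] [Algebra ℂ 𝔽] (M : Model a 𝔽)

omit [Fintype ι] in
private theorem lev_add_single (m c : ι → ℕ) (s : ℂ) (i : ι) :
    lev m c s + Pi.single i 1 = lev m (c + Pi.single i 1) s := by
  funext j
  by_cases h : j = i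
  · subst h
    simp only [lev, Pi.add_apply, Pi.single_eq_same, Nat.cast_add, Nat.cast_one]
    ring
  · simp only [lev, Pi.add_apply, Pi.single_eq_of_ne h, add_zero]

omit [Fintype ι] in
private theorem lev_cons (c : ι → ℕ) (i : ι) (δ : List ι) :
    (fun j => (c + Pi.single i 1 : ι → ℕ) j + δ.count j) = fun j => c j + (i :: δ).count j := by
  funext j
  by_cases h : j = i
  · subst h
    simp only [Pi.add_apply, Pi.single_eq_same, List.count_cons_self]
    ring
  · rw [List.count_cons_of_ne (fun h' => h h'.symm)]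
    simp only [Pi.add_apply, Pi.single_eq_of_ne h, add_zero]

/-- level shift for lists -/
theorem act_shift_list (m c : ι → ℕ) (s : ℂ) (Q : MvPolynomial (Fin (N + 1)) ℂ) (δ : List ι)
    (u : 𝔽) : M.act (lev m c s) Q ((δ.map (fun i => M.lin (a i))).prod * u) =
      (δ.map (fun i => M.lin (a i))).prod * M.act (lev m (fun i => c i + δ.count i) s) Q u := by
  induction δ generalizing c with
  | nil =>
    simp only [List.map_nil, List.prod_nil, one_mul, List.count_nil, add_zero]
  | cons i δ ih =>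
    rw [List.map_cons, List.prod_cons, mul_assoc, M.act_shift, lev_add_single, ih, lev_cons,
      mul_assoc]

theorem descend (ha : ∀ i, a i ≠ 0) (hr : rk a (Finset.univ : Finset ι) = N + 1) (m : ι → ℕ)
    (hm : ∀ i, 0 < m i) (ξ : Fin (N + 1) → ℂ) (δ : List ι) :
    ∀ (c : ι → ℕ) (y : ℂ → E ι), PolyE y → ∃ y' : ℂ → E ι, PolyE y' ∧
      ∀ P : (Fin (N + 1) → ι) → MvPolynomial (Option (Fin (N + 1))) ℂ,
      ∃ P' : (Fin (N + 1) → ι) → MvPolynomial (Option (Fin (N + 1))) ℂ,
        (∀ s, M.Phi (lev m c s) s P' = M.act (lev m c s) (qq a ^ δ.length)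
          ((δ.map (fun i => M.lin (a i))).prod *
            M.Phi (lev m (fun i => c i + δ.count i) s) s P)) ∧
        ∀ t : ℝ, 0 < t → Gp a (lev m c t) (N + 1) Finset.univ (NN P' t ξ) (y t) =
          Gp a (lev m (fun i => c i + δ.count i) t) (N + 1) Finset.univ (NN P t ξ) (y' t) := by
  induction δ with
  | nil =>
    intro c y hy
    refine ⟨y, hy, fun P => ⟨P, fun s => ?_, fun t ht => ?_⟩⟩
    · simp only [List.map_nil, List.prod_nil, one_mul, List.count_nil, add_zero,
        List.length_nil, pow_zero, map_one, Module.End.one_apply]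
    · simp only [List.count_nil, add_zero]
  | cons i δ ih =>
    intro c y hy
    have hc : ∀ t : ℂ, ∀ H ∈ hyp a Finset.univ,
        (eval ξ (qH a H) * (a i ⬝ᵥ nv a Finset.univ H)) ≠ 0 → ∀ j ∈ H,
        lev m c t j = lev m (c + Pi.single i 1) t j := by
      intro t H hH hne j hj
      have h1 : a i ⬝ᵥ nv a Finset.univ H ≠ 0 := right_ne_zero_of_mul hne
      have h2 : i ∉ H := by
        intro hi
        apply h1
        rw [nv_spec a hH (a i) (Submodule.subset_span ⟨i, Finset.mem_coe.2 (Finset.mem_univ i), rfl⟩)]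
        exact Submodule.subset_span ⟨i, Finset.mem_coe.2 hi, rfl⟩
      have h3 : j ≠ i := fun h => h2 (h ▸ hj)
      simp only [lev, Pi.add_apply, Pi.single_eq_of_ne h3, add_zero]
    obtain ⟨y', hy', hP⟩ := ih (c + Pi.single i 1)
      (fun s => T a (lev m (c + Pi.single i 1) s)
        (fun H => eval ξ (qH a H) * (a i ⬝ᵥ nv a Finset.univ H)) (y s))
      (PolyE_T a hy m (c + Pi.single i 1) _)
    refine ⟨y', hy', fun P => ?_⟩
    obtain ⟨P1, h1, h2⟩ := hP P
    obtain ⟨P', h3, h4⟩ := exists_sharp M hr m c i P1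
    refine ⟨P', fun s => ?_, fun t ht => ?_⟩
    · rw [h3 s, h1 s, lev_cons, ← lev_add_single, ← M.act_shift, ← Module.End.mul_apply, ← map_mul,
        List.length_cons, pow_succ', List.map_cons, List.prod_cons, mul_assoc]
    · rw [h4, Gp_T a ha (lev m c t) (lev m (c + Pi.single i 1) t) (good_lev a m c hm t ht)
        (good_lev a m (c + Pi.single i 1) hm t ht) (N + 1) hr _ (hc t) (NN P1 t ξ) (y t), h2 t ht,
        lev_cons]

end MPb07157.ND
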