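import Pool.Agent.Lib.MP_b07157_ag.ND.Lead
import Pool.Agent.Lib.MP_b07157_ag.ND.CInjMain

/-! # Injectivity -/

noncomputable section

namespace MPb07157.ND

open Finset MvPolynomial

variable {n : ℕ} {ι : Type} [Fintype ι] [DecidableEq ι] {a : ι → Fin n → ℂ} {𝔽 : Type}
  [CommRing 𝔽] [Algebra ℂ 𝔽] (M : Model a 𝔽)

theorem isBas_of_det {n : ℕ} {ι : Type} [Fintype ι] [DecidableEq ι] (a : ι → Fin n → ℂ)
    (hr : rk a (Finset.univ : Finset ι) = n) (t : Fin n → ι)
    (ht : Matrix.det (fun i j => a (t i) j) ≠ 0) :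
    Function.Injective t ∧ IsBas a Finset.univ (Finset.univ.image t) := by
  have hli : LinearIndependent ℂ (fun i => a (t i)) :=
    Matrix.linearIndependent_rows_of_det_ne_zero ht
  have hinj : Function.Injective t := by
    intro i j hij
    exact hli.injective (by simp only [hij])
  refine ⟨hinj, Finset.subset_univ _, ?_, ?_⟩
  · rw [Finset.card_image_of_injective _ hinj, Finset.card_univ, Fintype.card_fin, hr]
  · rw [hr]
    unfold rk spn
    have h1 : a '' ((Finset.univ.image t : Finset ι) : Set ι) = Set.range (fun i => a (t i)) := by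
      ext v
      simp
    rw [h1, finrank_span_eq_card hli, Fintype.card_fin]

omit [Fintype ι] [DecidableEq ι] in
private theorem Lead_zero_inj (d : ℕ) : Lead d (fun _ => (0 : 𝔽)) 0 :=
  ⟨fun _ => 0, fun s => by simp⟩

omit [Fintype ι] [DecidableEq ι] in
private theorem Lead_sum_inj {κ : Type} (S : Finset κ) {d : ℕ} {φ : κ → ℂ → 𝔽} {c : κ → 𝔽}
    (h : ∀ k ∈ S, Lead d (φ k) (c k)) :
    Lead d (fun s => ∑ k ∈ S, φ k s) (∑ k ∈ S, c k) := by
  classical
  induction S using Finset.induction_on with
  | empty => simpa using Lead_zero_inj (𝔽 := 𝔽) d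
  | insert k S hk ih =>
    have h1 := Lead_add (h k (Finset.mem_insert_self k S))
      (ih fun j hj => h j (Finset.mem_insert_of_mem hj))
    simp only [Finset.sum_insert hk]
    exact h1

omit [DecidableEq ι] in
private theorem ev_gr (m : ι → ℕ) (x : Fin n → ℂ) (hx : x ∈ Ucomp a Finset.univ) (j : Fin n) :
    M.ev x hx (M.gr (fun i => (m i : ℂ)) j) = xi a m Finset.univ x j := by
  unfold Model.gr xi
  rw [map_sum, Finset.sum_apply]
  refine Finset.sum_congr rfl fun i _ => ?_
  rw [map_smul, M.ev_inv, Pi.smul_apply, smul_eq_mul, smul_eq_mul, div_eq_mul_inv]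
  ring

omit [DecidableEq ι] in
private theorem ev_evt (x : Fin n → ℂ) (hx : x ∈ Ucomp a Finset.univ) (t : Fin n → ι) :
    M.ev x hx (M.evt t) = evt a t x := by
  unfold Model.evt evt
  rw [map_smul, map_prod, smul_eq_mul, div_eq_mul_inv, ← Finset.prod_inv_distrib]
  simp only [M.ev_inv]

private theorem eval_hc_smul {σ : Type} [Fintype σ] (P : MvPolynomial σ ℂ) (d : ℕ) (c : ℂ)
    (f : σ → ℂ) : eval (c • f) (homogeneousComponent d P) =
      c ^ d * eval f (homogeneousComponent d P) := by
  rw [eval_eq', eval_eq', Finset.mul_sum]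
  refine Finset.sum_congr rfl fun μ hμ => ?_
  have h1 : μ.degree = d := by
    have h2 := mem_support_iff.1 hμ
    rw [coeff_homogeneousComponent] at h2
    by_contra h3
    rw [if_neg h3] at h2
    exact h2 rfl
  have h2 : ∏ i, (c • f) i ^ μ i = c ^ d * ∏ i, f i ^ μ i := by
    simp only [Pi.smul_apply, smul_eq_mul, mul_pow, Finset.prod_mul_distrib]
    rw [Finset.prod_pow_eq_pow_sum, ← Finsupp.degree_eq_sum, h1]
  rw [h2]
  ring

omit [Fintype ι] [DecidableEq ι] in
private theorem opt_one_smul (s : ℂ) (hs : s ≠ 0) (ξ : Fin n → ℂ) :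
    opt s ξ = s • opt 1 (s⁻¹ • ξ) := by
  funext o
  cases o with
  | none => simp [opt]
  | some j => simp [opt, hs]

/-- the relation for the top components -/
theorem inj_top (ha : ∀ i, a i ≠ 0) (hr : rk a (Finset.univ : Finset ι) = n) (m : ι → ℕ)
    (hm : ∀ i, 0 < m i) (c : ι → ℂ) (P : (Fin n → ι) → MvPolynomial (Option (Fin n)) ℂ) (d : ℕ)
    (hd : ∀ t, (P t).totalDegree ≤ d)
    (h : ∀ s : ℂ, M.Phi (fun i => (m i : ℂ) * s + c i) s P = 0) (s : ℂ) (ξ x : Fin n → ℂ)
    (hx : x ∈ Ucomp a Finset.univ) :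
    ∑ t, eval (opt s ξ) (homogeneousComponent d (P t)) * evt a t x = 0 := by
  classical
  -- the relation in `𝔽`
  have hL : Lead d (fun _ : ℂ => (0 : 𝔽)) (∑ t,
      aeval (fun o : Option (Fin n) => o.elim 1 (M.gr (fun i => (m i : ℂ))))
        (homogeneousComponent d (P t)) * M.evt t) := by
    have h1 := Lead_sum_inj (Finset.univ : Finset (Fin n → ι)) (d := d)
      (φ := fun t s => M.act (fun i => (m i : ℂ) * s + c i) (sp s (P t)) (M.evt t))
      (c := fun t => aeval (fun o : Option (Fin n) => o.elim 1 (M.gr (fun i => (m i : ℂ))))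
        (homogeneousComponent d (P t)) * M.evt t)
      (fun t _ => Lead_act M m c (P t) d (hd t) (M.evt t))
    have h2 : (fun s => ∑ t, M.act (fun i => (m i : ℂ) * s + c i) (sp s (P t)) (M.evt t)) =
        fun _ : ℂ => (0 : 𝔽) := funext fun s => h s
    rw [h2] at h1
    exact h1
  have h0 := Lead_unique M hL
  -- evaluate
  have h3 : ∀ y ∈ Ucomp a Finset.univ,
      ∑ t, eval (opt 1 (xi a m Finset.univ y)) (homogeneousComponent d (P t)) * evt a t y = 0 := by
    intro y hy
    have h4 := congrArg (M.ev y hy) h0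
    rw [map_sum, map_zero] at h4
    rw [← h4]
    refine Finset.sum_congr rfl fun t _ => ?_
    rw [map_mul, ev_evt, comp_aeval_apply, aeval_eq_eval]
    congr 2
    congr 1
    funext o
    cases o with
    | none => simp [opt]
    | some j =>
      change xi a m Finset.univ y j = M.ev y hy (M.gr (fun i => (m i : ℂ)) j)
      rw [ev_gr]
  -- the complex injectivity
  have hPol : ∀ t : Fin n → ι, ∃ e, (fun ξ => Matrix.det (fun i j => a (t i) j) *
      eval (opt 1 ξ) (homogeneousComponent d (P t))) ∈ Pol n e := by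
    intro t
    obtain ⟨e, he⟩ := Pol_mvPolynomial (sp 1 (homogeneousComponent d (P t)))
    refine ⟨e, ?_⟩
    have h5 := Pol_smul (Matrix.det (fun i j => a (t i) j)) he
    simpa only [eval_sp] using h5
  choose e he using hPol
  have h6 := cInj a ha m hm n Finset.univ (isFlat_univ a) hr (Finset.univ.sup e)
    (Finset.univ.filter fun t : Fin n → ι => Matrix.det (fun i j => a (t i) j) ≠ 0)
    (fun t => Finset.univ.image t)
    (fun t ξ => Matrix.det (fun i j => a (t i) j) *
      eval (opt 1 ξ) (homogeneousComponent d (P t)))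
    (fun t ht => (isBas_of_det a hr t (Finset.mem_filter.1 ht).2).2)
    (fun t _ => Pol_mono (Finset.le_sup (Finset.mem_univ t)) (he t))
  have hconv : ∀ (ξ y : Fin n → ℂ),
      ∑ t ∈ Finset.univ.filter (fun t : Fin n → ι => Matrix.det (fun i j => a (t i) j) ≠ 0),
        (Matrix.det (fun i j => a (t i) j) *
          eval (opt 1 ξ) (homogeneousComponent d (P t))) / ∏ i ∈ Finset.univ.image t, (a i ⬝ᵥ y)
      = ∑ t, eval (opt 1 ξ) (homogeneousComponent d (P t)) * evt a t y := by
    intro ξ y
    rw [Finset.sum_filter]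
    refine Finset.sum_congr rfl fun t _ => ?_
    by_cases hdet : Matrix.det (fun i j => a (t i) j) ≠ 0
    · rw [if_pos hdet, Finset.prod_image (fun i _ j _ hij => (isBas_of_det a hr t hdet).1 hij)]
      unfold evt
      ring
    · rw [if_neg hdet]
      rw [not_not] at hdet
      unfold evt
      rw [hdet, zero_div, mul_zero]
  have h7 : ∀ ξ : Fin n → ℂ, ∀ y ∈ Ucomp a Finset.univ,
      ∑ t, eval (opt 1 ξ) (homogeneousComponent d (P t)) * evt a t y = 0 := by
    intro ξ y hy
    have h8 := h6 (fun z hz => by rw [hconv]; exact h3 z hz) ξ ?_ y hy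
    · rw [hconv] at h8; exact h8
    · have h9 : spn a (Finset.univ : Finset ι) = ⊤ := by
        apply Submodule.eq_top_of_finrank_eq
        rw [Module.finrank_fin_fun]
        exact hr
      rw [h9]
      exact Submodule.mem_top
  -- scaling
  have h8 : ∀ s : ℂ, s ≠ 0 →
      ∑ t, eval (opt s ξ) (homogeneousComponent d (P t)) * evt a t x = 0 := by
    intro s hs
    have h9 := h7 (s⁻¹ • ξ) x hx
    have h10 : ∑ t, eval (opt s ξ) (homogeneousComponent d (P t)) * evt a t x =
        s ^ d * ∑ t, eval (opt 1 (s⁻¹ • ξ)) (homogeneousComponent d (P t)) * evt a t x := by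
      rw [Finset.mul_sum]
      refine Finset.sum_congr rfl fun t _ => ?_
      rw [opt_one_smul s hs, eval_hc_smul]
      ring
    rw [h10, h9, mul_zero]
  have hcont : Continuous fun s : ℂ =>
      ∑ t, eval (opt s ξ) (homogeneousComponent d (P t)) * evt a t x := by
    refine continuous_finsetSum _ fun t _ => ?_
    refine Continuous.mul ?_ continuous_const
    refine (MvPolynomial.continuous_eval (homogeneousComponent d (P t))).comp ?_
    refine continuous_pi fun o => ?_
    cases o with
    | none => exact continuous_id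
    | some j => exact continuous_const
  have h11 : (fun s : ℂ => ∑ t, eval (opt s ξ) (homogeneousComponent d (P t)) * evt a t x) =
      fun _ => 0 := by
    refine Continuous.ext_on (dense_compl_singleton (0 : ℂ)) hcont continuous_const ?_
    intro s hs
    exact h8 s hs
  exact congrFun h11 s

private theorem opt_surj (f : Option (Fin n) → ℂ) : opt (f none) (fun j => f (some j)) = f := by
  funext o
  cases o <;> rfl

/-- a family with `∑_t P_t(s,ξ) evt_t(x) = 0` identically has `Phi = 0` -/
theorem Phi_eq_zero (P : (Fin n → ι) → MvPolynomial (Option (Fin n)) ℂ)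
    (h : ∀ (s : ℂ) (ξ x : Fin n → ℂ), x ∈ Ucomp a Finset.univ →
      ∑ t, eval (opt s ξ) (P t) * evt a t x = 0) (w : ι → ℂ) (s : ℂ) : M.Phi w s P = 0 := by
  classical
  have h1 : ∀ x ∈ Ucomp a Finset.univ, (∑ t, C (evt a t x) * P t) = 0 := by
    intro x hx
    apply MvPolynomial.funext
    intro f
    rw [map_sum, map_zero, ← h (f none) (fun j => f (some j)) x hx]
    refine Finset.sum_congr rfl fun t _ => ?_
    rw [map_mul, eval_C, opt_surj, mul_comm]
  have h2 : ∀ μ : Option (Fin n) →₀ ℕ, ∑ t, coeff μ (P t) • M.evt t = 0 := by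
    intro μ
    apply M.ext
    intro x hx
    have h3 := congrArg (coeff μ) (h1 x hx)
    rw [coeff_sum, coeff_zero] at h3
    rw [map_sum, ← h3]
    refine Finset.sum_congr rfl fun t _ => ?_
    rw [map_smul, ev_evt, coeff_C_mul, smul_eq_mul, mul_comm]
  set S : Finset (Option (Fin n) →₀ ℕ) := Finset.univ.biUnion fun t => (P t).support with hS
  have h4 : ∀ t, P t = ∑ μ ∈ S, coeff μ (P t) • monomial μ (1 : ℂ) := by
    intro t
    have h5 : (P t).support ⊆ S := Finset.subset_biUnion_of_mem
      (fun t => (P t).support) (Finset.mem_univ t)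
    conv_lhs => rw [(P t).as_sum]
    rw [Finset.sum_subset h5]
    · refine Finset.sum_congr rfl fun μ _ => ?_
      rw [smul_monomial, smul_eq_mul, mul_one]
    · intro μ _ hμ
      rw [notMem_support_iff.1 hμ, monomial_zero]
  unfold Model.Phi
  have h6 : ∀ t, M.act w (sp s (P t)) (M.evt t) =
      ∑ μ ∈ S, M.act w (sp s (monomial μ (1 : ℂ))) (coeff μ (P t) • M.evt t) := by
    intro t
    conv_lhs => rw [h4 t]
    rw [map_sum, map_sum, LinearMap.sum_apply]
    refine Finset.sum_congr rfl fun μ _ => ?_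
    rw [map_smul, map_smul, LinearMap.smul_apply, map_smul]
  rw [Finset.sum_congr rfl fun t _ => h6 t, Finset.sum_comm]
  refine Finset.sum_eq_zero fun μ _ => ?_
  rw [← map_sum, h2, map_zero]

private theorem inj_aux (ha : ∀ i, a i ≠ 0) (hr : rk a (Finset.univ : Finset ι) = n) (m : ι → ℕ)
    (hm : ∀ i, 0 < m i) (c : ι → ℂ) (d : ℕ) :
    ∀ P : (Fin n → ι) → MvPolynomial (Option (Fin n)) ℂ,
    (∀ t μ, d ≤ Finsupp.degree μ → coeff μ (P t) = 0) →
    (∀ s : ℂ, M.Phi (fun i => (m i : ℂ) * s + c i) s P = 0) → ∀ (s : ℂ) (ξ x : Fin n → ℂ),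
    x ∈ Ucomp a Finset.univ → ∑ t, eval (opt s ξ) (P t) * evt a t x = 0 := by
  induction d with
  | zero =>
    intro P hP _ s ξ x _
    refine Finset.sum_eq_zero fun t _ => ?_
    have h1 : P t = 0 := by
      ext μ
      rw [hP t μ (Nat.zero_le _), coeff_zero]
    rw [h1, map_zero, zero_mul]
  | succ d ih =>
    intro P hP h s ξ x hx
    have hdeg : ∀ t, (P t).totalDegree ≤ d := by
      intro t
      unfold totalDegree
      refine Finset.sup_le fun μ hμ => ?_
      by_contra hc
      push Not at hc
      refine mem_support_iff.1 hμ (hP t μ ?_)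
      have h2 : Finsupp.degree μ = μ.sum fun _ e => e := rfl
      rw [h2]
      exact hc
    have htop := inj_top M ha hr m hm c P d hdeg h
    have hQ := Phi_eq_zero M (fun t => homogeneousComponent d (P t)) htop
    have hP' := ih (fun t => P t - homogeneousComponent d (P t)) ?_ ?_ s ξ x hx
    · have h3 : ∑ t, eval (opt s ξ) (P t) * evt a t x =
          ∑ t, eval (opt s ξ) (homogeneousComponent d (P t)) * evt a t x +
          ∑ t, eval (opt s ξ) (P t - homogeneousComponent d (P t)) * evt a t x := by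
        rw [← Finset.sum_add_distrib]
        refine Finset.sum_congr rfl fun t _ => ?_
        rw [map_sub]
        ring
      rw [h3, htop s ξ x hx, hP', add_zero]
    · intro t μ hμ
      rw [coeff_sub, coeff_homogeneousComponent]
      by_cases h4 : μ.degree = d
      · rw [if_pos h4, sub_self]
      · rw [if_neg h4, sub_zero]
        exact hP t μ (by omega)
    · intro s
      have h5 : M.Phi (fun i => (m i : ℂ) * s + c i) s P =
          M.Phi (fun i => (m i : ℂ) * s + c i) s (fun t => homogeneousComponent d (P t)) +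
          M.Phi (fun i => (m i : ℂ) * s + c i) s
            (fun t => P t - homogeneousComponent d (P t)) := by
        unfold Model.Phi
        rw [← Finset.sum_add_distrib]
        refine Finset.sum_congr rfl fun t _ => ?_
        rw [← LinearMap.add_apply, ← map_add, ← map_add, add_sub_cancel]
      rw [h s, hQ, zero_add] at h5
      exact h5.symm

/-- **injectivity** -/
theorem inj (ha : ∀ i, a i ≠ 0) (hr : rk a (Finset.univ : Finset ι) = n) (m : ι → ℕ)
    (hm : ∀ i, 0 < m i) (c : ι → ℂ) (P : (Fin n → ι) → MvPolynomial (Option (Fin n)) ℂ)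
    (h : ∀ s : ℂ, M.Phi (fun i => (m i : ℂ) * s + c i) s P = 0) (s : ℂ) (ξ x : Fin n → ℂ)
    (hx : x ∈ Ucomp a Finset.univ) :
    ∑ t, eval (opt s ξ) (P t) * evt a t x = 0 := by
  refine inj_aux M ha hr m hm c ((Finset.univ.sup fun t => (P t).totalDegree) + 1) P ?_ h s ξ x hx
  intro t μ hμ
  by_contra hc
  have h1 : Finsupp.degree μ ≤ (P t).totalDegree := le_totalDegree (mem_support_iff.2 hc)
  have h2 : (P t).totalDegree ≤ Finset.univ.sup fun t => (P t).totalDegree :=
    Finset.le_sup (f := fun t => (P t).totalDegree) (Finset.mem_univ t)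
  omega

end MPb07157.ND
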