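import Pool.Agent.Lib.MP_b07157_ag.ND.Defs

/-! # Matroid lemmas -/

noncomputable section

namespace MPb07157.ND

open Finset

set_option linter.unusedSectionVars false

variable {n : ℕ} {ι : Type} [DecidableEq ι] (a : ι → Fin n → ℂ)

theorem spn_mono {S T : Finset ι} (h : S ⊆ T) : spn a S ≤ spn a T :=
  Submodule.span_mono (Set.image_mono (by exact_mod_cast h))

theorem mem_spn {S : Finset ι} {i : ι} (h : i ∈ S) : a i ∈ spn a S :=
  Submodule.subset_span ⟨i, by exact_mod_cast h, rfl⟩

theorem rk_mono {S T : Finset ι} (h : S ⊆ T) : rk a S ≤ rk a T :=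
  Submodule.finrank_mono (spn_mono a h)

theorem rk_le_card (S : Finset ι) : rk a S ≤ S.card := by
  classical
  unfold rk spn
  rw [← Finset.coe_image]
  exact (finrank_span_finset_le_card _).trans Finset.card_image_le

theorem rk_empty : rk a (∅ : Finset ι) = 0 := by
  have := rk_le_card a (∅ : Finset ι)
  simpa using this

theorem rk_eq_zero_iff (ha : ∀ i, a i ≠ 0) {S : Finset ι} : rk a S = 0 ↔ S = ∅ := by
  constructor
  · intro h
    by_contra hne
    obtain ⟨i, hi⟩ := Finset.nonempty_iff_ne_empty.2 hne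
    have h1 : spn a S = ⊥ := Submodule.finrank_eq_zero.1 h
    have h2 := mem_spn a hi
    rw [h1, Submodule.mem_bot] at h2
    exact ha i h2
  · rintro rfl
    exact rk_empty a

theorem rk_insert_le (i : ι) (S : Finset ι) : rk a (insert i S) ≤ rk a S + 1 := by
  unfold rk spn
  rw [Finset.coe_insert, Set.image_insert_eq, Submodule.span_insert]
  refine (Submodule.finrank_add_le_finrank_add_finrank _ _).trans ?_
  rw [add_comm]
  refine Nat.add_le_add le_rfl ?_
  refine (finrank_span_le_card ({a i} : Set (Fin n → ℂ))).trans ?_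
  simp

theorem mem_hyp {F H : Finset ι} : H ∈ hyp a F ↔ H ⊆ F ∧ IsFlat a H ∧ rk a H + 1 = rk a F := by
  simp only [hyp, Finset.mem_filter, Finset.mem_powerset]

theorem spn_eq_of_rk_le {S T : Finset ι} (h : S ⊆ T) (h' : rk a T ≤ rk a S) :
    spn a S = spn a T :=
  Submodule.eq_of_le_of_finrank_le (spn_mono a h) h'

/-- a subset of a flat of the same rank spans it -/
theorem flat_eq_of_rk_le {S T : Finset ι} (h : S ⊆ T) (hS : IsFlat a S) (h' : rk a T ≤ rk a S) :
    S = T := by
  refine Finset.Subset.antisymm h fun i hi => hS i ?_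
  rw [spn_eq_of_rk_le a h h']
  exact mem_spn a hi

theorem isFlat_empty (ha : ∀ i, a i ≠ 0) : IsFlat a (∅ : Finset ι) := by
  intro i hi
  have h1 : spn a (∅ : Finset ι) = ⊥ := by simp [spn]
  rw [h1, Submodule.mem_bot] at hi
  exact absurd hi (ha i)

theorem isFlat_univ [Fintype ι] : IsFlat a (Finset.univ : Finset ι) :=
  fun i _ => Finset.mem_univ i

theorem isFlat_inter {S T : Finset ι} (hS : IsFlat a S) (hT : IsFlat a T) :
    IsFlat a (S ∩ T) := by
  intro i hi
  exact Finset.mem_inter.2 ⟨hS i (spn_mono a Finset.inter_subset_left hi),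
    hT i (spn_mono a Finset.inter_subset_right hi)⟩

theorem cl_subset (F S : Finset ι) : cl a F S ⊆ F := by
  intro i hi
  simp only [cl, Finset.mem_filter] at hi
  exact hi.1

theorem mem_cl {F S : Finset ι} {i : ι} : i ∈ cl a F S ↔ i ∈ F ∧ a i ∈ spn a S := by
  simp only [cl, Finset.mem_filter]

theorem subset_cl {F S : Finset ι} (h : S ⊆ F) : S ⊆ cl a F S :=
  fun _ hi => (mem_cl a).2 ⟨h hi, mem_spn a hi⟩

theorem spn_cl {F S : Finset ι} (h : S ⊆ F) : spn a (cl a F S) = spn a S := by
  refine le_antisymm ?_ (spn_mono a (subset_cl a h))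
  refine Submodule.span_le.2 ?_
  rintro _ ⟨i, hi, rfl⟩
  exact ((mem_cl a).1 (by exact_mod_cast hi)).2

theorem rk_cl {F S : Finset ι} (h : S ⊆ F) : rk a (cl a F S) = rk a S := by
  unfold rk
  rw [spn_cl a h]

theorem isFlat_cl {F S : Finset ι} (hF : IsFlat a F) (h : S ⊆ F) : IsFlat a (cl a F S) := by
  intro i hi
  rw [spn_cl a h] at hi
  exact (mem_cl a).2 ⟨hF i (spn_mono a h hi), hi⟩

theorem exists_normal {F H : Finset ι} (hH : H ⊆ F) (hr : rk a H + 1 = rk a F) :
    ∃ v, IsNormal a F H v := by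
  have hle : spn a H ≤ spn a F := spn_mono a hH
  have hne : ∃ u ∈ spn a F, u ∉ spn a H := by
    by_contra hcon
    push Not at hcon
    have h1 : spn a F = spn a H := le_antisymm hcon hle
    unfold rk at hr
    rw [h1] at hr
    omega
  obtain ⟨u, huF, huH⟩ := hne
  obtain ⟨f, hfu, hf⟩ := Submodule.exists_dual_map_eq_bot_of_notMem huH inferInstance
  have hfH : ∀ ξ ∈ spn a H, f ξ = 0 := by
    intro ξ hξ
    have : f ξ ∈ (spn a H).map f := Submodule.mem_map_of_mem hξ
    rw [hf, Submodule.mem_bot] at this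
    exact this
  have hdot : ∀ ξ : Fin n → ℂ, ξ ⬝ᵥ (fun j => f (Pi.single j 1)) = f ξ := by
    intro ξ
    have h1 : ξ = ∑ j, ξ j • (Pi.single j 1 : Fin n → ℂ) := by
      ext k
      simp [Finset.sum_apply, Pi.single_apply]
    conv_rhs => rw [h1, map_sum]
    simp only [map_smul, smul_eq_mul]
    rfl
  have hsup : spn a F = spn a H ⊔ Submodule.span ℂ {u} := by
    symm
    refine Submodule.eq_of_le_of_finrank_le (sup_le hle ?_) ?_
    · rw [Submodule.span_singleton_le_iff_mem]
      exact huF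
    · have h2 : Module.finrank ℂ (spn a F) = Module.finrank ℂ (spn a H) + 1 := hr.symm
      rw [h2]
      apply Nat.succ_le_of_lt
      apply Submodule.finrank_lt_finrank_of_lt
      refine lt_of_le_of_ne le_sup_left fun h3 => huH ?_
      rw [h3]
      exact Submodule.mem_sup_right (Submodule.mem_span_singleton_self u)
  refine ⟨fun j => f (Pi.single j 1), fun ξ hξ => ?_⟩
  rw [hdot]
  refine ⟨fun h0 => ?_, hfH ξ⟩
  rw [hsup] at hξ
  obtain ⟨y, hy, z, hz, rfl⟩ := Submodule.mem_sup.1 hξ
  obtain ⟨c, rfl⟩ := Submodule.mem_span_singleton.1 hz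
  rw [map_add, hfH y hy, zero_add, map_smul, smul_eq_mul] at h0
  rcases mul_eq_zero.1 h0 with hc | hc
  · rw [hc, zero_smul, add_zero]
    exact hy
  · exact absurd hc hfu

theorem nv_spec {F H : Finset ι} (hH : H ∈ hyp a F) : IsNormal a F H (nv a F H) := by
  obtain ⟨h1, _, h3⟩ := (mem_hyp a).1 hH
  unfold nv
  rw [dif_pos (exists_normal a h1 h3)]
  exact (exists_normal a h1 h3).choose_spec

theorem rk_insert_of_notMem {S : Finset ι} {i : ι} (h : a i ∉ spn a S) :
    rk a (insert i S) = rk a S + 1 := by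
  refine le_antisymm (rk_insert_le a i S) ?_
  apply Nat.succ_le_of_lt
  apply Submodule.finrank_lt_finrank_of_lt
  refine lt_of_le_of_ne (spn_mono a (Finset.subset_insert i S)) fun h1 => h ?_
  rw [h1]
  exact mem_spn a (Finset.mem_insert_self i S)

/-- for `i ∈ F ∖ G`, a unique flat of corank one lies between `G` and `F` and contains `i` -/
theorem existsUnique_between {F G : Finset ι} (hF : IsFlat a F) (hG : IsFlat a G) (hGF : G ⊆ F)
    (hr : rk a G + 2 = rk a F) {i : ι} (hi : i ∈ F) (hi' : i ∉ G) :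
    ∃! H, H ∈ hyp a F ∧ G ∈ hyp a H ∧ i ∈ H := by
  have hiG : a i ∉ spn a G := fun h => hi' (hG i h)
  have hsub : insert i G ⊆ F := Finset.insert_subset hi hGF
  have hrk := rk_insert_of_notMem a hiG
  refine ⟨cl a F (insert i G), ⟨?_, ?_, ?_⟩, ?_⟩
  · refine (mem_hyp a).2 ⟨cl_subset a _ _, isFlat_cl a hF hsub, ?_⟩
    rw [rk_cl a hsub, hrk]
    omega
  · refine (mem_hyp a).2 ⟨(Finset.subset_insert i G).trans (subset_cl a hsub), hG, ?_⟩
    rw [rk_cl a hsub, hrk]
  · exact subset_cl a hsub (Finset.mem_insert_self i G)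
  · rintro H ⟨h1, h2, h3⟩
    obtain ⟨h1a, h1b, h1c⟩ := (mem_hyp a).1 h1
    obtain ⟨h2a, h2b, h2c⟩ := (mem_hyp a).1 h2
    have h4 : insert i G ⊆ H := Finset.insert_subset h3 h2a
    have h5 : spn a (insert i G) = spn a H := spn_eq_of_rk_le a h4 (by omega)
    refine Finset.Subset.antisymm (fun j hj => (mem_cl a).2 ⟨h1a hj, ?_⟩) fun j hj => h1b j ?_
    · rw [h5]
      exact mem_spn a hj
    · rw [← h5]
      exact ((mem_cl a).1 hj).2

theorem exists_bas_superset {F S : Finset ι} (hS : S ⊆ F) (hr : rk a S = S.card) :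
    ∃ I, IsBas a F I ∧ S ⊆ I := by
  classical
  -- take a maximal independent set between `S` and `F`
  set P : Finset (Finset ι) := F.powerset.filter (fun J => S ⊆ J ∧ rk a J = J.card) with hP
  have hne : P.Nonempty := ⟨S, by rw [hP, Finset.mem_filter, Finset.mem_powerset]; exact
    ⟨hS, Finset.Subset.refl S, hr⟩⟩
  obtain ⟨J, hJ, hmax⟩ := P.exists_max_image Finset.card hne
  rw [hP, Finset.mem_filter, Finset.mem_powerset] at hJ
  obtain ⟨hJF, hSJ, hJr⟩ := hJ
  have hspan : ∀ i ∈ F, a i ∈ spn a J := by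
    intro i hi
    by_contra hcon
    have h1 := rk_insert_of_notMem a hcon
    have hiJ : i ∉ J := fun h => hcon (mem_spn a h)
    have h2 : insert i J ∈ P := by
      rw [hP, Finset.mem_filter, Finset.mem_powerset]
      refine ⟨Finset.insert_subset hi hJF, hSJ.trans (Finset.subset_insert i J), ?_⟩
      rw [h1, hJr, Finset.card_insert_of_notMem hiJ]
    have h3 := hmax _ h2
    rw [Finset.card_insert_of_notMem hiJ] at h3
    omega
  have heq : spn a J = spn a F := by
    refine le_antisymm (spn_mono a hJF) (Submodule.span_le.2 ?_)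
    rintro _ ⟨i, hi, rfl⟩
    exact hspan i (by exact_mod_cast hi)
  have hrk : rk a J = rk a F := by
    unfold rk
    rw [heq]
  exact ⟨J, ⟨hJF, by omega, hrk⟩, hSJ⟩

theorem exists_bas (F : Finset ι) : ∃ I, IsBas a F I := by
  obtain ⟨I, hI, _⟩ := exists_bas_superset a (Finset.empty_subset F) (by rw [rk_empty]; rfl)
  exact ⟨I, hI⟩

theorem IsBas.spn_eq {F I : Finset ι} (h : IsBas a F I) : spn a I = spn a F :=
  spn_eq_of_rk_le a h.1 (by rw [h.2.2])

theorem rk_union_le (S T : Finset ι) : rk a (S ∪ T) ≤ rk a S + T.card := by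
  induction T using Finset.induction_on with
  | empty => simp
  | insert i T hi ih =>
    rw [Finset.union_insert, Finset.card_insert_of_notMem hi]
    have := rk_insert_le a i (S ∪ T)
    omega

/-- subsets of a basis are independent -/
theorem IsBas.rk_subset {F I J : Finset ι} (h : IsBas a F I) (hJ : J ⊆ I) :
    rk a J = J.card := by
  have h1 := rk_union_le a J (I \ J)
  rw [Finset.union_sdiff_of_subset hJ] at h1
  have h2 := rk_le_card a J
  have h3 := Finset.card_sdiff_add_card_eq_card hJ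
  have h4 := h.2.1
  have h5 := h.2.2
  omega

theorem linearIndependent_of_rk {I : Finset ι} (h : rk a I = I.card) :
    LinearIndependent ℂ (fun i : I => a i) := by
  rw [linearIndependent_iff_card_eq_finrank_span]
  rw [Fintype.card_coe, ← h]
  have h1 : Set.range (fun i : I => a i) = a '' (I : Set ι) := by
    ext x
    constructor
    · rintro ⟨⟨i, hi⟩, rfl⟩
      exact ⟨i, by exact_mod_cast hi, rfl⟩
    · rintro ⟨i, hi, rfl⟩
      exact ⟨⟨i, by exact_mod_cast hi⟩, rfl⟩
  rw [Set.finrank, h1]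
  rfl

/-- the hyperplane spanned by `I - b` -/
theorem IsBas.erase_hyp {F I : Finset ι} (hF : IsFlat a F) (h : IsBas a F I) {b : ι}
    (hb : b ∈ I) : cl a F (I.erase b) ∈ hyp a F ∧ b ∉ cl a F (I.erase b) ∧
      IsBas a (cl a F (I.erase b)) (I.erase b) := by
  have hsub : I.erase b ⊆ F := (Finset.erase_subset b I).trans h.1
  have h1 : rk a (I.erase b) = (I.erase b).card := h.rk_subset a (Finset.erase_subset b I)
  have h2 : (I.erase b).card + 1 = I.card := Finset.card_erase_add_one hb
  have h3 := h.2.1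
  refine ⟨(mem_hyp a).2 ⟨cl_subset a _ _, isFlat_cl a hF hsub, ?_⟩, ?_, ?_⟩
  · rw [rk_cl a hsub]
    omega
  · intro hcon
    have h4 := ((mem_cl a).1 hcon).2
    have h5 : spn a I ≤ spn a (I.erase b) := by
      refine Submodule.span_le.2 ?_
      rintro _ ⟨i, hi, rfl⟩
      by_cases hib : i = b
      · rw [hib]
        exact h4
      · exact mem_spn a (Finset.mem_erase.2 ⟨hib, by exact_mod_cast hi⟩)
    have h6 : rk a I ≤ rk a (I.erase b) := Submodule.finrank_mono h5
    have h7 := h.2.2
    omega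
  · exact ⟨subset_cl a hsub, by rw [rk_cl a hsub, h1], by rw [rk_cl a hsub]⟩

/-- and it is the only one containing `I - b` -/
theorem IsBas.hyp_unique {F I H : Finset ι} (h : IsBas a F I) {b : ι}
    (hb : b ∈ I) (hH : H ∈ hyp a F) (hbH : I.erase b ⊆ H) : H = cl a F (I.erase b) := by
  obtain ⟨h1, h2, h3⟩ := (mem_hyp a).1 hH
  have h4 : rk a (I.erase b) = (I.erase b).card := h.rk_subset a (Finset.erase_subset b I)
  have h5 : (I.erase b).card + 1 = I.card := Finset.card_erase_add_one hb
  have h6 := h.2.1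
  have h7 : spn a (I.erase b) = spn a H := spn_eq_of_rk_le a hbH (by omega)
  refine Finset.Subset.antisymm (fun j hj => (mem_cl a).2 ⟨h1 hj, ?_⟩) fun j hj => h2 j ?_
  · rw [h7]
    exact mem_spn a hj
  · rw [← h7]
    exact ((mem_cl a).1 hj).2

/-- if `H` is a hyperplane of `F` containing `I - b`, then `b ∉ H` and `I - b` is a basis of `H` -/
theorem IsBas.erase_bas {F I H : Finset ι} (h : IsBas a F I) {b : ι}
    (hb : b ∈ I) (hH : H ∈ hyp a F) (hbH : I.erase b ⊆ H) : b ∉ H ∧ IsBas a H (I.erase b) := by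
  obtain ⟨h1, h2, h3⟩ := (mem_hyp a).1 hH
  have h4 : rk a (I.erase b) = (I.erase b).card := h.rk_subset a (Finset.erase_subset b I)
  have h5 : (I.erase b).card + 1 = I.card := Finset.card_erase_add_one hb
  have h6 := h.2.1
  have h7 := h.2.2
  refine ⟨fun hbm => ?_, hbH, by omega, by omega⟩
  have h8 : I ⊆ H := by
    intro i hi
    by_cases hib : i = b
    · rw [hib]
      exact hbm
    · exact hbH (Finset.mem_erase.2 ⟨hib, hi⟩)
  have h9 := rk_mono a h8
  omega

/-- exchange: replace `b` by any element outside the hyperplane -/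
theorem IsBas.exchange {F I H : Finset ι} (h : IsBas a F I) {b j : ι}
    (hb : b ∈ I) (hH : H ∈ hyp a F) (hbH : I.erase b ⊆ H) (hj : j ∈ F) (hjH : j ∉ H) :
    j ∉ I.erase b ∧ IsBas a F (insert j (I.erase b)) := by
  obtain ⟨h1, h2, h3⟩ := (mem_hyp a).1 hH
  have h4 : rk a (I.erase b) = (I.erase b).card := h.rk_subset a (Finset.erase_subset b I)
  have h5 : (I.erase b).card + 1 = I.card := Finset.card_erase_add_one hb
  have h6 := h.2.1
  have h7 := h.2.2
  have hj1 : j ∉ I.erase b := fun hcon => hjH (hbH hcon)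
  have h8 : spn a (I.erase b) = spn a H := spn_eq_of_rk_le a hbH (by omega)
  have h9 : a j ∉ spn a (I.erase b) := by
    rw [h8]
    exact fun hcon => hjH (h2 j hcon)
  have h10 := rk_insert_of_notMem a h9
  refine ⟨hj1, Finset.insert_subset hj (hbH.trans h1), ?_, ?_⟩
  · rw [Finset.card_insert_of_notMem hj1]
    omega
  · omega

/-- a basis of `F` is not contained in a hyperplane -/
theorem IsBas.not_subset_hyp {F I H : Finset ι} (h : IsBas a F I) (hH : H ∈ hyp a F) :
    ¬ I ⊆ H := by
  intro hcon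
  obtain ⟨h1, h2, h3⟩ := (mem_hyp a).1 hH
  have h4 := rk_mono a hcon
  have h5 := h.2.2
  omega

end MPb07157.ND
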