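import Pool.Agent.Lib.MP_b07157_ag.ND.Defs

/-! # Exterior algebra lemmas -/

noncomputable section

namespace MPb07157.ND

open Finset

variable {ι : Type} [DecidableEq ι]

omit [DecidableEq ι] in
/-- induction on elements of the exterior algebra -/
theorem E_ind {P : E ι → Prop} (hr : ∀ r, P (algebraMap ℂ (E ι) r))
    (ha : ∀ x y, P x → P y → P (x + y)) (hm : ∀ x m, P x → P (om m * x)) (x : E ι) : P x :=
  CliffordAlgebra.left_induction _ (P := P) hr ha hm x

theorem rho_om' (S : Finset ι) (w : ι → ℂ) : rho S (om w) = om (restr S w) :=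
  ExteriorAlgebra.map_apply_ι _ _

theorem restr_apply (S : Finset ι) (w : ι → ℂ) :
    restr S w = fun i => if i ∈ S then w i else 0 := by
  funext i
  unfold restr
  rw [LinearMap.pi_apply]
  by_cases hi : i ∈ S
  · simp [hi]
  · simp [hi]

theorem e_eq_om (i : ι) : e i = om (Pi.single i 1) := rfl

theorem rho_e (S : Finset ι) (i : ι) : rho S (e i) = if i ∈ S then e i else 0 := by
  rw [e_eq_om, rho_om', restr_apply]
  by_cases hi : i ∈ S
  · rw [if_pos hi]
    congr 1
    funext j
    by_cases hj : j = i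
    · subst hj; simp [hi]
    · simp [hj]
  · rw [if_neg hi]
    have h0 : (fun j => if j ∈ S then (Pi.single i 1 : ι → ℂ) j else 0) = 0 := by
      funext j
      by_cases hj : j = i
      · subst hj; simp [hi]
      · simp [hj]
    rw [h0]
    exact map_zero _

theorem rho_om (S : Finset ι) (w : ι → ℂ) :
    rho S (om w) = om (fun i => if i ∈ S then w i else 0) := by
  rw [rho_om', restr_apply]

theorem rho_algebraMap (S : Finset ι) (r : ℂ) :
    rho S (algebraMap ℂ (E ι) r) = algebraMap ℂ (E ι) r := AlgHom.commutes _ _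

omit [DecidableEq ι] in
theorem aug_algebraMap (r : ℂ) : aug (algebraMap ℂ (E ι) r) = r := AlgHom.commutes _ _

omit [DecidableEq ι] in
theorem hat_algebraMap (r : ℂ) : hat (algebraMap ℂ (E ι) r) = algebraMap ℂ (E ι) r :=
  AlgHom.commutes _ _

omit [DecidableEq ι] in
theorem aug_om (w : ι → ℂ) : aug (om w) = 0 := by
  unfold aug om ExteriorAlgebra.algebraMapInv
  rw [ExteriorAlgebra.lift_ι_apply]
  rfl

omit [DecidableEq ι] in
theorem hat_om (w : ι → ℂ) : hat (om w) = - om w := CliffordAlgebra.involute_ι _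

theorem rho_rho (S T : Finset ι) (x : E ι) : rho S (rho T x) = rho (S ∩ T) x := by
  induction x using E_ind with
  | hr r => simp only [rho_algebraMap]
  | ha x y hx hy => simp only [map_add, hx, hy]
  | hm x m hx =>
    rw [map_mul, map_mul, map_mul, hx, rho_om, rho_om, rho_om]
    congr 2
    funext i
    by_cases h1 : i ∈ S <;> by_cases h2 : i ∈ T <;> simp [h1, h2]

theorem rho_empty (x : E ι) : rho ∅ x = algebraMap ℂ (E ι) (aug x) := by
  induction x using E_ind with
  | hr r => rw [rho_algebraMap, aug_algebraMap]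
  | ha x y hx hy => simp only [map_add, hx, hy]
  | hm x m hx =>
    rw [map_mul, map_mul, aug_om, zero_mul, map_zero, rho_om]
    have h0 : (fun i => if i ∈ (∅ : Finset ι) then m i else 0) = 0 := by
      funext i; simp
    rw [h0]
    have h1 : om (0 : ι → ℂ) = 0 := map_zero _
    rw [h1, zero_mul]

theorem aug_rho (S : Finset ι) (x : E ι) : aug (rho S x) = aug x := by
  induction x using E_ind with
  | hr r => rw [rho_algebraMap]
  | ha x y hx hy => simp only [map_add, hx, hy]
  | hm x m hx => rw [map_mul, map_mul, map_mul, rho_om, aug_om, aug_om, zero_mul, zero_mul]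

omit [DecidableEq ι] in
theorem aug_hat (x : E ι) : aug (hat x) = aug x := by
  induction x using E_ind with
  | hr r => rw [hat_algebraMap]
  | ha x y hx hy => simp only [map_add, hx, hy]
  | hm x m hx => rw [map_mul, map_mul, map_mul, hat_om, map_neg, aug_om, neg_zero,
      zero_mul, zero_mul]

theorem aug_e (i : ι) : aug (e i) = 0 := aug_om _

theorem hat_e (i : ι) : hat (e i) = - e i := hat_om _

theorem hat_rho (S : Finset ι) (x : E ι) : hat (rho S x) = rho S (hat x) := by
  induction x using E_ind with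
  | hr r => rw [rho_algebraMap, hat_algebraMap, rho_algebraMap]
  | ha x y hx hy => simp only [map_add, hx, hy]
  | hm x m hx => rw [map_mul, map_mul, map_mul, map_mul, hx, hat_om, rho_om, hat_om, map_neg,
      rho_om]

omit [DecidableEq ι] in
theorem om_mul_om (v w : ι → ℂ) : om v * om w = - (om w * om v) :=
  eq_neg_of_add_eq_zero_left (ExteriorAlgebra.ι_add_mul_swap v w)

theorem e_mul_e (i j : ι) : e i * e j = - (e j * e i) := om_mul_om _ _

theorem e_mul_self (i : ι) : e i * e i = 0 := ExteriorAlgebra.ι_sq_zero _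

theorem eT_eq_eL {r : ℕ} (t : Fin r → ι) : eT t = eL (List.ofFn t) := by
  unfold eT eL
  rw [ExteriorAlgebra.ιMulti_apply, List.map_ofFn]
  rfl

theorem eL_nil : eL ([] : List ι) = 1 := rfl

theorem eL_cons (i : ι) (l : List ι) : eL (i :: l) = e i * eL l := by
  unfold eL
  rw [List.map_cons, List.prod_cons]

theorem eL_append (l l' : List ι) : eL (l ++ l') = eL l * eL l' := by
  unfold eL
  rw [List.map_append, List.prod_append]

theorem eL_perm {l l' : List ι} (h : l.Perm l') : eL l = eL l' ∨ eL l = - eL l' := by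
  induction h with
  | nil => exact Or.inl rfl
  | cons x _ ih =>
    rw [eL_cons, eL_cons]
    rcases ih with h | h
    · exact Or.inl (by rw [h])
    · exact Or.inr (by rw [h, mul_neg])
  | swap x y l =>
    right
    rw [eL_cons, eL_cons, eL_cons, eL_cons, ← mul_assoc, ← mul_assoc, e_mul_e, neg_mul]
  | trans _ _ ih1 ih2 =>
    rcases ih1 with h1 | h1 <;> rcases ih2 with h2 | h2
    · exact Or.inl (by rw [h1, h2])
    · exact Or.inr (by rw [h1, h2])
    · exact Or.inr (by rw [h1, h2])
    · exact Or.inl (by rw [h1, h2, neg_neg])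

theorem eL_eq_zero_of_mem {i : ι} {l : List ι} (h : i ∈ l) : e i * eL l = 0 := by
  induction l with
  | nil => simp at h
  | cons j l ih =>
    rw [eL_cons]
    rcases List.mem_cons.1 h with rfl | h
    · rw [← mul_assoc, e_mul_self, zero_mul]
    · rw [← mul_assoc, e_mul_e, neg_mul, mul_assoc, ih h, mul_zero, neg_zero]

theorem eL_not_nodup {l : List ι} (h : ¬ l.Nodup) : eL l = 0 := by
  induction l with
  | nil => simp at h
  | cons i l ih =>
    rw [eL_cons]
    by_cases hi : i ∈ l
    · exact eL_eq_zero_of_mem hi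
    · rw [ih, mul_zero]
      intro hn
      exact h (List.nodup_cons.2 ⟨hi, hn⟩)

theorem hat_eL (l : List ι) : hat (eL l) = (-1 : ℂ) ^ l.length • eL l := by
  induction l with
  | nil => simp [eL_nil]
  | cons i l ih =>
    rw [eL_cons, map_mul, ih, hat_e, List.length_cons, pow_succ, mul_neg_one, neg_smul, neg_mul,
      mul_smul_comm]

theorem rho_eL_of_subset {S : Finset ι} {l : List ι} (h : ∀ i ∈ l, i ∈ S) :
    rho S (eL l) = eL l := by
  induction l with
  | nil => rw [eL_nil, map_one]
  | cons i l ih =>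
    rw [eL_cons, map_mul, rho_e, if_pos (h i List.mem_cons_self),
      ih fun j hj => h j (List.mem_cons_of_mem _ hj)]

theorem rho_eL_of_not_subset {S : Finset ι} {l : List ι} (h : ¬ ∀ i ∈ l, i ∈ S) :
    rho S (eL l) = 0 := by
  induction l with
  | nil => simp at h
  | cons i l ih =>
    rw [eL_cons, map_mul, rho_e]
    by_cases hi : i ∈ S
    · rw [ih, mul_zero]
      intro hl
      apply h
      intro j hj
      rcases List.mem_cons.1 hj with rfl | hj
      · exact hi
      · exact hl j hj
    · rw [if_neg hi, zero_mul]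

variable [Fintype ι]

theorem rho_univ (x : E ι) : rho Finset.univ x = x := by
  induction x using E_ind with
  | hr r => rw [rho_algebraMap]
  | ha x y hx hy => simp only [map_add, hx, hy]
  | hm x m hx =>
    rw [map_mul, hx, rho_om]
    simp

omit [DecidableEq ι] in
theorem fnl_apply (φ w : ι → ℂ) : fnl φ w = ∑ i, φ i * w i := by
  unfold fnl
  rw [LinearMap.sum_apply]
  rfl

omit [DecidableEq ι] in
theorem ctr_one (φ : ι → ℂ) : ctr φ 1 = 0 := CliffordAlgebra.contractLeft_one _ _

omit [DecidableEq ι] in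
theorem ctr_algebraMap (φ : ι → ℂ) (c : ℂ) : ctr φ (algebraMap ℂ (E ι) c) = 0 :=
  CliffordAlgebra.contractLeft_algebraMap _ _ _

omit [DecidableEq ι] in
theorem ctr_om (φ : ι → ℂ) (w : ι → ℂ) :
    ctr φ (om w) = algebraMap ℂ (E ι) (∑ i, φ i * w i) := by
  rw [← fnl_apply]
  exact CliffordAlgebra.contractLeft_ι _ (fnl φ) w

omit [DecidableEq ι] in
theorem ctr_om_mul (φ w : ι → ℂ) (x : E ι) :
    ctr φ (om w * x) = (∑ i, φ i * w i) • x - om w * ctr φ x := by
  rw [← fnl_apply]
  exact CliffordAlgebra.contractLeft_ι_mul _ _ _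

theorem ctr_e (φ : ι → ℂ) (i : ι) : ctr φ (e i) = algebraMap ℂ (E ι) (φ i) := by
  rw [e_eq_om, ctr_om]
  simp [Pi.single_apply]

theorem ctr_e_mul (φ : ι → ℂ) (i : ι) (x : E ι) :
    ctr φ (e i * x) = φ i • x - e i * ctr φ x := by
  rw [e_eq_om, ctr_om_mul]
  simp [Pi.single_apply]

omit [DecidableEq ι] in
theorem ctr_mul (φ : ι → ℂ) (x y : E ι) : ctr φ (x * y) = ctr φ x * y + hat x * ctr φ y := by
  induction x using E_ind with
  | hr r =>
    rw [hat_algebraMap, ctr_algebraMap, zero_mul, zero_add, ← Algebra.smul_def,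
      ← Algebra.smul_def, map_smul]
  | ha x z hx hz =>
    rw [add_mul, map_add, hx, hz, map_add, map_add, add_mul, add_mul]
    abel
  | hm x m hx =>
    rw [mul_assoc, ctr_om_mul, hx, ctr_om_mul, map_mul, hat_om, sub_mul, smul_mul_assoc, mul_add,
      neg_mul, neg_mul, mul_assoc, mul_assoc]
    abel

omit [DecidableEq ι] in
theorem fnl_add (φ ψ : ι → ℂ) : fnl (φ + ψ) = fnl φ + fnl ψ := by
  ext w
  simp [fnl_apply, add_mul, Finset.sum_add_distrib]

omit [DecidableEq ι] in
theorem ctr_add (φ ψ : ι → ℂ) (x : E ι) : ctr (φ + ψ) x = ctr φ x + ctr ψ x := by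
  unfold ctr
  rw [fnl_add, map_add]
  rfl

omit [DecidableEq ι] in
theorem ctr_smul (c : ℂ) (φ : ι → ℂ) (x : E ι) : ctr (c • φ) x = c • ctr φ x := by
  have h : fnl (c • φ) = c • fnl φ := by
    apply LinearMap.ext
    intro w
    rw [LinearMap.smul_apply, fnl_apply, fnl_apply, smul_eq_mul, Finset.mul_sum]
    apply Finset.sum_congr rfl
    intro i _
    rw [Pi.smul_apply, smul_eq_mul, mul_assoc]
  unfold ctr
  rw [h, map_smul]
  rfl

omit [DecidableEq ι] in
theorem ctr_zero (x : E ι) : ctr (0 : ι → ℂ) x = 0 := by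
  have h := ctr_smul (0 : ℂ) (0 : ι → ℂ) x
  rwa [zero_smul, zero_smul] at h

omit [DecidableEq ι] in
theorem ctr_sum {κ : Type} (s : Finset κ) (φ : κ → ι → ℂ) (x : E ι) :
    ctr (∑ k ∈ s, φ k) x = ∑ k ∈ s, ctr (φ k) x := by
  classical
  induction s using Finset.induction_on with
  | empty => rw [Finset.sum_empty, Finset.sum_empty, ctr_zero]
  | insert k s hk ih => rw [Finset.sum_insert hk, Finset.sum_insert hk, ctr_add, ih]

omit [DecidableEq ι] in
theorem ctr_comm (φ ψ : ι → ℂ) (x : E ι) : ctr φ (ctr ψ x) = - ctr ψ (ctr φ x) :=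
  CliffordAlgebra.contractLeft_comm _ _ _

omit [DecidableEq ι] in
theorem ctr_ctr (φ : ι → ℂ) (x : E ι) : ctr φ (ctr φ x) = 0 :=
  CliffordAlgebra.contractLeft_contractLeft _ _

omit [DecidableEq ι] in
theorem hat_ctr (φ : ι → ℂ) (x : E ι) : hat (ctr φ x) = - ctr φ (hat x) := by
  induction x using E_ind with
  | hr r => rw [hat_algebraMap, ctr_algebraMap, map_zero, neg_zero]
  | ha x y hx hy => rw [map_add, map_add, map_add, map_add, hx, hy, neg_add]
  | hm x m hx =>
    rw [ctr_om_mul, map_mul, hat_om, neg_mul, map_neg, ctr_om_mul, map_sub, map_smul, map_mul,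
      hat_om, hx, neg_mul_neg, neg_neg]

theorem ctr_rho (φ : ι → ℂ) (S : Finset ι) (x : E ι) :
    ctr φ (rho S x) = rho S (ctr (fun i => if i ∈ S then φ i else 0) x) := by
  induction x using E_ind with
  | hr r => rw [rho_algebraMap, ctr_algebraMap, ctr_algebraMap, map_zero]
  | ha x y hx hy => rw [map_add, map_add, map_add, map_add, hx, hy]
  | hm x m hx =>
    rw [map_mul, rho_om, ctr_om_mul, ctr_om_mul, hx, map_sub, map_smul, map_mul, rho_om]
    congr 2
    apply Finset.sum_congr rfl
    intro i _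
    by_cases hi : i ∈ S <;> simp [hi]

theorem ctr_ind_rho (S T : Finset ι) (x : E ι) :
    ctr (ind S) (rho T x) = rho T (ctr (ind (S ∩ T)) x) := by
  rw [ctr_rho]
  congr 3
  funext i
  by_cases h1 : i ∈ S <;> by_cases h2 : i ∈ T <;> simp [ind, h1, h2]

omit [Fintype ι] in
theorem ind_union {S T : Finset ι} (h : Disjoint S T) :
    ind (S ∪ T) = (ind S + ind T : ι → ℂ) := by
  funext i
  rw [Pi.add_apply]
  by_cases h1 : i ∈ S
  · have h2 : i ∉ T := fun h2 => (Finset.disjoint_left.1 h h1) h2
    simp [ind, h1, h2]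
  · by_cases h2 : i ∈ T <;> simp [ind, h1, h2]

omit [Fintype ι] in
theorem ind_sdiff {S T : Finset ι} (h : T ⊆ S) : ind (S \ T) = (ind S - ind T : ι → ℂ) := by
  funext i
  rw [Pi.sub_apply]
  by_cases h2 : i ∈ T
  · simp [ind, h2, h h2]
  · by_cases h1 : i ∈ S <;> simp [ind, h1, h2]

omit [Fintype ι] in
theorem ind_empty : ind (∅ : Finset ι) = (0 : ι → ℂ) := by
  funext i
  simp [ind]

theorem D_apply (F H : Finset ι) (x : E ι) : D F H x = rho H (ctr (ind (F \ H)) x) := rfl

theorem D_mul (F H : Finset ι) (x y : E ι) :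
    D F H (x * y) = D F H x * rho H y + rho H (hat x) * D F H y := by
  rw [D_apply, ctr_mul, map_add, map_mul, map_mul]
  rfl

theorem D_om_mul (F H : Finset ι) (w : ι → ℂ) (x : E ι) :
    D F H (om w * x) = wt w (F \ H) • rho H x - rho H (om w) * D F H x := by
  rw [D_apply, ctr_om_mul, map_sub, map_smul, map_mul, D_apply]
  congr 2
  unfold wt
  rw [← Finset.sum_filter_add_sum_filter_not Finset.univ (fun i => i ∈ F \ H)]
  rw [Finset.filter_mem_eq_inter, Finset.univ_inter]
  have h1 : ∑ i ∈ Finset.univ.filter (fun i => ¬ i ∈ F \ H), (ind (F \ H) : ι → ℂ) i * w i = 0 := by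
    apply Finset.sum_eq_zero
    intro i hi
    rw [Finset.mem_filter] at hi
    unfold ind
    rw [if_neg hi.2, zero_mul]
  rw [h1, add_zero]
  apply Finset.sum_congr rfl
  intro i hi
  unfold ind
  rw [if_pos hi, one_mul]

theorem rho_D (F H : Finset ι) (x : E ι) : rho H (D F H x) = D F H x := by
  rw [D_apply, rho_rho, Finset.inter_self]

theorem hat_D (F H : Finset ι) (x : E ι) : hat (D F H x) = - D F H (hat x) := by
  rw [D_apply, hat_rho, hat_ctr, map_neg]
  rfl

/-- composition with a restriction -/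
theorem D_rho (F H K : Finset ι) (x : E ι) :
    D F H (rho K x) = rho (H ∩ K) (ctr (ind ((F \ H) ∩ K)) x) := by
  rw [D_apply, ctr_ind_rho, rho_rho]

theorem D_rho_self {F H : Finset ι} (h : H ⊆ F) (x : E ι) : D F H (rho F x) = D F H x := by
  rw [D_rho, Finset.inter_eq_left.2 h, Finset.inter_eq_left.2 Finset.sdiff_subset, D_apply]

theorem D_D {F H G : Finset ι} (hGH : G ⊆ H) (x : E ι) :
    D H G (D F H x) = rho G (ctr (ind (H \ G)) (ctr (ind (F \ H)) x)) := by
  rw [D_apply F H, D_rho, Finset.inter_eq_left.2 hGH, Finset.inter_eq_left.2 Finset.sdiff_subset]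

end MPb07157.ND
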