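import Pool.Agent.Lib.MP_b07157_ag.ND.Mat
import Pool.Agent.Lib.MP_b07157_ag.ND.Ext

/-! # Iterated contractions -/

noncomputable section

namespace MPb07157.ND

open Finset

variable {n : ℕ} {ι : Type} [Fintype ι] [DecidableEq ι] (a : ι → Fin n → ℂ)

/-- `det(a_t) / ∏ a_{t_k}(x)` -/
def evt (t : Fin n → ι) (x : Fin n → ℂ) : ℂ :=
  Matrix.det (fun i j => a (t i) j) / ∏ i, (a (t i) ⬝ᵥ x)

private theorem eventually_lin (c d : ℂ) (h : c ≠ 0 ∨ d ≠ 0) :
    ∀ᶠ t : ℕ in Filter.atTop, d + (t : ℂ) * c ≠ 0 := by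
  by_cases hc : c = 0
  · have hd : d ≠ 0 := h.resolve_left (not_not.2 hc)
    exact Filter.Eventually.of_forall fun t => by rw [hc, mul_zero, add_zero]; exact hd
  · rw [← Nat.cofinite_eq_atTop, Filter.eventually_cofinite]
    refine Set.Subsingleton.finite ?_
    intro s hs t ht
    have hs' : d + (s : ℂ) * c = 0 := not_not.1 hs
    have ht' : d + (t : ℂ) * c = 0 := not_not.1 ht
    have h3 : (s : ℂ) * c = (t : ℂ) * c := add_left_cancel (hs'.trans ht'.symm)
    exact_mod_cast mul_right_cancel₀ hc h3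

theorem Ucomp_nonempty (ha : ∀ i, a i ≠ 0) (F : Finset ι) : (Ucomp a F).Nonempty := by
  classical
  induction F using Finset.induction_on with
  | empty => exact ⟨0, fun i hi => absurd hi (Finset.notMem_empty i)⟩
  | insert i F hi ih =>
    obtain ⟨x, hx⟩ := ih
    obtain ⟨j, hj⟩ : ∃ j, a i j ≠ 0 := by
      by_contra h
      push Not at h
      exact ha i (funext h)
    have hy : a i ⬝ᵥ (Pi.single j 1 : Fin n → ℂ) ≠ 0 := by
      rw [dotProduct_single, mul_one]; exact hj
    have h1 : ∀ᶠ t : ℕ in Filter.atTop, ∀ k ∈ insert i F,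
        a k ⬝ᵥ (x + (t : ℂ) • (Pi.single j 1 : Fin n → ℂ)) ≠ 0 := by
      rw [Filter.eventually_all_finset]
      intro k hk
      have h2 : ∀ t : ℕ, a k ⬝ᵥ (x + (t : ℂ) • (Pi.single j 1 : Fin n → ℂ))
          = a k ⬝ᵥ x + (t : ℂ) * (a k ⬝ᵥ (Pi.single j 1 : Fin n → ℂ)) := by
        intro t; rw [dotProduct_add, dotProduct_smul, smul_eq_mul]
      simp only [h2]
      refine eventually_lin _ _ ?_
      rcases Finset.mem_insert.1 hk with rfl | hk
      · exact Or.inl hy
      · exact Or.inr (hx k hk)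
    obtain ⟨t, ht⟩ := h1.exists
    exact ⟨_, ht⟩

theorem mctr_add (r : ℕ) (φ : Fin r → ι → ℂ) (x y : E ι) :
    mctr r φ (x + y) = mctr r φ x + mctr r φ y := by
  induction r generalizing x y with
  | zero => simp only [mctr, map_add]
  | succ r ih => simp only [mctr, map_add]; exact ih _ _ _

theorem mctr_smul (r : ℕ) (φ : Fin r → ι → ℂ) (c : ℂ) (x : E ι) :
    mctr r φ (c • x) = c * mctr r φ x := by
  induction r generalizing x with
  | zero => simp only [mctr, map_smul, smul_eq_mul]
  | succ r ih => simp only [mctr, map_smul]; exact ih _ _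

theorem mctr_rho (r : ℕ) (φ : Fin r → ι → ℂ) (S : Finset ι) (h : ∀ k, ∀ i, i ∉ S → φ k i = 0)
    (x : E ι) : mctr r φ (rho S x) = mctr r φ x := by
  induction r generalizing x with
  | zero => exact aug_rho S x
  | succ r ih =>
    change mctr r (fun k => φ k.succ) (ctr (φ 0) (rho S x)) =
      mctr r (fun k => φ k.succ) (ctr (φ 0) x)
    rw [ctr_rho, ih _ (fun k i hi => h k.succ i hi)]
    have : (fun i => if i ∈ S then φ 0 i else 0) = φ 0 := by
      funext i
      by_cases hi : i ∈ S
      · rw [if_pos hi]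
      · rw [if_neg hi, h 0 i hi]
    rw [this]

private theorem mctr_sum {κ : Type} (s : Finset κ) (r : ℕ) (φ : Fin r → ι → ℂ) (c : κ → ℂ)
    (x : κ → E ι) : mctr r φ (∑ k ∈ s, c k • x k) = ∑ k ∈ s, c k * mctr r φ (x k) := by
  classical
  induction s using Finset.induction_on with
  | empty =>
    rw [Finset.sum_empty, Finset.sum_empty]
    have := mctr_smul r φ 0 (0 : E ι)
    rwa [zero_smul, zero_mul] at this
  | insert k s hk ih =>
    rw [Finset.sum_insert hk, Finset.sum_insert hk, mctr_add, mctr_smul, ih]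

private theorem ctr_expand (φ : ι → ℂ) (x : E ι) :
    ctr φ x = ∑ i, φ i • ctr (Pi.single i (1 : ℂ) : ι → ℂ) x := by
  have h : φ = ∑ i, φ i • (Pi.single i (1 : ℂ) : ι → ℂ) := by
    funext j
    simp [Finset.sum_apply, Pi.single_apply]
  conv_lhs => rw [h]
  rw [ctr_sum]
  exact Finset.sum_congr rfl fun i _ => ctr_smul _ _ _

theorem mctr_continuous (r : ℕ) (x : E ι) :
    Continuous (fun φ : Fin r → ι → ℂ => mctr r φ x) := by
  induction r generalizing x with
  | zero => exact continuous_const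
  | succ r ih =>
    have h : (fun φ : Fin (r + 1) → ι → ℂ => mctr (r + 1) φ x) =
        fun φ => ∑ i, φ 0 i * mctr r (fun k => φ k.succ)
          (ctr (Pi.single i (1 : ℂ) : ι → ℂ) x) := by
      funext φ
      change mctr r (fun k => φ k.succ) (ctr (φ 0) x) = _
      rw [ctr_expand, mctr_sum]
    rw [h]
    refine continuous_finsetSum _ fun i _ => ?_
    refine Continuous.mul (by fun_prop) ?_
    exact (ih (ctr (Pi.single i (1 : ℂ) : ι → ℂ) x)).comp
      (by fun_prop : Continuous fun φ : Fin (r + 1) → ι → ℂ => fun k : Fin r => φ k.succ)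

omit [Fintype ι] in
private theorem eT_succ {r : ℕ} (t : Fin (r + 1) → ι) :
    eT t = e (t 0) * eT (fun k => t k.succ) := by
  unfold eT
  rw [ExteriorAlgebra.ιMulti_succ_apply]
  rfl

omit [Fintype ι] in
private theorem eT_zero (t : Fin 0 → ι) : eT t = 1 := by
  unfold eT
  exact ExteriorAlgebra.ιMulti_zero_apply _

theorem ctr_eT {r : ℕ} (φ : ι → ℂ) (t : Fin (r + 1) → ι) :
    ctr φ (eT t) =
      ∑ k : Fin (r + 1), ((-1 : ℂ) ^ (k : ℕ) * φ (t k)) • eT (fun j => t (k.succAbove j)) := by
  induction r with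
  | zero =>
    rw [eT_succ, eT_zero, mul_one, ctr_e, Fin.sum_univ_one]
    simp only [Fin.val_zero, pow_zero, one_mul]
    rw [eT_zero, Algebra.algebraMap_eq_smul_one]
  | succ r ih =>
    rw [eT_succ, ctr_e_mul, ih, Fin.sum_univ_succ (n := r + 1), Finset.mul_sum, sub_eq_add_neg,
      ← Finset.sum_neg_distrib]
    congr 1
    · simp only [Fin.val_zero, pow_zero, one_mul, Fin.succAbove_zero]
    · refine Finset.sum_congr rfl fun k _ => ?_
      rw [mul_smul_comm]
      have h1 : eT (fun j => t (k.succ.succAbove j)) =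
          e (t 0) * eT (fun j => t (k.succAbove j).succ) := by
        rw [eT_succ]
        have h2 : (fun j : Fin r => t (k.succ.succAbove j.succ)) =
            fun j => t (k.succAbove j).succ := by
          funext j
          rw [Fin.succ_succAbove_succ]
        rw [h2, Fin.succ_succAbove_zero]
      rw [h1, Fin.val_succ, pow_succ, ← neg_smul]
      congr 1
      ring

theorem mctr_eT {r : ℕ} (φ : Fin r → ι → ℂ) (t : Fin r → ι) :
    mctr r φ (eT t) = Matrix.det (fun j k => φ j (t k)) := by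
  induction r with
  | zero =>
    rw [eT_zero]
    change aug (1 : E ι) = _
    rw [map_one]
    exact (Matrix.det_fin_zero (A := (fun j k => φ j (t k) : Matrix (Fin 0) (Fin 0) ℂ))).symm
  | succ r ih =>
    change mctr r (fun k => φ k.succ) (ctr (φ 0) (eT t)) = _
    rw [ctr_eT, mctr_sum, Matrix.det_succ_row_zero]
    refine Finset.sum_congr rfl fun k _ => ?_
    rw [ih]
    rfl

end MPb07157.ND
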