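import Pool.Agent.Lib.MP_b07157_ag.ND.Weyl
import Pool.Agent.Lib.MP_b07157_ag.ND.Mat
import Pool.Agent.Lib.MP_b07157_ag.ND.Rel

/-! # One step: multiplication by a linear form -/

noncomputable section

namespace MPb07157.ND

open Finset

variable {N : ℕ} {ι : Type} [Fintype ι] [DecidableEq ι] {a : ι → Fin (N + 1) → ℂ} {𝔽 : Type}
  [CommRing 𝔽] [Algebra ℂ 𝔽] (M : Model a 𝔽)

/-- the positions `k` of the tuple `t` with `t_k ∉ H` and all other entries in `H` -/
def pos (H : Finset ι) (t : Fin (N + 1) → ι) : Finset (Fin (N + 1)) :=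
  Finset.univ.filter (fun k => t k ∉ H ∧ ∀ j, j ≠ k → t j ∈ H)

/-- the determinant as a linear function of the first row -/
private def dcl (R : Fin N → Fin (N + 1) → ℂ) : (Fin (N + 1) → ℂ) →ₗ[ℂ] ℂ where
  toFun η := Matrix.det (Fin.cons η R : Matrix (Fin (N + 1)) (Fin (N + 1)) ℂ)
  map_add' x y := by
    rw [Matrix.det_succ_row_zero, Matrix.det_succ_row_zero, Matrix.det_succ_row_zero,
      ← Finset.sum_add_distrib]
    refine Finset.sum_congr rfl fun j _ => ?_
    change (-1 : ℂ) ^ (j : ℕ) * (x j + y j) * Matrix.det (fun i k => R i (j.succAbove k)) =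
      (-1 : ℂ) ^ (j : ℕ) * (x j) * Matrix.det (fun i k => R i (j.succAbove k)) +
      (-1 : ℂ) ^ (j : ℕ) * (y j) * Matrix.det (fun i k => R i (j.succAbove k))
    ring
  map_smul' c x := by
    rw [Matrix.det_succ_row_zero, Matrix.det_succ_row_zero, smul_eq_mul, Finset.mul_sum]
    refine Finset.sum_congr rfl fun j _ => ?_
    change (-1 : ℂ) ^ (j : ℕ) * (c * x j) * Matrix.det (fun i k => R i (j.succAbove k)) =
      c * ((-1 : ℂ) ^ (j : ℕ) * (x j) * Matrix.det (fun i k => R i (j.succAbove k)))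
    ring

private theorem dcl_apply (R : Fin N → Fin (N + 1) → ℂ) (η : Fin (N + 1) → ℂ) :
    dcl R η = Matrix.det (Fin.cons η R : Matrix (Fin (N + 1)) (Fin (N + 1)) ℂ) := rfl

omit [DecidableEq ι] in
private theorem spn_univ_top (hr : rk a (Finset.univ : Finset ι) = N + 1) :
    spn a (Finset.univ : Finset ι) = ⊤ := by
  refine Submodule.eq_top_of_finrank_eq ?_
  rw [show Module.finrank ℂ (spn a (Finset.univ : Finset ι)) = N + 1 from hr]
  simp

omit [Fintype ι] [DecidableEq ι] in
/-- a determinant with all rows in a hyperplane -/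
private theorem det_eq_zero_of_rows {H : Finset ι} (hHr : rk a H + 1 = N + 1)
    (A : Matrix (Fin (N + 1)) (Fin (N + 1)) ℂ) (hA : ∀ i, A i ∈ spn a H) : A.det = 0 := by
  by_contra hdet
  have h1 : LinearIndependent ℂ (fun i => A i) := by
    have := Matrix.linearIndependent_rows_of_det_ne_zero hdet
    exact this
  have h2 : LinearIndependent ℂ (fun i => (⟨A i, hA i⟩ : spn a H)) := by
    refine LinearIndependent.of_comp (spn a H).subtype ?_
    exact h1
  have h3 := h2.fintype_card_le_finrank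
  rw [Fintype.card_fin] at h3
  have h4 : Module.finrank ℂ (spn a H) = rk a H := rfl
  omega

/-- a determinant with all rows but the first in a hyperplane -/
theorem det_cons_hyp {H : Finset ι} (hH : H ∈ hyp a Finset.univ)
    (hr : rk a (Finset.univ : Finset ι) = N + 1) (ξ η : Fin (N + 1) → ℂ) (t : Fin N → ι)
    (ht : ∀ j, t j ∈ H) :
    (ξ ⬝ᵥ nv a Finset.univ H) * Matrix.det (Fin.cons η (fun j => a (t j)) : Matrix _ _ ℂ) =
      (η ⬝ᵥ nv a Finset.univ H) * Matrix.det (Fin.cons ξ (fun j => a (t j)) : Matrix _ _ ℂ) := by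
  set v := nv a Finset.univ H with hv
  obtain ⟨-, -, hHr⟩ := (mem_hyp a).1 hH
  rw [hr] at hHr
  have hz : dcl (fun j => a (t j)) ((ξ ⬝ᵥ v) • η - (η ⬝ᵥ v) • ξ) = 0 := by
    rw [dcl_apply]
    refine det_eq_zero_of_rows hHr _ fun i => ?_
    refine Fin.cases ?_ (fun j => ?_) i
    · rw [Fin.cons_zero]
      have h1 := nv_spec a hH ((ξ ⬝ᵥ v) • η - (η ⬝ᵥ v) • ξ)
        (by rw [spn_univ_top hr]; exact Submodule.mem_top)
      refine h1.1 ?_
      rw [← hv, sub_dotProduct, smul_dotProduct, smul_dotProduct, smul_eq_mul, smul_eq_mul,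
        mul_comm, sub_self]
    · rw [Fin.cons_succ]
      exact mem_spn a (ht j)
  rw [map_sub, map_smul, map_smul, smul_eq_mul, smul_eq_mul, dcl_apply, dcl_apply, sub_eq_zero]
    at hz
  exact hz

omit [DecidableEq ι] in
private theorem act_xv (w : ι → ℂ) (v : Fin (N + 1) → ℂ) (u : 𝔽) :
    M.act w (xv v) u = ∑ j, v j • (M.d j u + M.gr w j * u) := by
  unfold xv
  rw [map_sum, LinearMap.sum_apply]
  refine Finset.sum_congr rfl fun j _ => ?_
  rw [map_mul, Model.act_X, ← MvPolynomial.algebraMap_eq, AlgHom.commutes, Module.End.mul_apply,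
    Module.algebraMap_end_apply]
  rfl

omit [DecidableEq ι] in
private theorem sum_gr (w : ι → ℂ) (v : Fin (N + 1) → ℂ) :
    ∑ j, v j • M.gr w j = ∑ l, (w l * (a l ⬝ᵥ v)) • M.inv l := by
  unfold Model.gr
  simp only [Finset.smul_sum, smul_smul]
  rw [Finset.sum_comm]
  refine Finset.sum_congr rfl fun l _ => ?_
  rw [← Finset.sum_smul]
  congr 1
  unfold dotProduct
  rw [Finset.mul_sum]
  refine Finset.sum_congr rfl fun j _ => ?_
  ring

omit [DecidableEq ι] in
private theorem sum_d_prod (v : Fin (N + 1) → ℂ) {κ : Type} (s : Finset κ) (t : κ → ι)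
    (h : ∀ k ∈ s, a (t k) ⬝ᵥ v = 0) : ∑ j, v j • M.d j (∏ k ∈ s, M.inv (t k)) = 0 := by
  classical
  induction s using Finset.induction_on with
  | empty =>
    rw [Finset.prod_empty]
    refine Finset.sum_eq_zero fun j _ => ?_
    rw [Derivation.map_one_eq_zero, smul_zero]
  | insert k s hk ih =>
    have h1 := ih fun k' hk' => h k' (Finset.mem_insert_of_mem hk')
    have h2 : ∑ j, v j • M.d j (M.inv (t k)) = 0 := by
      have h3 : ∀ j, v j • M.d j (M.inv (t k)) = (-(a (t k) j * v j)) • (M.inv (t k)) ^ 2 := by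
        intro j
        rw [Model.d_inv, smul_smul]
        congr 1
        ring
      simp only [h3]
      rw [← Finset.sum_smul, Finset.sum_neg_distrib]
      have h4 : ∑ j, a (t k) j * v j = 0 := h k (Finset.mem_insert_self _ _)
      rw [h4, neg_zero, zero_smul]
    rw [Finset.prod_insert hk]
    have h5 : ∀ j, v j • M.d j (M.inv (t k) * ∏ k ∈ s, M.inv (t k)) =
        M.inv (t k) * (v j • M.d j (∏ k ∈ s, M.inv (t k))) +
          (∏ k ∈ s, M.inv (t k)) * (v j • M.d j (M.inv (t k))) := by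
      intro j
      rw [Derivation.leibniz, smul_add, smul_eq_mul, smul_eq_mul, mul_smul_comm, mul_smul_comm]
    simp only [h5]
    rw [Finset.sum_add_distrib, ← Finset.mul_sum, ← Finset.mul_sum, h1, h2, mul_zero, mul_zero,
      add_zero]

omit [DecidableEq ι] in
private theorem evt_cons (l : ι) (t : Fin N → ι) :
    M.evt (Fin.cons l t) = Matrix.det (Fin.cons (a l) (fun j => a (t j)) : Matrix _ _ ℂ) •
      (M.inv l * ∏ j, M.inv (t j)) := by
  unfold Model.evt
  rw [Fin.prod_univ_succ]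
  congr 2
  funext i
  refine Fin.cases rfl (fun j => rfl) i

/-- exactness: the derivative along the normal vector of `H` -/
theorem Model.act_normal (w : ι → ℂ) {H : Finset ι} (hH : H ∈ hyp a Finset.univ)
    (hr : rk a (Finset.univ : Finset ι) = N + 1) (ξ : Fin (N + 1) → ℂ) (t : Fin N → ι)
    (ht : ∀ j, t j ∈ H) :
    M.act w (xv (nv a Finset.univ H))
      (Matrix.det (Fin.cons ξ (fun j => a (t j)) : Matrix _ _ ℂ) • ∏ j, M.inv (t j)) =
      (ξ ⬝ᵥ nv a Finset.univ H) • ∑ l, w l • M.evt (Fin.cons l t) := by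
  set v := nv a Finset.univ H with hv
  have hperp : ∀ j ∈ (Finset.univ : Finset (Fin N)), a (t j) ⬝ᵥ v = 0 := by
    intro j _
    exact (nv_spec a hH (a (t j)) (mem_spn a (Finset.mem_univ _))).2 (mem_spn a (ht j))
  rw [map_smul, act_xv]
  simp only [smul_add, Finset.sum_add_distrib]
  rw [sum_d_prod M v Finset.univ t hperp, smul_zero, zero_add]
  have h1 : ∑ j, v j • (M.gr w j * ∏ j, M.inv (t j)) =
      (∑ l, (w l * (a l ⬝ᵥ v)) • M.inv l) * ∏ j, M.inv (t j) := by
    rw [← sum_gr, Finset.sum_mul]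
    refine Finset.sum_congr rfl fun j _ => ?_
    rw [smul_mul_assoc]
  rw [h1, Finset.sum_mul, Finset.smul_sum, Finset.smul_sum]
  refine Finset.sum_congr rfl fun l _ => ?_
  rw [evt_cons, smul_mul_assoc, smul_smul, smul_smul, smul_smul]
  congr 1
  have h2 := det_cons_hyp hH hr ξ (a l) t ht
  rw [← hv] at h2
  calc _ = w l * ((a l ⬝ᵥ v) *
        Matrix.det (Fin.cons ξ (fun j => a (t j)) : Matrix _ _ ℂ)) := by ring
    _ = _ := by rw [← h2]; ring

private theorem det_cons_row (A : Fin (N + 1) → Fin (N + 1) → ℂ) (k : Fin (N + 1)) :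
    Matrix.det (Fin.cons (A k) (fun j => A (k.succAbove j)) : Matrix _ _ ℂ) =
      (-1 : ℂ) ^ (k : ℕ) * Matrix.det (fun i j => A i j) := by
  rw [Matrix.det_succ_row_zero, Matrix.det_succ_row (fun i j => A i j) k, Finset.mul_sum]
  refine Finset.sum_congr rfl fun j _ => ?_
  change (-1 : ℂ) ^ (j : ℕ) * (A k j) * Matrix.det (fun i l => A (k.succAbove i) (j.succAbove l)) =
    (-1 : ℂ) ^ (k : ℕ) * ((-1 : ℂ) ^ ((k : ℕ) + (j : ℕ)) * (A k j) *
      Matrix.det (fun i l => A (k.succAbove i) (j.succAbove l)))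
  have h1 : (-1 : ℂ) ^ (k : ℕ) * (-1 : ℂ) ^ (k : ℕ) = 1 := by
    rw [← mul_pow]
    norm_num
  rw [pow_add]
  linear_combination (-(-1 : ℂ) ^ (j : ℕ) * (A k j) *
    Matrix.det (fun i l => A (k.succAbove i) (j.succAbove l))) * h1

omit [Fintype ι] in
private theorem mem_pos {H : Finset ι} {t : Fin (N + 1) → ι} {k : Fin (N + 1)} :
    k ∈ pos H t ↔ t k ∉ H ∧ ∀ j, j ≠ k → t j ∈ H := by
  unfold pos
  rw [Finset.mem_filter]
  exact ⟨fun h => h.2, fun h => ⟨Finset.mem_univ _, h⟩⟩

/-- the coefficients in the partial fraction expansion -/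
private theorem det_pos {H : Finset ι} (hH : H ∈ hyp a Finset.univ)
    (hr : rk a (Finset.univ : Finset ι) = N + 1) (c : Fin (N + 1) → ℂ) (t : Fin (N + 1) → ι)
    {k : Fin (N + 1)} (hk : k ∈ pos H t) :
    a (t k) ⬝ᵥ nv a Finset.univ H ≠ 0 ∧
    (-1 : ℂ) ^ (k : ℕ) *
      Matrix.det (Fin.cons c (fun j => a (t (k.succAbove j))) : Matrix _ _ ℂ) =
      (c ⬝ᵥ nv a Finset.univ H) / (a (t k) ⬝ᵥ nv a Finset.univ H) *
        Matrix.det (fun i j => a (t i) j) := by
  obtain ⟨hk1, hk2⟩ := mem_pos.1 hk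
  obtain ⟨-, hHf, -⟩ := (mem_hyp a).1 hH
  have h1 : a (t k) ⬝ᵥ nv a Finset.univ H ≠ 0 := by
    intro h0
    exact hk1 (hHf _ ((nv_spec a hH (a (t k)) (mem_spn a (Finset.mem_univ _))).1 h0))
  refine ⟨h1, ?_⟩
  have h2 := det_cons_hyp hH hr c (a (t k)) (fun j => t (k.succAbove j))
    (fun j => hk2 _ (Fin.succAbove_ne k j))
  have h3 := det_cons_row (fun i => a (t i)) k
  rw [h3] at h2
  have h4 : (-1 : ℂ) ^ (k : ℕ) * (-1 : ℂ) ^ (k : ℕ) = 1 := by
    rw [← mul_pow]
    norm_num
  rw [div_mul_eq_mul_div, eq_div_iff h1]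
  linear_combination (-(-1 : ℂ) ^ (k : ℕ)) * h2 + (c ⬝ᵥ nv a Finset.univ H) *
    Matrix.det (fun i j => a (t i) j) * h4

/-- partial fractions for `ℓ · det(a_t) / ∏ ℓ_{t_k}` -/
theorem Model.lin_mul_evt (hr : rk a (Finset.univ : Finset ι) = N + 1)
    (c : Fin (N + 1) → ℂ) (t : Fin (N + 1) → ι) :
    M.lin c * M.evt t = ∑ H ∈ hyp a Finset.univ, ∑ k ∈ pos H t, (-1 : ℂ) ^ (k : ℕ) •
      (Matrix.det (Fin.cons c (fun j => a (t (k.succAbove j))) : Matrix _ _ ℂ) •
        ∏ j, M.inv (t (k.succAbove j))) := by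
  have h1 : ∀ H ∈ hyp a Finset.univ, ∑ k ∈ pos H t, (-1 : ℂ) ^ (k : ℕ) •
      (Matrix.det (Fin.cons c (fun j => a (t (k.succAbove j))) : Matrix _ _ ℂ) •
        ∏ j, M.inv (t (k.succAbove j))) = ∑ k ∈ pos H t,
      ((c ⬝ᵥ nv a Finset.univ H) / (a (t k) ⬝ᵥ nv a Finset.univ H) *
        Matrix.det (fun i j => a (t i) j)) • ∏ j, M.inv (t (k.succAbove j)) := by
    intro H hH
    refine Finset.sum_congr rfl fun k hk => ?_
    rw [smul_smul, (det_pos hH hr c t hk).2]
  rw [Finset.sum_congr rfl h1]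
  by_cases hdet : Matrix.det (fun i j => a (t i) j) = 0
  · have h2 : M.evt t = 0 := by
      unfold Model.evt
      rw [hdet, zero_smul]
    rw [h2, mul_zero]
    symm
    refine Finset.sum_eq_zero fun H _ => Finset.sum_eq_zero fun k _ => ?_
    rw [hdet, mul_zero, zero_smul]
  · -- the rows are a basis
    have hli : LinearIndependent ℂ (fun i => a (t i)) := by
      have := Matrix.linearIndependent_rows_of_det_ne_zero
        (A := (fun i j => a (t i) j : Matrix (Fin (N + 1)) (Fin (N + 1)) ℂ)) hdet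
      exact this
    have hinj : Function.Injective t := by
      intro i j hij
      exact hli.injective (by simp only [hij])
    set I : Finset ι := Finset.univ.image t with hI
    have hIcard : I.card = N + 1 := by
      rw [hI, Finset.card_image_of_injective _ hinj, Finset.card_univ, Fintype.card_fin]
    have hImem : ∀ k, t k ∈ I := fun k => Finset.mem_image_of_mem t (Finset.mem_univ k)
    have hrI : rk a I = N + 1 := by
      unfold rk
      have h2' : a '' (I : Set ι) = Set.range fun i => a (t i) := by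
        ext x
        constructor
        · rintro ⟨i, hi, rfl⟩
          obtain ⟨k, -, rfl⟩ := Finset.mem_image.1 (Finset.mem_coe.1 hi)
          exact ⟨k, rfl⟩
        · rintro ⟨k, rfl⟩
          exact ⟨t k, Finset.mem_coe.2 (hImem k), rfl⟩
      have h2 : spn a I = Submodule.span ℂ (Set.range fun i => a (t i)) := by
        unfold spn
        rw [h2']
      rw [h2, finrank_span_eq_card hli, Fintype.card_fin]
    have hB : IsBas a Finset.univ I := ⟨Finset.subset_univ _, by rw [hIcard, hr], by rw [hrI, hr]⟩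
    -- the hyperplane attached to `k`
    let Hk : Fin (N + 1) → Finset ι := fun k => cl a Finset.univ (I.erase (t k))
    have hHk : ∀ k, Hk k ∈ hyp a Finset.univ ∧ k ∈ pos (Hk k) t := by
      intro k
      obtain ⟨h3, h4, h5⟩ := hB.erase_hyp a (isFlat_univ a) (hImem k)
      refine ⟨h3, mem_pos.2 ⟨h4, fun j hj => h5.1 ?_⟩⟩
      exact Finset.mem_erase.2 ⟨fun h => hj (hinj h), hImem j⟩
    have huniq : ∀ H ∈ hyp a Finset.univ, ∀ k, k ∈ pos H t → H = Hk k := by
      intro H hH k hk
      obtain ⟨h3, h4⟩ := mem_pos.1 hk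
      refine hB.hyp_unique a (hImem k) hH ?_
      intro i hi
      obtain ⟨h5, h6⟩ := Finset.mem_erase.1 hi
      obtain ⟨j, -, rfl⟩ := Finset.mem_image.1 h6
      exact h4 j fun h => h5 (by rw [h])
    -- exchange the sums
    rw [Finset.sum_comm' (t' := Finset.univ) (s' := fun k => {Hk k}) (fun H k => by
      constructor
      · rintro ⟨h3, h4⟩
        exact ⟨Finset.mem_singleton.2 (huniq H h3 k h4), Finset.mem_univ _⟩
      · rintro ⟨h3, -⟩
        rw [Finset.mem_singleton.1 h3]
        exact hHk k)]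
    simp only [Finset.sum_singleton]
    -- expand `c`
    obtain ⟨g, hg⟩ : ∃ g : Fin (N + 1) → ℂ, c = ∑ k, g k • a (t k) := by
      have htop : Submodule.span ℂ (Set.range fun i => a (t i)) = ⊤ := by
        refine hli.span_eq_top_of_card_eq_finrank' ?_
        simp
      have hc : c ∈ Submodule.span ℂ (Set.range fun i => a (t i)) := by
        rw [htop]; exact Submodule.mem_top
      obtain ⟨g, hg⟩ := (Submodule.mem_span_range_iff_exists_fun ℂ).1 hc
      exact ⟨g, hg.symm⟩
    have hgk : ∀ k, (c ⬝ᵥ nv a Finset.univ (Hk k)) / (a (t k) ⬝ᵥ nv a Finset.univ (Hk k)) =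
        g k := by
      intro k
      obtain ⟨h3, h4⟩ := hHk k
      have h5 := (det_pos h3 hr c t h4).1
      rw [div_eq_iff h5]
      rw [hg, sum_dotProduct, Finset.sum_eq_single k]
      · rw [smul_dotProduct, smul_eq_mul]
      · intro j _ hj
        have h6 : a (t j) ⬝ᵥ nv a Finset.univ (Hk k) = 0 :=
          (nv_spec a h3 (a (t j)) (mem_spn a (Finset.mem_univ _))).2
            (mem_spn a ((mem_pos.1 h4).2 j hj))
        rw [smul_dotProduct, h6, smul_zero]
      · intro h
        exact absurd (Finset.mem_univ _) h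
    have hlin : M.lin c = ∑ k, g k • M.lin (a (t k)) := by
      unfold Model.lin
      simp only [Finset.smul_sum, smul_smul]
      rw [Finset.sum_comm]
      refine Finset.sum_congr rfl fun j _ => ?_
      rw [← Finset.sum_smul]
      congr 1
      rw [hg, Finset.sum_apply]
      rfl
    unfold Model.evt
    rw [hlin, Finset.sum_mul]
    refine Finset.sum_congr rfl fun k _ => ?_
    rw [hgk k, Fin.prod_univ_succAbove _ k, smul_mul_assoc, mul_smul_comm, ← mul_assoc,
      Model.lin_mul_inv, one_mul, smul_smul]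

/-- multiplication by a linear form, followed by `q` -/
theorem Model.act_qq_lin (hr : rk a (Finset.univ : Finset ι) = N + 1) (w : ι → ℂ)
    (c : Fin (N + 1) → ℂ) (t : Fin (N + 1) → ι) :
    M.act w (qq a) (M.lin c * M.evt t) = ∑ H ∈ hyp a Finset.univ, ∑ k ∈ pos H t,
      ∑ l, ((-1 : ℂ) ^ (k : ℕ) * (c ⬝ᵥ nv a Finset.univ H) * w l) •
        M.act w (qH a H) (M.evt (Fin.cons l (fun j => t (k.succAbove j)))) := by
  rw [M.lin_mul_evt hr, map_sum]
  refine Finset.sum_congr rfl fun H hH => ?_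
  have hq : qq a = qH a H * xv (nv a Finset.univ H) := (Finset.prod_erase_mul _ _ hH).symm
  rw [hq, map_mul, map_sum]
  refine Finset.sum_congr rfl fun k hk => ?_
  rw [Module.End.mul_apply, map_smul, M.act_normal w hH hr c (fun j => t (k.succAbove j))
    (fun j => (mem_pos.1 hk).2 _ (Fin.succAbove_ne k j)), smul_smul, map_smul, map_sum,
    Finset.smul_sum]
  refine Finset.sum_congr rfl fun l _ => ?_
  rw [map_smul, smul_smul]

private theorem om_mul_eT (w : ι → ℂ) {r : ℕ} (t : Fin r → ι) :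
    om w * eT t = ∑ l, w l • eT (Fin.cons l t : Fin (r + 1) → ι) := by
  have h1 : om w = ∑ l, w l • e l := by
    unfold om e
    have h2 : w = ∑ l, w l • (Pi.single l 1 : ι → ℂ) := by
      funext j
      simp [Finset.sum_apply, Pi.single_apply]
    conv_lhs => rw [h2]
    rw [map_sum]
    exact Finset.sum_congr rfl fun l _ => map_smul _ _ _
  rw [h1, Finset.sum_mul]
  refine Finset.sum_congr rfl fun l _ => ?_
  rw [smul_mul_assoc]
  congr 1
  unfold eT
  rw [ExteriorAlgebra.ιMulti_succ_apply]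
  rfl

/-- the same operator on the exterior algebra -/
theorem om_mul_D_eT (w : ι → ℂ) (H : Finset ι) (t : Fin (N + 1) → ι) :
    om w * D Finset.univ H (eT t) = ∑ k ∈ pos H t, ∑ l, ((-1 : ℂ) ^ (k : ℕ) * w l) •
      eT (Fin.cons l (fun j => t (k.succAbove j)) : Fin (N + 1) → ι) := by
  have hD : D Finset.univ H (eT t) = ∑ k ∈ pos H t, (-1 : ℂ) ^ (k : ℕ) •
      eT (fun j => t (k.succAbove j)) := by
    rw [D_apply, ctr_eT, map_sum, ← Finset.sum_subset (Finset.subset_univ (pos H t))]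
    · refine Finset.sum_congr rfl fun k hk => ?_
      obtain ⟨h1, h2⟩ := mem_pos.1 hk
      rw [map_smul, eT_eq_eL, rho_eL_of_subset]
      · congr 1
        unfold ind
        rw [if_pos (Finset.mem_sdiff.2 ⟨Finset.mem_univ _, h1⟩), mul_one]
      · intro i hi
        obtain ⟨j, rfl⟩ := (List.mem_ofFn' _ _).1 hi
        exact h2 _ (Fin.succAbove_ne k j)
    · intro k _ hk
      rw [map_smul]
      by_cases h1 : t k ∈ H
      · unfold ind
        rw [if_neg (fun h => (Finset.mem_sdiff.1 h).2 h1), mul_zero, zero_smul]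
      · rw [eT_eq_eL, rho_eL_of_not_subset, smul_zero]
        intro hall
        apply hk
        refine mem_pos.2 ⟨h1, fun j hj => ?_⟩
        obtain ⟨i, rfl⟩ := Fin.exists_succAbove_eq hj
        exact hall _ ((List.mem_ofFn' _ _).2 ⟨i, rfl⟩)
  rw [hD, Finset.mul_sum]
  refine Finset.sum_congr rfl fun k _ => ?_
  rw [mul_smul_comm, om_mul_eT, Finset.smul_sum]
  refine Finset.sum_congr rfl fun l _ => ?_
  rw [smul_smul]

end MPb07157.ND
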