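import Pool.Agent.Lib.MP_b07157_ag.ND.InjDef
import Pool.Agent.Lib.MP_b07157_ag.ND.Step
import Pool.Agent.Lib.MP_b07157_ag.Defs

/-! # The lattice: elements of `D_n[s] f^{s+1}` -/

noncomputable section

namespace MPb07157.ND

open Finset MvPolynomial

set_option linter.unusedSectionVars false

/-- the polynomial `∏ ℓ_i^{m_i}` -/
def ff {n : ℕ} {ι : Type} [Fintype ι] (a : ι → Fin n → ℂ) (m : ι → ℕ) :
    MvPolynomial (Fin n) ℂ := ∏ i, (∑ j, C (a i j) * X j) ^ m i

variable {N : ℕ} {ι : Type} [Fintype ι] [DecidableEq ι] {a : ι → Fin (N + 1) → ℂ} {𝔽 : Type}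
  [CommRing 𝔽] [Algebra ℂ 𝔽] (M : Model a 𝔽)

/-- evaluation of polynomials over `ℂ[s]` in the model -/
def Model.beta (s : ℂ) : MvPolynomial (Fin (N + 1)) (Polynomial ℂ) →+* 𝔽 :=
  eval₂Hom ((algebraMap ℂ 𝔽).comp (Polynomial.evalRingHom s)) M.x

/-- the inverse of `f` -/
def Model.finv (m : ι → ℕ) : 𝔽 := ∏ i, M.inv i ^ m i

/-- elements `u(s)` such that `q^K u` is a combination of the `evt t` -/
def InLat (m : ι → ℕ) (u : ℂ → 𝔽) : Prop :=
  ∃ K : ℕ, ∃ P : (Fin (N + 1) → ι) → MvPolynomial (Option (Fin (N + 1))) ℂ,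
    ∀ s, M.act (lev m m s) (qq a ^ K) (u s) = M.Phi (lev m m s) s P

/-! ### auxiliary lemmas -/

omit [DecidableEq ι] in
theorem Model.act_mul_apply' (w : ι → ℂ) (p q : MvPolynomial (Fin (N + 1)) ℂ) (u : 𝔽) :
    M.act w (p * q) u = M.act w p (M.act w q u) := by
  rw [map_mul, Module.End.mul_apply]

omit [DecidableEq ι] in
theorem Model.act_add_left' (w : ι → ℂ) (p q : MvPolynomial (Fin (N + 1)) ℂ) (u : 𝔽) :
    M.act w (p + q) u = M.act w p u + M.act w q u := by
  rw [map_add, LinearMap.add_apply]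

omit [DecidableEq ι] in
theorem Model.act_comm' (w : ι → ℂ) (p q : MvPolynomial (Fin (N + 1)) ℂ) (u : 𝔽) :
    M.act w p (M.act w q u) = M.act w q (M.act w p u) := by
  rw [← M.act_mul_apply', mul_comm, M.act_mul_apply']

omit [DecidableEq ι] in
theorem Model.act_C' (w : ι → ℂ) (z : ℂ) (u : 𝔽) :
    M.act w (C z) u = z • u := by
  have : M.act w (C z) = algebraMap ℂ (Module.End ℂ 𝔽) z := (M.act w).commutes z
  rw [this, Module.algebraMap_end_apply]

omit [DecidableEq ι] in
theorem Model.Phi_add (w : ι → ℂ) (s : ℂ)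
    (P Q : (Fin (N + 1) → ι) → MvPolynomial (Option (Fin (N + 1))) ℂ) :
    M.Phi w s (P + Q) = M.Phi w s P + M.Phi w s Q := by
  unfold Model.Phi
  rw [← Finset.sum_add_distrib]
  refine Finset.sum_congr rfl fun t _ => ?_
  rw [Pi.add_apply, map_add, M.act_add_left']

omit [DecidableEq ι] in
theorem Model.Phi_zero (w : ι → ℂ) (s : ℂ) :
    M.Phi w s (0 : (Fin (N + 1) → ι) → MvPolynomial (Option (Fin (N + 1))) ℂ) = 0 := by
  unfold Model.Phi
  refine Finset.sum_eq_zero fun t _ => ?_
  rw [Pi.zero_apply, map_zero, map_zero, LinearMap.zero_apply]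

omit [DecidableEq ι] in
theorem Model.Phi_sum {κ : Type} (w : ι → ℂ) (s : ℂ) (S : Finset κ)
    (P : κ → (Fin (N + 1) → ι) → MvPolynomial (Option (Fin (N + 1))) ℂ) :
    M.Phi w s (∑ k ∈ S, P k) = ∑ k ∈ S, M.Phi w s (P k) := by
  classical
  induction S using Finset.induction_on with
  | empty => rw [Finset.sum_empty, Finset.sum_empty, M.Phi_zero]
  | insert i S hi ih => rw [Finset.sum_insert hi, Finset.sum_insert hi, M.Phi_add, ih]

omit [DecidableEq ι] in
theorem Model.Phi_mul (w : ι → ℂ) (s : ℂ) (Q : MvPolynomial (Option (Fin (N + 1))) ℂ)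
    (P : (Fin (N + 1) → ι) → MvPolynomial (Option (Fin (N + 1))) ℂ) :
    M.Phi w s (fun t => Q * P t) = M.act w (sp s Q) (M.Phi w s P) := by
  unfold Model.Phi
  rw [map_sum]
  refine Finset.sum_congr rfl fun t _ => ?_
  rw [map_mul, M.act_mul_apply']

theorem Model.Phi_single (w : ι → ℂ) (s : ℂ) (t : Fin (N + 1) → ι)
    (p : MvPolynomial (Option (Fin (N + 1))) ℂ) :
    M.Phi w s (Pi.single t p) = M.act w (sp s p) (M.evt t) := by
  unfold Model.Phi
  rw [Finset.sum_eq_single t]
  · rw [Pi.single_eq_same]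
  · intro t' _ h
    rw [Pi.single_eq_of_ne h, map_zero, map_zero, LinearMap.zero_apply]
  · intro h
    exact absurd (Finset.mem_univ t) h

theorem InLat_add (m : ι → ℕ) {u v : ℂ → 𝔽} (hu : InLat M m u) (hv : InLat M m v) :
    InLat M m (fun s => u s + v s) := by
  obtain ⟨K1, P1, h1⟩ := hu
  obtain ⟨K2, P2, h2⟩ := hv
  refine ⟨K1 + K2, (fun t => rename some (qq a ^ K2) * P1 t) +
    (fun t => rename some (qq a ^ K1) * P2 t), fun s => ?_⟩
  rw [M.Phi_add, M.Phi_mul, M.Phi_mul, sp_rename, sp_rename, ← h1 s, ← h2 s, map_add]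
  congr 1
  · rw [← M.act_mul_apply', ← pow_add, add_comm K2 K1]
  · rw [← M.act_mul_apply', ← pow_add]

/-- stability under the polynomials in the twisted derivations and `s` -/
theorem InLat_act (m : ι → ℕ) {u : ℂ → 𝔽} (hu : InLat M m u)
    (Q : MvPolynomial (Option (Fin (N + 1))) ℂ) :
    InLat M m (fun s => M.act (lev m m s) (sp s Q) (u s)) := by
  obtain ⟨K, P, h⟩ := hu
  refine ⟨K, fun t => Q * P t, fun s => ?_⟩
  rw [M.Phi_mul, ← h s, M.act_comm']

/-- the generators, multiplied by a linear form -/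
theorem InLat_lin_evt (hr : rk a (Finset.univ : Finset ι) = N + 1) (m : ι → ℕ)
    (c : Fin (N + 1) → ℂ) (t : Fin (N + 1) → ι) :
    ∃ P : (Fin (N + 1) → ι) → MvPolynomial (Option (Fin (N + 1))) ℂ,
      ∀ s, M.act (lev m m s) (qq a) (M.lin c * M.evt t) = M.Phi (lev m m s) s P := by
  refine ⟨∑ H ∈ hyp a Finset.univ, ∑ k ∈ pos H t, ∑ l,
    Pi.single (Fin.cons l (fun j => t (k.succAbove j)) : Fin (N + 1) → ι)
      (C ((-1 : ℂ) ^ (k : ℕ) * (c ⬝ᵥ nv a Finset.univ H)) *
        (C (m l : ℂ) * X none + C (m l : ℂ)) * rename some (qH a H)), fun s => ?_⟩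
  rw [M.act_qq_lin hr, M.Phi_sum]
  refine Finset.sum_congr rfl fun H _ => ?_
  rw [M.Phi_sum]
  refine Finset.sum_congr rfl fun k _ => ?_
  rw [M.Phi_sum]
  refine Finset.sum_congr rfl fun l _ => ?_
  rw [M.Phi_single]
  have h1 : sp s (C ((-1 : ℂ) ^ (k : ℕ) * (c ⬝ᵥ nv a Finset.univ H)) *
        (C (m l : ℂ) * X none + C (m l : ℂ)) * rename some (qH a H)) =
      C ((-1 : ℂ) ^ (k : ℕ) * (c ⬝ᵥ nv a Finset.univ H) * lev m m s l) * qH a H := by
    rw [map_mul, sp_rename]
    congr 1
    have e1 : ∀ z : ℂ, sp s (C z : MvPolynomial (Option (Fin (N + 1))) ℂ) = C z := by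
      intro z
      simp [sp]
    have e2 : sp s (X none : MvPolynomial (Option (Fin (N + 1))) ℂ) = C s := by
      simp [sp]
    rw [map_mul (sp s), map_add (sp s), map_mul (sp s), e1, e1, e2, ← map_mul C, ← map_add C,
      ← map_mul C]
    rfl
  rw [h1, M.act_mul_apply', M.act_C']

omit [Fintype ι] [DecidableEq ι] in
theorem pderiv_sp (s : ℂ) (P : MvPolynomial (Option (Fin (N + 1))) ℂ) (j : Fin (N + 1)) :
    pderiv j (sp s P) = sp s (pderiv (some j) P) := by
  induction P using MvPolynomial.induction_on with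
  | C z =>
    have e1 : sp s (C z : MvPolynomial (Option (Fin (N + 1))) ℂ) = C z := by
      simp [sp]
    rw [e1, pderiv_C, pderiv_C, map_zero]
  | add p q hp hq => rw [map_add, map_add, map_add, map_add, hp, hq]
  | mul_X p o hp =>
    rw [map_mul, Derivation.leibniz, Derivation.leibniz, map_add, hp]
    rcases o with _ | k
    · have e2 : sp s (X none : MvPolynomial (Option (Fin (N + 1))) ℂ) = C s := by
        simp [sp]
      rw [e2, pderiv_C, pderiv_X_of_ne (by simp)]
      simp only [smul_eq_mul, map_mul, map_zero, mul_zero, e2]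
    · have e2 : sp s (X (some k) : MvPolynomial (Option (Fin (N + 1))) ℂ) = X k := by
        simp [sp]
      rw [e2, pderiv_X, pderiv_X]
      simp only [smul_eq_mul, map_mul, e2]
      congr 2
      by_cases hjk : j = k
      · subst hjk
        simp
      · rw [Pi.single_eq_of_ne' hjk, Pi.single_eq_of_ne' (by simpa using hjk), map_zero]

theorem Model.lin_single (j : Fin (N + 1)) : M.lin (Pi.single j 1) = M.x j := by
  unfold Model.lin
  rw [Finset.sum_eq_single j]
  · rw [Pi.single_eq_same, one_smul]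
  · intro k _ h
    rw [Pi.single_eq_of_ne h, zero_smul]
  · intro h
    exact absurd (Finset.mem_univ j) h

/-- the key step for `InLat_mul_x` -/
theorem exists_Phi_mul_x (hr : rk a (Finset.univ : Finset ι) = N + 1) (m : ι → ℕ)
    (j : Fin (N + 1)) (P : (Fin (N + 1) → ι) → MvPolynomial (Option (Fin (N + 1))) ℂ) :
    ∃ P' : (Fin (N + 1) → ι) → MvPolynomial (Option (Fin (N + 1))) ℂ,
      ∀ s, M.act (lev m m s) (qq a) (M.x j * M.Phi (lev m m s) s P) =
        M.Phi (lev m m s) s P' := by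
  choose R hR using fun t => InLat_lin_evt M hr m (Pi.single j 1) t
  refine ⟨∑ t, ((fun t' => P t * R t t') +
    Pi.single t (-(rename some (qq a) * pderiv (some j) (P t)))), fun s => ?_⟩
  have h0 : M.x j * M.Phi (lev m m s) s P =
      ∑ t, (M.act (lev m m s) (sp s (P t)) (M.x j * M.evt t) -
        M.act (lev m m s) (sp s (pderiv (some j) (P t))) (M.evt t)) := by
    unfold Model.Phi
    rw [Finset.mul_sum]
    refine Finset.sum_congr rfl fun t _ => ?_
    rw [M.act_mul_x, pderiv_sp, add_sub_cancel_right]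
  rw [h0, map_sum, M.Phi_sum]
  refine Finset.sum_congr rfl fun t _ => ?_
  rw [map_sub, M.act_comm', ← M.lin_single, hR t s, M.Phi_add, M.Phi_mul, M.Phi_single,
    map_neg, map_neg, map_mul, sp_rename, LinearMap.neg_apply, M.act_mul_apply', sub_eq_add_neg]

/-- stability under multiplication by the coordinates -/
theorem InLat_mul_x (hr : rk a (Finset.univ : Finset ι) = N + 1) (m : ι → ℕ) {u : ℂ → 𝔽}
    (hu : InLat M m u) (j : Fin (N + 1)) : InLat M m (fun s => M.x j * u s) := by
  obtain ⟨K, P, h⟩ := hu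
  obtain ⟨P', h'⟩ := exists_Phi_mul_x M hr m j P
  refine ⟨K + 1, P' + (fun t => rename some (-pderiv j (qq a)) * P t) +
    (fun t => rename some (C ((K : ℂ) + 1) * pderiv j (qq a)) * P t), fun s => ?_⟩
  rw [M.act_mul_x, M.Phi_add, M.Phi_add, M.Phi_mul, M.Phi_mul, sp_rename, sp_rename, ← h' s,
    ← h s]
  have h1 : M.x j * M.act (lev m m s) (qq a ^ (K + 1)) (u s) =
      M.act (lev m m s) (qq a) (M.x j * M.act (lev m m s) (qq a ^ K) (u s)) -
        M.act (lev m m s) (pderiv j (qq a)) (M.act (lev m m s) (qq a ^ K) (u s)) := by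
    rw [M.act_mul_x, add_sub_cancel_right, pow_succ', M.act_mul_apply']
  have h2 : pderiv j (qq a ^ (K + 1)) = C ((K : ℂ) + 1) * pderiv j (qq a) * qq a ^ K := by
    rw [Derivation.leibniz_pow]
    simp only [Nat.add_sub_cancel, nsmul_eq_mul, smul_eq_mul, Nat.cast_add, Nat.cast_one]
    have : (C ((K : ℂ) + 1) : MvPolynomial (Fin (N + 1)) ℂ) = (K : MvPolynomial (Fin (N + 1)) ℂ) + 1 := by
      simp
    rw [this]
    ring
  rw [h1, h2, M.act_mul_apply', map_neg, LinearMap.neg_apply]
  rw [h s]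
  ring

theorem InLat_congr (m : ι → ℕ) {u v : ℂ → 𝔽} (hu : InLat M m u) (h : ∀ s, u s = v s) :
    InLat M m v := by
  have : u = v := funext h
  rw [← this]
  exact hu

theorem InLat_poly (m : ι → ℕ) {u : ℂ → 𝔽} (hu : InLat M m u) (p : Polynomial ℂ) :
    InLat M m (fun s => p.eval s • u s) := by
  refine InLat_congr M m (InLat_act M m hu
    (Polynomial.aeval (X none : MvPolynomial (Option (Fin (N + 1))) ℂ) p)) fun s => ?_
  have e2 : sp s (X none : MvPolynomial (Option (Fin (N + 1))) ℂ) = C s := by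
    simp [sp]
  have e3 : sp s (Polynomial.aeval (X none : MvPolynomial (Option (Fin (N + 1))) ℂ) p) =
      C (p.eval s) := by
    rw [← Polynomial.aeval_algHom_apply, e2]
    have := Polynomial.aeval_algebraMap_apply (MvPolynomial (Fin (N + 1)) ℂ) s p
    rw [Polynomial.coe_aeval_eq_eval] at this
    exact this
  rw [e3, M.act_C']

theorem InLat_smul (m : ι → ℕ) {u : ℂ → 𝔽} (hu : InLat M m u) (z : ℂ) :
    InLat M m (fun s => z • u s) := by
  refine InLat_congr M m (InLat_poly M m hu (Polynomial.C z)) fun s => ?_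
  rw [Polynomial.eval_C]

theorem InLat_mul_beta (hr : rk a (Finset.univ : Finset ι) = N + 1) (m : ι → ℕ) {u : ℂ → 𝔽}
    (hu : InLat M m u) (g : MvPolynomial (Fin (N + 1)) (Polynomial ℂ)) :
    InLat M m (fun s => M.beta s g * u s) := by
  induction g using MvPolynomial.induction_on with
  | C p =>
    refine InLat_congr M m (InLat_poly M m hu p) fun s => ?_
    have : M.beta s (C p) = algebraMap ℂ 𝔽 (p.eval s) := by
      unfold Model.beta
      rw [coe_eval₂Hom, eval₂_C]
      rfl
    rw [this, Algebra.smul_def]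
  | add p q hp hq =>
    refine InLat_congr M m (InLat_add M m hp hq) fun s => ?_
    rw [map_add, add_mul]
  | mul_X p j hp =>
    refine InLat_congr M m (InLat_mul_x M hr m hp j) fun s => ?_
    have : M.beta s (X j) = M.x j := by
      unfold Model.beta
      rw [coe_eval₂Hom, eval₂_X]
    rw [map_mul, this]
    ring

theorem InLat_zero (m : ι → ℕ) : InLat M m (fun _ => 0) := by
  refine ⟨0, 0, fun s => ?_⟩
  rw [M.Phi_zero, map_zero]

theorem InLat_sum {κ : Type} (m : ι → ℕ) (S : Finset κ) {u : κ → ℂ → 𝔽}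
    (hu : ∀ k ∈ S, InLat M m (u k)) : InLat M m (fun s => ∑ k ∈ S, u k s) := by
  classical
  induction S using Finset.induction_on with
  | empty =>
    simp only [Finset.sum_empty]
    exact InLat_zero M m
  | insert i S hi ih =>
    refine InLat_congr M m (InLat_add M m (hu i (Finset.mem_insert_self i S))
      (ih fun k hk => hu k (Finset.mem_insert_of_mem hk))) fun s => ?_
    rw [Finset.sum_insert hi]

theorem InLat_mul_lin (hr : rk a (Finset.univ : Finset ι) = N + 1) (m : ι → ℕ) {u : ℂ → 𝔽}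
    (hu : InLat M m u) (c : Fin (N + 1) → ℂ) : InLat M m (fun s => M.lin c * u s) := by
  refine InLat_congr M m (InLat_sum M m Finset.univ (fun j _ => InLat_smul M m
    (InLat_mul_x M hr m hu j) (c j))) fun s => ?_
  unfold Model.lin
  rw [Finset.sum_mul]
  refine Finset.sum_congr rfl fun j _ => ?_
  rw [smul_mul_assoc]

theorem InLat_mul_prod {κ : Type} (hr : rk a (Finset.univ : Finset ι) = N + 1) (m : ι → ℕ)
    {u : ℂ → 𝔽} (hu : InLat M m u) (S : Finset κ) (c : κ → Fin (N + 1) → ℂ) :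
    InLat M m (fun s => (∏ k ∈ S, M.lin (c k)) * u s) := by
  classical
  induction S using Finset.induction_on with
  | empty =>
    refine InLat_congr M m hu fun s => ?_
    rw [Finset.prod_empty, one_mul]
  | insert i S hi ih =>
    refine InLat_congr M m (InLat_mul_lin M hr m ih (c i)) fun s => ?_
    rw [Finset.prod_insert hi, mul_assoc]

theorem exists_det_ne_zero (hr : rk a (Finset.univ : Finset ι) = N + 1) :
    ∃ t : Fin (N + 1) → ι, Matrix.det (fun i j => a (t i) j) ≠ 0 := by
  obtain ⟨I, hI⟩ := exists_bas a (Finset.univ : Finset ι)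
  have hcard : I.card = N + 1 := by rw [hI.2.1, hr]
  have hli := linearIndependent_of_rk a (I := I) (by rw [hI.2.2, hI.2.1])
  let eq : Fin (N + 1) ≃ I := (Finset.equivFinOfCardEq hcard).symm
  refine ⟨fun k => (eq k : ι), ?_⟩
  have hli2 : LinearIndependent ℂ (fun k : Fin (N + 1) => a (eq k : ι)) :=
    hli.comp eq eq.injective
  have hu : IsUnit (Matrix.of (fun k : Fin (N + 1) => a (eq k : ι))) :=
    Matrix.linearIndependent_rows_iff_isUnit.1 hli2
  rw [Matrix.isUnit_iff_isUnit_det] at hu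
  exact hu.ne_zero

theorem InLat_one (hr : rk a (Finset.univ : Finset ι) = N + 1) (m : ι → ℕ) :
    InLat M m (fun _ => 1) := by
  obtain ⟨t, ht⟩ := exists_det_ne_zero (a := a) hr
  have h0 : InLat M m (fun _ => M.evt t) := by
    refine ⟨0, Pi.single t 1, fun s => ?_⟩
    rw [M.Phi_single, map_one, pow_zero]
  refine InLat_congr M m (InLat_smul M m (InLat_mul_prod M hr m h0 Finset.univ
    (fun k => a (t k))) (Matrix.det (fun i j => a (t i) j))⁻¹) fun s => ?_
  unfold Model.evt
  rw [mul_smul_comm, smul_smul, inv_mul_cancel₀ ht, one_smul, ← Finset.prod_mul_distrib]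
  refine Finset.prod_eq_one fun k _ => ?_
  exact M.lin_mul_inv (t k)

omit [DecidableEq ι] in
theorem Model.d_beta (s : ℂ) (i : Fin (N + 1)) (g : MvPolynomial (Fin (N + 1)) (Polynomial ℂ)) :
    M.d i (M.beta s g) = M.beta s (pderiv i g) := by
  induction g using MvPolynomial.induction_on with
  | C p =>
    have : M.beta s (C p) = algebraMap ℂ 𝔽 (p.eval s) := by
      unfold Model.beta
      rw [coe_eval₂Hom, eval₂_C]
      rfl
    rw [this, Derivation.map_algebraMap, pderiv_C, map_zero]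
  | add p q hp hq => rw [map_add, map_add, map_add, map_add, hp, hq]
  | mul_X p j hp =>
    have hX : M.beta s (X j) = M.x j := by
      unfold Model.beta
      rw [coe_eval₂Hom, eval₂_X]
    rw [map_mul, Derivation.leibniz, Derivation.leibniz, hp, hX, M.d_x, map_add, smul_eq_mul,
      smul_eq_mul, smul_eq_mul, smul_eq_mul, map_mul, map_mul, hX, pderiv_X]
    congr 2
    by_cases hij : i = j
    · subst hij
      simp
    · rw [if_neg hij, Pi.single_eq_of_ne' hij, map_zero]

omit [DecidableEq ι] in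
theorem Model.beta_liftS_ff (m : ι → ℕ) (s : ℂ) :
    M.beta s (liftS (ff a m)) = ∏ i, M.lin (a i) ^ m i := by
  unfold liftS ff
  rw [map_prod, map_prod]
  refine Finset.prod_congr rfl fun i _ => ?_
  rw [map_pow, map_pow]
  congr 1
  rw [map_sum, map_sum]
  unfold Model.lin
  refine Finset.sum_congr rfl fun j _ => ?_
  rw [map_mul, map_C, map_X, map_mul]
  unfold Model.beta
  rw [coe_eval₂Hom, eval₂_C, eval₂_X, Algebra.smul_def]
  simp

theorem Model.beta_ff_mul_finv (m : ι → ℕ) (s : ℂ) :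
    M.beta s (liftS (ff a m)) * M.finv m = 1 := by
  rw [M.beta_liftS_ff, Model.finv, ← Finset.prod_mul_distrib]
  refine Finset.prod_eq_one fun i _ => ?_
  rw [← mul_pow, M.lin_mul_inv, one_pow]

theorem Model.d_finv (m : ι → ℕ) (i : Fin (N + 1)) :
    M.d i (M.finv m) = - M.gr (fun l => (m l : ℂ)) i * M.finv m := by
  have key : ∀ S : Finset ι, M.d i (∏ l ∈ S, M.inv l ^ m l) =
      - (∑ l ∈ S, ((m l : ℂ) * a l i) • M.inv l) * ∏ l ∈ S, M.inv l ^ m l := by
    intro S
    induction S using Finset.induction_on with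
    | empty => simp
    | insert l S hl ih =>
      rw [Finset.prod_insert hl, Finset.sum_insert hl, Derivation.leibniz, ih,
        Derivation.leibniz_pow, M.d_inv]
      rcases Nat.eq_zero_or_pos (m l) with h0 | h0
      · rw [h0]
        simp only [smul_eq_mul, pow_zero, Nat.cast_zero, zero_mul, zero_smul, zero_add,
          mul_zero, add_zero, one_mul]
      · obtain ⟨k, hk⟩ : ∃ k, m l = k + 1 := ⟨m l - 1, by omega⟩
        rw [hk, ← Nat.cast_smul_eq_nsmul ℂ]
        simp only [Nat.add_sub_cancel, smul_eq_mul, Algebra.smul_def, map_mul, map_neg,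
          map_natCast]
        ring
  have := key Finset.univ
  rw [Model.finv, this]
  rfl

/-- logarithmic derivative -/
theorem Model.beta_liftS_pderiv_ff (m : ι → ℕ) (s : ℂ) (i : Fin (N + 1)) :
    M.beta s (liftS (pderiv i (ff a m))) * M.finv m = M.gr (fun l => (m l : ℂ)) i := by
  have h1 : M.beta s (liftS (pderiv i (ff a m))) = M.d i (M.beta s (liftS (ff a m))) := by
    rw [M.d_beta]
    congr 1
    unfold liftS
    rw [pderiv_map]
  have h2 : M.d i (M.beta s (liftS (ff a m)) * M.finv m) = 0 := by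
    rw [M.beta_ff_mul_finv]
    exact (M.d i).map_one_eq_zero
  rw [Derivation.leibniz, M.d_finv, smul_eq_mul, smul_eq_mul] at h2
  have h3 := M.beta_ff_mul_finv (a := a) m s
  rw [h1]
  linear_combination h2 + M.gr (fun l => (m l : ℂ)) i * h3

omit [DecidableEq ι] in
theorem Model.gr_lev (m : ι → ℕ) (s : ℂ) (i : Fin (N + 1)) :
    M.gr (lev m m s) i = (s + 1) • M.gr (fun l => (m l : ℂ)) i := by
  unfold Model.gr lev
  rw [Finset.smul_sum]
  refine Finset.sum_congr rfl fun l _ => ?_
  rw [smul_smul]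
  congr 1
  ring

/-- the formula for the derivation -/
theorem Model.Dw_beta (m : ι → ℕ) (s : ℂ) (k : ℕ) (i : Fin (N + 1))
    (g : MvPolynomial (Fin (N + 1)) (Polynomial ℂ)) :
    M.Dw (lev m m s) i (M.beta s g * M.finv m ^ k) =
      M.beta s (liftS (ff a m) * pderiv i g +
        C (Polynomial.X + 1 - (k : Polynomial ℂ)) * liftS (pderiv i (ff a m)) * g) *
        M.finv m ^ (k + 1) := by
  have hC : M.beta s (C (Polynomial.X + 1 - (k : Polynomial ℂ))) =
      algebraMap ℂ 𝔽 (s + 1 - k) := by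
    unfold Model.beta
    rw [coe_eval₂Hom, eval₂_C]
    simp
  have h1 := M.beta_ff_mul_finv (a := a) m s
  have h2 := M.beta_liftS_pderiv_ff (a := a) m s i
  have hpow : M.d i (M.finv m ^ k) = - (k : 𝔽) * M.gr (fun l => (m l : ℂ)) i * M.finv m ^ k := by
    rw [Derivation.leibniz_pow, M.d_finv]
    rcases Nat.eq_zero_or_pos k with h0 | h0
    · rw [h0]
      simp
    · obtain ⟨k', hk⟩ : ∃ k', k = k' + 1 := ⟨k - 1, by omega⟩
      rw [hk]
      simp only [Nat.add_sub_cancel, smul_eq_mul, nsmul_eq_mul]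
      ring
  unfold Model.Dw
  rw [LinearMap.add_apply, LinearMap.mulLeft_apply, M.gr_lev]
  have h3 : (M.d i).toLinearMap (M.beta s g * M.finv m ^ k) =
      M.beta s g * (- (k : 𝔽) * M.gr (fun l => (m l : ℂ)) i * M.finv m ^ k) +
        M.finv m ^ k * M.beta s (pderiv i g) := by
    change M.d i (M.beta s g * M.finv m ^ k) = _
    rw [Derivation.leibniz, hpow, M.d_beta, smul_eq_mul, smul_eq_mul]
  rw [h3, map_add, map_mul, map_mul, map_mul, hC, Algebra.smul_def]
  have h4 : algebraMap ℂ 𝔽 (s + 1 - k) = algebraMap ℂ 𝔽 (s + 1) - (k : 𝔽) := by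
    rw [map_sub, map_natCast]
  rw [h4]
  linear_combination (- M.beta s (pderiv i g) * M.finv m ^ k) * h1 -
    ((algebraMap ℂ 𝔽 (s + 1) - (k : 𝔽)) * M.beta s g * M.finv m ^ k) * h2

theorem lattice (hr : rk a (Finset.univ : Finset ι) = N + 1) (m : ι → ℕ) (k : ℕ)
    (g : MvPolynomial (Fin (N + 1)) (Polynomial ℂ)) (h : InDn (ff a m) k g) :
    InLat M m (fun s => M.beta s g * M.finv m ^ k) := by
  induction h with
  | base =>
    refine InLat_congr M m (InLat_one M hr m) fun s => ?_
    rw [map_one, pow_zero, mul_one]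
  | add _ _ ih1 ih2 =>
    refine InLat_congr M m (InLat_add M m ih1 ih2) fun s => ?_
    rw [map_add, add_mul]
  | mul c _ ih =>
    refine InLat_congr M m (InLat_mul_beta M hr m ih c) fun s => ?_
    rw [map_mul, mul_assoc]
  | deriv i _ ih =>
    refine InLat_congr M m (InLat_act M m ih (X (some i))) fun s => ?_
    have e2 : sp s (X (some i) : MvPolynomial (Option (Fin (N + 1))) ℂ) = X i := by
      simp [sp]
    rw [e2, M.act_X, M.Dw_beta]
  | @raise k' g' _ ih =>
    refine InLat_congr M m ih fun s => ?_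
    have h1 := M.beta_ff_mul_finv (a := a) m s
    rw [map_mul, pow_succ]
    linear_combination (- (M.beta s g' * M.finv m ^ k')) * h1
  | @lower k' g' _ ih =>
    refine InLat_congr M m ih fun s => ?_
    have h1 := M.beta_ff_mul_finv (a := a) m s
    rw [map_mul, pow_succ]
    linear_combination (M.beta s g' * M.finv m ^ k') * h1

end MPb07157.ND
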