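import Pool.Agent.Lib.MP_b07157_ag.ND.Weyl

/-! # Existence of the algebra of functions -/

noncomputable section

namespace MPb07157.ND

open Finset

section Aux

open TensorProduct

variable {A : Type} [CommRing A] [Algebra ℂ A] (f : A)

/-- derivations extend to localizations -/
private theorem exists_der (D : Derivation ℂ A A) :
    ∃ D' : Derivation ℂ (Localization.Away f) (Localization.Away f),
      ∀ g, D' (algebraMap A _ g) = algebraMap A _ (D g) := by
  have : Algebra.FormallyEtale A (Localization.Away f) :=
    Algebra.FormallyEtale.of_isLocalization (Rₘ := Localization.Away f) (Submonoid.powers f)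
  let D1 : Derivation ℂ A (Localization.Away f) :=
    (Algebra.linearMap A (Localization.Away f)).compDer D
  let L : Ω[A⁄ℂ] →ₗ[A] Localization.Away f := D1.liftKaehlerDifferential
  let L2 : (Localization.Away f) ⊗[A] Ω[A⁄ℂ] →ₗ[Localization.Away f] Localization.Away f :=
    LinearMap.liftBaseChange (Localization.Away f) L
  let L3 : Ω[(Localization.Away f)⁄ℂ] →ₗ[Localization.Away f] Localization.Away f :=
    L2 ∘ₗ (KaehlerDifferential.tensorKaehlerEquivOfFormallyEtale ℂ A
      (Localization.Away f)).symm.toLinearMap
  refine ⟨L3.compDer (KaehlerDifferential.D ℂ (Localization.Away f)), fun g => ?_⟩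
  have h1 : L3.compDer (KaehlerDifferential.D ℂ (Localization.Away f)) (algebraMap A _ g) =
      L2 ((KaehlerDifferential.tensorKaehlerEquivOfFormallyEtale ℂ A
      (Localization.Away f)).symm (KaehlerDifferential.D ℂ (Localization.Away f)
        (algebraMap A _ g))) := rfl
  rw [h1, KaehlerDifferential.tensorKaehlerEquivOfFormallyEtale_symm_D_algebraMap]
  simp only [L2, L, D1, LinearMap.liftBaseChange_tmul, one_smul,
    Derivation.liftKaehlerDifferential_comp_D]
  rfl

/-- a derivation of a localization vanishing on the ring vanishes -/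
private theorem der_eq_zero (D : Derivation ℂ (Localization.Away f) (Localization.Away f))
    (h : ∀ g, D (algebraMap A _ g) = 0) (u : Localization.Away f) : D u = 0 := by
  obtain ⟨⟨g, s⟩, hs⟩ := IsLocalization.surj (Submonoid.powers f) u
  have hu : IsUnit (algebraMap A (Localization.Away f) s) :=
    IsLocalization.map_units (Localization.Away f) s
  have h1 : D (u * algebraMap A (Localization.Away f) s) = 0 := by
    rw [hs]; exact h g
  rw [Derivation.leibniz, h, smul_zero, zero_add, smul_eq_mul] at h1
  exact (hu.mul_right_eq_zero).mp h1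

end Aux

variable {n : ℕ} {ι : Type} [Fintype ι]

/-- existence of the model -/
theorem exists_model (a : ι → Fin n → ℂ) (ha : ∀ i, a i ≠ 0) :
    ∃ (𝔽 : Type) (_ : CommRing 𝔽) (_ : Algebra ℂ 𝔽), Nonempty (Model a 𝔽) := by
  classical
  set ell : ι → MvPolynomial (Fin n) ℂ := fun i => ∑ j, a i j • MvPolynomial.X j with hell
  set f : MvPolynomial (Fin n) ℂ := ∏ i, ell i with hf
  have hev : ∀ (p : Fin n → ℂ) (i : ι), MvPolynomial.aeval p (ell i) = a i ⬝ᵥ p := by
    intro p i
    simp only [hell, map_sum, map_smul, MvPolynomial.aeval_X, smul_eq_mul, dotProduct]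
  have hevf : ∀ (p : Fin n → ℂ), MvPolynomial.aeval p f = ∏ i, (a i ⬝ᵥ p) := by
    intro p
    rw [hf, map_prod]
    exact Finset.prod_congr rfl fun i _ => hev p i
  have hell0 : ∀ i, ell i ≠ 0 := by
    intro i h0
    apply ha i
    funext j
    have h1 := hev (Pi.single j 1) i
    rw [h0, map_zero] at h1
    simpa using h1.symm
  have hf0 : f ≠ 0 := by
    rw [hf]
    exact Finset.prod_ne_zero_iff.mpr fun i _ => hell0 i
  have hfu : IsUnit (algebraMap (MvPolynomial (Fin n) ℂ) (Localization.Away f) f) :=
    IsLocalization.Away.algebraMap_isUnit f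
  have hellu : ∀ i, IsUnit (algebraMap (MvPolynomial (Fin n) ℂ) (Localization.Away f) (ell i)) := by
    intro i
    refine isUnit_of_dvd_unit ?_ hfu
    exact map_dvd _ (Finset.dvd_prod_of_mem _ (Finset.mem_univ i))
  have hinv : ∀ i, ∃ u : Localization.Away f,
      u * algebraMap (MvPolynomial (Fin n) ℂ) (Localization.Away f) (ell i) = 1 :=
    fun i => (hellu i).exists_left_inv
  choose inv hinv using hinv
  have hD : ∀ j, ∃ D' : Derivation ℂ (Localization.Away f) (Localization.Away f),
      ∀ g, D' (algebraMap _ _ g) = algebraMap _ _ (MvPolynomial.pderiv j g) :=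
    fun j => exists_der f (MvPolynomial.pderiv j)
  choose D hD using hD
  have hevu : ∀ (p : Fin n → ℂ), p ∈ Ucomp a Finset.univ →
      IsUnit (MvPolynomial.aeval (R := ℂ) p f) := by
    intro p hp
    rw [hevf, isUnit_iff_ne_zero]
    exact Finset.prod_ne_zero_iff.mpr fun i _ => hp i (Finset.mem_univ i)
  have hE : ∀ (p : Fin n → ℂ), p ∈ Ucomp a Finset.univ →
      ∃ E : Localization.Away f →ₐ[ℂ] ℂ, ∀ g : MvPolynomial (Fin n) ℂ,
        E (algebraMap _ _ g) = MvPolynomial.aeval p g := by
    intro p hp
    have hu : ∀ y : Submonoid.powers f, IsUnit (MvPolynomial.aeval (R := ℂ) p (y : MvPolynomial (Fin n) ℂ)) := by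
      rintro ⟨y, k, rfl⟩
      simp only [map_pow]
      exact (hevu p hp).pow k
    refine ⟨IsLocalization.liftAlgHom (M := Submonoid.powers f)
      (f := MvPolynomial.aeval (R := ℂ) p) hu, fun g => ?_⟩
    simp
  choose E hE using hE
  refine ⟨Localization.Away f, inferInstance, inferInstance, ⟨{
    x := fun j => algebraMap (MvPolynomial (Fin n) ℂ) (Localization.Away f) (MvPolynomial.X j)
    inv := inv
    inv_mul := ?_
    d := D
    d_x := ?_
    d_comm := ?_
    ev := E
    ev_x := ?_
    ext := ?_ }⟩⟩
  · intro i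
    have h1 := hinv i
    rw [hell] at h1
    simp only [map_sum] at h1
    rw [← h1]
    congr 1
    refine Finset.sum_congr rfl fun j _ => ?_
    rw [Algebra.smul_def (a i j) (MvPolynomial.X j), map_mul,
      ← IsScalarTower.algebraMap_apply, ← Algebra.smul_def]
  · intro j k
    rw [hD, MvPolynomial.pderiv_X]
    by_cases hjk : j = k
    · subst hjk
      simp
    · rw [Pi.single_eq_of_ne (Ne.symm hjk), if_neg hjk, map_zero]
  · intro j k g
    have h1 : ⁅D j, D k⁆ g = 0 := by
      refine der_eq_zero f _ (fun g => ?_) g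
      rw [Derivation.commutator_apply, hD, hD, hD, hD, ← map_sub, ← Derivation.commutator_apply]
      have h2 : ⁅(MvPolynomial.pderiv j : Derivation ℂ (MvPolynomial (Fin n) ℂ)
          (MvPolynomial (Fin n) ℂ)), (MvPolynomial.pderiv k : Derivation ℂ
          (MvPolynomial (Fin n) ℂ) (MvPolynomial (Fin n) ℂ))⁆ = 0 := by
        apply MvPolynomial.derivation_ext
        intro i
        rw [Derivation.commutator_apply]
        simp [MvPolynomial.pderiv_X, Pi.single_apply, apply_ite]
      rw [h2]
      simp
    rw [Derivation.commutator_apply] at h1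
    exact sub_eq_zero.mp h1
  · intro p hp j
    rw [hE, MvPolynomial.aeval_X]
  · intro u hu
    obtain ⟨⟨g, s⟩, hs⟩ := IsLocalization.surj (Submonoid.powers f) u
    have hsu : IsUnit (algebraMap _ (Localization.Away f) (s : MvPolynomial (Fin n) ℂ)) :=
      IsLocalization.map_units (Localization.Away f) s
    have h1 : ∀ p, p ∈ Ucomp a Finset.univ → MvPolynomial.aeval (R := ℂ) p g = 0 := by
      intro p hp
      rw [← hE p hp, ← hs, map_mul, hu p hp, zero_mul]
    have h2 : g * f = 0 := by
      apply MvPolynomial.funext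
      intro p
      rw [map_mul, map_zero]
      by_cases hp : p ∈ Ucomp a Finset.univ
      · have h4 := h1 p hp
        rw [MvPolynomial.aeval_eq_eval] at h4
        rw [h4, zero_mul]
      · have h4 := hevf p
        rw [MvPolynomial.aeval_eq_eval] at h4
        have h5 : ∏ i, (a i ⬝ᵥ p) = 0 := by
          simp only [Ucomp, Set.mem_ofPred_eq, Finset.mem_univ, forall_const, not_forall,
            not_not] at hp
          obtain ⟨i, hi⟩ := hp
          exact Finset.prod_eq_zero (Finset.mem_univ i) hi
        rw [h4, h5, mul_zero]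
    have h3 : g = 0 := (mul_eq_zero.mp h2).resolve_right hf0
    rw [h3, map_zero] at hs
    exact (hsu.mul_left_eq_zero).mp hs

end MPb07157.ND
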