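import Pool.Agent.Lib.MP_b07157_ag.ND.Mat
import Pool.Agent.Lib.MP_b07157_ag.ND.Ext

/-! # The contravariant form: symmetry, adjointness, compatibility -/

noncomputable section

namespace MPb07157.ND

open Finset

variable {n : ℕ} {ι : Type} [Fintype ι] [DecidableEq ι] (a : ι → Fin n → ℂ)

theorem Gp_zero (w : ι → ℂ) (F : Finset ι) (x y : E ι) :
    Gp a w 0 F x y = aug x * aug y := by
  simp [Gp]

theorem Gp_succ (w : ι → ℂ) (r : ℕ) (F : Finset ι) (x y : E ι) :
    Gp a w (r + 1) F x y = (wt w F)⁻¹ * ∑ H ∈ hyp a F, Gp a w r H (D F H x) (D F H y) := by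
  simp [Gp, LinearMap.sum_apply]

theorem Gp_symm (w : ι → ℂ) (r : ℕ) (F : Finset ι) (x y : E ι) :
    Gp a w r F x y = Gp a w r F y x := by
  induction r generalizing F x y with
  | zero => rw [Gp_zero, Gp_zero, mul_comm]
  | succ r ih =>
    rw [Gp_succ, Gp_succ]
    congr 1
    exact Finset.sum_congr rfl fun H _ => ih _ _ _

theorem Gp_rho (w : ι → ℂ) (r : ℕ) (F : Finset ι) (x y : E ι) :
    Gp a w r F (rho F x) y = Gp a w r F x y := by
  cases r with
  | zero => rw [Gp_zero, Gp_zero, aug_rho]
  | succ r =>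
    rw [Gp_succ, Gp_succ]
    congr 1
    refine Finset.sum_congr rfl fun H hH => ?_
    rw [D_rho_self ((mem_hyp a).1 hH).1]

theorem Gp_scale (w : ι → ℂ) (c : ℂ) (r : ℕ) (F : Finset ι) (x y : E ι) :
    Gp a (fun i => c * w i) r F x y = (c⁻¹) ^ r * Gp a w r F x y := by
  induction r generalizing F x y with
  | zero => rw [Gp_zero, Gp_zero, pow_zero, one_mul]
  | succ r ih =>
    rw [Gp_succ, Gp_succ]
    have h1 : wt (fun i => c * w i) F = c * wt w F := by
      simp [wt, Finset.mul_sum]
    rw [h1, mul_inv]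
    simp_rw [ih]
    rw [← Finset.mul_sum]
    ring

theorem Gp_congr (w w' : ι → ℂ) (r : ℕ) (F : Finset ι) (h : ∀ i ∈ F, w i = w' i) (x y : E ι) :
    Gp a w r F x y = Gp a w' r F x y := by
  induction r generalizing F x y with
  | zero => rw [Gp_zero, Gp_zero]
  | succ r ih =>
    rw [Gp_succ, Gp_succ]
    have h1 : wt w F = wt w' F := Finset.sum_congr rfl h
    rw [h1]
    congr 1
    refine Finset.sum_congr rfl fun H hH => ?_
    exact ih H (fun i hi => h i (((mem_hyp a).1 hH).1 hi)) _ _

/-- elements supported on a set of smaller rank -/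
theorem Gp_dep (w : ι → ℂ) (r : ℕ) (F : Finset ι) (hF : IsFlat a F) (hr : rk a F = r)
    (K : Finset ι) (hK : rk a K < r) (x y : E ι) : Gp a w r F (rho K x) y = 0 := by
  induction r generalizing F K x y with
  | zero => omega
  | succ r ih =>
    rw [Gp_succ]
    have h0 : ∀ H ∈ hyp a F, Gp a w r H (D F H (rho K x)) (D F H y) = 0 := by
      intro H hH
      obtain ⟨hHF, hHf, hHr⟩ := (mem_hyp a).1 hH
      have hHr' : rk a H = r := by omega
      rw [D_rho]
      by_cases hlt : rk a (H ∩ K) < r
      · exact ih H hHf hHr' (H ∩ K) hlt _ _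
      · have h1 : rk a (H ∩ K) ≤ rk a K := rk_mono a Finset.inter_subset_right
        have h2 : rk a (H ∩ K) ≤ rk a H := rk_mono a Finset.inter_subset_left
        have h3 : spn a (H ∩ K) = spn a K :=
          spn_eq_of_rk_le a Finset.inter_subset_right (by omega)
        have h4 : spn a (H ∩ K) = spn a H :=
          spn_eq_of_rk_le a Finset.inter_subset_left (by omega)
        have h5 : (F \ H) ∩ K = ∅ := by
          rw [Finset.eq_empty_iff_forall_notMem]
          intro i hi
          rw [Finset.mem_inter, Finset.mem_sdiff] at hi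
          apply hi.1.2
          apply hHf
          rw [← h4, h3]
          exact mem_spn a hi.2
        rw [h5, ind_empty, ctr_zero]
        simp
    rw [Finset.sum_eq_zero h0, mul_zero]

/-- the residue theorem -/
theorem sum_D_D (F G : Finset ι) (hF : IsFlat a F) (hG : IsFlat a G) (hGF : G ⊆ F)
    (hr : rk a G + 2 = rk a F) (x : E ι) :
    ∑ H ∈ (hyp a F).filter (fun H => G ∈ hyp a H), D H G (D F H x) = 0 := by
  have hterm : ∀ H ∈ (hyp a F).filter (fun H => G ∈ hyp a H),
      D H G (D F H x) = rho G (ctr (ind (H \ G)) (ctr (ind (F \ G)) x)) := by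
    intro H hH
    rw [Finset.mem_filter] at hH
    obtain ⟨hH1, hH2⟩ := hH
    have hHF := ((mem_hyp a).1 hH1).1
    have hGH := ((mem_hyp a).1 hH2).1
    rw [D_D hGH]
    congr 1
    have h1 : (ind (F \ H) : ι → ℂ) = ind (F \ G) + (-1 : ℂ) • ind (H \ G) := by
      rw [ind_sdiff hHF, ind_sdiff hGF, ind_sdiff hGH]
      simp only [neg_smul, one_smul]
      abel
    rw [h1, ctr_add, ctr_smul, map_add, map_smul, ctr_ctr, smul_zero, add_zero]
  rw [Finset.sum_congr rfl hterm, ← map_sum, ← ctr_sum]
  have hsum : ∑ H ∈ (hyp a F).filter (fun H => G ∈ hyp a H), (ind (H \ G) : ι → ℂ)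
      = ind (F \ G) := by
    funext i
    rw [Finset.sum_apply]
    by_cases hi : i ∈ F \ G
    · rw [Finset.mem_sdiff] at hi
      obtain ⟨H0, ⟨hH0, hGH0, hiH0⟩, huniq⟩ :=
        existsUnique_between a hF hG hGF hr hi.1 hi.2
      rw [Finset.sum_eq_single H0]
      · simp [ind, hi.1, hi.2, hiH0]
      · intro H hH hne
        rw [Finset.mem_filter] at hH
        have : i ∉ H \ G := by
          intro hc
          rw [Finset.mem_sdiff] at hc
          exact hne (huniq H ⟨hH.1, hH.2, hc.1⟩)
        simp only [ind, if_neg this]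
      · intro hc
        exact absurd (Finset.mem_filter.2 ⟨hH0, hGH0⟩) hc
    · have hR : (ind (F \ G) : ι → ℂ) i = 0 := by simp only [ind, if_neg hi]
      rw [hR]
      apply Finset.sum_eq_zero
      intro H hH
      rw [Finset.mem_filter] at hH
      have hHF := ((mem_hyp a).1 hH.1).1
      have : i ∉ H \ G := by
        intro hc
        rw [Finset.mem_sdiff] at hc hi
        exact hi ⟨hHF hc.1, hc.2⟩
      simp only [ind, if_neg this]
  rw [hsum, ctr_ctr, map_zero]

end MPb07157.ND
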