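import Pool.Agent.Lib.MP_b07157_ag.ND.RelLim
import Pool.Agent.Lib.MP_b07157_ag.ND.Pair

/-! # Relations between the functions `1 / ∏ a_i` lie in the kernel of the form -/

noncomputable section

namespace MPb07157.ND

open Finset

variable {n : ℕ} {ι : Type} [Fintype ι] [DecidableEq ι] (a : ι → Fin n → ℂ)

theorem Gp_eq_zero_of_mctr (ha : ∀ i, a i ≠ 0) (w : ι → ℂ) (r : ℕ) (F : Finset ι) (X : E ι)
    (h : ∀ u : Fin r → Fin n → ℂ, ∀ x ∈ Ucomp a F, mctr r (fun k => eta a F (u k) x) X = 0)
    (y : E ι) : Gp a w r F X y = 0 := by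
  induction r generalizing F X y with
  | zero =>
    obtain ⟨x, hx⟩ := Ucomp_nonempty a ha F
    have h1 : aug X = 0 := h (fun k => k.elim0) x hx
    rw [Gp_zero, h1, zero_mul]
  | succ r ih =>
    rw [Gp_succ]
    rw [Finset.sum_eq_zero, mul_zero]
    intro H hH
    exact ih H (D F H X) (fun u x hx => mctr_limit a F H hH r X h u x hx) (D F H y)

/-- linear relations between the functions `evt a t` are killed by the form -/
theorem Gp_eq_zero_of_rel (ha : ∀ i, a i ≠ 0) (c : (Fin n → ι) → ℂ)
    (h : ∀ x ∈ Ucomp a Finset.univ, ∑ t, c t * evt a t x = 0) (w : ι → ℂ) (y : E ι) :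
    Gp a w n Finset.univ (∑ t, c t • eT t) y = 0 := by
  refine Gp_eq_zero_of_mctr a ha w n Finset.univ _ (fun u x hx => ?_) y
  set φ : Fin n → ι → ℂ := fun k => eta a Finset.univ (u k) x with hφ
  have hsum : ∀ s : Finset (Fin n → ι), mctr n φ (∑ t ∈ s, c t • eT t) =
      ∑ t ∈ s, c t * mctr n φ (eT t) := by
    intro s
    induction s using Finset.induction_on with
    | empty =>
      rw [Finset.sum_empty, Finset.sum_empty]
      have := mctr_smul n φ 0 (0 : E ι)
      rwa [zero_smul, zero_mul] at this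
    | insert t s ht ih =>
      rw [Finset.sum_insert ht, Finset.sum_insert ht, mctr_add, mctr_smul, ih]
  have hkey : ∀ t : Fin n → ι, mctr n φ (eT t) = Matrix.det (fun i j => u i j) * evt a t x := by
    intro t
    rw [mctr_eT]
    have h1 : (fun j k => φ j (t k) : Matrix (Fin n) (Fin n) ℂ) =
        Matrix.of fun j k => (a (t k) ⬝ᵥ x)⁻¹ *
          ((Matrix.of fun i j => u i j) * (Matrix.of fun i j => a (t i) j).transpose) j k := by
      ext j k
      rw [Matrix.of_apply]
      simp only [hφ, eta, Finset.mem_univ, if_true, Matrix.mul_apply, Matrix.transpose_apply,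
        Matrix.of_apply]
      rw [div_eq_inv_mul, dotProduct]
      congr 1
      exact Finset.sum_congr rfl fun i _ => mul_comm _ _
    rw [h1, Matrix.det_mul_row, Matrix.det_mul, Matrix.det_transpose, evt, Finset.prod_inv_distrib]
    change (∏ i, a (t i) ⬝ᵥ x)⁻¹ * (Matrix.det (fun i j => u i j) *
      Matrix.det (fun i j => a (t i) j)) = _
    rw [div_eq_inv_mul]
    ring
  rw [hsum]
  simp_rw [hkey]
  have h2 : ∑ t, c t * (Matrix.det (fun i j => u i j) * evt a t x) =
      Matrix.det (fun i j => u i j) * ∑ t, c t * evt a t x := by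
    rw [Finset.mul_sum]
    exact Finset.sum_congr rfl fun t _ => by ring
  rw [h2, h x hx, mul_zero]

end MPb07157.ND
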