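import Pool.Agent.Lib.MP_b07157_ag.ND.TestSum
import Pool.Agent.Lib.MP_b07157_ag.ND.Inj
import Pool.Agent.Lib.MP_b07157_ag.ND.Lattice
import Pool.Agent.Lib.MP_b07157_ag.ND.Descend
import Pool.Agent.Lib.MP_b07157_ag.ND.RelMain
import Pool.Agent.Lib.MP_b07157_ag.ND.ModelEx

/-! # The n/d conjecture for essential indecomposable arrangements -/

noncomputable section

namespace MPb07157.ND

open Finset MvPolynomial

variable {N : ℕ} {ι : Type} [Fintype ι] [DecidableEq ι] {a : ι → Fin (N + 1) → ℂ} {𝔽 : Type}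
  [CommRing 𝔽] [Algebra ℂ 𝔽] (M : Model a 𝔽)

theorem eval_opt_aeval_none {n : ℕ} (b : Polynomial ℂ) (s : ℂ) (ξ : Fin n → ℂ) :
    eval (opt s ξ) (Polynomial.aeval (X none : MvPolynomial (Option (Fin n)) ℂ) b) =
      b.eval s := by
  have h := Polynomial.aeval_algHom_apply (aeval (opt s ξ) : MvPolynomial (Option (Fin n)) ℂ →ₐ[ℂ] ℂ)
    (X none) b
  rw [← MvPolynomial.coe_aeval_eq_eval]
  have h2 : (aeval (opt s ξ)) (X none : MvPolynomial (Option (Fin n)) ℂ) = s := by
    simp [opt]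
  change aeval (opt s ξ) _ = _
  rw [← h, h2, Polynomial.coe_aeval_eq_eval]

theorem sp_aeval_none {n : ℕ} (b : Polynomial ℂ) (s : ℂ) :
    (sp s (Polynomial.aeval (X none : MvPolynomial (Option (Fin n)) ℂ) b) :
      MvPolynomial (Fin n) ℂ) = C (b.eval s) := by
  have h := Polynomial.aeval_algHom_apply (sp s : MvPolynomial (Option (Fin n)) ℂ →ₐ[ℂ] _)
    (X none) b
  rw [← h]
  have h2 : sp s (X none : MvPolynomial (Option (Fin n)) ℂ) = C s := by
    simp [sp]
  rw [h2]
  have h3 := Polynomial.aeval_algebraMap_apply (MvPolynomial (Fin n) ℂ) s b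
  rw [MvPolynomial.algebraMap_eq] at h3
  rw [h3, Polynomial.coe_aeval_eq_eval]

omit [Fintype ι] in
theorem det_ne_zero_of_bas (a : ι → Fin (N + 1) → ℂ) {I : Finset ι}
    (hI : rk a I = I.card) (t : Fin (N + 1) → ι) (ht : Function.Injective t)
    (htI : ∀ k, t k ∈ I) : Matrix.det (fun i j => a (t i) j) ≠ 0 := by
  have h1 := linearIndependent_of_rk a hI
  have h2 : LinearIndependent ℂ (fun k => a (t k)) := by
    have := h1.comp (fun k => (⟨t k, htI k⟩ : I)) (fun k k' h => ht (by simpa using h))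
    exact this
  have h3 := (Matrix.linearIndependent_rows_iff_isUnit (A := (fun i j => a (t i) j))).1 h2
  exact ((Matrix.isUnit_iff_isUnit_det _).1 h3).ne_zero

theorem prod_lin_mul_finv (m c0 : ι → ℕ) (δ : List ι) (hδ : ∀ i, c0 i + δ.count i = m i) :
    (δ.map (fun i => M.lin (a i))).prod * M.finv m = ∏ i, M.inv i ^ c0 i := by
  have h1 : (δ.map (fun i => M.lin (a i))).prod = ∏ i, M.lin (a i) ^ δ.count i := by
    rw [Finset.prod_list_map_count]
    refine Finset.prod_subset (Finset.subset_univ _) ?_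
    intro i _ hi
    rw [List.count_eq_zero_of_not_mem (by simpa using hi), pow_zero]
  rw [h1, Model.finv, ← Finset.prod_mul_distrib]
  refine Finset.prod_congr rfl fun i _ => ?_
  rw [← hδ i, pow_add, mul_left_comm, ← mul_pow, M.lin_mul_inv, one_pow, mul_one]

/-- **The n/d conjecture** for essential indecomposable arrangements. -/
theorem core (a : ι → Fin (N + 1) → ℂ) (ha : ∀ i, a i ≠ 0) (m : ι → ℕ) (hm : ∀ i, 0 < m i)
    (hr : rk a (Finset.univ : Finset ι) = N + 1) (hconn : Conn a (Finset.univ : Finset ι))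
    (hn : N + 1 < ∑ i, m i) (b : Polynomial ℂ) (hb : InDn (ff a m) 1 (C b)) :
    b.eval (-(((N + 1 : ℕ) : ℂ) / ((∑ i, m i : ℕ) : ℂ))) = 0 := by
  obtain ⟨𝔽, _, _, ⟨M⟩⟩ := exists_model a ha
  obtain ⟨K, P, hKP⟩ := lattice M hr m 1 (C b) hb
  obtain ⟨I, hI⟩ := exists_bas a (Finset.univ : Finset ι)
  have hcard : I.card = N + 1 := by rw [hI.2.1, hr]
  set l := I.toList with hl
  have hlen : l.length = N + 1 := by rw [hl, Finset.length_toList, hcard]
  have hnd : l.Nodup := Finset.nodup_toList I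
  have hlI : l.toFinset = I := Finset.toList_toFinset I
  let t0 : Fin (N + 1) → ι := fun k => l.get (Fin.cast hlen.symm k)
  have ht0 : Function.Injective t0 := by
    intro k k' h
    have := (List.nodup_iff_injective_get.1 hnd) h
    simpa using this
  have ht0I : ∀ k, t0 k ∈ I := by
    intro k
    have : t0 k ∈ l := List.get_mem _ _
    rw [hl] at this
    exact Finset.mem_toList.1 this
  have hof : List.ofFn t0 = l := by
    apply List.ext_getElem
    · simp [hlen]
    · intro k h1 h2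
      simp only [List.getElem_ofFn, t0, List.get_eq_getElem, Fin.val_cast]
  have heT : eT t0 = eL l := by rw [eT_eq_eL, hof]
  have hdet : Matrix.det (fun i j => a (t0 i) j) ≠ 0 :=
    det_ne_zero_of_bas a (by rw [hI.2.2, hI.2.1]) t0 ht0 ht0I
  obtain ⟨b0, hb0⟩ : ∃ b0, b0 ∈ l := ⟨t0 0, by
    have : t0 0 ∈ l := List.get_mem _ _
    exact this⟩
  obtain ⟨y, hyL, hyOS, κ, hκ, L, hL, hval⟩ := exists_testForm a ha (N + 1) Finset.univ
    (isFlat_univ a) hr hconn l (by rw [hlI]; exact hI) hnd b0 hb0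
  let c0 : ι → ℕ := fun i => if i ∈ I then 1 else 0
  obtain ⟨δ, hδ⟩ := exists_list_count (fun i => m i - c0 i)
  have hδ' : ∀ i, c0 i + δ.count i = m i := by
    intro i
    rw [hδ i]
    have := hm i
    simp only [c0]
    split_ifs <;> omega
  have hδf : (fun i => c0 i + δ.count i) = m := funext hδ'
  obtain ⟨ξ0, hξ0⟩ := exists_qq_ne_zero a
  obtain ⟨y', hy', hdesc⟩ := descend M ha hr m hm ξ0 δ c0 (fun _ => y) (PolyE_const y)
  obtain ⟨P', hP', hG⟩ := hdesc P
  rw [hδf] at hP' hG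
  set dt : ℂ := Matrix.det (fun i j => a (t0 i) j) with hdt
  set K' := δ.length + K with hK'
  let S : (Fin (N + 1) → ι) → MvPolynomial (Option (Fin (N + 1))) ℂ :=
    Pi.single t0 (C dt⁻¹ * Polynomial.aeval (X none) b * rename some (qq a) ^ K')
  have hfin : ∏ i, M.inv i ^ c0 i = dt⁻¹ • M.evt t0 := by
    rw [Model.evt, smul_smul, ← hdt, inv_mul_cancel₀ hdet, one_smul]
    have h1 : ∀ i, M.inv i ^ c0 i = if i ∈ I then M.inv i else 1 := by
      intro i
      simp only [c0]
      split_ifs <;> simp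
    rw [Finset.prod_congr rfl (fun i _ => h1 i), Finset.prod_ite_mem, Finset.univ_inter]
    symm
    have himg : (Finset.univ : Finset (Fin (N + 1))).image t0 = I := by
      apply Finset.eq_of_subset_of_card_le
      · intro i hi
        obtain ⟨k, _, rfl⟩ := Finset.mem_image.1 hi
        exact ht0I k
      · rw [Finset.card_image_of_injective _ ht0, hcard]
        simp
    rw [← himg, Finset.prod_image (fun k _ k' _ h => ht0 h)]
  have hPhi : ∀ s, M.Phi (lev m c0 s) s (fun t => P' t - S t) = 0 := by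
    intro s
    have h1 : M.Phi (lev m c0 s) s (fun t => P' t - S t) =
        M.Phi (lev m c0 s) s P' - M.Phi (lev m c0 s) s S := by
      simp only [Model.Phi, map_sub, LinearMap.sub_apply, Finset.sum_sub_distrib]
    have h2 : M.Phi (lev m c0 s) s S = M.act (lev m c0 s) (qq a ^ K')
        (b.eval s • dt⁻¹ • M.evt t0) := by
      rw [Model.Phi, Finset.sum_eq_single t0]
      · simp only [S, Pi.single_eq_same, map_mul, map_pow, sp_rename, sp_aeval_none]
        have h3 : (sp s (C dt⁻¹ : MvPolynomial (Option (Fin (N + 1))) ℂ) :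
            MvPolynomial (Fin (N + 1)) ℂ) = C dt⁻¹ := by simp [sp]
        rw [h3, ← MvPolynomial.algebraMap_eq, AlgHom.commutes, AlgHom.commutes]
        simp only [Module.End.mul_apply, Module.algebraMap_end_apply, map_smul]
      · intro t _ ht
        simp [S, Pi.single_eq_of_ne ht]
      · intro h
        exact absurd (Finset.mem_univ _) h
    have h4 : M.Phi (lev m c0 s) s P' = M.act (lev m c0 s) (qq a ^ K')
        (b.eval s • dt⁻¹ • M.evt t0) := by
      rw [hP' s, ← hKP s]
      have h5 := act_shift_list M m c0 s (qq a ^ K) δ (M.beta s (C b) * M.finv m ^ 1)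
      rw [hδf] at h5
      have h7 : M.act (lev m c0 s) (qq a ^ K') =
          M.act (lev m c0 s) (qq a ^ δ.length) * M.act (lev m c0 s) (qq a ^ K) := by
        rw [hK', pow_add]
        exact map_mul (M.act (lev m c0 s)) _ _
      rw [h7, Module.End.mul_apply]
      beta_reduce
      rw [← h5]
      congr 2
      rw [pow_one, mul_left_comm, prod_lin_mul_finv M m c0 δ hδ', hfin]
      have h6 : M.beta s (C b) = algebraMap ℂ 𝔽 (b.eval s) := by
        simp [Model.beta]
      rw [h6, ← Algebra.smul_def]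
    rw [h1, h2, h4, sub_self]
  have hrel := fun (s : ℂ) => inj M ha hr m hm (fun i => (c0 i : ℂ)) (fun t => P' t - S t)
    (fun s => hPhi s) s ξ0
  have hGp : ∀ s : ℂ, Gp a (lev m c0 s) (N + 1) Finset.univ (NN P' s ξ0) y =
      dt⁻¹ * b.eval s * eval ξ0 (qq a) ^ K' *
        Gp a (lev m c0 s) (N + 1) Finset.univ (eL l) y := by
    intro s
    have h1 := Gp_eq_zero_of_rel a ha (fun t => eval (opt s ξ0) (P' t - S t)) (hrel s)
      (lev m c0 s) y
    have h2 : ∑ t, (eval (opt s ξ0) (P' t - S t)) • (eT t : E ι) = NN P' s ξ0 -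
        (dt⁻¹ * b.eval s * eval ξ0 (qq a) ^ K') • eL l := by
      simp only [map_sub, sub_smul, Finset.sum_sub_distrib]
      congr 1
      rw [Finset.sum_eq_single t0]
      · rw [heT]
        congr 1
        simp only [S, Pi.single_eq_same, map_mul, map_pow, eval_opt_aeval_none, eval_C]
        congr 2
        rw [MvPolynomial.eval_rename]
        rfl
      · intro t _ ht
        simp [S, Pi.single_eq_of_ne ht]
      · intro h
        exact absurd (Finset.mem_univ _) h
    rw [h2, map_sub, map_smul, LinearMap.sub_apply, LinearMap.smul_apply, sub_eq_zero] at h1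
    rw [h1, smul_eq_mul]
  obtain ⟨p, hp⟩ := PolyE_Gp a (PolyE_NN P ξ0) hy' (fun i => (m i : ℂ)) (N + 1) Finset.univ
  obtain ⟨pL, hpL⟩ := exists_poly_wt m c0 L
  set d : ℕ := ∑ i, m i with hd
  have hd0 : (d : ℂ) ≠ 0 := by
    have : 0 < d := by omega
    exact_mod_cast this.ne'
  have hwt : ∀ s, wt (lev m c0 s) Finset.univ = (d : ℂ) * s + ((N + 1 : ℕ) : ℂ) := by
    intro s
    rw [wt_lev]
    congr 1
    · rw [hd]; push_cast; rfl
    · rw [← hcard]
      simp [c0]
  have key : (Polynomial.X + Polynomial.C 1) ^ (N + 1) *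
      Polynomial.C (dt⁻¹ * eval ξ0 (qq a) ^ K' * κ) * b =
      p * (Polynomial.C (d : ℂ) * Polynomial.X + Polynomial.C ((N + 1 : ℕ) : ℂ)) * pL := by
    apply Polynomial.eq_of_infinite_eval_eq
    refine Set.Infinite.mono (s := (fun t : ℝ => (t : ℂ)) '' Set.Ioi 0) ?_ ?_
    · rintro _ ⟨t, ht, rfl⟩
      have ht : 0 < t := ht
      have hgood := good_lev a m c0 hm t ht
      have e1 := hval (lev m c0 (t : ℂ)) hgood
      rw [hpL, hwt] at e1
      have e2 := hG t ht
      rw [hGp] at e2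
      have e3 : Gp a (lev m m (t : ℂ)) (N + 1) Finset.univ (NN P (t : ℂ) ξ0) (y' t) =
          (((t : ℂ) + 1)⁻¹) ^ (N + 1) * p.eval (t : ℂ) := by
        rw [lev_self, Gp_scale, hp]
      rw [e3] at e2
      have ht1 : ((t : ℂ) + 1) ≠ 0 := by
        have : (t + 1 : ℝ) ≠ 0 := by positivity
        exact_mod_cast this
      simp only [Set.mem_ofPred_eq, Polynomial.eval_mul, Polynomial.eval_pow, Polynomial.eval_add,
        Polynomial.eval_X, Polynomial.eval_C]
      have e4 : ((t : ℂ) + 1) ^ (N + 1) * (((t : ℂ) + 1)⁻¹) ^ (N + 1) = 1 := by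
        rw [← mul_pow, mul_inv_cancel₀ ht1, one_pow]
      calc ((t : ℂ) + 1) ^ (N + 1) * (dt⁻¹ * eval ξ0 (qq a) ^ K' * κ) * b.eval (t : ℂ)
          = ((t : ℂ) + 1) ^ (N + 1) * (dt⁻¹ * b.eval (t : ℂ) * eval ξ0 (qq a) ^ K' *
              Gp a (lev m c0 (t : ℂ)) (N + 1) Finset.univ (eL l) y) *
              (((d : ℂ) * t + ((N + 1 : ℕ) : ℂ)) * pL.eval (t : ℂ)) := by
            rw [← e1]; ring
        _ = (((t : ℂ) + 1) ^ (N + 1) * (((t : ℂ) + 1)⁻¹) ^ (N + 1)) * p.eval (t : ℂ) *
              (((d : ℂ) * t + ((N + 1 : ℕ) : ℂ)) * pL.eval (t : ℂ)) := by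
            rw [e2]; ring
        _ = _ := by rw [e4]; ring
    · apply Set.Infinite.image
      · exact Complex.ofReal_injective.injOn
      · exact Set.Ioi_infinite 0
  have hfinal := congrArg (Polynomial.eval (-(((N + 1 : ℕ) : ℂ) / (d : ℂ)))) key
  simp only [Polynomial.eval_mul, Polynomial.eval_pow, Polynomial.eval_add,
    Polynomial.eval_X, Polynomial.eval_C] at hfinal
  have hz : (d : ℂ) * (-(((N + 1 : ℕ) : ℂ) / (d : ℂ))) + ((N + 1 : ℕ) : ℂ) = 0 := by
    field_simp
    ring
  rw [hz, mul_zero, zero_mul] at hfinal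
  have hne1 : -(((N + 1 : ℕ) : ℂ) / (d : ℂ)) + 1 ≠ 0 := by
    intro h
    have h1 : ((N + 1 : ℕ) : ℂ) = (d : ℂ) := by
      field_simp at h
      linear_combination -h
    have h2 : N + 1 = d := by exact_mod_cast h1
    omega
  have hne2 : dt⁻¹ * eval ξ0 (qq a) ^ K' * κ ≠ 0 :=
    mul_ne_zero (mul_ne_zero (inv_ne_zero hdet) (pow_ne_zero _ hξ0)) hκ
  exact (mul_eq_zero.1 hfinal).resolve_left (mul_ne_zero (pow_ne_zero _ hne1) hne2)

end MPb07157.ND
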