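import Mathlib

/-!
# The n/d conjecture for complex multi-arrangements: definitions

Forms `a i : Fin n → ℂ` (elements of `W = (ℂ^n)^*`), points `x : Fin n → ℂ`, pairing `a i ⬝ᵥ x`.
-/

noncomputable section

namespace MPb07157.ND

open Finset

/-! ### Matroid part -/

section Matroid

variable {n : ℕ} {ι : Type}

/-- the span of the forms in `F` -/
abbrev spn (a : ι → Fin n → ℂ) (F : Finset ι) : Submodule ℂ (Fin n → ℂ) :=
  Submodule.span ℂ (a '' (F : Set ι))

/-- the rank -/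
def rk (a : ι → Fin n → ℂ) (F : Finset ι) : ℕ := Module.finrank ℂ (spn a F)

/-- flats -/
def IsFlat (a : ι → Fin n → ℂ) (F : Finset ι) : Prop := ∀ i, a i ∈ spn a F → i ∈ F

open Classical in
/-- the flats `H ⊆ F` of rank `rk F - 1` -/
def hyp (a : ι → Fin n → ℂ) (F : Finset ι) : Finset (Finset ι) :=
  F.powerset.filter (fun H => IsFlat a H ∧ rk a H + 1 = rk a F)

open Classical in
/-- the closure of `S` in `F` -/
def cl (a : ι → Fin n → ℂ) (F S : Finset ι) : Finset ι := F.filter (fun i => a i ∈ spn a S)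

/-- `v` is a normal vector of `H` in `F` -/
def IsNormal (a : ι → Fin n → ℂ) (F H : Finset ι) (v : Fin n → ℂ) : Prop :=
  ∀ ξ ∈ spn a F, (ξ ⬝ᵥ v = 0 ↔ ξ ∈ spn a H)

open Classical in
/-- a chosen normal vector of `H` in `F` -/
def nv (a : ι → Fin n → ℂ) (F H : Finset ι) : Fin n → ℂ :=
  if h : ∃ v, IsNormal a F H v then h.choose else 0

/-- `I` is a basis of `F` -/
def IsBas (a : ι → Fin n → ℂ) (F I : Finset ι) : Prop :=
  I ⊆ F ∧ I.card = rk a F ∧ rk a I = rk a F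

/-- the arrangement `F` is indecomposable -/
def Conn [DecidableEq ι] (a : ι → Fin n → ℂ) (F : Finset ι) : Prop :=
  F.Nonempty ∧ ∀ G ⊆ F, G.Nonempty → (F \ G).Nonempty → ¬ Disjoint (spn a G) (spn a (F \ G))

/-- weight of a set -/
def wt (w : ι → ℂ) (F : Finset ι) : ℂ := ∑ i ∈ F, w i

/-- complement of the hyperplanes in `F` -/
def Ucomp (a : ι → Fin n → ℂ) (F : Finset ι) : Set (Fin n → ℂ) := {x | ∀ i ∈ F, a i ⬝ᵥ x ≠ 0}

end Matroid

/-! ### Exterior algebra -/

section Ext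

variable {ι : Type}

/-- the exterior algebra on the generators `e i` -/
abbrev E (ι : Type) : Type := ExteriorAlgebra ℂ (ι → ℂ)

/-- augmentation -/
abbrev aug : E ι →ₐ[ℂ] ℂ := ExteriorAlgebra.algebraMapInv

/-- the generators -/
def e [DecidableEq ι] (i : ι) : E ι := ExteriorAlgebra.ι ℂ (Pi.single i 1)

/-- the element `∑ w_i e_i` -/
def om (w : ι → ℂ) : E ι := ExteriorAlgebra.ι ℂ w

/-- monomials -/
def eL [DecidableEq ι] (l : List ι) : E ι := (l.map e).prod

/-- monomial of a tuple -/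
def eT [DecidableEq ι] {r : ℕ} (t : Fin r → ι) : E ι :=
  ExteriorAlgebra.ιMulti ℂ r (fun k => (Pi.single (t k) 1 : ι → ℂ))

/-- restriction of vectors to the coordinates in `S` -/
def restr [DecidableEq ι] (S : Finset ι) : (ι → ℂ) →ₗ[ℂ] (ι → ℂ) :=
  LinearMap.pi fun i => if i ∈ S then LinearMap.proj i else 0

/-- restriction `e_i ↦ e_i` for `i ∈ S`, `e_i ↦ 0` otherwise -/
def rho [DecidableEq ι] (S : Finset ι) : E ι →ₐ[ℂ] E ι := ExteriorAlgebra.map (restr S)

/-- the functional with coordinates `φ` -/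
def fnl [Fintype ι] (φ : ι → ℂ) : Module.Dual ℂ (ι → ℂ) := ∑ i, φ i • LinearMap.proj i

/-- contraction with the functional with coordinates `φ` -/
def ctr [Fintype ι] (φ : ι → ℂ) : E ι →ₗ[ℂ] E ι := CliffordAlgebra.contractLeft (fnl φ)

/-- indicator vector of `S` -/
def ind [DecidableEq ι] (S : Finset ι) : ι → ℂ := fun i => if i ∈ S then 1 else 0

/-- the residue map `ρ_H ∘ ctr_{F ∖ H}` -/
def D [Fintype ι] [DecidableEq ι] (F H : Finset ι) : E ι →ₗ[ℂ] E ι :=
  (rho H).toLinearMap ∘ₗ ctr (ind (F \ H))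

/-- grade involution -/
abbrev hat : E ι →ₐ[ℂ] E ι := CliffordAlgebra.involute

/-- the degree `r` part on the generators in `F` -/
def Lam [DecidableEq ι] (F : Finset ι) (r : ℕ) : Submodule ℂ (E ι) :=
  Submodule.span ℂ {x | ∃ l : List ι, l.length = r ∧ (∀ i ∈ l, i ∈ F) ∧ x = eL l}

end Ext

/-! ### The contravariant form -/

section Pairing

variable {n : ℕ} {ι : Type} [Fintype ι] [DecidableEq ι]

/-- the form `G_w` on degree `r` elements of a flat `F` of rank `r` -/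
def Gp (a : ι → Fin n → ℂ) (w : ι → ℂ) : ℕ → Finset ι → E ι →ₗ[ℂ] E ι →ₗ[ℂ] ℂ
  | 0, _ => (LinearMap.mul ℂ ℂ).compl₁₂ (aug (ι := ι)).toLinearMap (aug (ι := ι)).toLinearMap
  | r + 1, F => (wt w F)⁻¹ • ∑ H ∈ hyp a F, (Gp a w r H).compl₁₂ (D F H) (D F H)

/-- the weights `w` are generic -/
def Good (a : ι → Fin n → ℂ) (w : ι → ℂ) : Prop := ∀ F, IsFlat a F → F.Nonempty → wt w F ≠ 0

/-- `T x = ∑_H c_H w ∧ D_H x`, over the hyperplanes `H` of the matroid -/
def T (a : ι → Fin n → ℂ) (w : ι → ℂ) (c : Finset ι → ℂ) : E ι →ₗ[ℂ] E ι :=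
  ∑ H ∈ hyp a Finset.univ, c H • (LinearMap.mulLeft ℂ (om w)) ∘ₗ D Finset.univ H

/-- the Orlik–Solomon ideal -/
inductive OS (a : ι → Fin n → ℂ) : E ι → Prop
  | zero : OS a 0
  | add {x y} : OS a x → OS a y → OS a (x + y)
  | mul_left {x} (u : E ι) : OS a x → OS a (u * x)
  | mul_right {x} (u : E ι) : OS a x → OS a (x * u)
  | gen (l : List ι) : rk a l.toFinset < l.length → OS a (ctr (fun _ => 1) (eL l))

/-- iterated contractions, evaluated in degree zero -/
def mctr : (r : ℕ) → (Fin r → ι → ℂ) → E ι → ℂ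
  | 0, _, x => aug x
  | r + 1, φ, x => mctr r (fun k => φ k.succ) (ctr (φ 0) x)

/-- the functional `e_i ↦ a_i(u) / a_i(x)` for `i ∈ F` -/
def eta (a : ι → Fin n → ℂ) (F : Finset ι) (u x : Fin n → ℂ) : ι → ℂ :=
  fun i => if i ∈ F then (a i ⬝ᵥ u) / (a i ⬝ᵥ x) else 0

end Pairing

end MPb07157.ND
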