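import Pool.Agent.Lib.MP_b07157_ag.ND.Main

/-! # Products of polynomials of degree one -/

noncomputable section

namespace MPb07157.ND

open MvPolynomial

/-- a polynomial of degree at most one is affine -/
theorem eq_af_of_totalDegree_le {n : ℕ} (l : MvPolynomial (Fin n) ℂ) (h : l.totalDegree ≤ 1) :
    l = af (fun i => coeff (Finsupp.single i 1) l) (coeff 0 l) := by
  classical
  ext μ
  rcases Nat.lt_or_ge 1 (μ.sum fun _ e => e) with h1 | h1
  · have h2 : coeff μ l = 0 := coeff_eq_zero_of_totalDegree_lt (lt_of_le_of_lt h h1)
    have h3 : (af (fun i => coeff (Finsupp.single i 1) l) (coeff 0 l)).totalDegree ≤ 1 := by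
      unfold af
      refine (totalDegree_add _ _).trans (max_le ?_ ?_)
      · refine (totalDegree_finset_sum _ _).trans (Finset.sup_le fun i _ => ?_)
        refine (totalDegree_mul _ _).trans ?_
        rw [totalDegree_C, totalDegree_X]
      · rw [totalDegree_C]; exact Nat.zero_le _
    rw [h2, coeff_eq_zero_of_totalDegree_lt (lt_of_le_of_lt h3 h1)]
  · have h4 : μ = 0 ∨ ∃ i, μ = Finsupp.single i 1 := by
      by_cases h0 : μ = 0
      · exact Or.inl h0
      · right
        obtain ⟨i, hi⟩ : ∃ i, μ i ≠ 0 := by
          by_contra hcon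
          push Not at hcon
          exact h0 (Finsupp.ext hcon)
        refine ⟨i, ?_⟩
        have h5 : μ = Finsupp.single i 1 + (μ - Finsupp.single i 1) := by
          rw [add_tsub_cancel_of_le]
          rw [Finsupp.single_le_iff]
          omega
        have h6 : (μ.sum fun _ e => e) = 1 + ((μ - Finsupp.single i 1).sum fun _ e => e) := by
          conv_lhs => rw [h5]
          rw [Finsupp.sum_add_index' (fun _ => rfl) (fun _ _ _ => rfl), Finsupp.sum_single_index rfl]
        have h7 : ((μ - Finsupp.single i 1).sum fun _ e => e) = 0 := by omega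
        have h8 : μ - Finsupp.single i 1 = 0 := by
          rw [Finsupp.sum, Finset.sum_eq_zero_iff] at h7
          ext j
          by_cases hj : j ∈ (μ - Finsupp.single i 1).support
          · exact h7 j hj
          · simpa using hj
        rw [h8, add_zero] at h5
        exact h5
    rcases h4 with rfl | ⟨i, rfl⟩
    · simp [af, coeff_sum, coeff_C_mul]
    · have h9 : ¬ (0 = (Finsupp.single i 1 : Fin n →₀ ℕ)) := by
        intro h
        have := DFunLike.congr_fun h i
        simp at this
      simp [af, coeff_sum, coeff_C_mul, coeff_X, Finsupp.single_left_inj, coeff_C, h9]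

/-- **The strong monodromy conjecture for hyperplane arrangements**: products of polynomials of
degree one. -/
theorem strong_monodromy_list {n : ℕ} (L : List (MvPolynomial (Fin n) ℂ))
    (hL : ∀ l ∈ L, l.totalDegree = 1) (s₀ : ℚ) (hs₀ : IsPole (Zmot L.prod) s₀) :
    IsBernsteinSatoRoot L.prod s₀ := by
  let a : Fin L.length → Fin n → ℂ := fun j i => coeff (Finsupp.single i 1) (L.get j)
  let c : Fin L.length → ℂ := fun j => coeff 0 (L.get j)
  have hf : L.prod = arrPolyC a c (fun _ => 1) := by
    rw [arrPolyC_eq]
    have h1 : ∀ j : Fin L.length, af (a j) (c j) ^ 1 = L.get j := by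
      intro j
      rw [pow_one]
      exact (eq_af_of_totalDegree_le _ (hL _ (List.get_mem L j)).le).symm
    rw [Finset.prod_congr rfl (fun j _ => h1 j)]
    rw [← List.prod_ofFn]
    congr 1
    exact (List.ofFn_get L).symm
  have ha : ∀ j, a j ≠ 0 := by
    intro j h0
    have h1 := hL _ (List.get_mem L j)
    have h2 := eq_af_of_totalDegree_le _ h1.le
    change L.get j = af (a j) _ at h2
    rw [h0] at h2
    have h3 : (L.get j).totalDegree = 0 := by
      rw [h2]
      simp [af]
    omega
  rw [hf] at hs₀ ⊢
  exact strong_monodromy a c (fun _ => 1) ha (fun _ => Nat.one_pos) s₀ hs₀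

end MPb07157.ND
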