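import Pool.Agent.Lib.MP_b07157_ag.ND.Weyl
import Pool.Agent.Lib.MP_b07157_ag.ND.CInj
import Pool.Agent.Lib.MP_b07157_ag.ND.Rel

/-! # Families of differential operators: definitions -/

noncomputable section

namespace MPb07157.ND

open Finset MvPolynomial

variable {n : ℕ} {ι : Type} [Fintype ι] {a : ι → Fin n → ℂ} {𝔽 : Type}
  [CommRing 𝔽] [Algebra ℂ 𝔽] (M : Model a 𝔽)

/-- specialization of the variable `s` (`X none`) -/
def sp (s : ℂ) : MvPolynomial (Option (Fin n)) ℂ →ₐ[ℂ] MvPolynomial (Fin n) ℂ :=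
  aeval (fun o => o.elim (C s) X)

/-- the point `(s, ξ)` -/
def opt (s : ℂ) (ξ : Fin n → ℂ) : Option (Fin n) → ℂ := fun o => o.elim s ξ

theorem eval_sp (s : ℂ) (ξ : Fin n → ℂ) (P : MvPolynomial (Option (Fin n)) ℂ) :
    eval ξ (sp s P) = eval (opt s ξ) P := by
  induction P using MvPolynomial.induction_on with
  | C c => simp [sp, algebraMap_eq]
  | add p q hp hq => rw [map_add, map_add, map_add, hp, hq]
  | mul_X p o hp =>
    rw [map_mul, map_mul, map_mul, hp, eval_X]
    congr 1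
    cases o with
    | none => simp [sp, opt]
    | some j => simp [sp, opt]

theorem sp_rename (s : ℂ) (q : MvPolynomial (Fin n) ℂ) : sp s (rename some q) = q := by
  rw [sp, aeval_rename]
  have h : ((fun o : Option (Fin n) => o.elim (C s) X) ∘ some :
      Fin n → MvPolynomial (Fin n) ℂ) = X := by
    funext j
    rfl
  rw [h, aeval_X_left_apply]

/-- `∑_t P_t · evt t` -/
def Model.Phi (w : ι → ℂ) (s : ℂ) (P : (Fin n → ι) → MvPolynomial (Option (Fin n)) ℂ) : 𝔽 :=
  ∑ t, M.act w (sp s (P t)) (M.evt t)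

/-- the weights at level `c` -/
def lev (m c : ι → ℕ) (s : ℂ) : ι → ℂ := fun i => (m i : ℂ) * s + (c i : ℂ)

/-- the element of the exterior algebra attached to a family -/
def NN [DecidableEq ι] (P : (Fin n → ι) → MvPolynomial (Option (Fin n)) ℂ) (s : ℂ)
    (ξ : Fin n → ℂ) : E ι := ∑ t, (eval (opt s ξ) (P t)) • eT t

end MPb07157.ND
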