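import Pool.Agent.Lib.MP_b07157_ag.ND.Ext

/-! # The graded pieces -/

noncomputable section

namespace MPb07157.ND

open Finset



variable {ι : Type} [DecidableEq ι]

theorem eL_mem_Lam {F : Finset ι} {l : List ι} (h : ∀ i ∈ l, i ∈ F) : eL l ∈ Lam F l.length :=
  Submodule.subset_span ⟨l, rfl, h, rfl⟩

theorem e_mem_Lam {F : Finset ι} {i : ι} (h : i ∈ F) : e i ∈ Lam F 1 := by
  have h1 : eL [i] ∈ Lam F [i].length := eL_mem_Lam (by simpa using h)
  rw [eL_cons, eL_nil, mul_one] at h1
  exact h1

theorem one_mem_Lam (F : Finset ι) : (1 : E ι) ∈ Lam F 0 := by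
  have h1 : eL ([] : List ι) ∈ Lam F ([] : List ι).length := eL_mem_Lam (by simp)
  rw [eL_nil] at h1
  exact h1

theorem Lam_mono {F G : Finset ι} (h : F ⊆ G) (r : ℕ) : Lam F r ≤ Lam G r := by
  apply Submodule.span_mono
  rintro x ⟨l, hl, hF, rfl⟩
  exact ⟨l, hl, fun i hi => h (hF i hi), rfl⟩

theorem mem_Lam_zero {F : Finset ι} {x : E ι} (h : x ∈ Lam F 0) :
    x = algebraMap ℂ (E ι) (aug x) := by
  induction h using Submodule.span_induction with
  | mem x hx =>
    obtain ⟨l, hl, hF, rfl⟩ := hx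
    obtain rfl := List.length_eq_zero_iff.mp hl
    rw [eL_nil]
    simp
  | zero => simp
  | add x y _ _ hx hy => rw [map_add, map_add, ← hx, ← hy]
  | smul c x _ hx =>
    rw [map_smul, smul_eq_mul, map_mul, ← hx, Algebra.smul_def]

theorem rho_of_mem_Lam {F : Finset ι} {r : ℕ} {x : E ι} (h : x ∈ Lam F r) : rho F x = x := by
  induction h using Submodule.span_induction with
  | mem x hx =>
    obtain ⟨l, hl, hF, rfl⟩ := hx
    exact rho_eL_of_subset hF
  | zero => simp
  | add x y _ _ hx hy => rw [map_add, hx, hy]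
  | smul c x _ hx => rw [map_smul, hx]

theorem hat_of_mem_Lam {F : Finset ι} {r : ℕ} {x : E ι} (h : x ∈ Lam F r) :
    hat x = (-1 : ℂ) ^ r • x := by
  induction h using Submodule.span_induction with
  | mem x hx =>
    obtain ⟨l, hl, hF, rfl⟩ := hx
    rw [← hl]
    exact hat_eL l
  | zero => simp
  | add x y _ _ hx hy => rw [map_add, hx, hy, smul_add]
  | smul c x _ hx => rw [map_smul, hx, smul_comm]

theorem mul_mem_Lam {F : Finset ι} {r s : ℕ} {x y : E ι} (hx : x ∈ Lam F r) (hy : y ∈ Lam F s) :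
    x * y ∈ Lam F (r + s) := by
  induction hx using Submodule.span_induction with
  | mem x hx =>
    obtain ⟨l, hl, hF, rfl⟩ := hx
    induction hy using Submodule.span_induction with
    | mem y hy =>
      obtain ⟨l', hl', hF', rfl⟩ := hy
      rw [← eL_append]
      have h1 : eL (l ++ l') ∈ Lam F (l ++ l').length := eL_mem_Lam (by
        intro i hi
        rcases List.mem_append.mp hi with hi | hi
        · exact hF i hi
        · exact hF' i hi)
      rwa [List.length_append, hl, hl'] at h1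
    | zero => rw [mul_zero]; exact Submodule.zero_mem _
    | add x y _ _ hx hy => rw [mul_add]; exact Submodule.add_mem _ hx hy
    | smul c x _ hx => rw [mul_smul_comm]; exact Submodule.smul_mem _ _ hx
  | zero => rw [zero_mul]; exact Submodule.zero_mem _
  | add x y _ _ hx hy => rw [add_mul]; exact Submodule.add_mem _ hx hy
  | smul c x _ hx => rw [smul_mul_assoc]; exact Submodule.smul_mem _ _ hx

theorem rho_mem_Lam {F : Finset ι} (S : Finset ι) {r : ℕ} {x : E ι} (h : x ∈ Lam F r) :
    rho S x ∈ Lam (S ∩ F) r := by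
  induction h using Submodule.span_induction with
  | mem x hx =>
    obtain ⟨l, hl, hF, rfl⟩ := hx
    by_cases hS : ∀ i ∈ l, i ∈ S
    · rw [rho_eL_of_subset hS]
      exact Submodule.subset_span ⟨l, hl, fun i hi => Finset.mem_inter.mpr ⟨hS i hi, hF i hi⟩, rfl⟩
    · rw [rho_eL_of_not_subset hS]
      exact Submodule.zero_mem _
  | zero => rw [map_zero]; exact Submodule.zero_mem _
  | add x y _ _ hx hy => rw [map_add]; exact Submodule.add_mem _ hx hy
  | smul c x _ hx => rw [map_smul]; exact Submodule.smul_mem _ _ hx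

variable [Fintype ι]

private theorem ctr_eL_mem (φ : ι → ℂ) {F : Finset ι} (l : List ι) (hF : ∀ i ∈ l, i ∈ F) :
    (l = [] → ctr φ (eL l) = 0) ∧ ctr φ (eL l) ∈ Lam F (l.length - 1) := by
  induction l with
  | nil =>
    rw [eL_nil, ctr_one]
    exact ⟨fun _ => rfl, Submodule.zero_mem _⟩
  | cons i l ih =>
    refine ⟨fun h => absurd h (by simp), ?_⟩
    have hi : i ∈ F := hF i (by simp)
    have hF' : ∀ j ∈ l, j ∈ F := fun j hj => hF j (by simp [hj])
    obtain ⟨h0, h1⟩ := ih hF'
    rw [eL_cons, ctr_e_mul]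
    apply Submodule.sub_mem
    · exact Submodule.smul_mem _ _ (eL_mem_Lam hF')
    · by_cases hl : l = []
      · rw [h0 hl, mul_zero]; exact Submodule.zero_mem _
      · have h2 := mul_mem_Lam (e_mem_Lam hi) h1
        have h3 : 1 + (l.length - 1) = (i :: l).length - 1 := by
          have : 0 < l.length := List.length_pos_iff.mpr hl
          simp only [List.length_cons]
          omega
        rwa [h3] at h2

theorem ctr_mem_Lam (φ : ι → ℂ) {F : Finset ι} {r : ℕ} {x : E ι} (h : x ∈ Lam F (r + 1)) :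
    ctr φ x ∈ Lam F r := by
  induction h using Submodule.span_induction with
  | mem x hx =>
    obtain ⟨l, hl, hF, rfl⟩ := hx
    have h1 := (ctr_eL_mem φ l hF).2
    rwa [hl, Nat.add_sub_cancel] at h1
  | zero => rw [map_zero]; exact Submodule.zero_mem _
  | add x y _ _ hx hy => rw [map_add]; exact Submodule.add_mem _ hx hy
  | smul c x _ hx => rw [map_smul]; exact Submodule.smul_mem _ _ hx

theorem D_mem_Lam {F H : Finset ι} (hH : H ⊆ F) {r : ℕ} {x : E ι} (h : x ∈ Lam F (r + 1)) :
    D F H x ∈ Lam H r := by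
  rw [D_apply]
  have h1 := rho_mem_Lam H (ctr_mem_Lam (ind (F \ H)) h)
  rwa [Finset.inter_eq_left.mpr hH] at h1

end MPb07157.ND
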