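import Pool.Agent.Lib.MP_b07157_ag.ND.InjDef

/-! # Leading coefficients in `s` -/

noncomputable section

namespace MPb07157.ND

open Finset MvPolynomial

variable {n : ℕ} {ι : Type} [Fintype ι] {a : ι → Fin n → ℂ} {𝔽 : Type}
  [CommRing 𝔽] [Algebra ℂ 𝔽] (M : Model a 𝔽)

/-- `φ(s)` is polynomial in `s` of degree `≤ d`, with coefficient `c` in degree `d` -/
def Lead (d : ℕ) (φ : ℂ → 𝔽) (c : 𝔽) : Prop :=
  ∃ e : ℕ → 𝔽, ∀ s : ℂ, φ s = s ^ d • c + ∑ k ∈ range d, s ^ k • e k

include M in
theorem Lead_unique {d : ℕ} {c : 𝔽} (h : Lead d (fun _ => (0 : 𝔽)) c) : c = 0 := by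
  obtain ⟨e, he⟩ := h
  apply M.ext
  intro p hp
  set Q : Polynomial ℂ := Polynomial.monomial d (M.ev p hp c) +
    ∑ k ∈ range d, Polynomial.monomial k (M.ev p hp (e k)) with hQdef
  have hQ : Q = 0 := by
    apply Polynomial.funext
    intro s
    have h1 := congrArg (M.ev p hp) (he s)
    simp only [map_zero, map_add, map_smul, map_sum, smul_eq_mul] at h1
    simp only [hQdef, Polynomial.eval_add, Polynomial.eval_monomial, Polynomial.eval_finsetSum,
      Polynomial.eval_zero]
    rw [h1, mul_comm]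
    congr 1
    exact Finset.sum_congr rfl fun k _ => mul_comm _ _
  have h2 : Q.coeff d = M.ev p hp c := by
    simp only [hQdef, Polynomial.coeff_add, Polynomial.finsetSum_coeff,
      Polynomial.coeff_monomial, if_true]
    rw [Finset.sum_eq_zero, add_zero]
    intro k hk
    rw [if_neg]
    exact (Finset.mem_range.1 hk).ne
  rw [← h2, hQ, Polynomial.coeff_zero]

theorem Lead_add {d : ℕ} {φ ψ : ℂ → 𝔽} {c e : 𝔽} (h : Lead d φ c) (h' : Lead d ψ e) :
    Lead d (fun s => φ s + ψ s) (c + e) := by
  obtain ⟨f, hf⟩ := h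
  obtain ⟨g, hg⟩ := h'
  refine ⟨fun k => f k + g k, fun s => ?_⟩
  simp only [hf s, hg s, smul_add, Finset.sum_add_distrib]
  abel

theorem Lead_map {d : ℕ} {φ : ℂ → 𝔽} {c : 𝔽} (L : 𝔽 →ₗ[ℂ] 𝔽) (h : Lead d φ c) :
    Lead d (fun s => L (φ s)) (L c) := by
  obtain ⟨f, hf⟩ := h
  refine ⟨fun k => L (f k), fun s => ?_⟩
  simp only [hf s, map_add, map_smul, map_sum]

theorem Lead_smul {d : ℕ} {φ : ℂ → 𝔽} {c : 𝔽} (z : ℂ) (h : Lead d φ c) :
    Lead d (fun s => z • φ s) (z • c) :=
  Lead_map (z • LinearMap.id) h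

theorem Lead_const (u : 𝔽) : Lead 0 (fun _ => u) u :=
  ⟨0, fun s => by simp⟩

theorem Lead_zero (d : ℕ) : Lead d (fun _ => (0 : 𝔽)) 0 :=
  ⟨0, fun s => by simp⟩

theorem Lead_succ {d : ℕ} {φ : ℂ → 𝔽} {c : 𝔽} (h : Lead d φ c) : Lead (d + 1) φ 0 := by
  obtain ⟨f, hf⟩ := h
  refine ⟨fun k => if k = d then c else f k, fun s => ?_⟩
  rw [hf s, Finset.sum_range_succ, smul_zero, zero_add, add_comm]
  simp only [if_true]
  congr 1
  refine Finset.sum_congr rfl fun k hk => ?_
  rw [if_neg (Finset.mem_range.1 hk).ne]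

theorem Lead_lt {d d' : ℕ} {φ : ℂ → 𝔽} {c : 𝔽} (h : Lead d φ c) (hd : d < d') :
    Lead d' φ 0 := by
  induction d', hd using Nat.le_induction with
  | base => exact Lead_succ h
  | succ m _ ih => exact Lead_succ ih

theorem Lead_mul_s {d : ℕ} {φ : ℂ → 𝔽} {c : 𝔽} (h : Lead d φ c) :
    Lead (d + 1) (fun s => s • φ s) c := by
  obtain ⟨f, hf⟩ := h
  refine ⟨fun k => if k = 0 then 0 else f (k - 1), fun s => ?_⟩
  simp only [hf s]
  rw [Finset.sum_range_succ', smul_add, smul_smul, ← pow_succ', Finset.smul_sum]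
  simp only [if_true, smul_zero, add_zero, Nat.succ_ne_zero, if_false, Nat.add_sub_cancel]
  congr 1
  refine Finset.sum_congr rfl fun k _ => ?_
  rw [smul_smul, ← pow_succ']

theorem Lead_sum {κ : Type} (S : Finset κ) {d : ℕ} {φ : κ → ℂ → 𝔽} {c : κ → 𝔽}
    (h : ∀ v ∈ S, Lead d (φ v) (c v)) :
    Lead d (fun s => ∑ v ∈ S, φ v s) (∑ v ∈ S, c v) := by
  classical
  induction S using Finset.induction_on with
  | empty => simpa using Lead_zero (𝔽 := 𝔽) d
  | insert v S hv ih =>
    simp only [Finset.sum_insert hv]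
    exact Lead_add (h v (Finset.mem_insert_self v S))
      (ih fun w hw => h w (Finset.mem_insert_of_mem hw))

theorem Model.gr_affine (m : ι → ℕ) (c : ι → ℂ) (s : ℂ) (j : Fin n) :
    M.gr (fun i => (m i : ℂ) * s + c i) j =
      s • M.gr (fun i => (m i : ℂ)) j + M.gr c j := by
  simp only [Model.gr, Finset.smul_sum, ← Finset.sum_add_distrib]
  refine Finset.sum_congr rfl fun i _ => ?_
  rw [smul_smul, ← add_smul]
  congr 1
  ring

theorem Lead_Dw (m : ι → ℕ) (c : ι → ℂ) (j : Fin n) {d : ℕ} {φ : ℂ → 𝔽} {g : 𝔽}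
    (h : Lead d φ g) : Lead (d + 1)
      (fun s => M.Dw (fun i => (m i : ℂ) * s + c i) j (φ s)) (M.gr (fun i => (m i : ℂ)) j * g) := by
  have h1 := Lead_succ (Lead_map (M.d j).toLinearMap h)
  have h2 := Lead_mul_s (Lead_map (LinearMap.mulLeft ℂ (M.gr (fun i => (m i : ℂ)) j)) h)
  have h3 := Lead_succ (Lead_map (LinearMap.mulLeft ℂ (M.gr c j)) h)
  have h4 := Lead_add (Lead_add h1 h2) h3
  simp only [zero_add, add_zero] at h4
  rw [LinearMap.mulLeft_apply] at h4
  convert h4 using 2 with s
  simp only [Model.Dw, LinearMap.add_apply, LinearMap.mulLeft_apply, M.gr_affine m c s j,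
    add_mul, smul_mul_assoc, add_assoc]

theorem Lead_monomial (m : ι → ℕ) (c : ι → ℂ) (u : 𝔽) (N : ℕ) :
    ∀ v : Option (Fin n) →₀ ℕ, v.degree = N →
    Lead N (fun s => M.act (fun i => (m i : ℂ) * s + c i) (sp s (monomial v 1)) u)
      (aeval (fun o : Option (Fin n) => o.elim 1 (M.gr (fun i => (m i : ℂ))))
        (monomial v (1 : ℂ)) * u) := by
  induction N with
  | zero =>
    intro v hv
    have hv0 : v = 0 := by
      rwa [Finsupp.degree_eq_zero_iff] at hv
    subst hv0
    simp only [monomial_zero', map_one, Module.End.one_apply, one_mul]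
    exact Lead_const u
  | succ N ih =>
    intro v hv
    obtain ⟨o, ho⟩ : ∃ o, v o ≠ 0 := by
      by_contra hcon
      push Not at hcon
      have : v = 0 := Finsupp.ext hcon
      rw [this] at hv
      simp at hv
    obtain ⟨v', rfl⟩ : ∃ v', v = Finsupp.single o 1 + v' := by
      refine ⟨v - Finsupp.single o 1, ?_⟩
      rw [add_tsub_cancel_of_le]
      rw [Finsupp.single_le_iff]
      omega
    have hv' : v'.degree = N := by
      rw [map_add, Finsupp.degree_single] at hv
      omega
    have hX : (monomial (Finsupp.single o 1 + v') (1 : ℂ)) = X o * monomial v' 1 := by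
      rw [X, monomial_mul, one_mul]
    have h0 := ih v' hv'
    rw [hX]
    cases o with
    | none =>
      have h1 := Lead_mul_s h0
      rw [map_mul, aeval_X, Option.elim_none, one_mul]
      simp only [map_mul]
      convert h1 using 2 with s
      have : sp s (X none : MvPolynomial (Option (Fin n)) ℂ) = C s := by
        simp [sp]
      rw [this, Module.End.mul_apply]
      have h5 : M.act (fun i => (m i : ℂ) * s + c i) (C s) = algebraMap ℂ _ s :=
        AlgHom.commutes _ s
      rw [h5, Module.algebraMap_end_apply]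
    | some j =>
      have h1 := Lead_Dw M m c j h0
      rw [map_mul, aeval_X, Option.elim_some, mul_assoc]
      simp only [map_mul]
      convert h1 using 2 with s
      have : sp s (X (some j) : MvPolynomial (Option (Fin n)) ℂ) = X j := by
        simp [sp]
      rw [this, Module.End.mul_apply, M.act_X]

/-- the leading coefficient of `act (sp s P) u` -/
theorem Lead_act (m : ι → ℕ) (c : ι → ℂ) (P : MvPolynomial (Option (Fin n)) ℂ) (d : ℕ)
    (hP : P.totalDegree ≤ d) (u : 𝔽) :
    Lead d (fun s => M.act (fun i => (m i : ℂ) * s + c i) (sp s P) u)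
      (aeval (fun o : Option (Fin n) => o.elim 1 (M.gr (fun i => (m i : ℂ))))
        (homogeneousComponent d P) * u) := by
  have key : ∀ v ∈ P.support,
      Lead d (fun s => M.act (fun i => (m i : ℂ) * s + c i) (sp s (monomial v (coeff v P))) u)
      (aeval (fun o : Option (Fin n) => o.elim 1 (M.gr (fun i => (m i : ℂ))))
        (homogeneousComponent d (monomial v (coeff v P))) * u) := by
    intro v hv
    have hdeg : v.degree ≤ d := (le_totalDegree hv).trans hP
    have hm : (monomial v (coeff v P) : MvPolynomial (Option (Fin n)) ℂ) =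
        (coeff v P) • monomial v 1 := by
      rw [smul_monomial, smul_eq_mul, mul_one]
    have h0 := Lead_smul (coeff v P) (Lead_monomial M m c u v.degree v rfl)
    have hcomp : homogeneousComponent d (monomial v (coeff v P)) =
        if v.degree = d then (monomial v (coeff v P) : MvPolynomial (Option (Fin n)) ℂ) else 0 := by
      rw [homogeneousComponent_of_mem (isHomogeneous_monomial (coeff v P) (n := v.degree) rfl)]
      simp only [eq_comm]
    rcases hdeg.lt_or_eq with hlt | heq
    · rw [hcomp, if_neg hlt.ne, map_zero, zero_mul]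
      have h1 := Lead_lt h0 hlt
      convert h1 using 2 with s
      rw [hm, map_smul, map_smul, LinearMap.smul_apply]
    · rw [hcomp, if_pos heq]
      subst heq
      convert h0 using 2 with s
      · rw [hm, map_smul, map_smul, LinearMap.smul_apply]
      · rw [hm, map_smul, smul_mul_assoc]
  have hsum := Lead_sum P.support key
  have e1 : (fun s => M.act (fun i => (m i : ℂ) * s + c i) (sp s P) u) =
      fun s => ∑ v ∈ P.support,
        M.act (fun i => (m i : ℂ) * s + c i) (sp s (monomial v (coeff v P))) u := by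
    funext s
    conv_lhs => rw [P.as_sum]
    rw [map_sum, map_sum, LinearMap.sum_apply]
  have e2 : (aeval (fun o : Option (Fin n) => o.elim 1 (M.gr (fun i => (m i : ℂ))))
        (homogeneousComponent d P) * u) = ∑ v ∈ P.support,
        (aeval (fun o : Option (Fin n) => o.elim 1 (M.gr (fun i => (m i : ℂ))))
        (homogeneousComponent d (monomial v (coeff v P))) * u) := by
    conv_lhs => rw [P.as_sum]
    rw [map_sum, map_sum, Finset.sum_mul]
  rw [e1, e2]
  exact hsum

end MPb07157.ND
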