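import Pool.Agent.Lib.MP_b07157_ag.Strat
import Pool.Agent.Lib.MP_b07157_ag.NewtLocal

/-! # The local motivic zeta function of a complex arrangement -/

noncomputable section

namespace MPb07157.ND

open MvPolynomial

variable {n : ℕ} {ι : Type}

theorem isConstr_origin (n : ℕ) : IsConstr {δ : Fin n × Fin 1 → ℂ | ∀ i, δ (i, 0) = 0} := by
  have h := isConstr_forall_mem (σ := Fin n × Fin 1) (Finset.univ : Finset (Fin n))
    (fun i δ => δ (i, 0) = 0) (fun i _ => by
      have := isConstr_eq_zero (X (i, 0) : MvPolynomial (Fin n × Fin 1) ℂ)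
      simpa using this)
  simpa using h

theorem cls_origin (n : ℕ) : cls {δ : Fin n × Fin 1 → ℂ | ∀ i, δ (i, 0) = 0} = 1 := by
  have h1 : cls (Set.univ : Set (Fin 0 → ℂ)) = 1 := by
    rw [cls_univ_eq]; simp
  rw [← h1]
  refine cls_bijOn (isConstr_origin n) IsConstr.univ (fun i => i.elim0) ⟨?_, ?_, ?_⟩
  · intro x _; trivial
  · intro x hx y hy _
    funext ⟨i, k⟩
    have hk : k = 0 := Subsingleton.elim _ _
    subst hk
    rw [show x (i, 0) = 0 from hx i, show y (i, 0) = 0 from hy i]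
  · intro y _
    refine ⟨0, fun i => rfl, ?_⟩
    funext i
    exact i.elim0

open Classical in
theorem arcs0_arrC (a : ι → Fin n → ℂ) (c : ι → ℂ) (m : ι → ℕ) (F : Finset ι) (N k : ℕ) :
    {γ ∈ arcs (arrC a c m F) (1 + N) k | ∀ i, γ (i, Fin.castAdd N 0) = 0} =
      {γ : Fin n × Fin (1 + N) → ℂ |
        leftPart γ ∈ {δ : Fin n × Fin 1 → ℂ | ∀ i, δ (i, 0) = 0} ∧
        rightPart γ ∈ arcs' (arrC a 0 m (F.filter (fun j => c j = 0))) N k
          (∑ j ∈ F.filter (fun j => c j = 0), m j)} := by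
  have aux : ∀ (e : ℕ) (x : ℕ∞), (e : ℕ∞) + x = k ↔ e ≤ k ∧ x = ((k - e : ℕ) : ℕ∞) := by
    intro e x
    induction x using ENat.recTopCoe with
    | top =>
      constructor
      · intro h; exact absurd h (by simp)
      · rintro ⟨_, h⟩; exact absurd h.symm (ENat.natCast_ne_top _)
    | coe x =>
      constructor
      · intro h
        have h' : e + x = k := by exact_mod_cast h
        refine ⟨by omega, ?_⟩
        have : x = k - e := by omega
        rw [this]
      · rintro ⟨h1, h2⟩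
        have h' : x = k - e := by exact_mod_cast h2
        have : e + x = k := by omega
        exact_mod_cast this
  ext γ
  have hst : (∀ i, leftPart γ (i, 0) = 0) → (fun i => leftPart γ (i, 0)) ∈ strat a c F
      (F.filter (fun j => c j = 0)) := by
    intro h j hj
    simp only [Finset.mem_filter, hj, true_and]
    rw [show (fun i => leftPart γ (i, 0)) = (0 : Fin n → ℂ) from funext h]
    simp
  constructor
  · rintro ⟨h1, h2⟩
    have h3 : ∀ i, leftPart γ (i, 0) = 0 := h2
    refine ⟨h3, ?_⟩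
    have h4 := order_arrC a c m (Finset.filter_subset _ _) γ (hst h3)
    simp only [arcs, Set.mem_ofPred_eq] at h1
    rw [h1] at h4
    exact (aux _ _).1 h4.symm
  · rintro ⟨h1, h2⟩
    refine ⟨?_, h1⟩
    have h4 := order_arrC a c m (Finset.filter_subset _ _) γ (hst h1)
    simp only [arcs, Set.mem_ofPred_eq]
    rw [h4]
    exact (aux _ _).2 h2

open Classical in
/-- The local zeta function of an arrangement is that of the central arrangement of the hyperplanes
through the origin. -/
theorem Zmot0_arrC (a : ι → Fin n → ℂ) (c : ι → ℂ) (m : ι → ℕ) (hm : ∀ j, 0 < m j)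
    (F : Finset ι) :
    Zmot0 (arrC a c m F) = PowerSeries.C (↑((LU ^ n)⁻¹) : Mot) *
      (PowerSeries.X ^ (∑ j ∈ F.filter (fun j => c j = 0), m j) *
        Zmot (arrC a 0 m (F.filter (fun j => c j = 0)))) := by
  set G := F.filter (fun j => c j = 0) with hG
  ext k
  simp only [Zmot0, Zmot, PowerSeries.coeff_mk, PowerSeries.coeff_C_mul,
    PowerSeries.coeff_X_pow_mul']
  have key : clsM ({γ ∈ arcs (arrC a c m F) (k + 1) k | ∀ i, γ (i, 0) = 0} :
      Set (Fin n × Fin (k + 1) → ℂ)) =
      if ∑ j ∈ G, m j ≤ k then clsM (arcs (arrC a 0 m G) k (k - ∑ j ∈ G, m j)) else 0 := by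
    have h1 : ∀ (N : ℕ) (hN : N = 1 + k) (z : Fin N) (hz : (z : ℕ) = 0),
        clsM ({γ ∈ arcs (arrC a c m F) N k | ∀ i, γ (i, z) = 0} : Set (Fin n × Fin N → ℂ)) =
        if ∑ j ∈ G, m j ≤ k then clsM (arcs (arrC a 0 m G) k (k - ∑ j ∈ G, m j)) else 0 := by
      rintro N rfl z hz
      have hz' : z = Fin.castAdd k 0 := Fin.ext (by simpa using hz)
      subst hz'
      rw [arcs0_arrC, clsM, cls_split (isConstr_origin n) (isConstr_arcs' _ _ _ _), cls_arcs',
        cls_origin, one_mul]
      rw [← hG]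
      split_ifs <;> simp [clsM]
    exact h1 (k + 1) (add_comm _ _) 0 rfl
  rw [Zcoeff0, key]
  have h1 : (↑((LU ^ (n * (k + 1)))⁻¹) : Mot) = ↑((LU ^ n)⁻¹) * ↑((LU ^ (n * k))⁻¹) := by
    rw [← Units.val_mul, mul_add, mul_one, pow_add, mul_inv, mul_comm]
  rw [h1]
  split_ifs with h
  · have h2 : Zcoeff (arrC a 0 m G) (k - ∑ j ∈ G, m j) =
        mu (arrC a 0 m G) k (k - ∑ j ∈ G, m j) := by
      rcases G.eq_empty_or_nonempty with h0 | hne
      · rw [h0]
        have : arrC a 0 m ∅ = 1 := by simp [arrC]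
        rw [this, Zcoeff_eq_mu, mu_one, mu_one]
      · have hpos : 0 < ∑ j ∈ G, m j := Finset.sum_pos (fun j _ => hm j) hne
        rw [mu_eq]
        omega
    rw [h2]
    unfold mu
    ring
  · simp

end MPb07157.ND
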