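import Pool.Agent.Lib.MP_b07157_ag.Defs

/-! # Reductions: localization, translation, homogeneous components -/

noncomputable section

namespace MPb07157.ND

open MvPolynomial

variable {n : ℕ}

private theorem redA_liftS_mul (f h : MvPolynomial (Fin n) ℂ) :
    liftS (f * h) = liftS f * liftS h := by simp [liftS]

private theorem redA_liftS_add (f h : MvPolynomial (Fin n) ℂ) :
    liftS (f + h) = liftS f + liftS h := by simp [liftS]

private theorem redA_pderiv_liftS (i : Fin n) (f : MvPolynomial (Fin n) ℂ) :
    pderiv i (liftS f) = liftS (pderiv i f) := by simp [liftS, pderiv_map]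

/-- removing a factor -/
theorem InDn_factor (f h : MvPolynomial (Fin n) ℂ) {k : ℕ}
    {g : MvPolynomial (Fin n) (Polynomial ℂ)} (H : InDn (f * h) k g) :
    ∃ N : ℕ, InDn f k (liftS h ^ N * g) := by
  induction H with
  | base => exact ⟨0, by simpa using InDn.base⟩
  | @add k g g' _ _ ih1 ih2 =>
    obtain ⟨N1, h1⟩ := ih1
    obtain ⟨N2, h2⟩ := ih2
    refine ⟨N1 + N2, ?_⟩
    have := InDn.add (InDn.mul (liftS h ^ N2) h1) (InDn.mul (liftS h ^ N1) h2)
    convert this using 1
    ring
  | @mul k g c _ ih =>
    obtain ⟨N, hN⟩ := ih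
    refine ⟨N, ?_⟩
    have := InDn.mul c hN
    convert this using 1
    ring
  | @deriv k g i _ ih =>
    obtain ⟨N, hN⟩ := ih
    refine ⟨N, ?_⟩
    have h1 := InDn.mul (liftS h) (InDn.deriv i hN)
    have h2 := InDn.mul ((C (Polynomial.X + 1 - (k : Polynomial ℂ)) - (N : MvPolynomial (Fin n)
      (Polynomial ℂ))) * liftS (pderiv i h)) (InDn.raise hN)
    have h3 := InDn.add h1 h2
    convert h3 using 1
    rw [redA_liftS_mul, Derivation.leibniz, Derivation.leibniz, Derivation.leibniz_pow,
      redA_liftS_add, redA_pderiv_liftS]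
    simp only [smul_eq_mul, nsmul_eq_mul, redA_liftS_mul]
    rcases N with _ | N
    · simp
      ring
    · push_cast
      ring
  | @raise k g _ ih =>
    obtain ⟨N, hN⟩ := ih
    refine ⟨N, ?_⟩
    have := InDn.mul (liftS h) (InDn.raise hN)
    convert this using 1
    rw [redA_liftS_mul]
    ring
  | @lower k g _ ih =>
    obtain ⟨N, hN⟩ := ih
    refine ⟨N + 1, InDn.lower ?_⟩
    convert hN using 1
    rw [redA_liftS_mul]
    ring

private theorem redA_pderiv_translate {R : Type} [CommRing R] (q : Fin n → R) (i : Fin n)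
    (g : MvPolynomial (Fin n) R) :
    pderiv i (aeval (fun j => (X j + C (q j) : MvPolynomial (Fin n) R)) g) =
      aeval (fun j => (X j + C (q j) : MvPolynomial (Fin n) R)) (pderiv i g) := by
  induction g using MvPolynomial.induction_on with
  | C a => simp [algebraMap_eq]
  | add p q hp hq => rw [map_add, map_add, hp, hq, map_add, map_add]
  | mul_X p j hp =>
    rw [map_mul, Derivation.leibniz, Derivation.leibniz, hp, aeval_X]
    simp only [smul_eq_mul, map_add, map_mul, pderiv_C, add_zero, aeval_X, pderiv_X]
    congr 2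
    by_cases hij : i = j
    · subst hij
      simp
    · simp [Ne.symm hij]

private theorem redA_liftS_translate (p : Fin n → ℂ) (f : MvPolynomial (Fin n) ℂ) :
    aeval (fun i => (X i + C (Polynomial.C (p i)) : MvPolynomial (Fin n) (Polynomial ℂ))) (liftS f) =
      liftS (aeval (fun i => (X i + C (p i) : MvPolynomial (Fin n) ℂ)) f) := by
  induction f using MvPolynomial.induction_on with
  | C a => simp [liftS, algebraMap_eq]
  | add p q hp hq => rw [redA_liftS_add, map_add, hp, hq, map_add, redA_liftS_add]
  | mul_X g j hg =>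
    rw [redA_liftS_mul, map_mul, hg, map_mul, redA_liftS_mul]
    congr 1
    simp [liftS]

/-- translation -/
theorem InDn_translate (p : Fin n → ℂ) {f : MvPolynomial (Fin n) ℂ} {k : ℕ}
    {g : MvPolynomial (Fin n) (Polynomial ℂ)} (H : InDn f k g) :
    InDn (aeval (fun i => (X i + C (p i) : MvPolynomial (Fin n) ℂ)) f) k
      (aeval (fun i => (X i + C (Polynomial.C (p i)) : MvPolynomial (Fin n) (Polynomial ℂ))) g) := by
  induction H with
  | base => simpa using InDn.base
  | add _ _ ih1 ih2 =>
    rw [map_add]
    exact InDn.add ih1 ih2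
  | mul c _ ih =>
    rw [map_mul]
    exact InDn.mul _ ih
  | @deriv k g i _ ih =>
    have := InDn.deriv i ih
    convert this using 1
    rw [map_add, map_mul, map_mul, map_mul, redA_liftS_translate, redA_liftS_translate,
      redA_pderiv_translate, redA_pderiv_translate]
    congr 3
    rw [← algebraMap_eq, AlgHom.commutes]
  | @raise k g _ ih =>
    rw [map_mul, redA_liftS_translate]
    exact InDn.raise ih
  | @lower k g _ ih =>
    rw [map_mul, redA_liftS_translate] at ih
    exact InDn.lower ih

private theorem redA_zero (f : MvPolynomial (Fin n) ℂ) (k : ℕ) : InDn f k 0 := by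
  induction k with
  | zero => simpa using InDn.mul 0 (InDn.base (f := f))
  | succ k ih => simpa using InDn.raise ih

private theorem redA_sum (f : MvPolynomial (Fin n) ℂ) (k : ℕ) {α : Type*} (s : Finset α)
    (F : α → MvPolynomial (Fin n) (Polynomial ℂ)) (h : ∀ a ∈ s, InDn f k (F a)) :
    InDn f k (∑ a ∈ s, F a) := by
  classical
  induction s using Finset.induction_on with
  | empty => simpa using redA_zero f k
  | insert a s ha ih =>
    rw [Finset.sum_insert ha]
    exact InDn.add (h a (Finset.mem_insert_self a s))
      (ih fun b hb => h b (Finset.mem_insert_of_mem hb))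

private theorem redA_hc {R : Type} [CommRing R] {d e : ℕ} {u : MvPolynomial (Fin n) R}
    (hu : u.IsHomogeneous e) : homogeneousComponent d u = if d = e then u else 0 :=
  homogeneousComponent_of_mem ((mem_homogeneousSubmodule _ _).2 hu)

private theorem redA_hc_cases {f : MvPolynomial (Fin n) ℂ} {k : ℕ} {d e : ℕ}
    {u : MvPolynomial (Fin n) (Polynomial ℂ)}
    (hu : u.IsHomogeneous e) (H : InDn f k u) : InDn f k (homogeneousComponent d u) := by
  rw [redA_hc hu]
  split_ifs
  · exact H
  · exact redA_zero f k

private theorem redA_liftS_hom {f : MvPolynomial (Fin n) ℂ} {m : ℕ} (hf : f.IsHomogeneous m) :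
    (liftS f).IsHomogeneous m := hf.map Polynomial.C

private theorem redA_pderiv_hom {R : Type} [CommRing R] {e : ℕ} {u : MvPolynomial (Fin n) R}
    (hu : u.IsHomogeneous e) (i : Fin n) :
    (e = 0 ∧ pderiv i u = 0) ∨ ∃ e', e = e' + 1 ∧ (pderiv i u).IsHomogeneous e' := by
  rcases e with _ | e
  · left
    refine ⟨rfl, ?_⟩
    have h0 : u.totalDegree = 0 := (totalDegree_zero_iff_isHomogeneous (Fin n)).2 hu
    rw [totalDegree_eq_zero_iff_eq_C.1 h0, pderiv_C]
  · right
    exact ⟨e, rfl, hu.pderiv⟩

/-- homogeneous components -/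
theorem InDn_homogeneous {f : MvPolynomial (Fin n) ℂ} {m : ℕ} (hf : f.IsHomogeneous m) {k : ℕ}
    {g : MvPolynomial (Fin n) (Polynomial ℂ)} (H : InDn f k g) (d : ℕ) :
    InDn f k (homogeneousComponent d g) := by
  induction H generalizing d with
  | base => exact redA_hc_cases (isHomogeneous_one _ _) InDn.base
  | add _ _ ih1 ih2 =>
    rw [map_add]
    exact InDn.add (ih1 d) (ih2 d)
  | @mul k g c _ ih =>
    have h1 : c * g = ∑ p ∈ Finset.range (c.totalDegree + 1) ×ˢ Finset.range (g.totalDegree + 1),
        homogeneousComponent p.1 c * homogeneousComponent p.2 g := by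
      conv_lhs => rw [← sum_homogeneousComponent c, ← sum_homogeneousComponent g]
      rw [Finset.sum_mul_sum, Finset.sum_product]
    rw [h1, map_sum]
    refine redA_sum f k _ _ fun p _ => ?_
    exact redA_hc_cases ((homogeneousComponent_isHomogeneous _ _).mul
      (homogeneousComponent_isHomogeneous _ _)) (InDn.mul _ (ih p.2))
  | @deriv k g i _ ih =>
    have h1 : liftS f * pderiv i g + C (Polynomial.X + 1 - (k : Polynomial ℂ)) *
        liftS (pderiv i f) * g = ∑ e ∈ Finset.range (g.totalDegree + 1),
          (liftS f * pderiv i (homogeneousComponent e g) +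
            C (Polynomial.X + 1 - (k : Polynomial ℂ)) *
              liftS (pderiv i f) * homogeneousComponent e g) := by
      conv_lhs => rw [← sum_homogeneousComponent g]
      rw [map_sum, Finset.mul_sum, Finset.mul_sum, Finset.sum_add_distrib]
    rw [h1, map_sum]
    refine redA_sum f (k + 1) _ _ fun e _ => ?_
    have h2 := InDn.deriv i (ih e)
    rcases redA_pderiv_hom (homogeneousComponent_isHomogeneous e g) i with ⟨he, h0⟩ | ⟨e', he, h0⟩
    · rcases redA_pderiv_hom hf i with ⟨hm, h0'⟩ | ⟨m', hm, h0'⟩
      · rw [h0, h0']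
        simpa [liftS] using redA_zero f (k + 1)
      · refine redA_hc_cases (e := m') ?_ h2
        rw [h0, mul_zero, zero_add]
        have h3 := ((isHomogeneous_C (Fin n) (Polynomial.X + 1 - (k : Polynomial ℂ))).mul
          (redA_liftS_hom h0')).mul (homogeneousComponent_isHomogeneous e g)
        rw [he] at h3 ⊢
        simpa using h3
    · refine redA_hc_cases (e := m + e') ?_ h2
      refine ((redA_liftS_hom hf).mul h0).add ?_
      rcases redA_pderiv_hom hf i with ⟨hm, h0'⟩ | ⟨m', hm, h0'⟩
      · rw [h0']
        simpa [liftS] using isHomogeneous_zero (Fin n) (Polynomial ℂ) (m + e')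
      · have h3 := ((isHomogeneous_C (Fin n) (Polynomial.X + 1 - (k : Polynomial ℂ))).mul
          (redA_liftS_hom h0')).mul (homogeneousComponent_isHomogeneous e g)
        have h4 : 0 + m' + e = m + e' := by omega
        rw [h4] at h3
        exact h3
  | @raise k g _ ih =>
    have h1 : liftS f * g = ∑ e ∈ Finset.range (g.totalDegree + 1),
        liftS f * homogeneousComponent e g := by
      conv_lhs => rw [← sum_homogeneousComponent g]
      rw [Finset.mul_sum]
    rw [h1, map_sum]
    refine redA_sum f (k + 1) _ _ fun e _ => ?_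
    exact redA_hc_cases ((redA_liftS_hom hf).mul (homogeneousComponent_isHomogeneous e g))
      (InDn.raise (ih e))
  | @lower k g _ ih =>
    refine InDn.lower ?_
    convert ih (m + d) using 1
    have h1 : liftS f * g = ∑ e ∈ Finset.range (g.totalDegree + 1),
        liftS f * homogeneousComponent e g := by
      conv_lhs => rw [← sum_homogeneousComponent g]
      rw [Finset.mul_sum]
    rw [h1, map_sum]
    have h2 : ∀ e, homogeneousComponent (m + d) (liftS f * homogeneousComponent e g) =
        if d = e then liftS f * homogeneousComponent e g else 0 := by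
      intro e
      rw [redA_hc ((redA_liftS_hom hf).mul (homogeneousComponent_isHomogeneous e g))]
      simp
    simp_rw [h2]
    rw [Finset.sum_ite_eq]
    split_ifs with h3
    · rfl
    · rw [homogeneousComponent_eq_zero _ _ (by simpa using h3), mul_zero]

/-- `s = -1` is a root of each Bernstein–Sato polynomial of a non-constant polynomial -/
theorem eval_neg_one_of_InDn {f : MvPolynomial (Fin n) ℂ} (hf : 0 < f.totalDegree)
    {b : Polynomial ℂ} (hb : InDn f 1 (C b)) : b.eval (-1) = 0 := by
  have hf0 : f ≠ 0 := by
    rintro rfl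
    simp at hf
  have hl : ∀ f : MvPolynomial (Fin n) ℂ, map (Polynomial.evalRingHom (-1 : ℂ)) (liftS f) = f := by
    intro f
    rw [liftS, map_map]
    have : (Polynomial.evalRingHom (-1 : ℂ)).comp Polynomial.C = RingHom.id ℂ := by
      ext x; simp
    rw [this, map_id]
  have key : ∀ {k : ℕ} {g : MvPolynomial (Fin n) (Polynomial ℂ)}, InDn f k g →
      f ^ k ∣ map (Polynomial.evalRingHom (-1 : ℂ)) g := by
    intro k g H
    induction H with
    | base => simp
    | add _ _ ih1 ih2 =>
      rw [map_add]
      exact dvd_add ih1 ih2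
    | mul c _ ih =>
      rw [map_mul]
      exact ih.mul_left _
    | @deriv k g i _ ih =>
      obtain ⟨u, hu⟩ := ih
      refine ⟨pderiv i u, ?_⟩
      rw [map_add, map_mul, map_mul, map_mul, hl, hl, hu, ← pderiv_map, hu, Derivation.leibniz,
        Derivation.leibniz_pow, map_C]
      simp only [smul_eq_mul, nsmul_eq_mul]
      have h1 : (Polynomial.evalRingHom (-1 : ℂ)) (Polynomial.X + 1 - (k : Polynomial ℂ)) =
          -(k : ℂ) := by simp
      rw [h1]
      rcases k with _ | k
      · simp
      · simp only [Nat.add_sub_cancel, map_neg, map_natCast]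
        ring
    | @raise k g _ ih =>
      rw [map_mul, hl, pow_succ']
      exact mul_dvd_mul_left f ih
    | @lower k g _ ih =>
      rw [map_mul, hl, pow_succ'] at ih
      exact (mul_dvd_mul_iff_left hf0).1 ih
  obtain ⟨u, hu⟩ := key hb
  by_contra hne
  rw [pow_one, map_C] at hu
  have hu0 : u ≠ 0 := by
    rintro rfl
    rw [mul_zero] at hu
    exact hne (by simpa using hu)
  have h1 := congrArg totalDegree hu
  rw [totalDegree_C, totalDegree_mul_of_isDomain hf0 hu0] at h1
  omega

end MPb07157.ND
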