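import Pool.Agent.Lib.MP_b07157_ag.Defs

/-! # Reductions: restriction to an essential arrangement -/

noncomputable section

namespace MPb07157.ND

open MvPolynomial

namespace RedB

/-- the directional derivative along `κ` -/
def Dk {n : ℕ} (κ : Fin n → ℂ) :
    Derivation (Polynomial ℂ) (MvPolynomial (Fin n) (Polynomial ℂ))
      (MvPolynomial (Fin n) (Polynomial ℂ)) :=
  mkDerivation (Polynomial ℂ) (fun j => C (Polynomial.C (κ j)))

lemma Dk_X {n : ℕ} (κ : Fin n → ℂ) (j : Fin n) : Dk κ (X j) = C (Polynomial.C (κ j)) :=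
  mkDerivation_X _ _ _

lemma Dk_C {n : ℕ} (κ : Fin n → ℂ) (c : Polynomial ℂ) : Dk κ (C c) = 0 := by
  rw [← MvPolynomial.algebraMap_eq]
  exact Derivation.map_algebraMap _ _

lemma Dk_comm {n : ℕ} (κ κ' : Fin n → ℂ) (g : MvPolynomial (Fin n) (Polynomial ℂ)) :
    Dk κ (Dk κ' g) = Dk κ' (Dk κ g) := by
  have h : ⁅Dk κ, Dk κ'⁆ = 0 := by
    apply MvPolynomial.derivation_ext
    intro i
    rw [Derivation.commutator_apply, Dk_X, Dk_X, Dk_C, Dk_C]
    simp
  have h2 := congrArg (fun d => d g) h
  simp only [Derivation.commutator_apply] at h2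
  exact sub_eq_zero.mp h2

lemma Dk_pderiv {n : ℕ} (κ : Fin n → ℂ) (i : Fin n) (g : MvPolynomial (Fin n) (Polynomial ℂ)) :
    Dk κ (pderiv i g) = pderiv i (Dk κ g) := by
  have h : ⁅Dk κ, (pderiv i : Derivation (Polynomial ℂ) (MvPolynomial (Fin n) (Polynomial ℂ))
      (MvPolynomial (Fin n) (Polynomial ℂ)))⁆ = 0 := by
    apply MvPolynomial.derivation_ext
    intro j
    rw [Derivation.commutator_apply, Dk_X, pderiv_C, pderiv_X]
    by_cases hij : j = i
    · subst hij
      simp
    · rw [Pi.single_apply]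
      simp [hij]
  have h2 := congrArg (fun d => d g) h
  simp only [Derivation.commutator_apply] at h2
  exact sub_eq_zero.mp h2

/-- the linear map underlying `Dk` -/
def DkL {n : ℕ} (κ : Fin n → ℂ) :
    MvPolynomial (Fin n) (Polynomial ℂ) →ₗ[Polynomial ℂ] MvPolynomial (Fin n) (Polynomial ℂ) :=
  (Dk κ).toLinearMap

lemma DkL_apply {n : ℕ} (κ : Fin n → ℂ) (g : MvPolynomial (Fin n) (Polynomial ℂ)) :
    DkL κ g = Dk κ g := rfl

/-- iterated directional derivatives -/
def DL {n : ℕ} (L : List (Fin n → ℂ)) :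
    MvPolynomial (Fin n) (Polynomial ℂ) →ₗ[Polynomial ℂ] MvPolynomial (Fin n) (Polynomial ℂ) :=
  L.foldr (fun κ D => D.comp (DkL κ)) LinearMap.id

lemma DL_nil {n : ℕ} (g : MvPolynomial (Fin n) (Polynomial ℂ)) : DL [] g = g := by
  unfold DL
  rw [List.foldr_nil, LinearMap.id_apply]

lemma DL_cons {n : ℕ} (κ : Fin n → ℂ) (L : List (Fin n → ℂ))
    (g : MvPolynomial (Fin n) (Polynomial ℂ)) : DL (κ :: L) g = DL L (Dk κ g) := by
  unfold DL
  rw [List.foldr_cons, LinearMap.comp_apply, DkL_apply]

lemma DL_one {n : ℕ} (L : List (Fin n → ℂ)) :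
    DL L (1 : MvPolynomial (Fin n) (Polynomial ℂ)) = 1 ∨
      DL L (1 : MvPolynomial (Fin n) (Polynomial ℂ)) = 0 := by
  cases L with
  | nil => left; rw [DL_nil]
  | cons κ L => right; rw [DL_cons, Derivation.map_one_eq_zero, map_zero]

lemma DL_Dk {n : ℕ} (L : List (Fin n → ℂ)) (κ : Fin n → ℂ)
    (g : MvPolynomial (Fin n) (Polynomial ℂ)) :
    DL L (Dk κ g) = Dk κ (DL L g) := by
  induction L generalizing g with
  | nil => rw [DL_nil, DL_nil]
  | cons κ' L ih => rw [DL_cons, DL_cons, Dk_comm, ih]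

lemma DL_pderiv {n : ℕ} (L : List (Fin n → ℂ)) (i : Fin n)
    (g : MvPolynomial (Fin n) (Polynomial ℂ)) :
    DL L (pderiv i g) = pderiv i (DL L g) := by
  induction L generalizing g with
  | nil => rw [DL_nil, DL_nil]
  | cons κ' L ih => rw [DL_cons, DL_cons, Dk_pderiv, ih]

lemma DL_mul {n : ℕ} (L : List (Fin n → ℂ)) (h g : MvPolynomial (Fin n) (Polynomial ℂ))
    (hh : ∀ κ ∈ L, Dk κ h = 0) :
    DL L (h * g) = h * DL L g := by
  induction L generalizing g with
  | nil => rw [DL_nil, DL_nil]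
  | cons κ L ih =>
    rw [DL_cons, DL_cons, Derivation.leibniz, hh κ (by simp), smul_zero, add_zero, smul_eq_mul]
    exact ih _ (fun κ' h' => hh κ' (by simp [h']))

/-- the pullback of polynomials -/
def phi {n r : ℕ} (A : Matrix (Fin r) (Fin n) ℂ) :
    MvPolynomial (Fin r) ℂ →ₐ[ℂ] MvPolynomial (Fin n) ℂ :=
  aeval (fun i => (∑ j, C (A i j) * X j : MvPolynomial (Fin n) ℂ))

/-- the pullback to the section -/
def psi {n r : ℕ} (σ : Matrix (Fin n) (Fin r) ℂ) :
    MvPolynomial (Fin n) (Polynomial ℂ) →ₐ[Polynomial ℂ] MvPolynomial (Fin r) (Polynomial ℂ) :=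
  aeval (fun j => (∑ i, C (Polynomial.C (σ j i)) * X i :
      MvPolynomial (Fin r) (Polynomial ℂ)))

lemma phi_C {n r : ℕ} (A : Matrix (Fin r) (Fin n) ℂ) (a : ℂ) : phi A (C a) = C a := by
  unfold phi; rw [aeval_C, MvPolynomial.algebraMap_eq]

lemma phi_X {n r : ℕ} (A : Matrix (Fin r) (Fin n) ℂ) (i : Fin r) :
    phi A (X i) = ∑ j, C (A i j) * X j := by
  unfold phi; rw [aeval_X]

lemma psi_C {n r : ℕ} (σ : Matrix (Fin n) (Fin r) ℂ) (a : Polynomial ℂ) :
    psi σ (C a) = C a := by
  unfold psi; rw [aeval_C, MvPolynomial.algebraMap_eq]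

lemma psi_X {n r : ℕ} (σ : Matrix (Fin n) (Fin r) ℂ) (j : Fin n) :
    psi σ (X j) = ∑ i, C (Polynomial.C (σ j i)) * X i := by
  unfold psi; rw [aeval_X]

lemma liftS_add {n : ℕ} (p q : MvPolynomial (Fin n) ℂ) : liftS (p + q) = liftS p + liftS q := by
  unfold liftS; exact map_add _ _ _

lemma liftS_mul {n : ℕ} (p q : MvPolynomial (Fin n) ℂ) : liftS (p * q) = liftS p * liftS q := by
  unfold liftS; exact map_mul _ _ _

lemma liftS_sum {n : ℕ} {ι : Type*} (s : Finset ι) (p : ι → MvPolynomial (Fin n) ℂ) :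
    liftS (∑ i ∈ s, p i) = ∑ i ∈ s, liftS (p i) := by
  unfold liftS; exact map_sum _ _ _

lemma liftS_C {n : ℕ} (c : ℂ) : liftS (C c : MvPolynomial (Fin n) ℂ) = C (Polynomial.C c) := by
  unfold liftS; exact map_C _ _

lemma liftS_X {n : ℕ} (i : Fin n) : liftS (X i : MvPolynomial (Fin n) ℂ) = X i := by
  unfold liftS; exact map_X _ _

lemma Dk_liftS_phi {n r : ℕ} (A : Matrix (Fin r) (Fin n) ℂ) (κ : Fin n → ℂ)
    (hκ : A.mulVec κ = 0) (p : MvPolynomial (Fin r) ℂ) : Dk κ (liftS (phi A p)) = 0 := by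
  induction p using MvPolynomial.induction_on with
  | C a =>
    rw [phi_C, liftS_C, Dk_C]
  | add p q hp hq => rw [map_add, liftS_add, map_add, hp, hq, add_zero]
  | mul_X p i hp =>
    rw [map_mul, liftS_mul, Derivation.leibniz, hp, smul_zero, add_zero]
    have h1 : Dk κ (liftS (phi A (X i))) = 0 := by
      rw [phi_X, liftS_sum, map_sum]
      have h2 : ∀ j ∈ (Finset.univ : Finset (Fin n)),
          Dk κ (liftS (C (A i j) * X j)) = C (Polynomial.C (A i j * κ j)) := by
        intro j _
        rw [liftS_mul, liftS_C, liftS_X, Derivation.leibniz, Dk_C, smul_zero, add_zero, Dk_X,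
          smul_eq_mul, ← C_mul, ← Polynomial.C_mul]
      rw [Finset.sum_congr rfl h2, ← map_sum, ← map_sum]
      have h3 : ∑ j, A i j * κ j = 0 := by
        have := congrFun hκ i
        simpa [Matrix.mulVec, dotProduct] using this
      rw [h3]; simp
    rw [h1, smul_zero]

lemma psi_liftS_phi {n r : ℕ} (A : Matrix (Fin r) (Fin n) ℂ) (σ : Matrix (Fin n) (Fin r) ℂ)
    (h : A * σ = 1) (p : MvPolynomial (Fin r) ℂ) : psi σ (liftS (phi A p)) = liftS p := by
  induction p using MvPolynomial.induction_on with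
  | C a =>
    rw [phi_C, liftS_C, liftS_C, psi_C]
  | add p q hp hq => rw [map_add, liftS_add, map_add, hp, hq, liftS_add]
  | mul_X p i hp =>
    have hX : psi σ (liftS (phi A (X i))) = liftS (X i) := ?_
    · rw [map_mul, liftS_mul, map_mul, hp, liftS_mul, hX]
    rw [phi_X, liftS_sum, map_sum, liftS_X]
    have h2 : ∀ j ∈ (Finset.univ : Finset (Fin n)),
        psi σ (liftS (C (A i j) * X j)) =
          ∑ l, C (Polynomial.C (A i j * σ j l)) * X l := by
      intro j _
      rw [liftS_mul, liftS_C, liftS_X, map_mul]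
      rw [psi_C, psi_X, Finset.mul_sum]
      refine Finset.sum_congr rfl fun l _ => ?_
      rw [← mul_assoc, ← C_mul, ← Polynomial.C_mul]
    rw [Finset.sum_congr rfl h2, Finset.sum_comm]
    have h3 : ∀ l ∈ (Finset.univ : Finset (Fin r)),
        (∑ j, C (Polynomial.C (A i j * σ j l)) * X l : MvPolynomial (Fin r) (Polynomial ℂ)) =
          if i = l then X l else 0 := by
      intro l _
      rw [← Finset.sum_mul, ← map_sum, ← map_sum]
      have h4 : ∑ j, A i j * σ j l = (1 : Matrix (Fin r) (Fin r) ℂ) i l := by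
        rw [← h, Matrix.mul_apply]
      rw [h4, Matrix.one_apply]
      split_ifs <;> simp
    rw [Finset.sum_congr rfl h3]
    simp

lemma pderiv_psi {n r : ℕ} (σ : Matrix (Fin n) (Fin r) ℂ) (j : Fin r)
    (v : MvPolynomial (Fin n) (Polynomial ℂ)) :
    pderiv j (psi σ v) = psi σ (Dk (fun l => σ l j) v) := by
  induction v using MvPolynomial.induction_on with
  | C a =>
    rw [psi_C, Dk_C, map_zero, pderiv_C]
  | add p q hp hq => rw [map_add, map_add, hp, hq, map_add, map_add]
  | mul_X p l hp =>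
    have e3 : pderiv j (psi σ (X l)) = C (Polynomial.C (σ l j)) := by
      rw [psi_X, map_sum, Finset.sum_eq_single j]
      · rw [Derivation.leibniz, pderiv_C, pderiv_X_self]; simp
      · intro b _ hb
        rw [Derivation.leibniz, pderiv_C, pderiv_X, Pi.single_apply, if_neg]
        · simp
        · exact fun h => hb h
      · simp
    rw [map_mul, Derivation.leibniz, e3, hp, Derivation.leibniz, map_add, Dk_X]
    simp only [smul_eq_mul, map_mul, psi_C]

lemma pderiv_phi {n r : ℕ} (A : Matrix (Fin r) (Fin n) ℂ) (i : Fin n)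
    (p : MvPolynomial (Fin r) ℂ) :
    pderiv i (phi A p) = ∑ j, C (A j i) * phi A (pderiv j p) := by
  induction p using MvPolynomial.induction_on with
  | C a =>
    rw [phi_C, pderiv_C]
    simp
  | add p q hp hq =>
    rw [map_add, map_add, hp, hq, ← Finset.sum_add_distrib]
    refine Finset.sum_congr rfl fun j _ => ?_
    rw [map_add, map_add, mul_add]
  | mul_X p l hp =>
    have e3 : pderiv i (phi A (X l)) = C (A l i) := by
      rw [phi_X, map_sum, Finset.sum_eq_single i]
      · rw [Derivation.leibniz, pderiv_C, pderiv_X_self]; simp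
      · intro b _ hb
        rw [Derivation.leibniz, pderiv_C, pderiv_X, Pi.single_apply, if_neg]
        · simp
        · exact fun h => hb h
      · simp
    rw [map_mul, Derivation.leibniz, e3, hp]
    have h2 : ∀ j ∈ (Finset.univ : Finset (Fin r)),
        C (A j i) * phi A (pderiv j (p * X l)) =
          (if j = l then C (A l i) * phi A p else 0) + phi A (X l) * (C (A j i) * phi A (pderiv j p)) := by
      intro j _
      rw [Derivation.leibniz, pderiv_X, Pi.single_apply, map_add]
      simp only [smul_eq_mul, map_mul]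
      by_cases hjl : l = j
      · subst hjl
        simp only [if_true, map_one]
        ring
      · rw [if_neg hjl, if_neg (fun h => hjl h.symm)]
        simp only [map_zero, mul_zero]
        ring
    rw [Finset.sum_congr rfl h2, Finset.sum_add_distrib, Finset.sum_ite_eq' Finset.univ l]
    simp only [Finset.mem_univ, if_true, smul_eq_mul]
    rw [Finset.mul_sum]
    ring

lemma der_sum {n : ℕ} {ι : Type*} (s : Finset ι)
    (d : ι → Derivation (Polynomial ℂ) (MvPolynomial (Fin n) (Polynomial ℂ))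
      (MvPolynomial (Fin n) (Polynomial ℂ))) (v : MvPolynomial (Fin n) (Polynomial ℂ)) :
    (∑ i ∈ s, d i) v = ∑ i ∈ s, d i v := by
  classical
  induction s using Finset.induction_on with
  | empty => simp
  | insert a s ha ih => rw [Finset.sum_insert ha, Finset.sum_insert ha, Derivation.add_apply, ih]

lemma pderiv_eq {n r : ℕ} (A : Matrix (Fin r) (Fin n) ℂ) (σ : Matrix (Fin n) (Fin r) ℂ)
    (i : Fin n) (v : MvPolynomial (Fin n) (Polynomial ℂ)) :
    pderiv i v = ∑ j, C (Polynomial.C (A j i)) * Dk (fun l => σ l j) v +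
      Dk (fun l => (1 - σ * A : Matrix (Fin n) (Fin n) ℂ) l i) v := by
  have h : (pderiv i : Derivation (Polynomial ℂ) (MvPolynomial (Fin n) (Polynomial ℂ))
      (MvPolynomial (Fin n) (Polynomial ℂ))) = ∑ j, (C (Polynomial.C (A j i)) : MvPolynomial (Fin n) (Polynomial ℂ)) •
      Dk (fun l => σ l j) + Dk (fun l => (1 - σ * A : Matrix (Fin n) (Fin n) ℂ) l i) := by
    apply MvPolynomial.derivation_ext
    intro l
    rw [Derivation.add_apply]
    have : (∑ j, (C (Polynomial.C (A j i)) : MvPolynomial (Fin n) (Polynomial ℂ)) •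
      Dk (fun l => σ l j)) (X l) = ∑ j, C (Polynomial.C (A j i * σ l j)) := by
      rw [der_sum]
      refine Finset.sum_congr rfl fun j _ => ?_
      rw [Derivation.smul_apply, Dk_X, smul_eq_mul, ← C_mul, ← Polynomial.C_mul]
    rw [this, Dk_X, ← map_sum, ← map_sum, ← C_add, ← Polynomial.C_add]
    have h4 : ∑ j, A j i * σ l j = (σ * A) l i := by
      rw [Matrix.mul_apply]
      exact Finset.sum_congr rfl fun j _ => mul_comm _ _
    rw [h4, Matrix.sub_apply, add_sub_cancel, pderiv_X, Matrix.one_apply, Pi.single_apply]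
    split_ifs <;> simp
  have h2 := congrArg (fun d => d v) h
  simp only [Derivation.add_apply, der_sum, Derivation.smul_apply, smul_eq_mul] at h2
  exact h2

lemma InDn_zero {n : ℕ} {f : MvPolynomial (Fin n) ℂ} {k : ℕ}
    {g : MvPolynomial (Fin n) (Polynomial ℂ)} (h : InDn f k g) : InDn f k 0 := by
  have := InDn.mul 0 h
  rwa [zero_mul] at this

lemma InDn_sum {n : ℕ} {f : MvPolynomial (Fin n) ℂ} {k : ℕ} {ι : Type*} (s : Finset ι)
    (u : ι → MvPolynomial (Fin n) (Polynomial ℂ)) (h0 : InDn f k 0)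
    (h : ∀ i ∈ s, InDn f k (u i)) : InDn f k (∑ i ∈ s, u i) := by
  classical
  induction s using Finset.induction_on with
  | empty => simpa using h0
  | insert a s ha ih =>
    rw [Finset.sum_insert ha]
    exact InDn.add (h a (by simp)) (ih fun i hi => h i (by simp [hi]))

theorem key {n r : ℕ} (A : Matrix (Fin r) (Fin n) ℂ) (σ : Matrix (Fin n) (Fin r) ℂ)
    (h : A * σ = 1) (f' : MvPolynomial (Fin r) ℂ) {k : ℕ}
    {g : MvPolynomial (Fin n) (Polynomial ℂ)} (H : InDn (phi A f') k g) :
    ∀ L : List (Fin n → ℂ), (∀ κ ∈ L, A.mulVec κ = 0) → InDn f' k (psi σ (DL L g)) := by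
  induction H with
  | base =>
    intro L _
    rcases DL_one L with h1 | h1
    · rw [h1]
      have : psi σ (1 : MvPolynomial (Fin n) (Polynomial ℂ)) = 1 := map_one _
      rw [this]; exact InDn.base
    · rw [h1, map_zero]; exact InDn_zero InDn.base
  | add _ _ ih1 ih2 =>
    intro L hL
    rw [map_add, map_add]
    exact InDn.add (ih1 L hL) (ih2 L hL)
  | @mul k g c _ ih =>
    intro L
    have claim : ∀ (L : List (Fin n → ℂ)) (c g : MvPolynomial (Fin n) (Polynomial ℂ)),
        (∀ κ ∈ L, A.mulVec κ = 0) →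
        (∀ L' : List (Fin n → ℂ), (∀ κ ∈ L', A.mulVec κ = 0) → InDn f' k (psi σ (DL L' g))) →
        InDn f' k (psi σ (DL L (c * g))) := by
      intro L
      induction L with
      | nil =>
        intro c g _ hg
        rw [DL_nil, map_mul]
        have h0 := hg [] (by simp)
        rw [DL_nil] at h0
        exact InDn.mul _ h0
      | cons κ L ih =>
        intro c g hL hg
        rw [DL_cons, Derivation.leibniz, map_add, map_add, smul_eq_mul, smul_eq_mul, mul_comm g]
        refine InDn.add ?_ ?_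
        · refine ih c (Dk κ g) (fun κ' h' => hL κ' (by simp [h'])) ?_
          intro L' hL'
          have := hg (κ :: L') (by
            intro κ' h'
            rcases List.mem_cons.mp h' with h' | h'
            · rw [h']; exact hL κ (by simp)
            · exact hL' κ' h')
          rwa [DL_cons] at this
        · exact ih (Dk κ c) g (fun κ' h' => hL κ' (by simp [h'])) hg
    intro hL
    exact claim L c g hL ih
  | @deriv k g i _ ih =>
    intro L hL
    set u := psi σ (DL L g) with hu
    have hinv1 : ∀ κ ∈ L, Dk κ (liftS (phi A f')) = 0 := fun κ hκ =>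
      Dk_liftS_phi A κ (hL κ hκ) f'
    have hinv2 : ∀ κ ∈ L, Dk κ (C (Polynomial.X + 1 - (k : Polynomial ℂ)) *
        liftS (pderiv i (phi A f'))) = 0 := by
      intro κ hκ
      rw [Derivation.leibniz, Dk_C, smul_zero, add_zero, pderiv_phi, liftS_sum, map_sum]
      have : ∀ j ∈ (Finset.univ : Finset (Fin r)),
          Dk κ (liftS (C (A j i) * phi A (pderiv j f'))) = 0 := by
        intro j _
        rw [liftS_mul, Derivation.leibniz, Dk_liftS_phi A κ (hL κ hκ), liftS_C, Dk_C]
        simp
      rw [Finset.sum_eq_zero this, smul_zero]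
    rw [map_add (DL L), DL_mul L _ _ hinv1, DL_mul L _ _ hinv2, map_add, map_mul, map_mul, map_mul,
      psi_liftS_phi A σ h, DL_pderiv, pderiv_phi, liftS_sum, map_sum]
    have e1 : psi σ (C (Polynomial.X + 1 - (k : Polynomial ℂ))) =
        C (Polynomial.X + 1 - (k : Polynomial ℂ)) := psi_C _ _
    have e2 : ∀ j ∈ (Finset.univ : Finset (Fin r)),
        psi σ (liftS (C (A j i) * phi A (pderiv j f'))) =
          C (Polynomial.C (A j i)) * liftS (pderiv j f') := by
      intro j _
      rw [liftS_mul, map_mul, psi_liftS_phi A σ h, liftS_C, psi_C]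
    rw [Finset.sum_congr rfl e2, e1, pderiv_eq A σ i, map_add, map_sum]
    have e3 : ∀ j ∈ (Finset.univ : Finset (Fin r)),
        psi σ (C (Polynomial.C (A j i)) * Dk (fun l => σ l j) (DL L g)) =
          C (Polynomial.C (A j i)) * pderiv j u := by
      intro j _
      rw [map_mul, hu, pderiv_psi, psi_C]
    rw [Finset.sum_congr rfl e3, ← DL_Dk]
    have hker : A.mulVec (fun l => (1 - σ * A : Matrix (Fin n) (Fin n) ℂ) l i) = 0 := by
      have h5 : A * (1 - σ * A) = 0 := by
        rw [Matrix.mul_sub, ← Matrix.mul_assoc, h, Matrix.one_mul, Matrix.mul_one, sub_self]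
      funext m
      have := congrFun (congrFun h5 m) i
      rw [Matrix.mul_apply] at this
      exact this
    have hlast : InDn f' k (psi σ (DL L (Dk (fun l => (1 - σ * A : Matrix (Fin n) (Fin n) ℂ) l i) g))) := by
      have := ih ((fun l => (1 - σ * A : Matrix (Fin n) (Fin n) ℂ) l i) :: L) (by
        intro κ' h'
        rcases List.mem_cons.mp h' with h' | h'
        · rw [h']; exact hker
        · exact hL κ' h')
      rwa [DL_cons] at this
    have hu' : InDn f' k u := ih L hL
    have hz : InDn f' (k + 1) 0 := InDn_zero (InDn.raise hu')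
    have hsum : InDn f' (k + 1) (∑ j, C (Polynomial.C (A j i)) * (liftS f' * pderiv j u +
        C (Polynomial.X + 1 - (k : Polynomial ℂ)) * liftS (pderiv j f') * u)) :=
      InDn_sum _ _ hz fun j _ => InDn.mul _ (InDn.deriv j hu')
    have hfin := InDn.add hsum (InDn.raise hlast)
    convert hfin using 1
    rw [mul_add, Finset.mul_sum, Finset.mul_sum, Finset.sum_mul, add_right_comm]
    congr 1
    rw [← Finset.sum_add_distrib]
    refine Finset.sum_congr rfl fun j _ => ?_
    ring
  | @raise k g _ ih =>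
    intro L hL
    rw [DL_mul L _ _ (fun κ hκ => Dk_liftS_phi A κ (hL κ hκ) f'), map_mul, psi_liftS_phi A σ h]
    exact InDn.raise (ih L hL)
  | @lower k g _ ih =>
    intro L hL
    have := ih L hL
    rw [DL_mul L _ _ (fun κ hκ => Dk_liftS_phi A κ (hL κ hκ) f'), map_mul,
      psi_liftS_phi A σ h] at this
    exact InDn.lower this

end RedB

/-- `f = f' ∘ A` with `A` surjective linear with section `σ` -/
theorem InDn_restrict {n r : ℕ} (A : Matrix (Fin r) (Fin n) ℂ) (σ : Matrix (Fin n) (Fin r) ℂ)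
    (h : A * σ = 1) (f' : MvPolynomial (Fin r) ℂ) {k : ℕ}
    {g : MvPolynomial (Fin n) (Polynomial ℂ)}
    (H : InDn (aeval (fun i => (∑ j, C (A i j) * X j : MvPolynomial (Fin n) ℂ)) f') k g) :
    InDn f' k (aeval (fun j => (∑ i, C (Polynomial.C (σ j i)) * X i :
      MvPolynomial (Fin r) (Polynomial ℂ))) g) :=
  by
  have := RedB.key A σ h f' H [] (by simp)
  rwa [RedB.DL_nil] at this

end MPb07157.ND
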