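import Pool.Agent.Lib.MP_b07157_ag.ND.Mat

/-! # Reductions: linear algebra -/

noncomputable section

namespace MPb07157.ND

open Matrix

variable {n : ℕ} {ι : Type} [DecidableEq ι]

/-- a subarrangement is the pull-back of an essential one -/
theorem exists_essential (a : ι → Fin n → ℂ) (F : Finset ι) (r : ℕ) (hr : rk a F = r) :
    ∃ (A : Matrix (Fin r) (Fin n) ℂ) (σ : Matrix (Fin n) (Fin r) ℂ), A * σ = 1 ∧
      ∀ j ∈ F, (a j ᵥ* σ) ᵥ* A = a j := by
  set b := Module.finBasisOfFinrankEq ℂ (spn a F) hr with hb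
  set A : Matrix (Fin r) (Fin n) ℂ := Matrix.of fun i => ((b i : spn a F) : Fin n → ℂ) with hA
  have hli : LinearIndependent ℂ A.row := by
    have h1 := b.linearIndependent.map' (spn a F).subtype (Submodule.ker_subtype _)
    exact h1
  have hinj : Function.Injective (fun v => v ᵥ* A) := Matrix.vecMul_injective_iff.2 hli
  obtain ⟨g, hg⟩ := LinearMap.exists_leftInverse_of_injective (A.vecMulLinear)
    (LinearMap.ker_eq_bot.2 hinj)
  set σ : Matrix (Fin n) (Fin r) ℂ := Matrix.of fun i => g (Pi.single i 1) with hσ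
  have hσg : ∀ ξ : Fin n → ℂ, ξ ᵥ* σ = g ξ := by
    intro ξ
    rw [Matrix.vecMul_eq_sum]
    have h1 : ξ = ∑ j, ξ j • (Pi.single j 1 : Fin n → ℂ) := by
      ext k
      simp [Finset.sum_apply, Pi.single_apply]
    conv_rhs => rw [h1, map_sum]
    refine Finset.sum_congr rfl fun i _ => ?_
    rw [map_smul]
    rfl
  have hz : ∀ z : Fin r → ℂ, (z ᵥ* A) ᵥ* σ = z := by
    intro z
    rw [hσg]
    exact LinearMap.congr_fun hg z
  have hAσ : A * σ = 1 := by
    ext i k
    have h1 := congrFun (hz (Pi.single i 1)) k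
    rw [Matrix.vecMul_vecMul, Matrix.single_one_vecMul] at h1
    rw [Matrix.one_apply]
    change (A * σ) i k = _ at h1
    rw [h1, Pi.single_apply]
    by_cases h : k = i
    · rw [if_pos h, if_pos h.symm]
    · rw [if_neg h, if_neg (Ne.symm h)]
  refine ⟨A, σ, hAσ, fun j hj => ?_⟩
  have h1 : (fun i => b.repr ⟨a j, mem_spn a hj⟩ i) ᵥ* A = a j := by
    rw [Matrix.vecMul_eq_sum]
    have h2 := congrArg Subtype.val (b.sum_repr ⟨a j, mem_spn a hj⟩)
    rw [Submodule.coe_sum] at h2
    exact h2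
  conv_lhs => rw [← h1]
  rw [hz, h1]

/-- rank and connectedness of the essential arrangement -/
theorem essential_props (a : ι → Fin n → ℂ) (ha : ∀ i, a i ≠ 0) (F : Finset ι) (r : ℕ)
    (hr : rk a F = r) (hc : Conn a F) (A : Matrix (Fin r) (Fin n) ℂ)
    (σ : Matrix (Fin n) (Fin r) ℂ) (hA : A * σ = 1) (hF : ∀ j ∈ F, (a j ᵥ* σ) ᵥ* A = a j) :
    (∀ j : {j // j ∈ F}, a j ᵥ* σ ≠ 0) ∧
      rk (fun j : {j // j ∈ F} => a j ᵥ* σ) (Finset.univ : Finset {j // j ∈ F}) = r ∧
      Conn (fun j : {j // j ∈ F} => a j ᵥ* σ) (Finset.univ : Finset {j // j ∈ F}) := by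
  have hinj : Function.Injective (A.vecMulLinear) := by
    intro z z' h
    have h1 : (z ᵥ* A) ᵥ* σ = (z' ᵥ* A) ᵥ* σ := congrArg (fun y => y ᵥ* σ) h
    rwa [Matrix.vecMul_vecMul, Matrix.vecMul_vecMul, hA, Matrix.vecMul_one,
      Matrix.vecMul_one] at h1
  set b : {j // j ∈ F} → Fin r → ℂ := fun j => a j ᵥ* σ with hb
  have hmap : ∀ T : Finset {j // j ∈ F}, (spn b T).map (A.vecMulLinear) =
      spn a (T.map (Function.Embedding.subtype _)) := by
    intro T
    rw [spn, spn, Submodule.map_span]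
    congr 1
    ext y
    constructor
    · rintro ⟨_, ⟨j, hj, rfl⟩, rfl⟩
      refine ⟨j, ?_, (hF j j.2).symm⟩
      rw [Finset.coe_map]
      exact ⟨j, hj, rfl⟩
    · rintro ⟨i, hi, rfl⟩
      rw [Finset.coe_map] at hi
      obtain ⟨j, hj, rfl⟩ := hi
      exact ⟨b j, ⟨j, hj, rfl⟩, hF j j.2⟩
  have hrk : ∀ T : Finset {j // j ∈ F}, rk b T =
      rk a (T.map (Function.Embedding.subtype _)) := by
    intro T
    unfold rk
    rw [← hmap T]
    exact (Submodule.equivMapOfInjective (A.vecMulLinear) hinj (spn b T)).finrank_eq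
  have huniv : (Finset.univ : Finset {j // j ∈ F}).map (Function.Embedding.subtype _) = F := by
    ext i
    simp
  refine ⟨fun j h0 => ?_, ?_, ?_⟩
  · have h1 := hF j j.2
    rw [h0, Matrix.zero_vecMul] at h1
    exact ha j h1.symm
  · rw [hrk, huniv, hr]
  · refine ⟨?_, fun G _ hG hG' hdis => ?_⟩
    · obtain ⟨i, hi⟩ := hc.1
      exact ⟨⟨i, hi⟩, Finset.mem_univ _⟩
    · have h1 := Submodule.disjoint_map hinj hdis
      rw [hmap, hmap] at h1
      have h2 : (Finset.univ \ G).map (Function.Embedding.subtype _) =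
          F \ G.map (Function.Embedding.subtype _) := by
        rw [Finset.map_sdiff, huniv]
      rw [h2] at h1
      have hsub : G.map (Function.Embedding.subtype _) ⊆ F :=
        (Finset.map_subset_map.2 (Finset.subset_univ G)).trans huniv.subset
      refine hc.2 _ hsub (hG.map) ?_ h1
      rw [← h2]
      exact hG'.map

end MPb07157.ND
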