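import Pool.Agent.Lib.MP_b07157_ag.ArrZeta
import Pool.Agent.Lib.MP_b07157_ag.ND.Mat

/-! # Poles of the motivic zeta function of a complex arrangement -/

noncomputable section

namespace MPb07157.ND

open MvPolynomial

variable {n : ℕ} {ι : Type} [Fintype ι] [DecidableEq ι]

open Classical in
/-- The hyperplanes through the point `p`. -/
def throughC (a : ι → Fin n → ℂ) (c : ι → ℂ) (p : Fin n → ℂ) : Finset ι :=
  Finset.univ.filter (fun j => a j ⬝ᵥ p + c j = 0)

/-- The defining polynomial `∏_j (a_j·x + c_j)^{m_j}` of a complex arrangement with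
multiplicities. -/
def arrPolyC (a : ι → Fin n → ℂ) (c : ι → ℂ) (m : ι → ℕ) : MvPolynomial (Fin n) ℂ :=
  ∏ j, (∑ i, C (a j i) * X i + C (c j)) ^ m j

/-! ### Linear algebra -/

omit [Fintype ι] [DecidableEq ι] in
theorem exists_idempotentC (a : ι → Fin n → ℂ) (G H : Finset ι)
    (h : Disjoint (spn a G) (spn a H)) :
    ∃ P : Matrix (Fin n) (Fin n) ℂ, P * P = P ∧
      (∀ j ∈ G, ∀ k, ∑ i, a j i * P i k = a j k) ∧
      (∀ j ∈ H, ∀ k, ∑ i, a j i * P i k = 0) := by
  obtain ⟨W, hW, hc⟩ := h.symm.exists_isCompl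
  let U := spn a G
  let π : (Fin n → ℂ) →ₗ[ℂ] (Fin n → ℂ) := U.projection W hc.symm
  have hπ : π ∘ₗ π = π := Submodule.isIdempotentElem_projection hc.symm
  let M : Matrix (Fin n) (Fin n) ℂ := LinearMap.toMatrix' π
  have hM : M * M = M := by
    rw [← LinearMap.toMatrix'_comp, hπ]
  have hMv : ∀ v, M.mulVec v = π v := fun v => by
    rw [← Matrix.toLin'_apply, Matrix.toLin'_toMatrix']
  refine ⟨M.transpose, ?_, ?_, ?_⟩
  · rw [← Matrix.transpose_mul, hM]
  · intro j hj k
    have h1 : π (a j) = a j :=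
      Submodule.projection_apply_left hc.symm ⟨a j, Submodule.subset_span ⟨j, hj, rfl⟩⟩
    have h2 := congrFun (hMv (a j)) k
    rw [h1] at h2
    simp only [Matrix.mulVec, dotProduct] at h2
    rw [← h2]
    refine Finset.sum_congr rfl fun i _ => ?_
    rw [Matrix.transpose_apply, mul_comm]
  · intro j hj k
    have h1 : π (a j) = 0 :=
      Submodule.projection_apply_of_mem_right hc.symm (hW (Submodule.subset_span ⟨j, hj, rfl⟩))
    have h2 := congrFun (hMv (a j)) k
    rw [h1] at h2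
    simp only [Matrix.mulVec, dotProduct, Pi.zero_apply] at h2
    rw [← h2]
    refine Finset.sum_congr rfl fun i _ => ?_
    rw [Matrix.transpose_apply, mul_comm]

omit [Fintype ι] [DecidableEq ι] in
theorem rk_le_dim (a : ι → Fin n → ℂ) (F : Finset ι) : rk a F ≤ n := by
  have := Submodule.finrank_le (spn a F)
  simpa [rk] using this

omit [Fintype ι] [DecidableEq ι] in
/-- The class of the linear subspace `{x : a_j·x = 0, j ∈ F}`. -/
theorem cls_subspaceC (a : ι → Fin n → ℂ) (F : Finset ι) :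
    cls (strat a 0 F F) = L ^ (n - rk a F) := by
  classical
  let A : Matrix F (Fin n) ℂ := Matrix.of fun j => a j
  have hrk : A.rank = rk a F := by
    have hset : Set.range A.row = a '' (F : Set ι) := by
      ext x
      constructor
      · rintro ⟨j, rfl⟩
        exact ⟨j, j.2, rfl⟩
      · rintro ⟨j, hj, rfl⟩
        exact ⟨⟨j, hj⟩, rfl⟩
    rw [Matrix.rank_eq_finrank_span_row, rk, hset]
  let K := LinearMap.ker A.mulVecLin
  have hK : Module.finrank ℂ K = n - rk a F := by
    have h1 := LinearMap.finrank_range_add_finrank_ker A.mulVecLin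
    rw [Module.finrank_fin_fun] at h1
    have h2 : Module.finrank ℂ (LinearMap.range A.mulVecLin) = rk a F := hrk
    show Module.finrank ℂ (LinearMap.ker A.mulVecLin) = _
    omega
  have hmem : ∀ x : Fin n → ℂ, x ∈ strat a 0 F F ↔ x ∈ K := by
    intro x
    rw [LinearMap.mem_ker, Matrix.mulVecLin_apply]
    constructor
    · intro hx
      funext j
      have := (hx j j.2).2 j.2
      simpa [A, Matrix.mulVec] using this
    · intro hx j hj
      simp only [hj, iff_true, Pi.zero_apply, add_zero]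
      have := congrFun hx ⟨j, hj⟩
      simpa [A, Matrix.mulVec] using this
  let b : Module.Basis (Fin (Module.finrank ℂ K)) ℂ K := Module.finBasis ℂ K
  have h2 : cls (Set.univ : Set (Fin (Module.finrank ℂ K) → ℂ)) = cls (strat a 0 F F) := by
    refine cls_bijOn IsConstr.univ (isConstr_strat _ _ _ _)
      (fun i => ∑ l, C ((b l : Fin n → ℂ) i) * X l) ?_
    have hφ : ∀ x : Fin (Module.finrank ℂ K) → ℂ,
        polyMap (fun i => ∑ l, C ((b l : Fin n → ℂ) i) * X l) x =
          ((b.equivFun.symm x : K) : Fin n → ℂ) := by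
      intro x
      funext i
      rw [Module.Basis.equivFun_symm_apply]
      simp [polyMap, mul_comm]
    refine ⟨?_, ?_, ?_⟩
    · intro x _
      rw [hmem, hφ]
      exact (b.equivFun.symm x).2
    · intro x _ y _ hxy
      rw [hφ, hφ] at hxy
      exact b.equivFun.symm.injective (Subtype.ext hxy)
    · intro z hz
      rw [hmem] at hz
      refine ⟨b.equivFun ⟨z, hz⟩, Set.mem_univ _, ?_⟩
      rw [hφ, LinearEquiv.symm_apply_apply]
  rw [← h2, cls_univ_eq, Fintype.card_fin, hK]

omit [Fintype ι] [DecidableEq ι] in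
/-- A generic parameter. -/
theorem exists_genericC (S : Finset ι) (u v : ι → ℂ) (h : ∀ j ∈ S, u j ≠ 0 ∨ v j ≠ 0) :
    ∃ t : ℂ, ∀ j ∈ S, u j + t * v j ≠ 0 := by
  classical
  have hfin : (S.image (fun j => - u j / v j) : Set ℂ).Finite := Finset.finite_toSet _
  obtain ⟨t, ht⟩ := hfin.infinite_compl.nonempty
  refine ⟨t, fun j hj h0 => ht ?_⟩
  have hv : v j ≠ 0 := by
    intro hv
    rw [hv, mul_zero, add_zero] at h0
    rcases h j hj with h1 | h1
    · exact h1 h0
    · exact h1 hv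
  simp only [Finset.coe_image, Set.mem_image]
  refine ⟨j, hj, ?_⟩
  rw [div_eq_iff hv]
  linear_combination -h0

omit [Fintype ι] [DecidableEq ι] in
/-- A form outside the span takes a nonzero value at a point where the span vanishes. -/
theorem exists_point_of_notMem_spn (a : ι → Fin n → ℂ) (G : Finset ι) (j : ι)
    (hj : a j ∉ spn a G) :
    ∃ x : Fin n → ℂ, (∀ k ∈ G, a k ⬝ᵥ x = 0) ∧ a j ⬝ᵥ x ≠ 0 := by
  obtain ⟨f, hf, hf'⟩ := Submodule.exists_dual_map_eq_bot_of_notMem hj inferInstance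
  have hdot : ∀ v : Fin n → ℂ, v ⬝ᵥ (fun i => f (Pi.single i 1)) = f v := by
    intro v
    have h1 : v = ∑ i, v i • (Pi.single i 1 : Fin n → ℂ) := by
      funext k
      simp [Finset.sum_apply, Pi.single_apply]
    conv_rhs => rw [h1, map_sum]
    simp [dotProduct]
  refine ⟨fun i => f (Pi.single i 1), fun k hk => ?_, ?_⟩
  · rw [hdot]
    have h1 : f (a k) ∈ (spn a G).map f :=
      Submodule.mem_map_of_mem (Submodule.subset_span ⟨k, hk, rfl⟩)
    rw [hf'] at h1
    simpa using h1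
  · rw [hdot]
    exact hf

omit [Fintype ι] in
/-- A generic point of the subspace where `G` vanishes. -/
theorem exists_generic_pointC (a : ι → Fin n → ℂ) (G S : Finset ι)
    (hS : ∀ j ∈ S, a j ∉ spn a G) :
    ∃ x : Fin n → ℂ, (∀ k ∈ G, a k ⬝ᵥ x = 0) ∧ ∀ j ∈ S, a j ⬝ᵥ x ≠ 0 := by
  induction S using Finset.induction_on with
  | empty => exact ⟨0, by simp, by simp⟩
  | insert k S hk ih =>
    obtain ⟨x, hx1, hx2⟩ := ih (fun j hj => hS j (Finset.mem_insert_of_mem hj))
    obtain ⟨y, hy1, hy2⟩ := exists_point_of_notMem_spn a G k (hS k (Finset.mem_insert_self _ _))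
    obtain ⟨t, ht⟩ := exists_genericC (insert k S) (fun j => a j ⬝ᵥ x)
      (fun j => a j ⬝ᵥ y) (by
        intro j hj
        rcases Finset.mem_insert.1 hj with rfl | hj
        · exact Or.inr hy2
        · exact Or.inl (hx2 j hj))
    refine ⟨x + t • y, fun j hj => ?_, fun j hj => ?_⟩
    · rw [dotProduct_add, dotProduct_smul, hx1 j hj, hy1 j hj, smul_zero, add_zero]
    · rw [dotProduct_add, dotProduct_smul, smul_eq_mul]
      exact ht j hj

omit [DecidableEq ι] in
theorem mem_throughC {a : ι → Fin n → ℂ} {c : ι → ℂ} {p : Fin n → ℂ} {j : ι} :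
    j ∈ throughC a c p ↔ a j ⬝ᵥ p + c j = 0 := by
  simp [throughC]

/-- A point with prescribed zero set on a line through `p`. -/
theorem exists_throughC_of_dir (a : ι → Fin n → ℂ) (c : ι → ℂ) (p x : Fin n → ℂ)
    (G : Finset ι) (hG : ∀ j, j ∈ G ↔ (a j ⬝ᵥ p + c j = 0 ∧ a j ⬝ᵥ x = 0)) :
    ∃ p' : Fin n → ℂ, throughC a c p' = G := by
  obtain ⟨t, ht⟩ := exists_genericC (Finset.univ \ G) (fun j => a j ⬝ᵥ p + c j)
    (fun j => a j ⬝ᵥ x) (by
      intro j hj
      have hjG := (Finset.mem_sdiff.1 hj).2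
      rw [hG] at hjG
      by_contra h
      push Not at h
      exact hjG h)
  refine ⟨p + t • x, ?_⟩
  ext j
  rw [mem_throughC]
  have hval : a j ⬝ᵥ (p + t • x) + c j = (a j ⬝ᵥ p + c j) + t * (a j ⬝ᵥ x) := by
    rw [dotProduct_add, dotProduct_smul, smul_eq_mul]; ring
  rw [hval]
  constructor
  · intro h
    by_contra hj
    exact ht j (Finset.mem_sdiff.2 ⟨Finset.mem_univ _, hj⟩) h
  · intro hj
    obtain ⟨h1, h2⟩ := (hG j).1 hj
    rw [h1, h2]; ring

theorem exists_throughC_of_central (a : ι → Fin n → ℂ) (c : ι → ℂ)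
    (p : Fin n → ℂ) (q : Fin n → ℂ) (G : Finset ι) (hGF : G ⊆ throughC a c p)
    (hq : q ∈ strat a 0 (throughC a c p) G) :
    ∃ p' : Fin n → ℂ, throughC a c p' = G := by
  refine exists_throughC_of_dir a c p q G fun j => ?_
  rw [← mem_throughC (a := a) (c := c)]
  constructor
  · intro hj
    refine ⟨hGF hj, ?_⟩
    have := (hq j (hGF hj)).2 hj
    simpa using this
  · rintro ⟨hjF, h2⟩
    refine (hq j hjF).1 ?_
    rw [h2]
    simp

theorem exists_throughC_of_closed (a : ι → Fin n → ℂ) (c : ι → ℂ)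
    (p : Fin n → ℂ) (G : Finset ι) (hGF : G ⊆ throughC a c p)
    (hcl : ∀ j ∈ throughC a c p \ G, a j ∉ spn a G) :
    ∃ p' : Fin n → ℂ, throughC a c p' = G := by
  obtain ⟨x, hx1, hx2⟩ := exists_generic_pointC a G (throughC a c p \ G) hcl
  refine exists_throughC_of_dir a c p x G fun j => ?_
  rw [← mem_throughC (a := a) (c := c)]
  constructor
  · intro hj; exact ⟨hGF hj, hx1 j hj⟩
  · rintro ⟨h1, h2⟩
    by_contra hj
    exact hx2 j (Finset.mem_sdiff.2 ⟨h1, hj⟩) h2

/-! ### Zeta functions -/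

omit [Fintype ι] in
theorem Zmot_splitC (a : ι → Fin n → ℂ) (m : ι → ℕ) (F G : Finset ι) (hG : G ⊆ F)
    (h : Disjoint (spn a G) (spn a (F \ G))) :
    Zmot (arrC a 0 m F) = Zmot (arrC a 0 m G) * Zmot (arrC a 0 m (F \ G)) := by
  obtain ⟨P, hP, hPG, hPH⟩ := exists_idempotentC a G (F \ G) h
  have h1 : arrC a 0 m F = arrC a 0 m G * arrC a 0 m (F \ G) := by
    unfold arrC
    rw [mul_comm, Finset.prod_sdiff hG]
  rw [h1]
  refine Zmot_mul hP (aeval_arrC_matrix a m G P hPG)
    (aeval_arrC_matrix a m (F \ G) (1 - P) fun j hj k => ?_)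
  simp only [Matrix.sub_apply, mul_sub, Finset.sum_sub_distrib, hPH j hj k, sub_zero]
  simp [Matrix.one_apply]

omit [Fintype ι] [DecidableEq ι] in
theorem strat_empty_orC (a : ι → Fin n → ℂ) (c : ι → ℂ) (F G : Finset ι) :
    clsM (strat a c F G) = 0 ∨ ∃ q, q ∈ strat a c F G := by
  rcases (strat a c F G).eq_empty_or_nonempty with h | h
  · left
    rw [h, clsM, cls_empty, map_zero]
  · exact Or.inr h

/-- The poles of the zeta functions of the central arrangements of an affine arrangement. -/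
theorem Zmot_central_memC (a : ι → Fin n → ℂ) (c : ι → ℂ) (m : ι → ℕ)
    (ha : ∀ j, a j ≠ 0) (hm : ∀ j, 0 < m j) (s₀ : ℚ)
    (hs : ∀ p : Fin n → ℂ, Conn a (throughC a c p) →
      ((rk a (throughC a c p) : ℕ) : ℚ) / ((∑ j ∈ throughC a c p, m j : ℕ) : ℚ) ≠ -s₀) :
    ∀ k : ℕ, ∀ p : Fin n → ℂ, (throughC a c p).card = k →
      Zmot (arrC a 0 m (throughC a c p)) ∈ regularAt s₀ := by
  intro k
  induction k using Nat.strong_induction_on with
  | _ k IH =>
  intro p hk
  generalize hF : throughC a c p = F at hk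
  rcases F.eq_empty_or_nonempty with rfl | hne
  · have : arrC a 0 m ∅ = 1 := by simp [arrC]
    rw [this, Zmot_one]
    exact one_mem _
  by_cases hd : Conn a F
  · -- dense case
    have hIH : ∀ G ∈ F.powerset.erase F,
        PowerSeries.C (↑((LU ^ n)⁻¹) * clsM (strat a 0 F G)) *
          (PowerSeries.X ^ (∑ j ∈ G, m j) * Zmot (arrC a 0 m G)) ∈ regularAt s₀ := by
      intro G hG
      obtain ⟨hGF, hG'⟩ := Finset.mem_erase.1 hG
      have hG' := Finset.mem_powerset.1 hG'
      rcases strat_empty_orC a 0 F G with h0 | ⟨q, hq⟩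
      · rw [h0, mul_zero, map_zero, zero_mul]
        exact zero_mem _
      · obtain ⟨p', hp'⟩ := exists_throughC_of_central a c p q G (hF ▸ hG') (hF ▸ hq)
        have h1 := IH G.card (by
          rw [← hk]
          exact Finset.card_lt_card (Finset.ssubset_iff_subset_ne.2 ⟨hG', hGF⟩)) p'
          (by rw [hp'])
        rw [hp'] at h1
        exact mul_mem (C_mem_regularAt s₀ _) (mul_mem (pow_mem (X_mem_regularAt s₀) _) h1)
    have hrest := sum_mem hIH
    set rest := ∑ G ∈ F.powerset.erase F,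
        PowerSeries.C (↑((LU ^ n)⁻¹) * clsM (strat a 0 F G)) *
          (PowerSeries.X ^ (∑ j ∈ G, m j) * Zmot (arrC a 0 m G)) with hrest_def
    have hmain := Zmot_arrC a 0 m hm F
    rw [← Finset.add_sum_erase F.powerset _ (Finset.mem_powerset_self F), ← hrest_def] at hmain
    have hcls : ↑((LU ^ n)⁻¹) * clsM (strat a 0 F F) =
        ((LU ^ (-((rk a F : ℕ) : ℤ)) : Motˣ) : Mot) := by
      have h1 : clsM (strat a 0 F F) = ((LU ^ (n - rk a F) : Motˣ) : Mot) := by
        unfold clsM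
        rw [cls_subspaceC a F, map_pow, Units.val_pow_eq_pow_val, LU_val]
      rw [h1, ← Units.val_mul]
      congr 1
      have h2 := rk_le_dim a F
      have h3 : (LU : Motˣ) ^ n = LU ^ (n - rk a F) * LU ^ (rk a F) := by
        rw [← pow_add]; congr 1; omega
      rw [h3, mul_inv, zpow_neg, zpow_natCast, mul_comm, ← mul_assoc, mul_inv_cancel, one_mul]
    rw [hcls] at hmain
    have hmF : 0 < ∑ j ∈ F, m j := Finset.sum_pos (fun j _ => hm j) hne
    obtain ⟨g, hg⟩ := exists_inv ((LU ^ (-((rk a F : ℕ) : ℤ)) : Motˣ) : Mot) (∑ j ∈ F, m j) hmF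
    have hgm : g ∈ regularAt s₀ := by
      refine inv_mem_regularAt s₀ ((rk a F : ℕ) : ℤ) (∑ j ∈ F, m j) hmF ?_ g hg
      have := hs p (by rw [hF]; exact hd)
      rw [hF] at this
      simpa using this
    have hfin : Zmot (arrC a 0 m F) = g * rest := by
      have h1 : (1 - PowerSeries.C ((LU ^ (-((rk a F : ℕ) : ℤ)) : Motˣ) : Mot) *
          PowerSeries.X ^ (∑ j ∈ F, m j)) * Zmot (arrC a 0 m F) = rest := by
        rw [sub_mul, one_mul, sub_eq_iff_eq_add', mul_assoc]
        exact hmain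
      calc Zmot (arrC a 0 m F)
          = (g * (1 - PowerSeries.C ((LU ^ (-((rk a F : ℕ) : ℤ)) : Motˣ) : Mot) *
              PowerSeries.X ^ (∑ j ∈ F, m j))) * Zmot (arrC a 0 m F) := by
            rw [hg, one_mul]
        _ = g * rest := by rw [mul_assoc, h1]
    rw [hfin]
    exact mul_mem hgm hrest
  · -- decomposable case
    have hd' : ∃ G ⊆ F, G.Nonempty ∧ (F \ G).Nonempty ∧
        Disjoint (spn a G) (spn a (F \ G)) := by
      by_contra hcon
      apply hd
      refine ⟨hne, fun G hG h1 h2 h3 => hcon ⟨G, hG, h1, h2, h3⟩⟩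
    obtain ⟨G, hG, hG1, hG2, hdis⟩ := hd'
    rw [Zmot_splitC a m F G hG hdis]
    have hcl : ∀ (A B : Finset ι), Disjoint (spn a A) (spn a B) → ∀ j ∈ B,
        a j ∉ spn a A := by
      intro A B hAB j hj h
      have := Submodule.disjoint_def.1 hAB (a j) h (Submodule.subset_span ⟨j, hj, rfl⟩)
      exact ha j this
    have hsub : ∀ A ⊆ F, (F \ A).Nonempty → (∀ j ∈ F \ A, a j ∉ spn a A) →
        Zmot (arrC a 0 m A) ∈ regularAt s₀ := by
      intro A hA hA2 hA3
      obtain ⟨p', hp'⟩ := exists_throughC_of_closed a c p A (by rw [hF]; exact hA)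
        (by rw [hF]; exact hA3)
      have h1 := IH A.card (by
        rw [← hk]
        refine Finset.card_lt_card (Finset.ssubset_iff_subset_ne.2 ⟨hA, ?_⟩)
        rintro rfl
        simp at hA2) p' (by rw [hp'])
      rwa [hp'] at h1
    refine mul_mem (hsub G hG hG2 (hcl _ _ hdis)) (hsub (F \ G) Finset.sdiff_subset ?_ ?_)
    · rw [Finset.sdiff_sdiff_eq_self hG]; exact hG1
    · rw [Finset.sdiff_sdiff_eq_self hG]
      exact hcl _ _ hdis.symm

/-- **Poles of the motivic zeta function of a complex arrangement.** -/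
theorem exists_conn_of_isPole (a : ι → Fin n → ℂ) (c : ι → ℂ) (m : ι → ℕ)
    (ha : ∀ j, a j ≠ 0) (hm : ∀ j, 0 < m j) (s₀ : ℚ) (hs₀ : IsPole (Zmot (arrPolyC a c m)) s₀) :
    ∃ p : Fin n → ℂ, Conn a (throughC a c p) ∧
      s₀ = -(((rk a (throughC a c p) : ℕ) : ℚ) / ((∑ j ∈ throughC a c p, m j : ℕ) : ℚ)) := by
  by_contra hcon
  push Not at hcon
  apply hs₀
  have hs : ∀ p : Fin n → ℂ, Conn a (throughC a c p) →
      ((rk a (throughC a c p) : ℕ) : ℚ) / ((∑ j ∈ throughC a c p, m j : ℕ) : ℚ) ≠ -s₀ := by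
    intro p hp h
    apply hcon p hp
    rw [h, neg_neg]
  have harr : arrPolyC a c m = arrC a c m Finset.univ := rfl
  rw [harr, Zmot_arrC a _ m hm]
  refine sum_mem fun G _ => ?_
  rcases strat_empty_orC a c Finset.univ G with h0 | ⟨q, hq⟩
  · rw [h0, mul_zero, map_zero, zero_mul]
    exact zero_mem _
  · have hq' : throughC a c q = G := by
      ext j
      rw [mem_throughC]
      exact hq j (Finset.mem_univ j)
    have h1 := Zmot_central_memC a c m ha hm s₀ hs G.card q (by rw [hq'])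
    rw [hq'] at h1
    exact mul_mem (C_mem_regularAt s₀ _) (mul_mem (pow_mem (X_mem_regularAt s₀) _) h1)

end MPb07157.ND
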