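import Pool.Agent.Lib.MP_b07157_ag.ND.Core
import Pool.Agent.Lib.MP_b07157_ag.ND.RedA
import Pool.Agent.Lib.MP_b07157_ag.ND.RedB
import Pool.Agent.Lib.MP_b07157_ag.ND.RedC
import Pool.Agent.Lib.MP_b07157_ag.ND.ZetaC

/-! # The strong monodromy conjecture for complex hyperplane arrangements -/

noncomputable section

namespace MPb07157.ND

open MvPolynomial

/-! ### Affine forms -/

/-- the affine form `a·x + c` -/
def af {n : ℕ} (a : Fin n → ℂ) (c : ℂ) : MvPolynomial (Fin n) ℂ := ∑ i, C (a i) * X i + C c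

/-- the linear form `a·x` -/
def lf {n : ℕ} (a : Fin n → ℂ) : MvPolynomial (Fin n) ℂ := ∑ i, C (a i) * X i

theorem lf_isHomogeneous {n : ℕ} (a : Fin n → ℂ) : (lf a).IsHomogeneous 1 := by
  refine IsHomogeneous.sum _ _ _ fun i _ => ?_
  simpa using (isHomogeneous_C (Fin n) (a i)).mul (isHomogeneous_X ℂ i)

theorem lf_ne_zero {n : ℕ} {a : Fin n → ℂ} (ha : a ≠ 0) : lf a ≠ 0 := by
  intro h
  apply ha
  funext i
  have := congrArg (coeff (Finsupp.single i 1)) h
  simpa [lf, coeff_sum, coeff_C_mul, coeff_X, Finsupp.single_left_inj] using this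

theorem aeval_translate_af {n : ℕ} (a p : Fin n → ℂ) (c : ℂ) (h : a ⬝ᵥ p + c = 0) :
    aeval (fun i => (X i + C (p i) : MvPolynomial (Fin n) ℂ)) (af a c) = lf a := by
  simp only [af, map_add, map_sum, map_mul, aeval_X, lf, mul_add, Finset.sum_add_distrib]
  simp only [← MvPolynomial.algebraMap_eq, AlgHom.commutes]
  rw [add_assoc]
  simp only [← map_mul, ← map_sum, ← map_add]
  have : ∑ i, a i * p i + c = 0 := h
  rw [this, map_zero, add_zero]

theorem aeval_matrix_lf {n r : ℕ} (A : Matrix (Fin r) (Fin n) ℂ) (b : Fin r → ℂ) :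
    aeval (fun i => (∑ j, C (A i j) * X j : MvPolynomial (Fin n) ℂ)) (lf b) =
      lf (Matrix.vecMul b A) := by
  simp only [lf, map_sum, map_mul, aeval_X, aeval_C, MvPolynomial.algebraMap_eq, Finset.mul_sum,
    Matrix.vecMul, dotProduct]
  rw [Finset.sum_comm]
  refine Finset.sum_congr rfl fun j _ => ?_
  rw [Finset.sum_mul]
  refine Finset.sum_congr rfl fun i _ => ?_
  rw [mul_assoc]

theorem arrPolyC_eq {n : ℕ} {ι : Type} [Fintype ι] (a : ι → Fin n → ℂ) (c : ι → ℂ) (m : ι → ℕ) :
    arrPolyC a c m = ∏ j, af (a j) (c j) ^ m j := rfl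

/-! ### The root attached to an indecomposable edge -/

theorem InDn_C_of_local {n : ℕ} (f0 h : MvPolynomial (Fin n) ℂ) (p : Fin n → ℂ) (b : Polynomial ℂ)
    (f1 : MvPolynomial (Fin n) ℂ) (M : ℕ) (hf1 : f1.IsHomogeneous M)
    (htr : aeval (fun i => (X i + C (p i) : MvPolynomial (Fin n) ℂ)) f0 = f1)
    (hh : eval p h ≠ 0) (hb : InDn (f0 * h) 1 (C b)) : InDn f1 1 (C b) := by
  obtain ⟨N, hN⟩ := InDn_factor f0 h hb
  have h1 := InDn_translate p hN
  rw [htr] at h1
  have h2 := InDn_homogeneous hf1 h1 0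
  rw [homogeneousComponent_zero] at h2
  have h3 : coeff 0 ((aeval fun i => (X i + C (Polynomial.C (p i)) :
      MvPolynomial (Fin n) (Polynomial ℂ))) (liftS h ^ N * C b)) =
      Polynomial.C (eval p h ^ N) * b := by
    rw [← constantCoeff_eq, map_mul, map_pow, map_mul, map_pow]
    congr 1
    · rw [map_pow]
      congr 1
      have h4 : ∀ q : MvPolynomial (Fin n) ℂ, constantCoeff ((aeval fun i =>
          (X i + C (Polynomial.C (p i)) : MvPolynomial (Fin n) (Polynomial ℂ))) (liftS q)) =
          Polynomial.C (eval p q) := by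
        intro q
        induction q using MvPolynomial.induction_on with
        | C z => simp [liftS]
        | add q r hq hr =>
          simp only [liftS, map_add] at *
          rw [hq, hr]
        | mul_X q i hq =>
          simp only [liftS, map_mul, map_X, aeval_X, eval_X] at *
          rw [hq]
          simp
      exact h4 h
    · have : (aeval fun i => (X i + C (Polynomial.C (p i)) :
          MvPolynomial (Fin n) (Polynomial ℂ))) (C b : MvPolynomial (Fin n) (Polynomial ℂ)) =
          C b := by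
        rw [← MvPolynomial.algebraMap_eq, AlgHom.commutes]
      rw [this, constantCoeff_C]
  rw [h3] at h2
  have h5 := InDn.mul (C (Polynomial.C ((eval p h ^ N)⁻¹))) h2
  have h6 : (C (Polynomial.C ((eval p h ^ N)⁻¹)) * C (Polynomial.C (eval p h ^ N) * b) :
      MvPolynomial (Fin n) (Polynomial ℂ)) = C b := by
    rw [← map_mul, ← mul_assoc, ← map_mul, inv_mul_cancel₀ (pow_ne_zero _ hh), map_one, one_mul]
  rwa [h6] at h5

variable {n : ℕ} {ι : Type} [Fintype ι] [DecidableEq ι]

/-- **The n/d theorem** for all complex arrangements: an indecomposable edge `F` gives the root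
`-rank(F) / mult(F)` of each Bernstein–Sato polynomial. -/
theorem root_of_conn (a : ι → Fin n → ℂ) (c : ι → ℂ) (m : ι → ℕ) (ha : ∀ j, a j ≠ 0)
    (hm : ∀ j, 0 < m j) (p : Fin n → ℂ) (hd : Conn a (throughC a c p)) (b : Polynomial ℂ)
    (hb : InDn (arrPolyC a c m) 1 (C b)) :
    b.eval (-(((rk a (throughC a c p) : ℕ) : ℂ) /
      ((∑ j ∈ throughC a c p, m j : ℕ) : ℂ))) = 0 := by
  set F := throughC a c p with hF
  set M := ∑ j ∈ F, m j with hM
  -- the local equation at `p`
  have h1 : InDn (∏ j ∈ F, lf (a j) ^ m j) 1 (C b) := by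
    refine InDn_C_of_local (∏ j ∈ F, af (a j) (c j) ^ m j) (∏ j ∈ Fᶜ, af (a j) (c j) ^ m j) p b
      _ M ?_ ?_ ?_ ?_
    · refine IsHomogeneous.prod _ _ _ fun j _ => ?_
      simpa using (lf_isHomogeneous (a j)).pow (m j)
    · rw [map_prod]
      refine Finset.prod_congr rfl fun j hj => ?_
      rw [map_pow, aeval_translate_af _ _ _ (mem_throughC.1 (hF ▸ hj))]
    · rw [map_prod]
      refine Finset.prod_ne_zero_iff.2 fun j hj => ?_
      rw [map_pow]
      refine pow_ne_zero _ ?_
      intro h0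
      have hj' : j ∉ F := by simpa using hj
      apply hj'
      rw [hF, mem_throughC]
      rw [← h0]
      simp [af, dotProduct]
    · rw [Finset.prod_mul_prod_compl, ← arrPolyC_eq]
      exact hb
  obtain ⟨r, hr⟩ : ∃ r, rk a F = r := ⟨_, rfl⟩
  obtain ⟨A, σ, hAσ, hAF⟩ := exists_essential a F r hr
  obtain ⟨ha', hr', hc'⟩ := essential_props a ha F r hr hd A σ hAσ hAF
  have hMpos : 0 < M := Finset.sum_pos (fun j _ => hm j) hd.1
  -- restrict to the essential arrangement
  have h2 : InDn (ff (fun j : {j // j ∈ F} => Matrix.vecMul (a j) σ) (fun j => m j)) 1 (C b) := by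
    have h3 : (∏ j ∈ F, lf (a j) ^ m j) = aeval (fun i => (∑ j, C (A i j) * X j :
        MvPolynomial (Fin n) ℂ))
        (ff (fun j : {j // j ∈ F} => Matrix.vecMul (a j) σ) (fun j => m j)) := by
      rw [ff, map_prod, ← Finset.prod_coe_sort]
      refine Finset.prod_congr rfl fun j _ => ?_
      rw [map_pow]
      congr 1
      have := aeval_matrix_lf A (Matrix.vecMul (a j) σ)
      rw [hAF j j.2] at this
      exact this.symm
    rw [h3] at h1
    have h4 := InDn_restrict A σ hAσ _ h1
    have h5 : (aeval (fun j => (∑ i, C (Polynomial.C (σ j i)) * X i :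
        MvPolynomial (Fin r) (Polynomial ℂ)))) (C b : MvPolynomial (Fin n) (Polynomial ℂ)) =
        C b := by
      rw [aeval_C]
      rfl
    rwa [h5] at h4
  have hle : r ≤ M := by
    rw [← hr]
    refine (rk_le_card a F).trans ?_
    rw [Finset.card_eq_sum_ones]
    exact Finset.sum_le_sum fun j _ => hm j
  have hr1 : 0 < r := by
    rcases Nat.eq_zero_or_pos r with h0 | h0
    · exfalso
      rw [h0] at hr
      have := (rk_eq_zero_iff a ha).1 hr
      rw [this] at hd
      exact Finset.not_nonempty_empty hd.1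
    · exact h0
  rw [hr]
  rcases hle.eq_or_lt with heq | hlt
  · -- `r = M`: the root `-1`
    have h3 : (-((r : ℂ) / (M : ℂ))) = -1 := by
      rw [heq, div_self]
      exact_mod_cast hMpos.ne'
    rw [h3]
    refine eval_neg_one_of_InDn (f := ∏ j ∈ F, lf (a j) ^ m j) ?_ h1
    have hhom : (∏ j ∈ F, lf (a j) ^ m j).IsHomogeneous M := by
      refine IsHomogeneous.prod _ _ _ fun j _ => ?_
      simpa using (lf_isHomogeneous (a j)).pow (m j)
    have hne : (∏ j ∈ F, lf (a j) ^ m j) ≠ 0 :=
      Finset.prod_ne_zero_iff.2 fun j _ => pow_ne_zero _ (lf_ne_zero (ha j))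
    rw [hhom.totalDegree hne]
    exact hMpos
  · obtain ⟨N, rfl⟩ : ∃ N, r = N + 1 := ⟨r - 1, by omega⟩
    have hsum : ∑ j : {j // j ∈ F}, m j = M := Finset.sum_coe_sort F m
    have := core (fun j : {j // j ∈ F} => Matrix.vecMul (a j) σ) ha' (fun j => m j)
      (fun j => hm j) hr' hc' (by rw [hsum]; exact hlt) b h2
    rw [hsum] at this
    exact this

/-- **The strong monodromy conjecture for complex hyperplane arrangements** (with
multiplicities). -/
theorem strong_monodromy (a : ι → Fin n → ℂ) (c : ι → ℂ) (m : ι → ℕ) (ha : ∀ j, a j ≠ 0)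
    (hm : ∀ j, 0 < m j) (s₀ : ℚ) (hs₀ : IsPole (Zmot (arrPolyC a c m)) s₀) :
    IsBernsteinSatoRoot (arrPolyC a c m) s₀ := by
  obtain ⟨p, hp, rfl⟩ := exists_conn_of_isPole a c m ha hm s₀ hs₀
  intro b hb
  have := root_of_conn a c m ha hm p hp b hb
  push_cast at this ⊢
  exact this

end MPb07157.ND
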