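import Pool.Agent.Lib.MP_b07157_ag.ND.Pair
import Pool.Agent.Lib.MP_b07157_ag.ND.Lam

/-! # The Orlik–Solomon ideal -/

noncomputable section

namespace MPb07157.ND

open Finset



variable {n : ℕ} {ι : Type} [Fintype ι] [DecidableEq ι] (a : ι → Fin n → ℂ)

variable {a} in
theorem OS_smul {x : E ι} (c : ℂ) (h : OS a x) : OS a (c • x) := by
  rw [Algebra.smul_def]
  exact OS.mul_left _ h

variable {a} in
theorem OS_neg {x : E ι} (h : OS a x) : OS a (-x) := by
  have h1 := OS_smul (-1 : ℂ) h
  rwa [neg_smul, one_smul] at h1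

variable {a} in
theorem OS_sub {x y : E ι} (hx : OS a x) (hy : OS a y) : OS a (x - y) := by
  rw [sub_eq_add_neg]
  exact OS.add hx (OS_neg hy)

variable {a} in
theorem OS_hat {x : E ι} (h : OS a x) : OS a (hat x) := by
  induction h with
  | zero => rw [map_zero]; exact OS.zero
  | add _ _ h1 h2 => rw [map_add]; exact OS.add h1 h2
  | mul_left u _ h => rw [map_mul]; exact OS.mul_left _ h
  | mul_right u _ h => rw [map_mul]; exact OS.mul_right _ h
  | gen l hl =>
    rw [hat_ctr, hat_eL, map_smul]
    exact OS_neg (OS_smul _ (OS.gen l hl))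

variable {a} in
theorem OS_ctr_one {x : E ι} (h : OS a x) : OS a (ctr (fun _ => 1) x) := by
  induction h with
  | zero => rw [map_zero]; exact OS.zero
  | add _ _ h1 h2 => rw [map_add]; exact OS.add h1 h2
  | mul_left u hx h => rw [ctr_mul]; exact OS.add (OS.mul_left _ hx) (OS.mul_left _ h)
  | mul_right u hx h =>
    rw [ctr_mul]; exact OS.add (OS.mul_right _ h) (OS.mul_right _ (OS_hat hx))
  | gen l hl => rw [ctr_ctr]; exact OS.zero

/-- dependent monomials -/
theorem OS_eL (l : List ι) (hl : rk a l.toFinset < l.length) : OS a (eL l) := by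
  cases l with
  | nil => simp at hl
  | cons i l' =>
    have h1 := OS.mul_left (e i) (OS.gen (a := a) (i :: l') hl)
    rw [eL_cons, ctr_e_mul, mul_sub, ← mul_assoc, e_mul_self, zero_mul, sub_zero, one_smul] at h1
    rw [eL_cons]
    exact h1

theorem OS_of_mem_Lam {S : Finset ι} {r : ℕ} (hS : rk a S < r) {x : E ι} (hx : x ∈ Lam S r) :
    OS a x := by
  unfold Lam at hx
  induction hx using Submodule.span_induction with
  | mem x hx =>
    obtain ⟨l, hl, hlS, rfl⟩ := hx
    apply OS_eL
    rw [hl]
    refine lt_of_le_of_lt (rk_mono a ?_) hS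
    intro i hi
    exact hlS i (by simpa using hi)
  | zero => exact OS.zero
  | add x y _ _ hx hy => exact OS.add hx hy
  | smul c x _ hx => exact OS_smul c hx

theorem OS_struct {H : Finset ι} (hH : IsFlat a H) (l : List ι) (hl : rk a l.toFinset < l.length)
    (φ : ι → ℂ) (hφ : ∀ i ∈ H, φ i = 0) :
    ∃ (c' : ℂ) (l' : List ι), (∀ i ∈ l', i ∈ H) ∧ (c' ≠ 0 → rk a l'.toFinset < l'.length) ∧
      rho H (ctr φ (eL l)) = c' • eL l' := by
  by_cases hall : ∀ i ∈ l, i ∈ H
  · refine ⟨0, [], by simp, by simp, ?_⟩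
    rw [← rho_eL_of_subset hall, ctr_rho]
    have h0 : (fun i => if i ∈ H then φ i else 0) = (0 : ι → ℂ) := by
      funext i
      by_cases hi : i ∈ H
      · simp [hi, hφ i hi]
      · simp [hi]
    rw [h0, ctr_zero, map_zero, map_zero, zero_smul]
  · push Not at hall
    obtain ⟨c, hcl, hcH⟩ := hall
    have hp : l.Perm (c :: l.erase c) := List.perm_cons_erase hcl
    have key : rho H (ctr φ (eL (c :: l.erase c))) = φ c • rho H (eL (l.erase c)) := by
      rw [eL_cons, ctr_e_mul, map_sub, map_mul, rho_e, if_neg hcH, zero_mul, sub_zero, map_smul]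
    have key2 : ∃ d : ℂ, rho H (ctr φ (eL l)) = d • rho H (eL (l.erase c)) := by
      rcases eL_perm hp with h | h
      · exact ⟨φ c, by rw [h, key]⟩
      · exact ⟨-φ c, by rw [h, map_neg, map_neg, key, neg_smul]⟩
    obtain ⟨d, hd⟩ := key2
    by_cases hall' : ∀ i ∈ l.erase c, i ∈ H
    · refine ⟨d, l.erase c, hall', fun _ => ?_, by rw [hd, rho_eL_of_subset hall']⟩
      have hTH : (l.erase c).toFinset ⊆ H := by
        intro i hi
        exact hall' i (by simpa using hi)
      have hins : l.toFinset = insert c (l.erase c).toFinset := by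
        rw [List.toFinset_eq_of_perm _ _ hp, List.toFinset_cons]
      have hlen : l.length = (l.erase c).length + 1 := by
        rw [hp.length_eq, List.length_cons]
      have hrk : rk a (l.erase c).toFinset + 1 ≤ rk a l.toFinset := by
        by_contra hcon
        have h1 : rk a (insert c (l.erase c).toFinset) ≤ rk a (l.erase c).toFinset := by
          rw [← hins]; omega
        have h2 := spn_eq_of_rk_le a (Finset.subset_insert c (l.erase c).toFinset) h1
        have h3 : a c ∈ spn a (l.erase c).toFinset := by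
          rw [h2]
          exact mem_spn a (Finset.mem_insert_self _ _)
        exact hcH (hH c (spn_mono a hTH h3))
      omega
    · refine ⟨0, [], by simp, by simp, ?_⟩
      rw [hd, rho_eL_of_not_subset hall', smul_zero, zero_smul]

theorem OS_key {H : Finset ι} (hH : IsFlat a H) (l : List ι) (hl : rk a l.toFinset < l.length)
    (φ : ι → ℂ) (hφ : ∀ i ∈ H, φ i = 0) : OS a (rho H (ctr φ (eL l))) := by
  obtain ⟨c', l', _, h2, h3⟩ := OS_struct a hH l hl φ hφ
  rw [h3]
  by_cases hc : c' = 0
  · rw [hc, zero_smul]; exact OS.zero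
  · exact OS_smul c' (OS_eL a l' (h2 hc))

omit [Fintype ι] in
/-- the constant function is a sum of two -/
theorem one_eq_ind_add (H : Finset ι) :
    (fun _ => 1 : ι → ℂ) = (ind H : ι → ℂ) + fun i => if i ∈ H then 0 else 1 := by
  funext i
  by_cases hi : i ∈ H
  · simp [ind, hi]
  · simp [ind, hi]

theorem rho_ctr_one (H : Finset ι) (z : E ι) :
    rho H (ctr (fun _ => 1) z) =
      ctr (fun _ => 1) (rho H z) + rho H (ctr (fun i => if i ∈ H then 0 else 1) z) := by
  conv_lhs => rw [one_eq_ind_add H, ctr_add, map_add]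
  rw [ctr_rho]
  rfl

variable {a} in
theorem OS_rho {H : Finset ι} (hH : IsFlat a H) {x : E ι} (h : OS a x) : OS a (rho H x) := by
  induction h with
  | zero => rw [map_zero]; exact OS.zero
  | add _ _ h1 h2 => rw [map_add]; exact OS.add h1 h2
  | mul_left u _ h => rw [map_mul]; exact OS.mul_left _ h
  | mul_right u _ h => rw [map_mul]; exact OS.mul_right _ h
  | gen l hl =>
    rw [rho_ctr_one]
    refine OS.add (OS_ctr_one ?_) (OS_key a hH l hl _ fun i hi => by simp [hi])
    by_cases hall : ∀ i ∈ l, i ∈ H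
    · rw [rho_eL_of_subset hall]; exact OS_eL a l hl
    · rw [rho_eL_of_not_subset hall]; exact OS.zero

variable {a} in
theorem OS_D {F H : Finset ι} (hF : IsFlat a F) (hH : IsFlat a H) (hHF : H ⊆ F) {x : E ι}
    (h : OS a x) : OS a (D F H x) := by
  have hind : ∀ i ∈ H, (ind (F \ H) : ι → ℂ) i = 0 := by
    intro i hi
    simp [ind, hi]
  induction h with
  | zero => rw [map_zero]; exact OS.zero
  | add _ _ h1 h2 => rw [map_add]; exact OS.add h1 h2
  | mul_left u hx h =>
    rw [D_mul]
    exact OS.add (OS.mul_left _ (OS_rho hH hx)) (OS.mul_left _ h)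
  | mul_right u hx h =>
    rw [D_mul]
    exact OS.add (OS.mul_right _ h) (OS.mul_right _ (OS_rho hH (OS_hat hx)))
  | gen l hl =>
    by_cases hall : ∀ i ∈ l, i ∈ F
    · rw [D_apply, ctr_comm, map_neg, rho_ctr_one]
      apply OS_neg
      refine OS.add (OS_ctr_one (OS_key a hH l hl _ hind)) ?_
      have h1 : ctr (ind (F \ H)) (eL l) = rho F (ctr (ind (F \ H)) (eL l)) := by
        conv_lhs => rw [← rho_eL_of_subset hall]
        rw [ctr_ind_rho, Finset.inter_eq_left.mpr Finset.sdiff_subset]
      have h2 : (fun i => if i ∈ F then (if i ∈ H then (0 : ℂ) else 1) else 0)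
          = (ind (F \ H) : ι → ℂ) := by
        funext i
        by_cases hi : i ∈ F <;> by_cases hi' : i ∈ H <;> simp [ind, hi, hi']
      rw [h1, ctr_rho, h2, ctr_ctr, map_zero, map_zero]
      exact OS.zero
    · rw [← D_rho_self hHF, rho_ctr_one, rho_eL_of_not_subset hall, map_zero, zero_add]
      obtain ⟨c', l', _, h2, h3⟩ := OS_struct a hF l hl (fun i => if i ∈ F then 0 else 1)
        (fun i hi => by simp [hi])
      rw [h3, map_smul]
      by_cases hc : c' = 0
      · rw [hc, zero_smul]; exact OS.zero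
      · rw [D_apply]
        exact OS_smul c' (OS_key a hH l' (h2 hc) _ hind)

variable {a} in
theorem OS_aug (ha : ∀ i, a i ≠ 0) {x : E ι} (h : OS a x) : aug x = 0 := by
  induction h with
  | zero => rw [map_zero]
  | add _ _ h1 h2 => rw [map_add, h1, h2, add_zero]
  | mul_left u _ h => rw [map_mul, h, mul_zero]
  | mul_right u _ h => rw [map_mul, h, zero_mul]
  | gen l hl =>
    match l, hl with
    | [], hl => simp at hl
    | [i], hl =>
      exfalso
      have h0 : rk a ({i} : Finset ι) = 0 := by
        simpa using hl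
      rw [rk_eq_zero_iff a ha] at h0
      simp at h0
    | i :: j :: l', hl =>
      rw [eL_cons, ctr_e_mul, eL_cons, map_sub, map_smul, map_mul, map_mul, aug_e, aug_e]
      simp

theorem Gp_OS (ha : ∀ i, a i ≠ 0) (w : ι → ℂ) (r : ℕ) (F : Finset ι) (hF : IsFlat a F)
    (x y : E ι) (hy : OS a y) : Gp a w r F x y = 0 := by
  induction r generalizing F x y with
  | zero => rw [Gp_zero, OS_aug ha hy, mul_zero]
  | succ r ih =>
    rw [Gp_succ]
    rw [Finset.sum_eq_zero, mul_zero]
    intro H hH
    obtain ⟨h1, h2, _⟩ := (mem_hyp a).1 hH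
    exact ih H h2 _ _ (OS_D hF h2 h1 hy)

end MPb07157.ND
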