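import Pool.Agent.Lib.MP_b07157_ag.ND.Pair

/-! # Adjointness -/

noncomputable section

namespace MPb07157.ND

open Finset

variable {n : ℕ} {ι : Type} [Fintype ι] [DecidableEq ι] (a : ι → Fin n → ℂ)

/-- the sum of the two residues -/
theorem rho_D_add_D_rho {F H G : Finset ι} (hHF : H ⊆ F) (hGH : G ⊆ H) (x : E ι) :
    rho G (D F H x) + D H G (rho H x) = rho G (ctr (ind (F \ G)) x) := by
  rw [D_rho_self hGH, D_apply, D_apply, rho_rho, Finset.inter_eq_left.2 hGH, ← map_add, ← ctr_add,
    ← ind_union]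
  · congr 3
    congr 1
    ext i
    simp only [Finset.mem_union, Finset.mem_sdiff]
    constructor
    · rintro (⟨h1, h2⟩ | ⟨h1, h2⟩)
      · exact ⟨h1, fun h => h2 (hGH h)⟩
      · exact ⟨hHF h1, h2⟩
    · rintro ⟨h1, h2⟩
      by_cases h : i ∈ H
      · exact Or.inr ⟨h, h2⟩
      · exact Or.inl ⟨h1, h⟩
  · rw [Finset.disjoint_left]
    intro i h1 h2
    exact (Finset.mem_sdiff.1 h1).2 (Finset.mem_sdiff.1 h2).1

/-- the exchange of sums and the residue theorem -/
theorem sum_sum_DD (w : ι → ℂ) (r : ℕ) (F : Finset ι) (hF : IsFlat a F) (y : E ι)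
    (X : Finset ι → E ι) :
    ∑ H ∈ hyp a F, ∑ G ∈ hyp a H, Gp a w r G (X G) (D H G (D F H y)) = 0 := by
  have h1 : ∀ H ∈ hyp a F, ∑ G ∈ hyp a H, Gp a w r G (X G) (D H G (D F H y)) =
      ∑ G : Finset ι, if G ∈ hyp a H then Gp a w r G (X G) (D H G (D F H y)) else 0 := by
    intro H _
    rw [Finset.sum_ite_mem, Finset.univ_inter]
  rw [Finset.sum_congr rfl h1, Finset.sum_comm]
  apply Finset.sum_eq_zero
  intro G _
  rw [← Finset.sum_filter, ← map_sum]
  by_cases hG : ∃ H ∈ hyp a F, G ∈ hyp a H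
  · obtain ⟨H, hH, hG⟩ := hG
    obtain ⟨h1, h2, h3⟩ := (mem_hyp a).1 hH
    obtain ⟨h4, h5, h6⟩ := (mem_hyp a).1 hG
    rw [sum_D_D a F G hF h5 (h4.trans h1) (by omega), map_zero]
  · have h0 : (hyp a F).filter (fun H => G ∈ hyp a H) = ∅ := by
      rw [Finset.filter_eq_empty_iff]
      intro H hH hG'
      exact hG ⟨H, hH, hG'⟩
    rw [h0, Finset.sum_empty, map_zero]

/-- multiplication by `∑ w_i e_i` is adjoint to the residue maps -/
theorem Gp_adj (ha : ∀ i, a i ≠ 0) (w : ι → ℂ) (hw : Good a w) (r : ℕ) (F : Finset ι)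
    (hF : IsFlat a F) (hr : rk a F = r + 1) (x y : E ι) :
    Gp a w (r + 1) F (om w * x) y = ∑ H ∈ hyp a F, Gp a w r H (rho H x) (D F H y) := by
  induction r generalizing F x y with
  | zero =>
    have hFne : F.Nonempty := by
      rw [Finset.nonempty_iff_ne_empty]
      intro h
      rw [← rk_eq_zero_iff a ha] at h
      omega
    have hwF := hw F hF hFne
    rw [Gp_succ, inv_mul_eq_div, div_eq_iff hwF, Finset.sum_mul]
    apply Finset.sum_congr rfl
    intro H hH
    obtain ⟨h1, h2, h3⟩ := (mem_hyp a).1 hH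
    have hH0 : H = ∅ := by
      rw [← rk_eq_zero_iff a ha]; omega
    subst hH0
    rw [D_om_mul, Finset.sdiff_empty, map_sub, map_smul, LinearMap.sub_apply, LinearMap.smul_apply,
      Gp_zero, Gp_zero, map_mul, aug_rho ∅ (om w), aug_om, zero_mul, zero_mul, sub_zero,
      smul_eq_mul, mul_comm]
  | succ r ih =>
    have hFne : F.Nonempty := by
      rw [Finset.nonempty_iff_ne_empty]
      intro h
      rw [← rk_eq_zero_iff a ha] at h
      omega
    have hwF := hw F hF hFne
    rw [Gp_succ, inv_mul_eq_div, div_eq_iff hwF, Finset.sum_mul]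
    rw [← sub_eq_zero, ← Finset.sum_sub_distrib]
    have key : ∀ H ∈ hyp a F,
        Gp a w (r + 1) H (D F H (om w * x)) (D F H y) -
          Gp a w (r + 1) H (rho H x) (D F H y) * wt w F =
        - ∑ G ∈ hyp a H, Gp a w r G (rho G (ctr (ind (F \ G)) x)) (D H G (D F H y)) := by
      intro H hH
      obtain ⟨h1, h2, h3⟩ := (mem_hyp a).1 hH
      have hrH : rk a H = r + 1 := by omega
      have hHne : H.Nonempty := by
        rw [Finset.nonempty_iff_ne_empty]
        intro h
        rw [← rk_eq_zero_iff a ha] at h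
        omega
      have hwH := hw H h2 hHne
      have hwt : wt w F = wt w (F \ H) + wt w H := by
        unfold wt
        exact (Finset.sum_sdiff h1).symm
      have e1 : Gp a w (r + 1) H (rho H (om w) * D F H x) (D F H y) =
          ∑ G ∈ hyp a H, Gp a w r G (rho G (D F H x)) (D H G (D F H y)) := by
        rw [← rho_D F H x, ← map_mul, Gp_rho, ih H h2 hrH, rho_D]
      have e2 : Gp a w (r + 1) H (rho H x) (D F H y) * wt w H =
          ∑ G ∈ hyp a H, Gp a w r G (D H G (rho H x)) (D H G (D F H y)) := by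
        rw [Gp_succ, inv_mul_eq_div, div_mul_cancel₀ _ hwH]
      rw [D_om_mul, map_sub, map_smul, LinearMap.sub_apply, LinearMap.smul_apply, smul_eq_mul,
        hwt, mul_add, e1, e2]
      have e3 : ∑ G ∈ hyp a H, Gp a w r G (rho G (ctr (ind (F \ G)) x)) (D H G (D F H y)) =
          ∑ G ∈ hyp a H, Gp a w r G (rho G (D F H x)) (D H G (D F H y)) +
          ∑ G ∈ hyp a H, Gp a w r G (D H G (rho H x)) (D H G (D F H y)) := by
        rw [← Finset.sum_add_distrib]
        apply Finset.sum_congr rfl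
        intro G hG
        rw [← rho_D_add_D_rho h1 ((mem_hyp a).1 hG).1, map_add, LinearMap.add_apply]
      rw [e3]
      ring
    rw [Finset.sum_congr rfl key, Finset.sum_neg_distrib, sum_sum_DD a w r F hF y, neg_zero]

end MPb07157.ND
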