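import Pool.Agent.Lib.MP_b07157_ag.ND.Mat

/-! # Direct sums of flats -/

noncomputable section

namespace MPb07157.ND

open Finset

set_option linter.unusedSectionVars false

variable {n : ℕ} {ι : Type} [Fintype ι] [DecidableEq ι] (a : ι → Fin n → ℂ)

theorem spn_union (F G : Finset ι) : spn a (F ∪ G) = spn a F ⊔ spn a G := by
  unfold spn
  rw [Finset.coe_union, Set.image_union, Submodule.span_union]

theorem rk_union_of_disjoint {F G : Finset ι} (h : Disjoint (spn a F) (spn a G)) :
    rk a (F ∪ G) = rk a F + rk a G := by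
  have h1 := Submodule.finrank_sup_add_finrank_inf_eq (spn a F) (spn a G)
  rw [h.eq_bot, finrank_bot, add_zero] at h1
  unfold rk
  rw [spn_union, h1]

theorem disjoint_of_rk_union {F G : Finset ι} (h : rk a F + rk a G ≤ rk a (F ∪ G)) :
    Disjoint (spn a F) (spn a G) := by
  have h1 := Submodule.finrank_sup_add_finrank_inf_eq (spn a F) (spn a G)
  unfold rk at h
  rw [spn_union] at h
  rw [disjoint_iff, ← Submodule.finrank_eq_zero (R := ℂ)]
  omega

theorem finset_disjoint_of_spn (ha : ∀ i, a i ≠ 0) {F G : Finset ι}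
    (h : Disjoint (spn a F) (spn a G)) : Disjoint F G := by
  rw [Finset.disjoint_left]
  intro i hF hG
  exact ha i (Submodule.disjoint_def.1 h _ (mem_spn a hF) (mem_spn a hG))

/-- summands of flats are flats -/
theorem isFlat_left_of_union (ha : ∀ i, a i ≠ 0) {F G : Finset ι} (hF : IsFlat a (F ∪ G))
    (h : Disjoint (spn a F) (spn a G)) : IsFlat a F := by
  intro i hi
  have h1 : i ∈ F ∪ G := hF i (spn_mono a Finset.subset_union_left hi)
  rcases Finset.mem_union.1 h1 with h2 | h2
  · exact h2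
  · exact absurd (Submodule.disjoint_def.1 h _ hi (mem_spn a h2)) (ha i)

theorem mem_hyp_union_aux {F G H : Finset ι} (hF : IsFlat a (F ∪ G))
    (h : Disjoint (spn a F) (spn a G)) (hH : H ∈ hyp a F) : H ∪ G ∈ hyp a (F ∪ G) := by
  obtain ⟨h1, h2, h3⟩ := (mem_hyp a).1 hH
  have hdis : Disjoint (spn a H) (spn a G) := h.mono_left (spn_mono a h1)
  refine (mem_hyp a).2 ⟨Finset.union_subset_union_left h1, ?_, ?_⟩
  · intro i hi
    have h4 : i ∈ F ∪ G := hF i (spn_mono a (Finset.union_subset_union_left h1) hi)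
    rcases Finset.mem_union.1 h4 with h5 | h5
    · rw [spn_union] at hi
      obtain ⟨y, hy, z, hz, hyz⟩ := Submodule.mem_sup.1 hi
      have h6 : z = a i - y := by rw [← hyz]; abel
      have h7 : z ∈ spn a F := by
        rw [h6]
        exact Submodule.sub_mem _ (mem_spn a h5) (spn_mono a h1 hy)
      have h8 := Submodule.disjoint_def.1 h _ h7 hz
      rw [h8, add_zero] at hyz
      rw [hyz] at hy
      exact Finset.mem_union_left _ (h2 i hy)
    · exact Finset.mem_union_right _ h5
  · rw [rk_union_of_disjoint a hdis, rk_union_of_disjoint a h]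
    omega

/-- hyperplanes of a direct sum -/
theorem mem_hyp_union (ha : ∀ i, a i ≠ 0) {F G : Finset ι} (hF : IsFlat a (F ∪ G))
    (h : Disjoint (spn a F) (spn a G)) (K : Finset ι) :
    K ∈ hyp a (F ∪ G) ↔ (∃ H ∈ hyp a F, K = H ∪ G) ∨ (∃ H ∈ hyp a G, K = F ∪ H) := by
  constructor
  · intro hK
    obtain ⟨h1, h2, h3⟩ := (mem_hyp a).1 hK
    have hFf : IsFlat a F := isFlat_left_of_union a ha hF h
    have hGf : IsFlat a G := isFlat_left_of_union a ha (by rwa [Finset.union_comm]) h.symm
    have hK' : K = (K ∩ F) ∪ (K ∩ G) := by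
      rw [← Finset.inter_union_distrib_left, Finset.inter_eq_left.2 h1]
    have hdis : Disjoint (spn a (K ∩ F)) (spn a (K ∩ G)) :=
      h.mono (spn_mono a Finset.inter_subset_right) (spn_mono a Finset.inter_subset_right)
    have h4 := rk_union_of_disjoint a hdis
    rw [← hK'] at h4
    have h5 := rk_union_of_disjoint a h
    have h6 : rk a (K ∩ F) ≤ rk a F := rk_mono a Finset.inter_subset_right
    have h7 : rk a (K ∩ G) ≤ rk a G := rk_mono a Finset.inter_subset_right
    have h8 : rk a G ≤ rk a (K ∩ G) ∧ rk a (K ∩ F) + 1 = rk a F ∨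
        rk a F ≤ rk a (K ∩ F) ∧ rk a (K ∩ G) + 1 = rk a G := by omega
    rcases h8 with ⟨h9, h10⟩ | ⟨h9, h10⟩
    · left
      have h11 : K ∩ G = G :=
        flat_eq_of_rk_le a Finset.inter_subset_right (isFlat_inter a h2 hGf) h9
      refine ⟨K ∩ F, (mem_hyp a).2 ⟨Finset.inter_subset_right, isFlat_inter a h2 hFf, h10⟩, ?_⟩
      conv_lhs => rw [hK', h11]
    · right
      have h11 : K ∩ F = F :=
        flat_eq_of_rk_le a Finset.inter_subset_right (isFlat_inter a h2 hFf) h9
      refine ⟨K ∩ G, (mem_hyp a).2 ⟨Finset.inter_subset_right, isFlat_inter a h2 hGf, h10⟩, ?_⟩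
      conv_lhs => rw [hK', h11]
  · rintro (⟨H, hH, rfl⟩ | ⟨H, hH, rfl⟩)
    · exact mem_hyp_union_aux a hF h hH
    · have h1 := mem_hyp_union_aux a (F := G) (G := F) (by rwa [Finset.union_comm]) h.symm hH
      rwa [Finset.union_comm G F, Finset.union_comm H F] at h1

/-- a basis of a direct sum splits -/
theorem isBas_filter (ha : ∀ i, a i ≠ 0) {H S : Finset ι} (hH : IsFlat a H) (hS : S ⊆ H)
    (hsum : rk a S + rk a (H \ S) ≤ rk a H) {I : Finset ι} (hI : IsBas a H I) :
    IsBas a S (I.filter (· ∈ S)) ∧ IsBas a (H \ S) (I.filter (· ∈ H \ S)) ∧ IsFlat a S := by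
  have hun : S ∪ (H \ S) = H := Finset.union_sdiff_of_subset hS
  have hdis : Disjoint (spn a S) (spn a (H \ S)) := disjoint_of_rk_union a (by rwa [hun])
  have h1 : I.filter (· ∈ S) ⊆ S := fun i hi => (Finset.mem_filter.1 hi).2
  have h2 : I.filter (· ∈ H \ S) ⊆ H \ S := fun i hi => (Finset.mem_filter.1 hi).2
  have h3 : rk a (I.filter (· ∈ S)) = (I.filter (· ∈ S)).card :=
    hI.rk_subset a (Finset.filter_subset _ _)
  have h4 : rk a (I.filter (· ∈ H \ S)) = (I.filter (· ∈ H \ S)).card :=
    hI.rk_subset a (Finset.filter_subset _ _)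
  have h5 := rk_mono a h1
  have h6 := rk_mono a h2
  have h7 : (I.filter (· ∈ S)).card + (I.filter (· ∈ H \ S)).card = I.card := by
    rw [← Finset.card_union_of_disjoint]
    · congr 1
      ext i
      simp only [Finset.mem_union, Finset.mem_filter, Finset.mem_sdiff]
      constructor
      · rintro (h | h)
        · exact h.1
        · exact h.1
      · intro hi
        by_cases hiS : i ∈ S
        · exact Or.inl ⟨hi, hiS⟩
        · exact Or.inr ⟨hi, hI.1 hi, hiS⟩
    · rw [Finset.disjoint_left]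
      intro i hi hi'
      exact (Finset.mem_sdiff.1 (h2 hi')).2 (h1 hi)
  have h8 := hI.2.1
  refine ⟨⟨h1, by omega, by omega⟩, ⟨h2, by omega, by omega⟩, ?_⟩
  exact isFlat_left_of_union a ha (by rwa [hun]) hdis

end MPb07157.ND
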