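import Pool.Agent.Lib.MP_b07157_ag.ND.Prod
import Pool.Agent.Lib.MP_b07157_ag.ND.Pair
import Pool.Agent.Lib.MP_b07157_ag.ND.Lam

/-! # Product formula for the contravariant form -/

noncomputable section

namespace MPb07157.ND

open Finset

variable {n : ℕ} {ι : Type} [Fintype ι] [DecidableEq ι] (a : ι → Fin n → ℂ)

omit [Fintype ι] in
private theorem set_aux {F₁ F₂ H : Finset ι} (hd : Disjoint F₁ F₂) (hH : H ⊆ F₁) :
    (((F₁ ∪ F₂) \ (H ∪ F₂)) ∩ F₂ = ∅) ∧ ((H ∪ F₂) ∩ F₁ = H) ∧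
      (((F₁ ∪ F₂) \ (H ∪ F₂)) ∩ F₁ = F₁ \ H) := by
  have hd' : ∀ i, i ∈ F₁ → i ∉ F₂ := fun i h1 h2 => (Finset.disjoint_left.mp hd) h1 h2
  refine ⟨?_, ?_, ?_⟩
  · ext i
    simp only [mem_inter, mem_sdiff, mem_union, notMem_empty, iff_false]
    tauto
  · ext i
    simp only [mem_inter, mem_union]
    have h1 := hd' i
    have h2 := @hH i
    tauto
  · ext i
    simp only [mem_inter, mem_sdiff, mem_union]
    have h1 := hd' i
    have h2 := @hH i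
    tauto

private theorem D_left {F₁ F₂ H : Finset ι} (hd : Disjoint F₁ F₂) (hH : H ⊆ F₁) {r s : ℕ}
    {x y : E ι} (hx : x ∈ Lam F₁ r) (hy : y ∈ Lam F₂ s) :
    D (F₁ ∪ F₂) (H ∪ F₂) (x * y) = D F₁ H x * y := by
  obtain ⟨h1, h2, h3⟩ := set_aux hd hH
  have e1 : rho (H ∪ F₂) y = y :=
    rho_of_mem_Lam (Lam_mono Finset.subset_union_right _ hy)
  have e2 : D (F₁ ∪ F₂) (H ∪ F₂) y = 0 := by
    rw [← rho_of_mem_Lam hy, D_rho, h1, ind_empty, ctr_zero, map_zero]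
  have e3 : D (F₁ ∪ F₂) (H ∪ F₂) x = D F₁ H x := by
    conv_lhs => rw [← rho_of_mem_Lam hx]
    rw [D_rho, h2, h3, D_apply]
  rw [D_mul, e1, e2, e3, mul_zero, add_zero]

private theorem D_right {F₁ F₂ H : Finset ι} (hd : Disjoint F₁ F₂) (hH : H ⊆ F₂) {r s : ℕ}
    {x y : E ι} (hx : x ∈ Lam F₁ r) (hy : y ∈ Lam F₂ s) :
    D (F₁ ∪ F₂) (F₁ ∪ H) (x * y) = (-1 : ℂ) ^ r • (x * D F₂ H y) := by
  obtain ⟨h1, h2, h3⟩ := set_aux hd.symm hH
  rw [Finset.union_comm F₁ F₂, Finset.union_comm F₁ H]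
  have e1 : rho (H ∪ F₁) x = x :=
    rho_of_mem_Lam (Lam_mono Finset.subset_union_right _ hx)
  have e2 : D (F₂ ∪ F₁) (H ∪ F₁) x = 0 := by
    rw [← rho_of_mem_Lam hx, D_rho, h1, ind_empty, ctr_zero, map_zero]
  have e3 : D (F₂ ∪ F₁) (H ∪ F₁) y = D F₂ H y := by
    conv_lhs => rw [← rho_of_mem_Lam hy]
    rw [D_rho, h2, h3, D_apply]
  rw [D_mul, e2, e3, hat_of_mem_Lam hx, map_smul, e1, zero_mul, zero_add, smul_mul_assoc]

private theorem Gp_prod_aux (ha : ∀ i, a i ≠ 0) (w : ι → ℂ) (hw : Good a w) (k : ℕ) :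
    ∀ (r₁ r₂ : ℕ) (F₁ F₂ : Finset ι), r₁ + r₂ = k → IsFlat a (F₁ ∪ F₂) →
      Disjoint (spn a F₁) (spn a F₂) → rk a F₁ = r₁ → rk a F₂ = r₂ →
      ∀ x₁ y₁ x₂ y₂ : E ι, x₁ ∈ Lam F₁ r₁ → y₁ ∈ Lam F₁ r₁ → x₂ ∈ Lam F₂ r₂ → y₂ ∈ Lam F₂ r₂ →
      Gp a w (r₁ + r₂) (F₁ ∪ F₂) (x₁ * x₂) (y₁ * y₂) =
        Gp a w r₁ F₁ x₁ y₁ * Gp a w r₂ F₂ x₂ y₂ := by
  induction k with
  | zero =>
    intro r₁ r₂ F₁ F₂ hk hF h h₁ h₂ x₁ y₁ x₂ y₂ hx₁ hy₁ hx₂ hy₂
    obtain rfl : r₁ = 0 := by omega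
    obtain rfl : r₂ = 0 := by omega
    simp only [Nat.add_zero, Gp_zero, map_mul]
    ring
  | succ k ih =>
    intro r₁ r₂ F₁ F₂ hk hF h h₁ h₂ x₁ y₁ x₂ y₂ hx₁ hy₁ hx₂ hy₂
    rcases r₁ with _ | s
    · have hE : F₁ = ∅ := (rk_eq_zero_iff a ha).1 h₁
      subst hE
      rw [Gp_zero]
      have e1 := mem_Lam_zero hx₁
      have e2 := mem_Lam_zero hy₁
      rw [Finset.empty_union, Nat.zero_add]
      conv_lhs => rw [e1, e2]
      rw [← Algebra.smul_def, ← Algebra.smul_def, map_smul, map_smul, LinearMap.smul_apply]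
      simp only [smul_eq_mul]
      ring
    rcases r₂ with _ | t
    · have hE : F₂ = ∅ := (rk_eq_zero_iff a ha).1 h₂
      subst hE
      rw [Gp_zero]
      have e1 := mem_Lam_zero hx₂
      have e2 := mem_Lam_zero hy₂
      rw [Finset.union_empty, Nat.add_zero]
      conv_lhs => rw [e1, e2]
      rw [← Algebra.commutes, ← Algebra.commutes, ← Algebra.smul_def, ← Algebra.smul_def,
        map_smul, map_smul, LinearMap.smul_apply]
      simp only [smul_eq_mul]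
      ring
    -- the main case
    have hd : Disjoint F₁ F₂ := finset_disjoint_of_spn a ha h
    have hd' : ∀ i, i ∈ F₁ → i ∉ F₂ := fun i h1 h2 => (Finset.disjoint_left.mp hd) h1 h2
    have hF₁ : IsFlat a F₁ := isFlat_left_of_union a ha hF h
    have hF₂ : IsFlat a F₂ := isFlat_left_of_union a ha (by rwa [Finset.union_comm]) h.symm
    have hw₁ : wt w F₁ ≠ 0 := by
      refine hw F₁ hF₁ ?_
      rw [Finset.nonempty_iff_ne_empty]
      intro hE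
      rw [hE, rk_empty] at h₁
      omega
    have hw₂ : wt w F₂ ≠ 0 := by
      refine hw F₂ hF₂ ?_
      rw [Finset.nonempty_iff_ne_empty]
      intro hE
      rw [hE, rk_empty] at h₂
      omega
    have hwF : wt w (F₁ ∪ F₂) ≠ 0 := by
      refine hw _ hF ?_
      rw [Finset.nonempty_iff_ne_empty]
      intro hE
      rw [Finset.union_eq_empty] at hE
      rw [hE.1, rk_empty] at h₁
      omega
    have hwsum : wt w (F₁ ∪ F₂) = wt w F₁ + wt w F₂ := by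
      unfold wt
      exact Finset.sum_union hd
    have hhyp : hyp a (F₁ ∪ F₂) =
        (hyp a F₁).image (fun H => H ∪ F₂) ∪ (hyp a F₂).image (fun H => F₁ ∪ H) := by
      ext K
      rw [mem_hyp_union a ha hF h, Finset.mem_union, Finset.mem_image, Finset.mem_image]
      constructor
      · rintro (⟨H, hH, rfl⟩ | ⟨H, hH, rfl⟩)
        · exact Or.inl ⟨H, hH, rfl⟩
        · exact Or.inr ⟨H, hH, rfl⟩
      · rintro (⟨H, hH, rfl⟩ | ⟨H, hH, rfl⟩)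
        · exact Or.inl ⟨H, hH, rfl⟩
        · exact Or.inr ⟨H, hH, rfl⟩
    have hdis : Disjoint ((hyp a F₁).image (fun H => H ∪ F₂))
        ((hyp a F₂).image (fun H => F₁ ∪ H)) := by
      rw [Finset.disjoint_left]
      intro K hK hK'
      rw [Finset.mem_image] at hK hK'
      obtain ⟨H, hH, rfl⟩ := hK
      obtain ⟨H', hH', he⟩ := hK'
      have hsub : F₁ ⊆ H := by
        intro i hi
        have : i ∈ H ∪ F₂ := by
          rw [← he]
          exact Finset.mem_union_left _ hi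
        rcases Finset.mem_union.mp this with h' | h'
        · exact h'
        · exact absurd h' (hd' i hi)
      have := rk_mono a hsub
      have := (mem_hyp a).1 hH
      omega
    have hinj₁ : Set.InjOn (fun H => H ∪ F₂) (hyp a F₁ : Set (Finset ι)) := by
      intro H hH H' hH' he
      have s1 := ((mem_hyp a).1 (Finset.mem_coe.mp hH)).1
      have s2 := ((mem_hyp a).1 (Finset.mem_coe.mp hH')).1
      ext i
      have := congrArg (fun K => i ∈ K) he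
      simp only [Finset.mem_union, eq_iff_iff] at this
      constructor
      · intro hi
        rcases this.1 (Or.inl hi) with h' | h'
        · exact h'
        · exact absurd h' (hd' i (s1 hi))
      · intro hi
        rcases this.2 (Or.inl hi) with h' | h'
        · exact h'
        · exact absurd h' (hd' i (s2 hi))
    have hinj₂ : Set.InjOn (fun H => F₁ ∪ H) (hyp a F₂ : Set (Finset ι)) := by
      intro H hH H' hH' he
      have s1 := ((mem_hyp a).1 (Finset.mem_coe.mp hH)).1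
      have s2 := ((mem_hyp a).1 (Finset.mem_coe.mp hH')).1
      ext i
      have := congrArg (fun K => i ∈ K) he
      simp only [Finset.mem_union, eq_iff_iff] at this
      constructor
      · intro hi
        rcases this.1 (Or.inr hi) with h' | h'
        · exact absurd (s1 hi) (hd' i h')
        · exact h'
      · intro hi
        rcases this.2 (Or.inr hi) with h' | h'
        · exact absurd (s2 hi) (hd' i h')
        · exact h'
    have t₁ : ∀ H ∈ hyp a F₁, Gp a w (s + 1 + t) (H ∪ F₂)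
        (D (F₁ ∪ F₂) (H ∪ F₂) (x₁ * x₂)) (D (F₁ ∪ F₂) (H ∪ F₂) (y₁ * y₂)) =
        Gp a w s H (D F₁ H x₁) (D F₁ H y₁) * Gp a w (t + 1) F₂ x₂ y₂ := by
      intro H hH
      have hH3 := (mem_hyp a).1 hH
      have hmem : H ∪ F₂ ∈ hyp a (F₁ ∪ F₂) :=
        (mem_hyp_union a ha hF h _).2 (Or.inl ⟨H, hH, rfl⟩)
      rw [D_left hd hH3.1 hx₁ hx₂, D_left hd hH3.1 hy₁ hy₂]
      have hidx : s + 1 + t = s + (t + 1) := by omega
      rw [hidx]
      exact ih s (t + 1) H F₂ (by omega) ((mem_hyp a).1 hmem).2.1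
        (h.mono_left (spn_mono a hH3.1)) (by omega) h₂ _ _ _ _
        (D_mem_Lam hH3.1 hx₁) (D_mem_Lam hH3.1 hy₁) hx₂ hy₂
    have t₂ : ∀ H ∈ hyp a F₂, Gp a w (s + 1 + t) (F₁ ∪ H)
        (D (F₁ ∪ F₂) (F₁ ∪ H) (x₁ * x₂)) (D (F₁ ∪ F₂) (F₁ ∪ H) (y₁ * y₂)) =
        Gp a w (s + 1) F₁ x₁ y₁ * Gp a w t H (D F₂ H x₂) (D F₂ H y₂) := by
      intro H hH
      have hH3 := (mem_hyp a).1 hH
      have hmem : F₁ ∪ H ∈ hyp a (F₁ ∪ F₂) :=
        (mem_hyp_union a ha hF h _).2 (Or.inr ⟨H, hH, rfl⟩)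
      rw [D_right hd hH3.1 hx₁ hx₂, D_right hd hH3.1 hy₁ hy₂, map_smul, map_smul,
        LinearMap.smul_apply, smul_smul, ← mul_pow, neg_one_mul, neg_neg, one_pow, one_smul]
      exact ih (s + 1) t F₁ H (by omega) ((mem_hyp a).1 hmem).2.1
        (h.mono_right (spn_mono a hH3.1)) h₁ (by omega) _ _ _ _
        hx₁ hy₁ (D_mem_Lam hH3.1 hx₂) (D_mem_Lam hH3.1 hy₂)
    have g₁ : ∑ H ∈ hyp a F₁, Gp a w s H (D F₁ H x₁) (D F₁ H y₁) =
        wt w F₁ * Gp a w (s + 1) F₁ x₁ y₁ := by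
      rw [Gp_succ, mul_inv_cancel_left₀ hw₁]
    have g₂ : ∑ H ∈ hyp a F₂, Gp a w t H (D F₂ H x₂) (D F₂ H y₂) =
        wt w F₂ * Gp a w (t + 1) F₂ x₂ y₂ := by
      rw [Gp_succ, mul_inv_cancel_left₀ hw₂]
    have hidx : s + 1 + (t + 1) = (s + 1 + t) + 1 := by omega
    rw [hidx, Gp_succ, hhyp, Finset.sum_union hdis, Finset.sum_image hinj₁,
      Finset.sum_image hinj₂, Finset.sum_congr rfl t₁, Finset.sum_congr rfl t₂,
      ← Finset.sum_mul, ← Finset.mul_sum, g₁, g₂]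
    rw [hwsum] at hwF ⊢
    field_simp

/-- the product formula -/
theorem Gp_prod (ha : ∀ i, a i ≠ 0) (w : ι → ℂ) (hw : Good a w) (r₁ r₂ : ℕ) (F₁ F₂ : Finset ι)
    (hF : IsFlat a (F₁ ∪ F₂)) (h : Disjoint (spn a F₁) (spn a F₂)) (h₁ : rk a F₁ = r₁)
    (h₂ : rk a F₂ = r₂) {x₁ y₁ x₂ y₂ : E ι} (hx₁ : x₁ ∈ Lam F₁ r₁) (hy₁ : y₁ ∈ Lam F₁ r₁)
    (hx₂ : x₂ ∈ Lam F₂ r₂) (hy₂ : y₂ ∈ Lam F₂ r₂) :
    Gp a w (r₁ + r₂) (F₁ ∪ F₂) (x₁ * x₂) (y₁ * y₂) =
      Gp a w r₁ F₁ x₁ y₁ * Gp a w r₂ F₂ x₂ y₂ :=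
  Gp_prod_aux a ha w hw (r₁ + r₂) r₁ r₂ F₁ F₂ rfl hF h h₁ h₂ x₁ y₁ x₂ y₂ hx₁ hy₁ hx₂ hy₂

end MPb07157.ND
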