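import Pool.Agent.Lib.MP_b07157_ag.ND.Rel

/-! # Iterated contractions: passing to a hyperplane -/

noncomputable section

namespace MPb07157.ND

open Finset

variable {n : ℕ} {ι : Type} [Fintype ι] [DecidableEq ι] (a : ι → Fin n → ℂ)

open Filter Topology

private theorem tendsto_aux1 (c d : ℂ) (hc : c ≠ 0) :
    Tendsto (fun t : ℕ => (t : ℂ) * (c / (d + (t : ℂ) * c))) atTop (𝓝 1) := by
  have h0 : Tendsto (fun t : ℕ => (d : ℂ) / (t : ℂ)) atTop (𝓝 0) := by
    have := (tendsto_inv_atTop_nhds_zero_nat (𝕜 := ℂ)).const_mul d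
    simpa [div_eq_mul_inv] using this
  have h1 : Tendsto (fun t : ℕ => c / (d / (t : ℂ) + c)) atTop (𝓝 (c / (0 + c))) := by
    refine Tendsto.div tendsto_const_nhds (h0.add tendsto_const_nhds) ?_
    simpa using hc
  have h2 : c / (0 + c) = 1 := by rw [zero_add, div_self hc]
  rw [h2] at h1
  refine h1.congr' ?_
  filter_upwards [eventually_gt_atTop 0] with t ht
  have ht' : (t : ℂ) ≠ 0 := by exact_mod_cast ht.ne'
  have h3 : d / (t : ℂ) + c = (d + (t : ℂ) * c) / (t : ℂ) := by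
    field_simp
  rw [h3, div_div_eq_mul_div]
  ring

private theorem tendsto_aux2 (b c d : ℂ) (hc : c ≠ 0) :
    Tendsto (fun t : ℕ => b / (d + (t : ℂ) * c)) atTop (𝓝 0) := by
  have h1 := (tendsto_inv_atTop_nhds_zero_nat (𝕜 := ℂ)).mul (tendsto_aux1 c d hc)
  have h2 := h1.const_mul (b / c)
  simp only [zero_mul, mul_zero] at h2
  refine h2.congr' ?_
  filter_upwards [eventually_gt_atTop 0] with t ht
  have ht' : (t : ℂ) ≠ 0 := by exact_mod_cast ht.ne'
  rw [← mul_assoc ((t : ℂ)⁻¹), inv_mul_cancel₀ ht', one_mul, div_mul_div_comm, mul_comm b c,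
    mul_div_mul_left _ _ hc]

omit [DecidableEq ι] in
private theorem fnl_smul (c : ℂ) (φ : ι → ℂ) : fnl (c • φ) = c • fnl φ := by
  unfold fnl
  rw [Finset.smul_sum]
  refine Finset.sum_congr rfl fun i _ => ?_
  rw [Pi.smul_apply, smul_eq_mul, mul_smul]

/-- passing to a hyperplane -/
theorem mctr_limit (F H : Finset ι) (hH : H ∈ hyp a F) (r : ℕ) (X : E ι)
    (h : ∀ u : Fin (r + 1) → Fin n → ℂ, ∀ x ∈ Ucomp a F,
      mctr (r + 1) (fun k => eta a F (u k) x) X = 0)
    (u : Fin r → Fin n → ℂ) (x : Fin n → ℂ) (hx : x ∈ Ucomp a H) :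
    mctr r (fun k => eta a H (u k) x) (D F H X) = 0 := by
  obtain ⟨hHF, hflat, -⟩ := (mem_hyp a).1 hH
  have hn := nv_spec a hH
  set v := nv a F H with hv
  have h1 : ∀ i ∈ H, a i ⬝ᵥ v = 0 := fun i hi =>
    (hn (a i) (mem_spn a (hHF hi))).2 (mem_spn a hi)
  have h2 : ∀ i ∈ F, i ∉ H → a i ⬝ᵥ v ≠ 0 := fun i hi hi' h0 =>
    hi' (hflat i ((hn (a i) (mem_spn a hi)).1 h0))
  have hy : ∀ (i : ι) (t : ℕ), a i ⬝ᵥ (x + (t : ℂ) • v) = a i ⬝ᵥ x + (t : ℂ) * (a i ⬝ᵥ v) := by
    intro i t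
    rw [dotProduct_add, dotProduct_smul, smul_eq_mul]
  have hev : ∀ᶠ t : ℕ in atTop, x + (t : ℂ) • v ∈ Ucomp a F := by
    have : ∀ᶠ t : ℕ in atTop, ∀ i ∈ F, a i ⬝ᵥ (x + (t : ℂ) • v) ≠ 0 := by
      rw [Filter.eventually_all_finset]
      intro i hi
      by_cases hiH : i ∈ H
      · refine Filter.Eventually.of_forall fun t => ?_
        rw [hy, h1 i hiH, mul_zero, add_zero]
        exact hx i hiH
      · have hc := h2 i hi hiH
        rw [← Nat.cofinite_eq_atTop, Filter.eventually_cofinite]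
        refine Set.Subsingleton.finite ?_
        intro s hs t ht
        have hs' : a i ⬝ᵥ x + (s : ℂ) * (a i ⬝ᵥ v) = 0 := by
          rw [← hy]; exact not_not.1 hs
        have ht' : a i ⬝ᵥ x + (t : ℂ) * (a i ⬝ᵥ v) = 0 := by
          rw [← hy]; exact not_not.1 ht
        have h3 : (s : ℂ) * (a i ⬝ᵥ v) = (t : ℂ) * (a i ⬝ᵥ v) := by
          have := hs'.trans ht'.symm
          exact add_left_cancel this
        exact_mod_cast mul_right_cancel₀ hc h3
    exact this
  set φ : ℕ → Fin (r + 1) → ι → ℂ := fun t =>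
    Fin.cons (α := fun _ => ι → ℂ) ((t : ℂ) • eta a F v (x + (t : ℂ) • v))
      (fun k => eta a F (u k) (x + (t : ℂ) • v)) with hφ
  have hφ0 : ∀ᶠ t : ℕ in atTop, mctr (r + 1) (φ t) X = 0 := by
    filter_upwards [hev] with t ht
    have h3 := h (Fin.cons (α := fun _ => Fin n → ℂ) v u) _ ht
    change mctr r (fun k => eta a F (u k) (x + (t : ℂ) • v))
      (ctr (eta a F v (x + (t : ℂ) • v)) X) = 0 at h3
    change mctr r (fun k => eta a F (u k) (x + (t : ℂ) • v))
      (ctr ((t : ℂ) • eta a F v (x + (t : ℂ) • v)) X) = 0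
    have h4 : ctr ((t : ℂ) • eta a F v (x + (t : ℂ) • v)) X
        = (t : ℂ) • ctr (eta a F v (x + (t : ℂ) • v)) X := by
      unfold ctr
      rw [fnl_smul, map_smul, LinearMap.smul_apply]
    rw [h4, mctr_smul, h3, mul_zero]
  have hlim : Tendsto φ atTop (𝓝 (Fin.cons (α := fun _ => ι → ℂ) (ind (F \ H))
      (fun k => eta a H (u k) x))) := by
    rw [tendsto_pi_nhds]
    intro k
    rw [tendsto_pi_nhds]
    intro i
    refine Fin.cases ?_ (fun k => ?_) k
    · change Tendsto (fun t : ℕ => (t : ℂ) * eta a F v (x + (t : ℂ) • v) i) atTop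
        (𝓝 (ind (F \ H) i))
      unfold eta ind
      by_cases hiF : i ∈ F
      · by_cases hiH : i ∈ H
        · simp [hiF, hiH, h1 i hiH]
        · have h5 := tendsto_aux1 (a i ⬝ᵥ v) (a i ⬝ᵥ x) (h2 i hiF hiH)
          have h6 : i ∈ F \ H := Finset.mem_sdiff.2 ⟨hiF, hiH⟩
          simp only [if_pos hiF, if_pos h6, hy]
          exact h5
      · have h6 : i ∉ F \ H := fun h => hiF (Finset.mem_sdiff.1 h).1
        simp only [if_neg hiF, if_neg h6, mul_zero]
        exact tendsto_const_nhds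
    · change Tendsto (fun t : ℕ => eta a F (u k) (x + (t : ℂ) • v) i) atTop
        (𝓝 (eta a H (u k) x i))
      unfold eta
      by_cases hiF : i ∈ F
      · by_cases hiH : i ∈ H
        · simp only [if_pos hiF, if_pos hiH, hy, h1 i hiH, mul_zero, add_zero]
          exact tendsto_const_nhds
        · simp only [if_pos hiF, if_neg hiH, hy]
          exact tendsto_aux2 _ _ _ (h2 i hiF hiH)
      · have hiH : i ∉ H := fun h => hiF (hHF h)
        simp only [if_neg hiF, if_neg hiH]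
        exact tendsto_const_nhds
  have hcont := (mctr_continuous (r + 1) X).continuousAt
    (x := (Fin.cons (α := fun _ => ι → ℂ) (ind (F \ H)) (fun k => eta a H (u k) x)))
  have hlim2 := hcont.tendsto.comp hlim
  have hzero : mctr (r + 1) (Fin.cons (α := fun _ => ι → ℂ) (ind (F \ H))
      (fun k => eta a H (u k) x)) X = 0 := by
    refine tendsto_nhds_unique hlim2 ?_
    refine tendsto_const_nhds.congr' ?_
    filter_upwards [hφ0] with t ht
    exact ht.symm
  change mctr r (fun k => eta a H (u k) x) (rho H (ctr (ind (F \ H)) X)) = 0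
  rw [mctr_rho r _ H (fun k i hi => by unfold eta; rw [if_neg hi])]
  exact hzero

end MPb07157.ND
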