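import Pool.Agent.Lib.MP_b07157_ag.ND.InjDef
import Pool.Agent.Lib.MP_b07157_ag.ND.Step
import Pool.Agent.Lib.MP_b07157_ag.ND.PairT

/-! # The shift operator on families -/

noncomputable section

namespace MPb07157.ND

open Finset MvPolynomial

variable {N : ℕ} {ι : Type} [Fintype ι] [DecidableEq ι] {a : ι → Fin (N + 1) → ℂ} {𝔽 : Type}
  [CommRing 𝔽] [Algebra ℂ 𝔽] (M : Model a 𝔽)

/-- `Phi` as an additive map -/
private def PhiHom (w : ι → ℂ) (s : ℂ) :
    ((Fin (N + 1) → ι) → MvPolynomial (Option (Fin (N + 1))) ℂ) →+ 𝔽 where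
  toFun P := M.Phi w s P
  map_zero' := by
    unfold Model.Phi
    refine Finset.sum_eq_zero fun t _ => ?_
    rw [Pi.zero_apply, map_zero, map_zero, LinearMap.zero_apply]
  map_add' P Q := by
    unfold Model.Phi
    rw [← Finset.sum_add_distrib]
    refine Finset.sum_congr rfl fun t _ => ?_
    rw [Pi.add_apply, map_add, map_add, LinearMap.add_apply]

private theorem PhiHom_single (w : ι → ℂ) (s : ℂ) (t : Fin (N + 1) → ι)
    (p : MvPolynomial (Option (Fin (N + 1))) ℂ) :
    PhiHom M w s (Pi.single t p) = M.act w (sp s p) (M.evt t) := by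
  change M.Phi w s (Pi.single t p) = _
  unfold Model.Phi
  rw [Finset.sum_eq_single t]
  · rw [Pi.single_eq_same]
  · intro t' _ h
    rw [Pi.single_eq_of_ne h, map_zero, map_zero, LinearMap.zero_apply]
  · intro h
    exact absurd (Finset.mem_univ t) h

/-- `NN` as an additive map -/
private def NNHom (s : ℂ) (ξ : Fin (N + 1) → ℂ) :
    ((Fin (N + 1) → ι) → MvPolynomial (Option (Fin (N + 1))) ℂ) →+ E ι where
  toFun P := NN P s ξ
  map_zero' := by
    unfold NN
    refine Finset.sum_eq_zero fun t _ => ?_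
    rw [Pi.zero_apply, map_zero, zero_smul]
  map_add' P Q := by
    unfold NN
    rw [← Finset.sum_add_distrib]
    refine Finset.sum_congr rfl fun t _ => ?_
    rw [Pi.add_apply, map_add, add_smul]

private theorem NNHom_single (s : ℂ) (ξ : Fin (N + 1) → ℂ) (t : Fin (N + 1) → ι)
    (p : MvPolynomial (Option (Fin (N + 1))) ℂ) :
    NNHom s ξ (Pi.single t p) = eval (opt s ξ) p • eT t := by
  change NN (Pi.single t p) s ξ = _
  unfold NN
  rw [Finset.sum_eq_single t]
  · rw [Pi.single_eq_same]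
  · intro t' _ h
    rw [Pi.single_eq_of_ne h, map_zero, zero_smul]
  · intro h
    exact absurd (Finset.mem_univ t) h

/-- the coefficients of the shifted family -/
private def cf (a : ι → Fin (N + 1) → ℂ) (m c : ι → ℕ) (i : ι)
    (P : (Fin (N + 1) → ι) → MvPolynomial (Option (Fin (N + 1))) ℂ) (t : Fin (N + 1) → ι)
    (H : Finset ι) (k : Fin (N + 1)) (l : ι) : MvPolynomial (Option (Fin (N + 1))) ℂ :=
  C ((-1) ^ (k : ℕ) * (a i ⬝ᵥ nv a Finset.univ H)) * (C (m l : ℂ) * X none + C (c l : ℂ)) *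
    rename some (qH a H) * P t

private theorem act_sp_cf (m c : ι → ℕ) (i : ι)
    (P : (Fin (N + 1) → ι) → MvPolynomial (Option (Fin (N + 1))) ℂ) (t : Fin (N + 1) → ι)
    (H : Finset ι) (k : Fin (N + 1)) (l : ι) (w : ι → ℂ) (s : ℂ) (u : 𝔽) :
    M.act w (sp s (cf a m c i P t H k l)) u =
      ((-1 : ℂ) ^ (k : ℕ) * (a i ⬝ᵥ nv a Finset.univ H) * lev m c s l) •
        M.act w (sp s (P t)) (M.act w (qH a H) u) := by
  have h1 : sp s (cf a m c i P t H k l) =
      C ((-1 : ℂ) ^ (k : ℕ) * (a i ⬝ᵥ nv a Finset.univ H) * lev m c s l) *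
        (sp s (P t) * qH a H) := by
    have hX : sp s (X none : MvPolynomial (Option (Fin (N + 1))) ℂ) = C s := by
      unfold sp
      rw [aeval_X]
      rfl
    have hC : ∀ z : ℂ, sp s (C z : MvPolynomial (Option (Fin (N + 1))) ℂ) = C z := fun z =>
      (sp s).commutes z
    unfold cf lev
    simp only [map_mul, map_add, hX, hC, sp_rename]
    ring
  rw [h1]
  generalize (-1 : ℂ) ^ (k : ℕ) * (a i ⬝ᵥ nv a Finset.univ H) * lev m c s l = z
  have h2 : M.act w (C z) = algebraMap ℂ (Module.End ℂ 𝔽) z := (M.act w).commutes _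
  rw [map_mul, h2, map_mul, Module.End.mul_apply, Module.algebraMap_end_apply,
    Module.End.mul_apply]

private theorem eval_cf (m c : ι → ℕ) (i : ι)
    (P : (Fin (N + 1) → ι) → MvPolynomial (Option (Fin (N + 1))) ℂ) (t : Fin (N + 1) → ι)
    (H : Finset ι) (k : Fin (N + 1)) (l : ι) (s : ℂ) (ξ : Fin (N + 1) → ℂ) :
    eval (opt s ξ) (cf a m c i P t H k l) = eval (opt s ξ) (P t) *
      ((eval ξ (qH a H) * (a i ⬝ᵥ nv a Finset.univ H)) * ((-1 : ℂ) ^ (k : ℕ) * lev m c s l)) := by
  have h1 : eval (opt s ξ) (rename some (qH a H)) = eval ξ (qH a H) := by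
    rw [eval_rename]
    rfl
  have hX : eval (opt s ξ) (X none : MvPolynomial (Option (Fin (N + 1))) ℂ) = s := by
    rw [eval_X]
    rfl
  have hC : ∀ z : ℂ, eval (opt s ξ) (C z : MvPolynomial (Option (Fin (N + 1))) ℂ) = z := fun z =>
    eval_C z
  unfold cf lev
  generalize hz : (-1 : ℂ) ^ (k : ℕ) * (a i ⬝ᵥ nv a Finset.univ H) = z
  rw [map_mul (eval (opt s ξ)), map_mul (eval (opt s ξ)), map_mul (eval (opt s ξ)),
    map_add (eval (opt s ξ)), map_mul (eval (opt s ξ)), h1, hX, hC, hC, hC, ← hz]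
  ring

theorem exists_sharp (hr : rk a (Finset.univ : Finset ι) = N + 1) (m c : ι → ℕ) (i : ι)
    (P : (Fin (N + 1) → ι) → MvPolynomial (Option (Fin (N + 1))) ℂ) :
    ∃ P' : (Fin (N + 1) → ι) → MvPolynomial (Option (Fin (N + 1))) ℂ,
      (∀ s, M.Phi (lev m c s) s P' = M.act (lev m c s) (qq a)
        (M.lin (a i) * M.Phi (lev m (c + Pi.single i 1) s) s P)) ∧
      ∀ s ξ, NN P' s ξ = T a (lev m c s)
        (fun H => eval ξ (qH a H) * (a i ⬝ᵥ nv a Finset.univ H)) (NN P s ξ) := by
  refine ⟨∑ t, ∑ H ∈ hyp a Finset.univ, ∑ k ∈ pos H t, ∑ l,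
    Pi.single (Fin.cons l (fun j => t (k.succAbove j)) : Fin (N + 1) → ι)
      (cf a m c i P t H k l), fun s => ?_, fun s ξ => ?_⟩
  · change PhiHom M (lev m c s) s _ = _
    set w := lev m c s with hw
    have hlev : lev m (c + Pi.single i 1) s = w + Pi.single i 1 := by
      funext j
      rw [hw]
      unfold lev
      rw [Pi.add_apply, Pi.add_apply, Nat.cast_add]
      by_cases hj : j = i
      · subst hj
        rw [Pi.single_eq_same, Pi.single_eq_same]
        push_cast
        ring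
      · rw [Pi.single_eq_of_ne hj, Pi.single_eq_of_ne hj]
        push_cast
        ring
    have hR : M.act w (qq a) (M.lin (a i) * M.Phi (lev m (c + Pi.single i 1) s) s P) =
        ∑ t, M.act w (sp s (P t)) (M.act w (qq a) (M.lin (a i) * M.evt t)) := by
      unfold Model.Phi
      rw [hlev, Finset.mul_sum, map_sum]
      refine Finset.sum_congr rfl fun t _ => ?_
      have hcomm : ∀ p q : MvPolynomial (Fin (N + 1)) ℂ, ∀ u : 𝔽,
          M.act w p (M.act w q u) = M.act w q (M.act w p u) := by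
        intro p q u
        rw [← Module.End.mul_apply, ← Module.End.mul_apply, ← map_mul (M.act w),
          ← map_mul (M.act w), mul_comm]
      rw [← M.act_shift, hcomm]
    rw [hR, map_sum]
    refine Finset.sum_congr rfl fun t _ => ?_
    rw [M.act_qq_lin hr, map_sum, map_sum]
    refine Finset.sum_congr rfl fun H _ => ?_
    rw [map_sum, map_sum]
    refine Finset.sum_congr rfl fun k _ => ?_
    rw [map_sum, map_sum]
    refine Finset.sum_congr rfl fun l _ => ?_
    rw [PhiHom_single, act_sp_cf, map_smul]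
  · change NNHom s ξ _ = _
    rw [map_sum]
    unfold NN
    rw [map_sum]
    refine Finset.sum_congr rfl fun t _ => ?_
    rw [map_smul, T_apply, map_sum, Finset.smul_sum]
    refine Finset.sum_congr rfl fun H _ => ?_
    rw [om_mul_D_eT, map_sum, Finset.smul_sum, Finset.smul_sum]
    refine Finset.sum_congr rfl fun k _ => ?_
    rw [map_sum, Finset.smul_sum, Finset.smul_sum]
    refine Finset.sum_congr rfl fun l _ => ?_
    rw [NNHom_single, eval_cf, smul_smul, smul_smul]
    congr 1
    ring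

end MPb07157.ND
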