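import Pool.Agent.Lib.MP_b07157_ag.ND.ProdMain
import Pool.Agent.Lib.MP_b07157_ag.ND.OSI

/-! # Test forms: one connected summand -/

noncomputable section

namespace MPb07157.ND

open Finset

variable {n : ℕ} {ι : Type} [Fintype ι] [DecidableEq ι] (a : ι → Fin n → ℂ)

/-- the value of the form on `(x, y)` is a non-zero constant divided by a product of weights of
non-empty flats -/
def Val (r : ℕ) (F : Finset ι) (x y : E ι) : Prop :=
  ∃ κ : ℂ, κ ≠ 0 ∧ ∃ L : List (Finset ι), (∀ S ∈ L, IsFlat a S ∧ S.Nonempty) ∧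
    ∀ w, Good a w → Gp a w r F x y * (L.map (wt w)).prod = κ

/-- test forms for the connected flat `F` with basis `l` and root `b` -/
def TestForm (r : ℕ) (F : Finset ι) (l : List ι) (b : ι) (y : E ι) : Prop :=
  y ∈ Lam F r ∧ (∀ x ∈ l, x ≠ b → OS a (D F (cl a F (l.toFinset.erase x)) y)) ∧
    ∃ κ : ℂ, κ ≠ 0 ∧ ∃ L : List (Finset ι), (∀ S ∈ L, IsFlat a S ∧ S.Nonempty) ∧
      ∀ w, Good a w → Gp a w r F (eL l) y * (wt w F * (L.map (wt w)).prod) = κ

/-- spans of subsets of an independent set -/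
private theorem inf_spn {I A B : Finset ι} (hI : ∀ J ⊆ I, rk a J = J.card) (hA : A ⊆ I)
    (hB : B ⊆ I) : spn a A ⊓ spn a B = spn a (A ∩ B) := by
  have h1 : spn a (A ∪ B) = spn a A ⊔ spn a B := by
    simp only [spn, Finset.coe_union, Set.image_union, Submodule.span_union]
  have h2 := Submodule.finrank_sup_add_finrank_inf_eq (spn a A) (spn a B)
  rw [← h1] at h2
  have hu : Module.finrank ℂ (spn a (A ∪ B)) = (A ∪ B).card := hI _ (Finset.union_subset hA hB)
  have hA' : Module.finrank ℂ (spn a A) = A.card := hI _ hA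
  have hB' : Module.finrank ℂ (spn a B) = B.card := hI _ hB
  have hi : Module.finrank ℂ (spn a (A ∩ B)) = (A ∩ B).card :=
    hI _ (Finset.inter_subset_left.trans hA)
  have hc := Finset.card_union_add_card_inter A B
  symm
  apply Submodule.eq_of_le_of_finrank_eq
  · exact le_inf (spn_mono a Finset.inter_subset_left) (spn_mono a Finset.inter_subset_right)
  · omega

private theorem mem_spn_sdiff {I : Finset ι} (hI : ∀ J ⊆ I, rk a J = J.card) {v : Fin n → ℂ}
    (hv : v ∈ spn a I) (J : Finset ι) (hJ : J ⊆ I) (h : ∀ x ∈ J, v ∈ spn a (I.erase x)) :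
    v ∈ spn a (I \ J) := by
  induction J using Finset.induction_on with
  | empty => simpa using hv
  | insert x J hx ih =>
    have h1 := ih (fun i hi => hJ (Finset.mem_insert_of_mem hi))
      (fun i hi => h i (Finset.mem_insert_of_mem hi))
    have h2 := h x (Finset.mem_insert_self x J)
    have h3 : v ∈ spn a (I \ J) ⊓ spn a (I.erase x) := ⟨h1, h2⟩
    rw [inf_spn a hI Finset.sdiff_subset (Finset.erase_subset _ _)] at h3
    refine spn_mono a ?_ h3
    intro i hi
    simp only [Finset.mem_inter, Finset.mem_sdiff, Finset.mem_erase, Finset.mem_insert] at hi ⊢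
    tauto

/-- a connected flat has a link for each summand of the hyperplane `cl (l - b)` -/
theorem exists_link (ha : ∀ i, a i ≠ 0) (F S : Finset ι) (hF : IsFlat a F)
    (hconn : Conn a F) (l : List ι) (hl : IsBas a F l.toFinset) (hnd : l.Nodup) (b : ι) (hb : b ∈ l)
    (hS : S ⊆ cl a F (l.toFinset.erase b)) (hSne : S.Nonempty)
    (hsum : rk a S + rk a (cl a F (l.toFinset.erase b) \ S) ≤ rk a (cl a F (l.toFinset.erase b))) :
    ∃ c ∈ F, c ∉ cl a F (l.toFinset.erase b) ∧ ∃ x ∈ l, x ∈ S ∧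
      c ∉ cl a F (l.toFinset.erase x) := by
  have hbI : b ∈ l.toFinset := List.mem_toFinset.2 hb
  have hIF : l.toFinset ⊆ F := hl.1
  obtain ⟨hHhyp, hbH, hbasH⟩ := hl.erase_hyp a hF hbI
  have hHF : cl a F (l.toFinset.erase b) ⊆ F := cl_subset a F _
  have hHflat : IsFlat a (cl a F (l.toFinset.erase b)) :=
    isFlat_cl a hF ((Finset.erase_subset _ _).trans hIF)
  obtain ⟨bS, bHS, _⟩ := isBas_filter a ha hHflat hS hsum hbasH
  have hind : ∀ J ⊆ l.toFinset, rk a J = J.card := fun J hJ => hl.rk_subset a hJ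
  by_contra hcon
  push Not at hcon
  have key : ∀ c ∈ F, c ∉ cl a F (l.toFinset.erase b) →
      a c ∈ spn a (l.toFinset \ (l.toFinset ∩ S)) := by
    intro c hc hcb
    apply mem_spn_sdiff a hind
    · rw [hl.spn_eq a]
      exact mem_spn a hc
    · exact Finset.inter_subset_left
    · intro x hx
      rw [Finset.mem_inter, List.mem_toFinset] at hx
      have := hcon c hc hcb x hx.1 hx.2
      simp only [cl, Finset.mem_filter] at this
      exact this.2
  have h1 : spn a (F \ S) ≤ spn a (l.toFinset \ (l.toFinset ∩ S)) := by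
    apply Submodule.span_le.2
    rintro _ ⟨i, hi, rfl⟩
    have hi' : i ∈ F \ S := hi
    rw [Finset.mem_sdiff] at hi'
    by_cases hiH : i ∈ cl a F (l.toFinset.erase b)
    · have : a i ∈ spn a (cl a F (l.toFinset.erase b) \ S) :=
        mem_spn a (Finset.mem_sdiff.2 ⟨hiH, hi'.2⟩)
      rw [← bHS.spn_eq a] at this
      refine spn_mono a ?_ this
      intro j hj
      simp only [Finset.mem_filter, Finset.mem_erase, Finset.mem_sdiff, Finset.mem_inter] at hj ⊢
      tauto
    · exact key i hi'.1 hiH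
  have h2 : spn a S ≤ spn a (l.toFinset ∩ S) := by
    rw [← bS.spn_eq a]
    apply spn_mono
    intro j hj
    simp only [Finset.mem_filter, Finset.mem_erase, Finset.mem_inter] at hj ⊢
    tauto
  have hne : (F \ S).Nonempty :=
    ⟨b, Finset.mem_sdiff.2 ⟨hIF hbI, fun h => hbH (hS h)⟩⟩
  apply hconn.2 S (hS.trans hHF) hSne hne
  rw [disjoint_iff, eq_bot_iff]
  calc spn a S ⊓ spn a (F \ S) ≤ spn a (l.toFinset ∩ S) ⊓ spn a (l.toFinset \ (l.toFinset ∩ S)) :=
        inf_le_inf h2 h1
    _ = spn a ((l.toFinset ∩ S) ∩ (l.toFinset \ (l.toFinset ∩ S))) :=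
        inf_spn a hind Finset.inter_subset_left Finset.sdiff_subset
    _ = ⊥ := by
        rw [Finset.inter_sdiff_self]
        simp [spn]

/-- on elements supported in `F`, contraction with `1` is contraction with `ind F` -/
private theorem ctr_one_eq {F : Finset ι} {y : E ι} (hy : rho F y = y) :
    ctr (fun _ => (1 : ℂ)) y = ctr (ind F) y := by
  have h1 := ctr_rho (fun _ => (1 : ℂ)) F y
  have h2 := ctr_ind_rho F F y
  rw [hy] at h1 h2
  rw [h1, h2, Finset.inter_self]
  rfl

private theorem rho_ctr_one_flat {F H : Finset ι} (hH : H ⊆ F) {y : E ι} (hy : rho F y = y) :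
    rho H (ctr (fun _ => (1 : ℂ)) y) = ctr (fun _ => (1 : ℂ)) (rho H y) + D F H y := by
  have h1 := ctr_rho (fun _ => (1 : ℂ)) H y
  rw [h1, ctr_one_eq hy, D_apply]
  have h3 : (ind F : ι → ℂ) = ind H + ind (F \ H) := by
    rw [ind_sdiff hH]; abel
  rw [h3, ctr_add, map_add]
  rfl

private theorem D_ctr_one {F H : Finset ι} (hH : H ⊆ F) {y : E ι} (hy : rho F y = y) :
    D F H (ctr (fun _ => (1 : ℂ)) y) = - ctr (fun _ => (1 : ℂ)) (D F H y) := by
  have h3 : (ind F : ι → ℂ) = ind H + ind (F \ H) := by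
    rw [ind_sdiff hH]; abel
  have h4 := ctr_rho (fun _ => (1 : ℂ)) H (ctr (ind (F \ H)) y)
  have h5 : (fun i => if i ∈ H then (1 : ℂ) else 0) = ind H := rfl
  rw [h5] at h4
  rw [D_apply F H (ctr _ y), D_apply F H y, h4, ctr_one_eq hy, h3, ctr_add, map_add, ctr_ctr,
    add_zero, ctr_comm, map_neg]

/-- one connected summand -/
theorem summand_conn (ha : ∀ i, a i ≠ 0) (F S : Finset ι) (hF : IsFlat a F)
    (l : List ι) (hl : IsBas a F l.toFinset) (hnd : l.Nodup) (b : ι) (hb : b ∈ l)
    (hS : S ⊆ cl a F (l.toFinset.erase b)) (hSf : IsFlat a S)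
    (hSb : IsBas a S (l.filter (· ∈ S)).toFinset) (c : ι) (hc : c ∈ F)
    (hcb : c ∉ cl a F (l.toFinset.erase b)) (x₀ : ι) (hx₀ : x₀ ∈ l) (hx₀S : x₀ ∈ S)
    (hcx : c ∉ cl a F (l.toFinset.erase x₀)) (r : ℕ) (hr : rk a S = r) (y : E ι)
    (hy : y ∈ Lam S r)
    (hOS : ∀ x ∈ l, x ∈ S → x ≠ x₀ →
      OS a (D S (cl a S ((l.filter (· ∈ S)).toFinset.erase x)) y)) :
    ∃ Q ∈ Lam F r, rho (cl a F (l.toFinset.erase b)) Q = y ∧
      ∀ x ∈ l, x ∈ S → OS a (rho (cl a F (l.toFinset.erase x)) Q) ∧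
        OS a (D F (cl a F (l.toFinset.erase x)) Q) := by
  have hIF : l.toFinset ⊆ F := hl.1
  have hHF : cl a F (l.toFinset.erase b) ⊆ F := cl_subset a F _
  have hSF : S ⊆ F := hS.trans hHF
  have hind : ∀ J ⊆ l.toFinset, rk a J = J.card := fun J hJ => hl.rk_subset a hJ
  have hlS : (l.filter (· ∈ S)).toFinset ⊆ l.toFinset := by
    intro i hi
    simp only [List.mem_toFinset, List.mem_filter] at hi ⊢
    exact hi.1
  have hyF : y ∈ Lam F r := Lam_mono hSF r hy
  have hyrF : rho F y = y := rho_of_mem_Lam hyF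
  have hQ : ctr (fun _ => (1 : ℂ)) (e c * y) = y - e c * ctr (fun _ => (1 : ℂ)) y := by
    rw [ctr_e_mul, one_smul]
  refine ⟨ctr (fun _ => (1 : ℂ)) (e c * y), ?_, ?_, ?_⟩
  · apply ctr_mem_Lam
    rw [add_comm]
    exact mul_mem_Lam (e_mem_Lam hc) hyF
  · rw [hQ, map_sub, map_mul, rho_e, if_neg hcb, zero_mul, sub_zero]
    exact rho_of_mem_Lam (Lam_mono hS r hy)
  · intro x hx hxS
    have hHxF : cl a F (l.toFinset.erase x) ⊆ F := cl_subset a F _
    have hxlS : x ∈ (l.filter (· ∈ S)).toFinset := by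
      simp [hx, hxS]
    have hinter : cl a F (l.toFinset.erase x) ∩ S =
        cl a S ((l.filter (· ∈ S)).toFinset.erase x) := by
      ext i
      simp only [cl, Finset.mem_inter, Finset.mem_filter]
      constructor
      · rintro ⟨⟨hiF, hi⟩, hiS⟩
        refine ⟨hiS, ?_⟩
        have h1 : a i ∈ spn a (l.filter (· ∈ S)).toFinset := by
          rw [hSb.spn_eq a]
          exact mem_spn a hiS
        have h2 : a i ∈ spn a (l.filter (· ∈ S)).toFinset ⊓ spn a (l.toFinset.erase x) :=
          ⟨h1, hi⟩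
        rw [inf_spn a hind hlS (Finset.erase_subset _ _)] at h2
        refine spn_mono a ?_ h2
        intro j hj
        simp only [Finset.mem_inter, Finset.mem_erase] at hj ⊢
        exact ⟨hj.2.1, hj.1⟩
      · rintro ⟨hiS, hi⟩
        exact ⟨⟨hSF hiS, spn_mono a (Finset.erase_subset_erase _ hlS) hi⟩, hiS⟩
    have hrkSx : rk a (cl a F (l.toFinset.erase x) ∩ S) < r := by
      rw [hinter, rk_cl a ((Finset.erase_subset _ _).trans hSb.1),
        hind _ ((Finset.erase_subset _ _).trans hlS), Finset.card_erase_of_mem hxlS, hSb.2.1, hr]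
      have : 0 < r := by
        rw [← hr, ← hSb.2.1]
        exact Finset.card_pos.2 ⟨x, hxlS⟩
      omega
    have hRy : OS a (rho (cl a F (l.toFinset.erase x)) y) :=
      OS_of_mem_Lam a hrkSx (rho_mem_Lam _ hy)
    have hDy : D F (cl a F (l.toFinset.erase x)) y =
        D S (cl a S ((l.filter (· ∈ S)).toFinset.erase x)) y := by
      have h1 := D_rho F (cl a F (l.toFinset.erase x)) S y
      rw [rho_of_mem_Lam hy] at h1
      rw [h1, D_apply, ← hinter]
      have : (F \ cl a F (l.toFinset.erase x)) ∩ S = S \ (cl a F (l.toFinset.erase x) ∩ S) := by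
        ext i
        simp only [Finset.mem_inter, Finset.mem_sdiff]
        constructor
        · rintro ⟨⟨h1, h2⟩, h3⟩
          exact ⟨h3, fun h => h2 h.1⟩
        · rintro ⟨h1, h2⟩
          exact ⟨⟨hSF h1, fun h => h2 ⟨h, h1⟩⟩, h1⟩
      rw [this]
    have h3 := rho_ctr_one_flat hHxF hyrF
    have h4 := D_ctr_one hHxF hyrF
    have hRQ : rho (cl a F (l.toFinset.erase x)) (ctr (fun _ => (1 : ℂ)) (e c * y)) =
        rho (cl a F (l.toFinset.erase x)) y - rho (cl a F (l.toFinset.erase x)) (e c) *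
          (ctr (fun _ => (1 : ℂ)) (rho (cl a F (l.toFinset.erase x)) y) +
            D F (cl a F (l.toFinset.erase x)) y) := by
      rw [hQ, map_sub, map_mul, h3]
    have hDQ : D F (cl a F (l.toFinset.erase x)) (ctr (fun _ => (1 : ℂ)) (e c * y)) =
        D F (cl a F (l.toFinset.erase x)) y - (D F (cl a F (l.toFinset.erase x)) (e c) *
          (ctr (fun _ => (1 : ℂ)) (rho (cl a F (l.toFinset.erase x)) y) +
            D F (cl a F (l.toFinset.erase x)) y) +
          rho (cl a F (l.toFinset.erase x)) (e c) *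
            ctr (fun _ => (1 : ℂ)) (D F (cl a F (l.toFinset.erase x)) y)) := by
      rw [hQ, map_sub, D_mul, h3, h4, hat_e, map_neg, neg_mul_neg]
    rw [hRQ, hDQ]
    by_cases hxx : x = x₀
    · subst hxx
      have h5 : rho (cl a F (l.toFinset.erase x)) (e c) = 0 := by
        rw [rho_e, if_neg hcx]
      have h6 : D F (cl a F (l.toFinset.erase x)) (e c) = 1 := by
        rw [D_apply, ctr_e]
        have : (ind (F \ cl a F (l.toFinset.erase x)) c : ℂ) = 1 := by
          simp only [ind]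
          rw [if_pos (Finset.mem_sdiff.2 ⟨hc, hcx⟩)]
        rw [this, map_one, map_one]
      rw [h5, h6]
      constructor
      · rw [zero_mul, sub_zero]
        exact hRy
      · rw [one_mul, zero_mul, add_zero]
        have : D F (cl a F (l.toFinset.erase x)) y -
            (ctr (fun _ => (1 : ℂ)) (rho (cl a F (l.toFinset.erase x)) y) +
              D F (cl a F (l.toFinset.erase x)) y) =
            - ctr (fun _ => (1 : ℂ)) (rho (cl a F (l.toFinset.erase x)) y) := by abel
        rw [this]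
        exact OS_neg (OS_ctr_one hRy)
    · have hOy : OS a (D F (cl a F (l.toFinset.erase x)) y) := by
        rw [hDy]
        exact hOS x hx hxS hxx
      have h7 : OS a (ctr (fun _ => (1 : ℂ)) (rho (cl a F (l.toFinset.erase x)) y) +
            D F (cl a F (l.toFinset.erase x)) y) := OS.add (OS_ctr_one hRy) hOy
      constructor
      · exact OS_sub hRy (OS.mul_left _ h7)
      · exact OS_sub hOy (OS.add (OS.mul_left _ h7) (OS.mul_left _ (OS_ctr_one hOy)))

end MPb07157.ND
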