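import Pool.Agent.Lib.MP_b07157_ag.ND.Test

/-! # Test forms: all summands -/

noncomputable section

namespace MPb07157.ND

open Finset

variable {n : ℕ} {ι : Type} [Fintype ι] [DecidableEq ι] (a : ι → Fin n → ℂ)

private theorem rk_union_le_test (A B : Finset ι) : rk a (A ∪ B) ≤ rk a A + rk a B := by
  have h1 : spn a (A ∪ B) = spn a A ⊔ spn a B := by
    simp only [spn, Finset.coe_union, Set.image_union, Submodule.span_union]
  unfold rk
  rw [h1]
  exact Submodule.finrank_add_le_finrank_add_finrank _ _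

/-- all summands `S` of the hyperplane `cl (l - b)` of a connected flat `F` -/
theorem summand_all (ha : ∀ i, a i ≠ 0) (F : Finset ι) (hF : IsFlat a F) (hconn : Conn a F)
    (l : List ι) (hl : IsBas a F l.toFinset) (hnd : l.Nodup) (b : ι) (hb : b ∈ l)
    (IH : ∀ S ⊆ cl a F (l.toFinset.erase b), IsFlat a S → Conn a S → ∀ l' : List ι,
      IsBas a S l'.toFinset → l'.Nodup → ∀ x₀ ∈ l', ∃ y, TestForm a (rk a S) S l' x₀ y) :
    ∀ k : ℕ, ∀ S ⊆ cl a F (l.toFinset.erase b), S.card = k →
      rk a S + rk a (cl a F (l.toFinset.erase b) \ S) ≤ rk a (cl a F (l.toFinset.erase b)) →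
      ∃ y ∈ Lam S (rk a S), ∃ Q ∈ Lam F (rk a S), rho (cl a F (l.toFinset.erase b)) Q = y ∧
        (∀ x ∈ l, x ∈ S → OS a (rho (cl a F (l.toFinset.erase x)) Q) ∧
          OS a (D F (cl a F (l.toFinset.erase x)) Q)) ∧
        Val a (rk a S) S (eL (l.filter (· ∈ S))) y := by
  have hbI : b ∈ l.toFinset := List.mem_toFinset.2 hb
  have hIF : l.toFinset ⊆ F := hl.1
  obtain ⟨hHhyp, hbH, hbasH⟩ := hl.erase_hyp a hF hbI
  have hHF : cl a F (l.toFinset.erase b) ⊆ F := cl_subset a F _
  have hHflat : IsFlat a (cl a F (l.toFinset.erase b)) :=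
    isFlat_cl a hF ((Finset.erase_subset _ _).trans hIF)
  have hfil : ∀ S ⊆ cl a F (l.toFinset.erase b),
      (l.filter (· ∈ S)).toFinset = (l.toFinset.erase b).filter (· ∈ S) := by
    intro S hS
    ext i
    simp only [List.mem_toFinset, List.mem_filter, Finset.mem_filter, Finset.mem_erase,
      decide_eq_true_eq]
    constructor
    · rintro ⟨h1, h2⟩
      refine ⟨⟨?_, h1⟩, h2⟩
      rintro rfl
      exact hbH (hS h2)
    · rintro ⟨⟨_, h1⟩, h2⟩
      exact ⟨h1, h2⟩
  intro k
  induction k using Nat.strong_induction_on with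
  | _ k ihk =>
  intro S hS hk hsum
  have hbasF : ∀ T ⊆ cl a F (l.toFinset.erase b),
      rk a T + rk a (cl a F (l.toFinset.erase b) \ T) ≤ rk a (cl a F (l.toFinset.erase b)) →
      IsBas a T (l.filter (· ∈ T)).toFinset ∧ IsFlat a T := by
    intro T hT hsumT
    obtain ⟨b1, b2, b3⟩ := isBas_filter a ha hHflat hT hsumT hbasH
    rw [hfil T hT]
    exact ⟨b1, b3⟩
  obtain ⟨hSbas, hSflat⟩ := hbasF S hS hsum
  rcases S.eq_empty_or_nonempty with rfl | hSne
  · have h0 : rk a (∅ : Finset ι) = 0 := rk_empty a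
    rw [h0]
    refine ⟨1, one_mem_Lam _, 1, one_mem_Lam _, map_one _, ?_, ?_⟩
    · intro x _ hx
      simp at hx
    · refine ⟨1, one_ne_zero, [], by simp, ?_⟩
      intro w _
      rw [Gp_zero]
      have : l.filter (fun x => decide (x ∈ (∅ : Finset ι))) = [] := by simp
      rw [this, eL_nil]
      simp
  by_cases hSc : Conn a S
  · obtain ⟨c, hcF, hcb, x₀, hx₀, hx₀S, hcx⟩ :=
      exists_link a ha F S hF hconn l hl hnd b hb hS hSne hsum
    have hx₀l : x₀ ∈ l.filter (· ∈ S) := by simp [hx₀, hx₀S]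
    obtain ⟨y, hy, hyOS, κ, hκ, L, hL, hval⟩ :=
      IH S hS hSflat hSc (l.filter (· ∈ S)) hSbas (hnd.filter _) x₀ hx₀l
    obtain ⟨Q, hQ, hQy, hQOS⟩ := summand_conn a ha F S hF l hl hnd b hb hS hSflat hSbas c hcF hcb
      x₀ hx₀ hx₀S hcx (rk a S) rfl y hy (by
        intro x hx hxS hxx
        exact hyOS x (by simp [hx, hxS]) hxx)
    refine ⟨y, hy, Q, hQ, hQy, hQOS, κ, hκ, S :: L, ?_, ?_⟩
    · intro T hT
      rcases List.mem_cons.1 hT with rfl | hT
      · exact ⟨hSflat, hSne⟩
      · exact hL T hT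
    · intro w hw
      rw [← hval w hw, List.map_cons, List.prod_cons]
  · have hSc' : ∃ G ⊆ S, G.Nonempty ∧ (S \ G).Nonempty ∧ Disjoint (spn a G) (spn a (S \ G)) := by
      by_contra hcon
      apply hSc
      refine ⟨hSne, ?_⟩
      intro G hG hG1 hG2 hdis
      exact hcon ⟨G, hG, hG1, hG2, hdis⟩
    obtain ⟨G, hGS, hGne, hSGne, hdis⟩ := hSc'
    have hUn : G ∪ (S \ G) = S := Finset.union_sdiff_of_subset hGS
    have hrk : rk a S = rk a G + rk a (S \ G) := by
      rw [← rk_union_of_disjoint a hdis, hUn]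
    have hGH : G ⊆ cl a F (l.toFinset.erase b) := hGS.trans hS
    have hSGS : S \ G ⊆ S := Finset.sdiff_subset
    have hSGH : S \ G ⊆ cl a F (l.toFinset.erase b) := hSGS.trans hS
    have hsumG : rk a G + rk a (cl a F (l.toFinset.erase b) \ G) ≤
        rk a (cl a F (l.toFinset.erase b)) := by
      have h1 : cl a F (l.toFinset.erase b) \ G =
          (S \ G) ∪ (cl a F (l.toFinset.erase b) \ S) := by
        ext i
        simp only [Finset.mem_sdiff, Finset.mem_union]
        constructor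
        · rintro ⟨h1, h2⟩
          by_cases h3 : i ∈ S
          · exact Or.inl ⟨h3, h2⟩
          · exact Or.inr ⟨h1, h3⟩
        · rintro (⟨h1, h2⟩ | ⟨h1, h2⟩)
          · exact ⟨hS h1, h2⟩
          · exact ⟨h1, fun h => h2 (hGS h)⟩
      have h2 := rk_union_le_test a (S \ G) (cl a F (l.toFinset.erase b) \ S)
      rw [← h1] at h2
      omega
    have hsumSG : rk a (S \ G) + rk a (cl a F (l.toFinset.erase b) \ (S \ G)) ≤
        rk a (cl a F (l.toFinset.erase b)) := by
      have h1 : cl a F (l.toFinset.erase b) \ (S \ G) =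
          G ∪ (cl a F (l.toFinset.erase b) \ S) := by
        ext i
        simp only [Finset.mem_sdiff, Finset.mem_union, not_and, not_not]
        constructor
        · rintro ⟨h1, h2⟩
          by_cases h3 : i ∈ S
          · exact Or.inl (h2 h3)
          · exact Or.inr ⟨h1, h3⟩
        · rintro (h1 | ⟨h1, h2⟩)
          · exact ⟨hGH h1, fun _ => h1⟩
          · exact ⟨h1, fun h => absurd h h2⟩
      have h2 := rk_union_le_test a G (cl a F (l.toFinset.erase b) \ S)
      rw [← h1] at h2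
      omega
    have hcardG : G.card < k := by
      rw [← hk]
      apply Finset.card_lt_card
      refine ⟨hGS, fun h => ?_⟩
      obtain ⟨i, hi⟩ := hSGne
      rw [Finset.mem_sdiff] at hi
      exact hi.2 (h hi.1)
    have hcardSG : (S \ G).card < k := by
      rw [← hk]
      apply Finset.card_lt_card
      refine ⟨hSGS, fun h => ?_⟩
      obtain ⟨i, hi⟩ := hGne
      have := h (hGS hi)
      rw [Finset.mem_sdiff] at this
      exact this.2 hi
    obtain ⟨y₁, hy₁, Q₁, hQ₁, hQy₁, hOS₁, κ₁, hκ₁, L₁, hL₁, hv₁⟩ :=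
      ihk G.card hcardG G hGH rfl hsumG
    obtain ⟨y₂, hy₂, Q₂, hQ₂, hQy₂, hOS₂, κ₂, hκ₂, L₂, hL₂, hv₂⟩ :=
      ihk (S \ G).card hcardSG (S \ G) hSGH rfl hsumSG
    obtain ⟨hGbas, _⟩ := hbasF G hGH hsumG
    obtain ⟨hSGbas, _⟩ := hbasF (S \ G) hSGH hsumSG
    refine ⟨y₁ * y₂, ?_, Q₁ * Q₂, ?_, ?_, ?_, ?_⟩
    · rw [hrk]
      exact mul_mem_Lam (Lam_mono hGS _ hy₁) (Lam_mono hSGS _ hy₂)
    · rw [hrk]
      exact mul_mem_Lam hQ₁ hQ₂
    · rw [map_mul, hQy₁, hQy₂]
    · intro x hx hxS
      rw [map_mul, D_mul, ← hat_rho]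
      by_cases hxG : x ∈ G
      · obtain ⟨h1, h2⟩ := hOS₁ x hx hxG
        exact ⟨OS.mul_right _ h1, OS.add (OS.mul_right _ h2) (OS.mul_right _ (OS_hat h1))⟩
      · obtain ⟨h1, h2⟩ := hOS₂ x hx (Finset.mem_sdiff.2 ⟨hxS, hxG⟩)
        exact ⟨OS.mul_left _ h1, OS.add (OS.mul_left _ h1) (OS.mul_left _ h2)⟩
    · have hlen : ∀ T : Finset ι, IsBas a T (l.filter (· ∈ T)).toFinset →
          eL (l.filter (· ∈ T)) ∈ Lam T (rk a T) := by
        intro T hT
        have h1 : (l.filter (· ∈ T)).length = rk a T := by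
          rw [← hT.2.1, List.toFinset_card_of_nodup (hnd.filter _)]
        rw [← h1]
        apply eL_mem_Lam
        intro i hi
        simp only [List.mem_filter, decide_eq_true_eq] at hi
        exact hi.2
      have hperm : (l.filter (· ∈ S)).Perm (l.filter (· ∈ G) ++ l.filter (· ∈ S \ G)) := by
        apply List.perm_of_nodup_nodup_toFinset_eq (hnd.filter _)
        · apply List.Nodup.append (hnd.filter _) (hnd.filter _)
          intro i hi hi'
          simp only [List.mem_filter, decide_eq_true_eq, Finset.mem_sdiff] at hi hi'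
          exact hi'.2.2 hi.2
        · ext i
          simp only [List.mem_toFinset, List.mem_append, List.mem_filter, decide_eq_true_eq,
            Finset.mem_sdiff]
          constructor
          · rintro ⟨h1, h2⟩
            by_cases h3 : i ∈ G
            · exact Or.inl ⟨h1, h3⟩
            · exact Or.inr ⟨h1, h2, h3⟩
          · rintro (⟨h1, h2⟩ | ⟨h1, h2, h3⟩)
            · exact ⟨h1, hGS h2⟩
            · exact ⟨h1, h2⟩
      have hsgn : ∃ s : ℂ, s ≠ 0 ∧ eL (l.filter (· ∈ S)) =
          s • (eL (l.filter (· ∈ G)) * eL (l.filter (· ∈ S \ G))) := by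
        rcases eL_perm hperm with h | h
        · exact ⟨1, one_ne_zero, by rw [h, eL_append, one_smul]⟩
        · exact ⟨-1, by norm_num, by rw [h, eL_append, neg_smul, one_smul]⟩
      obtain ⟨s, hs, hseq⟩ := hsgn
      refine ⟨s * (κ₁ * κ₂), mul_ne_zero hs (mul_ne_zero hκ₁ hκ₂), L₁ ++ L₂, ?_, ?_⟩
      · intro T hT
        rcases List.mem_append.1 hT with hT | hT
        · exact hL₁ T hT
        · exact hL₂ T hT
      · intro w hw
        have h1 := Gp_prod a ha w hw (rk a G) (rk a (S \ G)) G (S \ G)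
          (by rw [hUn]; exact hSflat) hdis rfl rfl (hlen G hGbas) hy₁ (hlen _ hSGbas) hy₂
        rw [hUn, ← hrk] at h1
        rw [hseq, map_smul, LinearMap.smul_apply, h1, smul_eq_mul, List.map_append,
          List.prod_append, ← hv₁ w hw, ← hv₂ w hw]
        ring

private theorem D_eL_zero (F H : Finset ι) : ∀ l : List ι, l.Nodup → ¬ (l.toFinset ⊆ H) →
    (∀ x ∈ l, ¬ (l.toFinset.erase x ⊆ H)) → D F H (eL l) = 0 := by
  intro l
  induction l with
  | nil =>
    intro _ h
    exact absurd (by simp) h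
  | cons i l ih =>
    intro hnd h1 h2
    have hil : i ∉ l := (List.nodup_cons.1 hnd).1
    have hndl : l.Nodup := (List.nodup_cons.1 hnd).2
    have hl : ¬ (l.toFinset ⊆ H) := by
      intro h
      apply h2 i List.mem_cons_self
      rw [List.toFinset_cons, Finset.erase_insert (by simpa using hil)]
      exact h
    have hl' : ¬ ∀ j ∈ l, j ∈ H := by
      intro h
      apply hl
      intro j hj
      exact h j (List.mem_toFinset.1 hj)
    rw [eL_cons, D_mul, rho_eL_of_not_subset hl', mul_zero, zero_add, hat_e, map_neg, rho_e]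
    by_cases hi : i ∈ H
    · rw [ih hndl hl, mul_zero]
      intro x hx h
      apply h2 x (List.mem_cons_of_mem _ hx)
      intro j hj
      rw [List.toFinset_cons, Finset.mem_erase, Finset.mem_insert] at hj
      rcases hj.2 with rfl | hj'
      · exact hi
      · exact h (Finset.mem_erase.2 ⟨hj.1, hj'⟩)
    · rw [if_neg hi, neg_zero, zero_mul]

/-- existence of test forms -/
theorem exists_testForm (ha : ∀ i, a i ≠ 0) : ∀ (r : ℕ) (F : Finset ι), IsFlat a F →
    rk a F = r → Conn a F → ∀ l : List ι, IsBas a F l.toFinset → l.Nodup → ∀ b ∈ l,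
    ∃ y, TestForm a r F l b y := by
  intro r
  induction r using Nat.strong_induction_on with
  | _ r ih =>
  intro F hF hrF hconn l hl hnd b hb
  have hbI : b ∈ l.toFinset := List.mem_toFinset.2 hb
  have hIF : l.toFinset ⊆ F := hl.1
  obtain ⟨hHhyp, hbH, hbasH⟩ := hl.erase_hyp a hF hbI
  have hHm := (mem_hyp a).1 hHhyp
  have hHlt : rk a (cl a F (l.toFinset.erase b)) < r := by omega
  obtain ⟨yH, hyH, Q, hQ, hQy, hQOS, κ, hκ, L, hL, hval⟩ :=
    summand_all a ha F hF hconn l hl hnd b hb (by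
      intro S hS hSf hSc l' hl' hnd' x₀ hx₀
      exact ih (rk a S) (lt_of_le_of_lt (rk_mono a hS) hHlt) S hSf rfl hSc l' hl' hnd' x₀ hx₀)
      (cl a F (l.toFinset.erase b)).card (cl a F (l.toFinset.erase b)) (Finset.Subset.refl _) rfl
      (by rw [Finset.sdiff_self, rk_empty, add_zero])
  have hr : r = rk a (cl a F (l.toFinset.erase b)) + 1 := by omega
  have hbF : b ∈ F := hIF hbI
  have hmemH : ∀ x ∈ l, x ≠ b → x ∈ cl a F (l.toFinset.erase b) := by
    intro x hx hxb
    exact subset_cl a ((Finset.erase_subset _ _).trans hIF)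
      (Finset.mem_erase.2 ⟨hxb, List.mem_toFinset.2 hx⟩)
  have hyOS : ∀ x ∈ l, x ≠ b → OS a (D F (cl a F (l.toFinset.erase x)) (e b * Q)) := by
    intro x hx hxb
    obtain ⟨h1, h2⟩ := hQOS x hx (hmemH x hx hxb)
    rw [D_mul]
    exact OS.add (OS.mul_left _ h1) (OS.mul_left _ h2)
  refine ⟨e b * Q, ?_, hyOS, ?_⟩
  · rw [hr, add_comm]
    exact mul_mem_Lam (e_mem_Lam hbF) hQ
  have hD1 : D F (cl a F (l.toFinset.erase b)) (e b) = 1 := by
    rw [D_apply, ctr_e]
    have : (ind (F \ cl a F (l.toFinset.erase b)) b : ℂ) = 1 := by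
      simp only [ind]
      rw [if_pos (Finset.mem_sdiff.2 ⟨hbF, hbH⟩)]
    rw [this, map_one, map_one]
  have hD2 : ∀ z : E ι, D F (cl a F (l.toFinset.erase b)) (e b * z) =
      rho (cl a F (l.toFinset.erase b)) z := by
    intro z
    rw [D_mul, hD1, one_mul, hat_e, map_neg, rho_e, if_neg hbH, neg_zero, zero_mul, add_zero]
  have hfil : l.erase b = l.filter (· ∈ cl a F (l.toFinset.erase b)) := by
    rw [hnd.erase_eq_filter]
    apply List.filter_congr
    intro x hx
    by_cases hxb : x = b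
    · subst hxb
      simp [hbH]
    · simp [hxb, hmemH x hx hxb]
  have hsgn : ∃ s : ℂ, s ≠ 0 ∧ eL l = s • (e b * eL (l.filter (· ∈ cl a F (l.toFinset.erase b)))) := by
    rw [← hfil]
    rcases eL_perm (List.perm_cons_erase hb) with h | h
    · exact ⟨1, one_ne_zero, by rw [h, eL_cons, one_smul]⟩
    · exact ⟨-1, by norm_num, by rw [h, eL_cons, neg_smul, one_smul]⟩
  obtain ⟨s, hs, hseq⟩ := hsgn
  refine ⟨s * κ, mul_ne_zero hs hκ, L, hL, ?_⟩
  intro w hw
  have hwF : wt w F ≠ 0 := hw F hF hconn.1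
  rw [hr, Gp_succ, Finset.sum_eq_single (cl a F (l.toFinset.erase b))]
  · have h1 : D F (cl a F (l.toFinset.erase b)) (eL l) =
        s • eL (l.filter (· ∈ cl a F (l.toFinset.erase b))) := by
      rw [hseq, map_smul, hD2]
      congr 1
      apply rho_eL_of_subset
      intro i hi
      simp only [List.mem_filter, decide_eq_true_eq] at hi
      exact hi.2
    rw [h1, hD2, hQy, map_smul, LinearMap.smul_apply, smul_eq_mul, ← hval w hw]
    field_simp
  · intro H' hH' hne
    by_cases hex : ∃ x ∈ l, l.toFinset.erase x ⊆ H'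
    · obtain ⟨x, hx, hxH⟩ := hex
      have hu := hl.hyp_unique a (List.mem_toFinset.2 hx) hH' hxH
      have hxb : x ≠ b := by
        rintro rfl
        exact hne hu
      apply Gp_OS a ha w _ H' ((mem_hyp a).1 hH').2.1
      rw [hu]
      exact hyOS x hx hxb
    · have h1 : D F H' (eL l) = 0 := by
        apply D_eL_zero F H' l hnd (hl.not_subset_hyp a hH')
        intro x hx h
        exact hex ⟨x, hx, h⟩
      rw [h1, map_zero, LinearMap.zero_apply]
  · intro h
    exact absurd hHhyp h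

end MPb07157.ND
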