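import Pool.Agent.Lib.MP_b07157_ag.ND.Defs

/-! # Functions on the complement of the arrangement, and the twisted derivations: definitions -/

noncomputable section

namespace MPb07157.ND

open Finset

/-- an algebra of functions on the complement of the arrangement: coordinates, inverses of the
forms, partial derivatives, evaluations -/
structure Model {n : ℕ} {ι : Type} [Fintype ι] (a : ι → Fin n → ℂ) (𝔽 : Type) [CommRing 𝔽]
    [Algebra ℂ 𝔽] where
  x : Fin n → 𝔽
  inv : ι → 𝔽
  inv_mul : ∀ i, inv i * ∑ j, a i j • x j = 1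
  d : Fin n → Derivation ℂ 𝔽 𝔽
  d_x : ∀ j k, d j (x k) = if j = k then 1 else 0
  d_comm : ∀ j k g, d j (d k g) = d k (d j g)
  ev : (p : Fin n → ℂ) → p ∈ Ucomp a Finset.univ → 𝔽 →ₐ[ℂ] ℂ
  ev_x : ∀ p hp j, ev p hp (x j) = p j
  ext : ∀ g, (∀ p hp, ev p hp g = 0) → g = 0

variable {n : ℕ} {ι : Type} [Fintype ι] {a : ι → Fin n → ℂ} {𝔽 : Type}
  [CommRing 𝔽] [Algebra ℂ 𝔽] (M : Model a 𝔽)

/-- the linear form with coefficients `c` -/
def Model.lin (c : Fin n → ℂ) : 𝔽 := ∑ j, c j • M.x j

/-- the logarithmic gradient -/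
def Model.gr (w : ι → ℂ) (j : Fin n) : 𝔽 := ∑ i, (w i * a i j) • M.inv i

/-- the twisted derivation `∂_j + ∑_i w_i a_{ij} / ℓ_i` -/
def Model.Dw (w : ι → ℂ) (j : Fin n) : Module.End ℂ 𝔽 :=
  (M.d j).toLinearMap + LinearMap.mulLeft ℂ (M.gr w j)

/-- the functions `det(a_t) / ∏ ℓ_{t_k}` -/
def Model.evt (t : Fin n → ι) : 𝔽 :=
  (Matrix.det (fun i j => a (t i) j)) • ∏ i, M.inv (t i)

/-- a family of commuting elements of an algebra -/
theorem exists_comm_aeval {σ : Type} {A : Type} [Ring A] [Algebra ℂ A] (f : σ → A)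
    (h : ∀ i j, Commute (f i) (f j)) :
    ∃ φ : MvPolynomial σ ℂ →ₐ[ℂ] A, ∀ i, φ (MvPolynomial.X i) = f i := by
  have hc : ∀ a ∈ Set.range f, ∀ b ∈ Set.range f, a * b = b * a := by
    rintro _ ⟨i, rfl⟩ _ ⟨j, rfl⟩
    exact h i j
  let _ : CommRing (Algebra.adjoin ℂ (Set.range f)) :=
    { (Algebra.adjoin ℂ (Set.range f)).toRing with
      mul_comm := fun x y => by
        have := Algebra.isMulCommutative_adjoin ℂ hc
        exact this.is_comm.comm x y }
  refine ⟨(Algebra.adjoin ℂ (Set.range f)).val.comp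
    (MvPolynomial.aeval fun i => (⟨f i, Algebra.subset_adjoin ⟨i, rfl⟩⟩ :
      Algebra.adjoin ℂ (Set.range f))), fun i => ?_⟩
  rw [AlgHom.comp_apply, MvPolynomial.aeval_X]
  rfl

theorem Model.lin_mul_inv_aux (i : ι) : M.lin (a i) * M.inv i = 1 := by
  rw [mul_comm]
  exact M.inv_mul i

theorem Model.d_lin_aux (j : Fin n) (c : Fin n → ℂ) :
    M.d j (M.lin c) = algebraMap ℂ 𝔽 (c j) := by
  unfold Model.lin
  rw [map_sum]
  have : ∀ k ∈ (Finset.univ : Finset (Fin n)),
      M.d j (c k • M.x k) = if j = k then algebraMap ℂ 𝔽 (c k) else 0 := by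
    intro k _
    rw [Derivation.map_smul, M.d_x]
    split_ifs
    · rw [Algebra.algebraMap_eq_smul_one]
    · rw [smul_zero]
  rw [Finset.sum_congr rfl this, Finset.sum_ite_eq]
  simp

theorem Model.d_inv_aux (j : Fin n) (i : ι) :
    M.d j (M.inv i) = - (a i j) • (M.inv i) ^ 2 := by
  have h1 : M.inv i * M.lin (a i) = 1 := M.inv_mul i
  have h2 : M.d j (M.inv i * M.lin (a i)) = 0 := by
    rw [h1]
    exact Derivation.map_one_eq_zero _
  rw [Derivation.leibniz, M.d_lin_aux, smul_eq_mul, smul_eq_mul] at h2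
  have h3 : M.d j (M.inv i) = M.inv i * (M.lin (a i) * M.d j (M.inv i)) := by
    rw [← mul_assoc, h1, one_mul]
  have h4 : M.lin (a i) * M.d j (M.inv i) = - (M.inv i * algebraMap ℂ 𝔽 (a i j)) := by
    rw [eq_neg_iff_add_eq_zero, add_comm]
    exact h2
  rw [h3, h4, neg_smul, Algebra.smul_def]
  ring

theorem Model.d_gr_symm (w : ι → ℂ) (j k : Fin n) : M.d j (M.gr w k) = M.d k (M.gr w j) := by
  unfold Model.gr
  rw [map_sum, map_sum]
  refine Finset.sum_congr rfl fun i _ => ?_
  rw [Derivation.map_smul, Derivation.map_smul, M.d_inv_aux, M.d_inv_aux, smul_smul, smul_smul]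
  congr 1
  ring

theorem Model.Dw_apply (w : ι → ℂ) (j : Fin n) (u : 𝔽) :
    M.Dw w j u = M.d j u + M.gr w j * u := rfl

theorem Model.Dw_commute (w : ι → ℂ) (j k : Fin n) : Commute (M.Dw w j) (M.Dw w k) := by
  refine LinearMap.ext fun u => ?_
  rw [Module.End.mul_apply, Module.End.mul_apply]
  simp only [M.Dw_apply, map_add, Derivation.leibniz, smul_eq_mul]
  rw [M.d_comm j k u, M.d_gr_symm w j k]
  ring

/-- the action of the polynomials in the twisted derivations -/
def Model.act (w : ι → ℂ) : MvPolynomial (Fin n) ℂ →ₐ[ℂ] Module.End ℂ 𝔽 :=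
  (exists_comm_aeval (M.Dw w) (M.Dw_commute w)).choose

theorem Model.act_X (w : ι → ℂ) (j : Fin n) : M.act w (MvPolynomial.X j) = M.Dw w j :=
  (exists_comm_aeval (M.Dw w) (M.Dw_commute w)).choose_spec j

theorem Model.d_inv (j : Fin n) (i : ι) : M.d j (M.inv i) = - (a i j) • (M.inv i) ^ 2 :=
  M.d_inv_aux j i

theorem Model.ev_lin_aux (p : Fin n → ℂ) (hp : p ∈ Ucomp a Finset.univ) (c : Fin n → ℂ) :
    M.ev p hp (M.lin c) = c ⬝ᵥ p := by
  unfold Model.lin
  rw [map_sum, dotProduct]
  refine Finset.sum_congr rfl fun j _ => ?_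
  rw [map_smul, M.ev_x, smul_eq_mul]

theorem Model.ev_inv (p : Fin n → ℂ) (hp : p ∈ Ucomp a Finset.univ) (i : ι) :
    M.ev p hp (M.inv i) = (a i ⬝ᵥ p)⁻¹ := by
  have h1 : M.inv i * M.lin (a i) = 1 := M.inv_mul i
  have h2 := congrArg (M.ev p hp) h1
  rw [map_mul, M.ev_lin_aux, map_one] at h2
  exact eq_inv_of_mul_eq_one_left h2

theorem Model.ev_lin (p : Fin n → ℂ) (hp : p ∈ Ucomp a Finset.univ) (c : Fin n → ℂ) :
    M.ev p hp (M.lin c) = c ⬝ᵥ p := M.ev_lin_aux p hp c

theorem Model.lin_mul_inv (i : ι) : M.lin (a i) * M.inv i = 1 := M.lin_mul_inv_aux i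

theorem Model.d_lin (j : Fin n) (c : Fin n → ℂ) : M.d j (M.lin c) = algebraMap ℂ 𝔽 (c j) :=
  M.d_lin_aux j c

theorem Model.act_mul_apply (w : ι → ℂ) (P Q : MvPolynomial (Fin n) ℂ) (u : 𝔽) :
    M.act w (P * Q) u = M.act w P (M.act w Q u) := by
  rw [map_mul (M.act w)]
  rfl

/-- multiplication by a coordinate and differential operators -/
theorem Model.act_mul_x (w : ι → ℂ) (P : MvPolynomial (Fin n) ℂ) (j : Fin n) (u : 𝔽) :
    M.act w P (M.x j * u) = M.x j * M.act w P u + M.act w (MvPolynomial.pderiv j P) u := by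
  induction P using MvPolynomial.induction_on generalizing u with
  | C c =>
    have hC : ∀ v : 𝔽, M.act w (MvPolynomial.C c) v = c • v := by
      intro v
      rw [← MvPolynomial.algebraMap_eq, AlgHom.commutes, Module.algebraMap_end_apply]
    rw [hC, hC, MvPolynomial.pderiv_C, map_zero, LinearMap.zero_apply, add_zero,
      mul_smul_comm]
  | add P Q hP hQ =>
    rw [map_add, LinearMap.add_apply, hP, hQ, map_add, map_add, LinearMap.add_apply,
      LinearMap.add_apply]
    ring
  | mul_X P k hP =>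
    have hk : M.Dw w k (M.x j * u) = M.x j * M.Dw w k u + (if k = j then u else 0) := by
      rw [M.Dw_apply, M.Dw_apply, Derivation.leibniz, M.d_x, smul_eq_mul, smul_eq_mul]
      split_ifs <;> ring
    rw [M.act_mul_apply, M.act_X, hk, map_add, hP, M.act_mul_apply,
      M.act_X, Derivation.leibniz, MvPolynomial.pderiv_X, smul_eq_mul, smul_eq_mul,
      map_add (M.act w), LinearMap.add_apply, M.act_mul_apply, M.act_mul_apply, M.act_X]
    have h2 : M.act w ((Pi.single j 1 : Fin n → MvPolynomial (Fin n) ℂ) k) u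
        = if k = j then u else 0 := by
      by_cases hkj : k = j
      · subst hkj
        rw [Pi.single_eq_same, map_one, if_pos rfl]
        rfl
      · rw [Pi.single_eq_of_ne hkj, map_zero, if_neg hkj]
        rfl
    rw [h2]
    have hcomm : M.Dw w k (M.act w (MvPolynomial.pderiv j P) u)
        = M.act w (MvPolynomial.pderiv j P) (M.Dw w k u) := by
      rw [← M.act_X w k, ← M.act_mul_apply, ← M.act_mul_apply, mul_comm]
    have h4 : M.act w P (if k = j then u else 0)
        = M.act w P (M.act w ((Pi.single j 1 : Fin n → MvPolynomial (Fin n) ℂ) k) u) := by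
      rw [h2]
    rw [hcomm, h4]
    ring

variable [DecidableEq ι]

/-- level shift -/
theorem Model.act_shift (w : ι → ℂ) (i : ι) (P : MvPolynomial (Fin n) ℂ) (u : 𝔽) :
    M.act w P (M.lin (a i) * u) = M.lin (a i) * M.act (w + Pi.single i 1) P u := by
  induction P using MvPolynomial.induction_on generalizing u with
  | C c =>
    have hC : ∀ (w' : ι → ℂ) (v : 𝔽), M.act w' (MvPolynomial.C c) v = c • v := by
      intro w' v
      rw [← MvPolynomial.algebraMap_eq, AlgHom.commutes, Module.algebraMap_end_apply]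
    rw [hC, hC, mul_smul_comm]
  | add P Q hP hQ =>
    rw [map_add, map_add, LinearMap.add_apply, LinearMap.add_apply, hP, hQ]
    ring
  | mul_X P k hP =>
    have hgr : M.gr (w + Pi.single i 1) k = M.gr w k + a i k • M.inv i := by
      unfold Model.gr
      have : ∀ l ∈ (Finset.univ : Finset ι),
          ((w + Pi.single i 1 : ι → ℂ) l * a l k) • M.inv l
          = (w l * a l k) • M.inv l + (if l = i then a i k • M.inv i else 0) := by
        intro l _
        rw [Pi.add_apply, add_mul, add_smul]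
        by_cases hl : l = i
        · subst hl
          rw [Pi.single_eq_same, if_pos rfl, one_mul]
        · rw [Pi.single_eq_of_ne hl, if_neg hl, zero_mul, zero_smul]
      rw [Finset.sum_congr rfl this, Finset.sum_add_distrib, Finset.sum_ite_eq']
      simp
    have hk : M.Dw w k (M.lin (a i) * u) = M.lin (a i) * M.Dw (w + Pi.single i 1) k u := by
      rw [M.Dw_apply, M.Dw_apply, Derivation.leibniz, M.d_lin, smul_eq_mul, smul_eq_mul, hgr]
      have h1 := M.lin_mul_inv i
      have h2 : M.lin (a i) * ((a i k) • M.inv i * u) = algebraMap ℂ 𝔽 (a i k) * u := by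
        rw [Algebra.smul_def]
        calc M.lin (a i) * (algebraMap ℂ 𝔽 (a i k) * M.inv i * u)
            = algebraMap ℂ 𝔽 (a i k) * (M.lin (a i) * M.inv i) * u := by ring
          _ = _ := by rw [h1, mul_one]
      rw [mul_add (M.lin (a i)), add_mul (M.gr w k), mul_add (M.lin (a i)), h2]
      ring
    rw [M.act_mul_apply, M.act_X, hk, hP, M.act_mul_apply, M.act_X]

/-- the linear polynomial `∑ v_j X_j` -/
def xv (v : Fin n → ℂ) : MvPolynomial (Fin n) ℂ := ∑ j, MvPolynomial.C (v j) * MvPolynomial.X j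

/-- `q = ∏_H ξ(v_H)` over the hyperplanes of the matroid -/
def qq (a : ι → Fin n → ℂ) : MvPolynomial (Fin n) ℂ :=
  ∏ H ∈ hyp a Finset.univ, xv (nv a Finset.univ H)

/-- `q / ξ(v_H)` -/
def qH (a : ι → Fin n → ℂ) (H : Finset ι) : MvPolynomial (Fin n) ℂ :=
  ∏ H' ∈ (hyp a Finset.univ).erase H, xv (nv a Finset.univ H')

end MPb07157.ND
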